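import Pool.Agent.P.MP_8b7eba_nt.BSD15.Jac

/-! The matrix count in closed form. -/

namespace Pool.Agent.P.MP_8b7eba_nt.BSD15

open Finset

/-! ### Completely multiplicative functions and their convolutions -/

/-- completely multiplicative on positive integers -/
def cfid_CM (f : ℕ → ℤ) : Prop := f 1 = 1 ∧ ∀ a b, a ≠ 0 → b ≠ 0 → f (a * b) = f a * f b

def cfid_AF (f : ℕ → ℤ) : ArithmeticFunction ℤ := ⟨fun n => if n = 0 then 0 else f n, by simp⟩

def cfid_C (f g : ℕ → ℤ) (k : ℕ) : ℤ := ∑ a ∈ k.divisors, f a * g (k / a)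

theorem cfid_CM.pow {f : ℕ → ℤ} (h : cfid_CM f) {q : ℕ} (hq : q ≠ 0) (i : ℕ) :
    f (q ^ i) = f q ^ i := by
  induction i with
  | zero => simpa using h.1
  | succ i ih => rw [pow_succ, h.2 _ _ (pow_ne_zero _ hq) hq, ih, pow_succ]

theorem cfid_CM.mul {f g : ℕ → ℤ} (hf : cfid_CM f) (hg : cfid_CM g) :
    cfid_CM fun a => f a * g a :=
  ⟨by simp [hf.1, hg.1], fun a b ha hb => by simp only [hf.2 a b ha hb, hg.2 a b ha hb]; ring⟩

theorem cfid_CM_one : cfid_CM fun _ => 1 := ⟨rfl, fun _ _ _ _ => by simp⟩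

theorem cfid_CM_prod (s : Finset ℕ) (f : ℕ → ℕ → ℤ) (h : ∀ p ∈ s, cfid_CM (f p)) :
    cfid_CM fun a => ∏ p ∈ s, f p a :=
  ⟨prod_eq_one fun p hp => (h p hp).1, fun a b ha hb => by
    rw [← prod_mul_distrib]; exact prod_congr rfl fun p hp => (h p hp).2 a b ha hb⟩

theorem cfid_AF_mult {f : ℕ → ℤ} (h : cfid_CM f) : (cfid_AF f).IsMultiplicative := by
  rw [ArithmeticFunction.IsMultiplicative.iff_ne_zero]
  refine ⟨by simp [cfid_AF, h.1], fun {a b} ha hb _ => ?_⟩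
  simp [cfid_AF, ha, hb, h.2 a b ha hb]

theorem cfid_AF_mul (f g : ℕ → ℤ) (k : ℕ) : (cfid_AF f * cfid_AF g) k = cfid_C f g k := by
  rw [ArithmeticFunction.mul_apply, cfid_C,
    Nat.sum_divisorsAntidiagonal fun a b => cfid_AF f a * cfid_AF g b]
  refine sum_congr rfl fun a ha => ?_
  have h1 := Nat.pos_of_mem_divisors ha
  have h2 : k / a ≠ 0 := (Nat.div_pos (Nat.divisor_le ha) h1).ne'
  simp only [cfid_AF, ArithmeticFunction.coe_mk, if_neg h1.ne', if_neg h2]

theorem cfid_C_comm (f g : ℕ → ℤ) (k : ℕ) : cfid_C f g k = cfid_C g f k := by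
  rw [← cfid_AF_mul, mul_comm, cfid_AF_mul]

theorem cfid_C_pow {f g : ℕ → ℤ} (hf : cfid_CM f) (hg : cfid_CM g) {q : ℕ} (hq : q.Prime)
    (i : ℕ) : cfid_C f g (q ^ i) = ∑ j ∈ range (i + 1), f q ^ j * g q ^ (i - j) := by
  rw [cfid_C, Nat.sum_divisors_prime_pow hq]
  refine sum_congr rfl fun j hj => ?_
  rw [Nat.pow_div (by simpa [Nat.lt_succ_iff] using hj) hq.pos, hf.pow hq.ne_zero,
    hg.pow hq.ne_zero]

theorem cfid_conv {f g f' g' : ℕ → ℤ} (hf : cfid_CM f) (hg : cfid_CM g) (hf' : cfid_CM f')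
    (hg' : cfid_CM g') {k : ℕ} (hk : k ≠ 0)
    (h : ∀ q, q.Prime → q ∣ k → (f q = f' q ∧ g q = g' q) ∨ (f q = g' q ∧ g q = f' q)) :
    cfid_C f g k = cfid_C f' g' k := by
  rw [← cfid_AF_mul, ← cfid_AF_mul,
    ((cfid_AF_mult hf).mul (cfid_AF_mult hg)).multiplicative_factorization _ hk,
    ((cfid_AF_mult hf').mul (cfid_AF_mult hg')).multiplicative_factorization _ hk]
  refine Finsupp.prod_congr fun q hq => ?_
  have hq' := Nat.prime_of_mem_primeFactors hq
  rw [cfid_AF_mul, cfid_AF_mul]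
  rcases h q hq' (Nat.dvd_of_mem_primeFactors hq) with ⟨h1, h2⟩ | ⟨h1, h2⟩
  · rw [cfid_C_pow hf hg hq', cfid_C_pow hf' hg' hq', h1, h2]
  · rw [cfid_C_comm f', cfid_C_pow hf hg hq', cfid_C_pow hg' hf' hq', h1, h2]

/-! ### The functions `Xp` -/

theorem cfid_Xp_CM (n p : ℕ) : cfid_CM (Xp n p) := by
  refine ⟨by simp [Xp], fun A B hA hB => ?_⟩
  unfold Xp
  rw [Nat.ordCompl_mul, Nat.factorization_mul hA hB, Finsupp.add_apply, pow_add, Nat.cast_mul,
    jacobiSym.mul_left]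
  ring

theorem cfid_Xp_of_not_dvd (n : ℕ) {p A : ℕ} (h : ¬p ∣ A) : Xp n p A = jacobiSym A p := by
  simp [Xp, Nat.factorization_eq_zero_of_not_dvd h]

theorem cfid_Xp_self (n : ℕ) {p : ℕ} (hp : p.Prime) : Xp n p p = jacobiSym p (n / p) := by
  simp [Xp, hp.factorization_self, Nat.div_self hp.pos]

theorem cfid_gcd {p : ℕ} (hp : p.Prime) {a : ℤ} (h : ¬(p : ℤ) ∣ a) : a.gcd p = 1 := by
  rw [Int.gcd_comm]
  exact Int.isCoprime_iff_gcd_eq_one.1
    ((Nat.prime_iff_prime_int.1 hp).irreducible.coprime_iff_not_dvd.2 h)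

theorem cfid_cop {n p : ℕ} (hn : Squarefree n) (hp : p ∈ n.primeFactors) : p.Coprime (n / p) := by
  have h := Nat.dvd_of_mem_primeFactors hp
  rw [← Nat.mul_div_cancel' h] at hn
  exact Nat.coprime_of_squarefree_mul hn

theorem cfid_Xp_sq {n p : ℕ} (hn : Squarefree n) (hp : p ∈ n.primeFactors) {A : ℕ} (hA : A ≠ 0) :
    Xp n p A * Xp n p A = 1 := by
  have hp' := Nat.prime_of_mem_primeFactors hp
  have h1 : jacobiSym ((A / p ^ A.factorization p : ℕ) : ℤ) p ^ 2 = 1 :=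
    jacobiSym.sq_one (cfid_gcd hp' (by
      rw [Int.natCast_dvd_natCast]; exact Nat.not_dvd_ordCompl hp' hA))
  have h2 : jacobiSym p (n / p) ^ 2 = 1 :=
    jacobiSym.sq_one (by rw [Int.gcd_natCast_natCast]; exact cfid_cop hn hp)
  unfold Xp
  rw [mul_mul_mul_comm, ← sq, h1, ← sq, ← pow_mul, mul_comm _ 2, pow_mul, h2]
  simp

theorem cfid_jac_prod (a : ℤ) (s : Finset ℕ) (hs : ∀ p ∈ s, p ≠ 0) :
    jacobiSym a (∏ p ∈ s, p) = ∏ p ∈ s, jacobiSym a p := by
  induction s using Finset.induction_on with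
  | empty => simp
  | insert p s hp ih =>
    rw [prod_insert hp, prod_insert hp, jacobiSym.mul_right' _ (hs p (mem_insert_self _ _))
      (prod_ne_zero_iff.2 fun q hq => hs q (mem_insert_of_mem hq)),
      ih fun q hq => hs q (mem_insert_of_mem hq)]

theorem cfid_jac_sqf (a : ℤ) {n : ℕ} (hn : Squarefree n) :
    jacobiSym a n = ∏ p ∈ n.primeFactors, jacobiSym a p := by
  rw [← cfid_jac_prod a _ fun p hp => (Nat.prime_of_mem_primeFactors hp).ne_zero,
    Nat.prod_primeFactors_of_squarefree hn]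

theorem cfid_chi_of_not_dvd {n q : ℕ} (hn : Squarefree n) (hq : q.Prime) (h : ¬q ∣ n) :
    XJ n n.primeFactors q = jacobiSym q n := by
  rw [cfid_jac_sqf _ hn]
  refine prod_congr rfl fun p hp => cfid_Xp_of_not_dvd n fun h1 => h ?_
  rw [← (Nat.prime_dvd_prime_iff_eq (Nat.prime_of_mem_primeFactors hp) hq).1 h1]
  exact Nat.dvd_of_mem_primeFactors hp

theorem cfid_chi_of_dvd {n q : ℕ} (hn : Squarefree n) (hq : q ∈ n.primeFactors) :
    XJ n n.primeFactors q = 1 := by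
  have hq' := Nat.prime_of_mem_primeFactors hq
  have h1 : n / q = ∏ p ∈ n.primeFactors.erase q, p := by
    have := mul_prod_erase n.primeFactors (fun p => p) hq
    rw [Nat.prod_primeFactors_of_squarefree hn] at this
    exact Nat.div_eq_of_eq_mul_right hq'.pos this.symm
  have h2 : ∏ p ∈ n.primeFactors.erase q, Xp n p q = jacobiSym q (n / q) := by
    rw [h1, cfid_jac_prod _ _ fun p hp =>
      (Nat.prime_of_mem_primeFactors (mem_of_mem_erase hp)).ne_zero]
    refine prod_congr rfl fun p hp => cfid_Xp_of_not_dvd n fun h => ne_of_mem_erase hp ?_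
    exact (Nat.prime_dvd_prime_iff_eq (Nat.prime_of_mem_primeFactors (mem_of_mem_erase hp))
      hq').1 h
  rw [XJ, ← mul_prod_erase _ _ hq, h2, cfid_Xp_self n hq', ← sq]
  exact jacobiSym.sq_one (by rw [Int.gcd_natCast_natCast]; exact cfid_cop hn hq)

/-- indicator of being prime to `p` -/
def cfid_I (p a : ℕ) : ℤ := if p ∣ a then 0 else 1

theorem cfid_I_CM {p : ℕ} (hp : p.Prime) : cfid_CM (cfid_I p) := by
  refine ⟨by simp [cfid_I, hp.one_lt.ne'], fun a b _ _ => ?_⟩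
  by_cases ha : p ∣ a <;> by_cases hb : p ∣ b <;> simp [cfid_I, hp.dvd_mul, ha, hb]

theorem cfid_I_prod {G : Finset ℕ} (hG : ∀ p ∈ G, p.Prime) {q : ℕ} (hq : q.Prime) :
    ∏ p ∈ G, cfid_I p q = if q ∈ G then 0 else 1 := by
  split_ifs with h
  · exact prod_eq_zero h (by simp [cfid_I])
  · refine prod_eq_one fun p hp => if_neg fun h1 => h ?_
    rwa [← (Nat.prime_dvd_prime_iff_eq (hG p hp) hq).1 h1]

/-- the key divisor sum -/
theorem cfid_key {n k : ℕ} (hn : Squarefree n) (hk : k ≠ 0) {G : Finset ℕ}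
    (hG : G ⊆ n.primeFactors) (hG' : ∀ q ∈ n.primeFactors, q ∣ k → q ∈ G) (τ : ℕ → Prop)
    [DecidablePred τ] :
    ∑ a ∈ k.divisors, XJ n n.primeFactors a *
      ∏ p ∈ G, (if τ p then cfid_I p a else cfid_I p (k / a)) = Rn n k := by
  have hP : ∀ p ∈ G, p.Prime := fun p hp => Nat.prime_of_mem_primeFactors (hG hp)
  have h1 := cfid_conv (f := fun a => XJ n n.primeFactors a * ∏ p ∈ G.filter τ, cfid_I p a)
    (g := fun a => ∏ p ∈ G.filter fun p => ¬τ p, cfid_I p a) (f' := fun a => jacobiSym a n)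
    (g' := fun _ => 1)
    ((cfid_CM_prod _ _ fun p _ => cfid_Xp_CM n p).mul
      (cfid_CM_prod _ _ fun p hp => cfid_I_CM (hP p (mem_filter.1 hp).1)))
    (cfid_CM_prod _ _ fun p hp => cfid_I_CM (hP p (mem_filter.1 hp).1))
    ⟨by simp, fun a b _ _ => by simp only [Nat.cast_mul, jacobiSym.mul_left]⟩ cfid_CM_one hk
    fun q hq hqk => by
      rw [cfid_I_prod (fun p hp => hP p (mem_filter.1 hp).1) hq,
        cfid_I_prod (fun p hp => hP p (mem_filter.1 hp).1) hq]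
      by_cases hqn : q ∣ n
      · have h2 : q ∈ n.primeFactors := Nat.mem_primeFactors.2 ⟨hq, hqn, hn.ne_zero⟩
        have h3 := hG' q h2 hqk
        have h4 : jacobiSym q n = 0 := jacobiSym.eq_zero_iff.2 ⟨hn.ne_zero, by
          rw [Int.gcd_natCast_natCast, Nat.gcd_eq_left hqn]; exact hq.one_lt.ne'⟩
        rw [cfid_chi_of_dvd hn h2, h4]
        by_cases h5 : τ q <;> simp [h3, h5]
      · have h3 : q ∉ G := fun h => hqn (Nat.dvd_of_mem_primeFactors (hG h))
        rw [cfid_chi_of_not_dvd hn hq hqn]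
        simp [h3]
  simp only [cfid_C, mul_one] at h1
  rw [Rn, ← h1]
  refine sum_congr rfl fun a _ => ?_
  rw [prod_ite, mul_assoc]

/-! ### The local weights -/

theorem cfid_crt {r s : ℕ} (h : r.Coprime s) (hr : r ≠ 0) (hs : s ≠ 0) (f g : ℕ → ℤ) :
    ∑ x ∈ range (r * s), f (x % r) * g (x % s) = (∑ x ∈ range r, f x) * ∑ y ∈ range s, g y := by
  rw [sum_mul_sum, ← sum_product']
  refine sum_bij (fun x _ => (x % r, x % s)) (fun x _ => ?_) (fun x hx y hy e => ?_)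
    (fun y hy => ?_) fun _ _ => rfl
  · simp [Nat.mod_lt _ (Nat.pos_of_ne_zero hr), Nat.mod_lt _ (Nat.pos_of_ne_zero hs)]
  · have := (Nat.modEq_and_modEq_iff_modEq_mul h).1 ⟨congrArg Prod.fst e, congrArg Prod.snd e⟩
    exact Nat.ModEq.eq_of_lt_of_lt this (mem_range.1 hx) (mem_range.1 hy)
  · simp only [mem_product, mem_range] at hy
    refine ⟨Nat.chineseRemainder h y.1 y.2,
      mem_range.2 (Nat.chineseRemainder_lt_mul h _ _ hr hs), Prod.ext ?_ ?_⟩
    · exact Eq.trans (Nat.chineseRemainder h y.1 y.2).2.1 (Nat.mod_eq_of_lt hy.1)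
    · exact Eq.trans (Nat.chineseRemainder h y.1 y.2).2.2 (Nat.mod_eq_of_lt hy.2)

theorem cfid_dvd_mod (r x : ℕ) (a c : ℤ) :
    (r : ℤ) ∣ a + ((x % r : ℕ) : ℤ) * c ↔ (r : ℤ) ∣ a + x * c := by
  have : a + (x : ℤ) * c = a + ((x % r : ℕ) : ℤ) * c + r * ((x / r : ℕ) * c) := by
    conv_lhs => rw [← Nat.mod_add_div x r]
    push_cast; ring
  rw [this]
  exact (dvd_add_left (dvd_mul_right _ _)).symm

theorem cfid_W1_mul {r s : ℕ} (h : r.Coprime s) (hr : r ≠ 0) (hs : s ≠ 0) (a b c d : ℤ) :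
    W1 (r * s) a b c d = W1 r a b c d * W1 s a b c d := by
  have hc : IsCoprime (r : ℤ) s := Nat.isCoprime_iff_coprime.2 h
  have hd : ∀ z : ℤ, ((r * s : ℕ) : ℤ) ∣ z ↔ (r : ℤ) ∣ z ∧ (s : ℤ) ∣ z := fun z => by
    rw [Nat.cast_mul]
    exact ⟨fun h => ⟨dvd_of_mul_right_dvd h, dvd_of_mul_left_dvd h⟩, fun h => hc.mul_dvd h.1 h.2⟩
  unfold W1
  rw [← cfid_crt h hr hs]
  refine sum_congr rfl fun x _ => ?_
  simp only [hd, jacobiSym.mul_right' _ hr hs, Int.natCast_mod, ← jacobiSym.mod_left]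
  simp only [← Int.natCast_mod, cfid_dvd_mod]
  split_ifs <;> simp_all

theorem cfid_W1_prod (s : Finset ℕ) (hs : ∀ p ∈ s, p.Prime) (a b c d : ℤ) :
    W1 (∏ p ∈ s, p) a b c d = ∏ p ∈ s, W1 p a b c d := by
  induction s using Finset.induction_on with
  | empty => simp [W1]
  | insert p s hp ih =>
    have hs' : ∀ q ∈ s, q.Prime := fun q hq => hs q (mem_insert_of_mem hq)
    have hp' := hs p (mem_insert_self _ _)
    rw [prod_insert hp, prod_insert hp, cfid_W1_mul _ hp'.ne_zero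
      (prod_ne_zero_iff.2 fun q hq => (hs' q hq).ne_zero), ih hs']
    exact Nat.Coprime.prod_right fun q hq =>
      (Nat.coprime_primes hp' (hs' q hq)).2 fun e => hp (e ▸ hq)

theorem cfid_W1_sqf {r : ℕ} (hr : Squarefree r) (a b c d : ℤ) :
    W1 r a b c d = ∏ p ∈ r.primeFactors, W1 p a b c d := by
  rw [← cfid_W1_prod _ fun p hp => Nat.prime_of_mem_primeFactors hp,
    Nat.prod_primeFactors_of_squarefree hr]

theorem cfid_W2_eq (r : ℕ) (a b c d : ℤ) : W2 r a b c d = W1 r b d (-a) (-c) := by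
  simp only [W1, W2, mul_neg, sub_eq_add_neg]

theorem cfid_W1_symm (r : ℕ) (a b c d : ℤ) : W1 r a b c d = W1 r b a d c := by
  simp only [W1, and_comm]

theorem cfid_W1_c {p : ℕ} (hp : p.Prime) {a b c d : ℤ} (hc : ¬(p : ℤ) ∣ c)
    (hdet : (p : ℤ) ∣ a * d - b * c) : W1 p a b c d = jacobiSym (-(a * c)) p := by
  have := Fact.mk hp
  have hc' : (c : ZMod p) ≠ 0 := fun h => hc ((ZMod.intCast_zmod_eq_zero_iff_dvd _ _).1 h)
  have hdet' : (a : ZMod p) * d - b * c = 0 := by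
    have := (ZMod.intCast_zmod_eq_zero_iff_dvd _ _).2 hdet
    push_cast at this
    exact this
  have hx : (((-a / c : ZMod p).val : ℕ) : ZMod p) = -a / c := ZMod.natCast_zmod_val _
  unfold W1
  rw [sum_eq_single (-a / c : ZMod p).val]
  · rw [if_pos]
    · rw [← mul_one (jacobiSym _ p), ← jacobiSym.sq_one' (cfid_gcd hp hc), ← jacobiSym.mul_left]
      refine jacobiSym.mod_left' ((ZMod.intCast_eq_intCast_iff' _ _ _).1 ?_)
      push_cast
      rw [hx]
      field_simp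
    · simp only [← ZMod.intCast_zmod_eq_zero_iff_dvd]
      push_cast
      rw [hx]
      constructor
      · field_simp; ring
      · field_simp; linear_combination -hdet'
  · intro x hx' hne
    refine if_neg fun h => hne ?_
    have h1 := (ZMod.intCast_zmod_eq_zero_iff_dvd _ _).2 h.1
    push_cast at h1
    have h2 : (-a / c : ZMod p) = x := by field_simp; linear_combination -h1
    rw [h2, ZMod.val_cast_of_lt (mem_range.1 hx')]
  · intro h
    exact absurd (mem_range.2 (ZMod.val_lt _)) h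

theorem cfid_W1_zero {p : ℕ} {a b c d : ℤ} (hc : (p : ℤ) ∣ c) (ha : ¬(p : ℤ) ∣ a) :
    W1 p a b c d = 0 :=
  sum_eq_zero fun _ _ => if_neg fun h => ha ((dvd_add_left (hc.mul_left _)).1 h.1)

theorem cfid_jac_zero {p : ℕ} (hp : p.Prime) {a : ℤ} (h : (p : ℤ) ∣ a) : jacobiSym a p = 0 := by
  rw [jacobiSym.mod_left, Int.emod_eq_zero_of_dvd h, jacobiSym.zero_left hp.one_lt]

theorem cfid_W1_loc {p : ℕ} (hp : p.Prime) {a b c d : ℤ} (hdet : (p : ℤ) ∣ a * d - b * c)
    (hsq : ¬(p : ℤ) * p ∣ a * d - b * c) :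
    W1 p a b c d = (if (p : ℤ) ∣ b * c then jacobiSym (-(a * c)) p else 0) +
      jacobiSym (-(b * d)) p := by
  have hp' := Nat.prime_iff_prime_int.1 hp
  have hd : ¬(p : ℤ) ∣ d → W1 p a b c d = jacobiSym (-(b * d)) p := fun h => by
    rw [cfid_W1_symm]
    exact cfid_W1_c hp h (by rw [← dvd_neg, neg_sub]; exact hdet)
  split_ifs with h
  · by_cases hc : (p : ℤ) ∣ c
    · rw [cfid_jac_zero hp (dvd_neg.2 (hc.mul_left a)), zero_add]
      by_cases h1 : (p : ℤ) ∣ d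
      · rw [cfid_jac_zero hp (dvd_neg.2 (h1.mul_left b))]
        by_cases h2 : (p : ℤ) ∣ a
        · rw [cfid_W1_symm]
          exact cfid_W1_zero h1 fun h3 => hsq (dvd_sub (mul_dvd_mul h2 h1) (mul_dvd_mul h3 hc))
        · exact cfid_W1_zero hc h2
      · exact hd h1
    · rw [cfid_W1_c hp hc hdet,
        cfid_jac_zero hp (dvd_neg.2 (((hp'.dvd_or_dvd h).resolve_right hc).mul_right d)), add_zero]
  · rw [zero_add]
    refine hd fun h1 => h ?_
    have := dvd_sub (h1.mul_left a) hdet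
    rwa [sub_sub_cancel] at this

theorem cfid_jac_eq (n : ℕ) {p : ℕ} (hp : p.Prime) (k : ℕ) :
    jacobiSym k p = cfid_I p k * Xp n p k := by
  unfold cfid_I
  split_ifs with h
  · rw [cfid_jac_zero hp (Int.natCast_dvd_natCast.2 h), zero_mul]
  · rw [one_mul, cfid_Xp_of_not_dvd n h]

/-- the sign attached to a prime dividing `m` -/
def cfid_eta (n A m p : ℕ) : ℤ := Xp n p A * Xp n p m * jacobiSym (-15) p

theorem cfid_I_of {p a : ℕ} (h : ¬p ∣ a) : cfid_I p a = 1 := if_neg h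

section loc
variable {n p a c d e : ℕ} (hn : Squarefree n) (hp : p ∈ n.primeFactors) (h15 : p.Coprime 15)
  (ha : a ≠ 0) (hc : c ≠ 0) (hd : d ≠ 0) (he : e ≠ 0) (h1 : p ∣ a * d + 15 * (c * e))
  (h2 : ¬p * p ∣ a * d + 15 * (c * e))
include hn hp h15 ha hc hd he h1 h2

theorem cfid_loc1 : W1 p a (-(e : ℤ)) (15 * c) d = Xp n p (a * d) * (Xp n p a * Xp n p e *
    if p ∣ c * e then cfid_eta n (a * d) (c * e) p * cfid_I p a * cfid_I p c +
      cfid_I p d * cfid_I p e else 1) := by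
  have hp' := Nat.prime_of_mem_primeFactors hp
  have e1 : (a : ℤ) * d - -(e : ℤ) * (15 * c) = ((a * d + 15 * (c * e) : ℕ) : ℤ) := by
    push_cast; ring
  have e2 : (p : ℤ) ∣ -(e : ℤ) * (15 * c) ↔ p ∣ c * e := by
    rw [show -(e : ℤ) * (15 * c) = -((15 * (c * e) : ℕ) : ℤ) by push_cast; ring, dvd_neg,
      Int.natCast_dvd_natCast, h15.dvd_mul_left]
  rw [cfid_W1_loc hp' (by rw [e1]; exact_mod_cast h1) (by rw [e1]; exact_mod_cast h2),
    show -((a : ℤ) * (15 * c)) = -15 * a * c by ring, show -(-(e : ℤ) * d) = e * d by ring]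
  simp only [jacobiSym.mul_left, cfid_jac_eq n hp', e2, cfid_eta, (cfid_Xp_CM n p).2 _ _ ha hd,
    (cfid_Xp_CM n p).2 _ _ hc he]
  have s1 := cfid_Xp_sq hn hp ha
  have s2 := cfid_Xp_sq hn hp hd
  have s3 := cfid_Xp_sq hn hp he
  split_ifs with h
  · generalize Xp n p a = xa at *
    generalize Xp n p d = xd at *
    generalize Xp n p e = xe at *
    have : xa * xd * (xa * xe * (xa * xd * (Xp n p c * xe) * jacobiSym (-15) p * cfid_I p a *
        cfid_I p c + cfid_I p d * cfid_I p e)) = (xa * xa) * ((xd * xd) * (xe * xe) *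
          (xa * Xp n p c * jacobiSym (-15) p * cfid_I p a * cfid_I p c) +
          xd * xe * cfid_I p d * cfid_I p e) := by ring
    rw [this, s1, s2, s3]
    ring
  · have h3 : ¬p ∣ d := fun h3 => h (h15.dvd_mul_left.1
      ((Nat.dvd_add_right (h3.mul_left a)).1 h1))
    rw [cfid_I_of h3, cfid_I_of fun h4 => h (h4.mul_left c)]
    linear_combination -(Xp n p d * Xp n p e) * s1

theorem cfid_loc2 : W2 p a (-(e : ℤ)) (15 * c) d = jacobiSym (-1) p * (Xp n p a * Xp n p e *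
    if p ∣ c * e then cfid_eta n (a * d) (c * e) p * cfid_I p d * cfid_I p c +
      cfid_I p a * cfid_I p e else 1) := by
  have hp' := Nat.prime_of_mem_primeFactors hp
  have e1 : (d : ℤ) * -a - -(e : ℤ) * -(15 * c) = -((a * d + 15 * (c * e) : ℕ) : ℤ) := by
    push_cast; ring
  have e2 : (p : ℤ) ∣ -(e : ℤ) * -(15 * c) ↔ p ∣ c * e := by
    rw [show -(e : ℤ) * -(15 * c) = ((15 * (c * e) : ℕ) : ℤ) by push_cast; ring,
      Int.natCast_dvd_natCast, h15.dvd_mul_left]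
  rw [cfid_W2_eq, cfid_W1_symm,
    cfid_W1_loc hp' (by rw [e1, dvd_neg]; exact_mod_cast h1)
      (by rw [e1, dvd_neg]; exact_mod_cast h2),
    show -((d : ℤ) * -(15 * c)) = -1 * -15 * d * c by ring,
    show -(-(e : ℤ) * -a) = -1 * e * a by ring]
  simp only [jacobiSym.mul_left, cfid_jac_eq n hp', e2, cfid_eta, (cfid_Xp_CM n p).2 _ _ ha hd,
    (cfid_Xp_CM n p).2 _ _ hc he]
  have s1 := cfid_Xp_sq hn hp ha
  have s3 := cfid_Xp_sq hn hp he
  split_ifs with h
  · generalize Xp n p a = xa at *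
    generalize Xp n p e = xe at *
    have : jacobiSym (-1) p * (xa * xe * (xa * Xp n p d * (Xp n p c * xe) * jacobiSym (-15) p *
        cfid_I p d * cfid_I p c + cfid_I p a * cfid_I p e)) = jacobiSym (-1) p *
          ((xa * xa) * (xe * xe) * (Xp n p d * Xp n p c * jacobiSym (-15) p * cfid_I p d *
            cfid_I p c) + xa * xe * cfid_I p a * cfid_I p e) := by ring
    rw [this, s1, s3]
    ring
  · have h3 : ¬p ∣ a := fun h3 => h (h15.dvd_mul_left.1
      ((Nat.dvd_add_right (h3.mul_right d)).1 h1))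
    rw [cfid_I_of h3, cfid_I_of fun h4 => h (h4.mul_left c)]
    ring

end loc

theorem cfid_prod_add (G : Finset ℕ) (u v : ℕ → ℤ) :
    ∏ p ∈ G, (u p + v p) = ∑ S ∈ G.powerset, ∏ p ∈ G, if p ∈ S then u p else v p := by
  rw [prod_add]
  refine sum_congr rfl fun S hS => ?_
  rw [prod_ite, filter_mem_eq_inter, inter_eq_right.2 (mem_powerset.1 hS), sdiff_eq_filter]

theorem cfid_term {n₁ n₂ ν a c d e : ℕ} (h : Adm (n₁ * n₂)) (h42 : n₂ % 4 = 3)
    (hν : ν = 1 ∨ ν = 2) (ha : a ≠ 0) (hc : c ≠ 0) (hd : d ≠ 0) (he : e ≠ 0)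
    (hsum : a * d + 15 * (c * e) = ν * (n₁ * n₂)) :
    W1 n₁ a (-(e : ℤ)) (15 * c) d * W2 n₂ a (-(e : ℤ)) (15 * c) d =
      -XJ (n₁ * n₂) n₁.primeFactors (a * d) *
        ∑ S ∈ (Nat.gcd (c * e) (n₁ * n₂)).primeFactors.powerset,
          (∏ p ∈ (Nat.gcd (c * e) (n₁ * n₂)).primeFactors,
            if p ∈ S then cfid_eta (n₁ * n₂) (a * d) (c * e) p else 1) *
          ((XJ (n₁ * n₂) (n₁ * n₂).primeFactors a *
            ∏ p ∈ (Nat.gcd (c * e) (n₁ * n₂)).primeFactors,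
              if (p ∈ S ↔ p ∣ n₁) then cfid_I p a else cfid_I p d) *
          (XJ (n₁ * n₂) (n₁ * n₂).primeFactors e *
            ∏ p ∈ (Nat.gcd (c * e) (n₁ * n₂)).primeFactors,
              if p ∉ S then cfid_I p e else cfid_I p c)) := by
  have hn := h.1
  have hco : n₁.Coprime n₂ := Nat.coprime_of_squarefree_mul hn
  have hn1 : Squarefree n₁ := hn.squarefree_of_dvd (dvd_mul_right _ _)
  have hn2 : Squarefree n₂ := hn.squarefree_of_dvd (dvd_mul_left _ _)
  have hU := hco.primeFactors_mul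
  have H15 : ∀ p ∈ (n₁ * n₂).primeFactors, p.Coprime 15 := fun p hp =>
    (h.2.coprime_dvd_left (Nat.dvd_of_mem_primeFactors hp)).coprime_dvd_right (by norm_num)
  have H1 : ∀ p ∈ (n₁ * n₂).primeFactors, p ∣ a * d + 15 * (c * e) := fun p hp => by
    rw [hsum]; exact (Nat.dvd_of_mem_primeFactors hp).mul_left _
  have H2 : ∀ p ∈ (n₁ * n₂).primeFactors, ¬p * p ∣ a * d + 15 * (c * e) := fun p hp h1 => by
    have hp' := Nat.prime_of_mem_primeFactors hp
    have h2 : p.Coprime ν := by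
      rcases hν with rfl | rfl
      · simp
      · exact (h.2.coprime_dvd_left (Nat.dvd_of_mem_primeFactors hp)).coprime_dvd_right
          (by norm_num)
    rw [hsum, (h2.mul_left h2).dvd_mul_left] at h1
    exact hp'.one_lt.ne' (Nat.isUnit_iff.1 (hn p h1))
  let K : ℕ → ℤ := fun p => Xp (n₁ * n₂) p a * Xp (n₁ * n₂) p e *
    if p ∣ c * e then cfid_eta (n₁ * n₂) (a * d) (c * e) p *
      (if p ∣ n₁ then cfid_I p a else cfid_I p d) * cfid_I p c +
      (if p ∣ n₁ then cfid_I p d else cfid_I p a) * cfid_I p e else 1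
  have e1 : W1 n₁ a (-(e : ℤ)) (15 * c) d =
      XJ (n₁ * n₂) n₁.primeFactors (a * d) * ∏ p ∈ n₁.primeFactors, K p := by
    rw [cfid_W1_sqf hn1, XJ, ← prod_mul_distrib]
    refine prod_congr rfl fun p hp => ?_
    have hp' : p ∈ (n₁ * n₂).primeFactors := hU ▸ mem_union_left _ hp
    rw [cfid_loc1 hn hp' (H15 p hp') ha hc hd he (H1 p hp') (H2 p hp')]
    simp only [K, if_pos (Nat.dvd_of_mem_primeFactors hp)]
  have e2 : W2 n₂ a (-(e : ℤ)) (15 * c) d = -∏ p ∈ n₂.primeFactors, K p := by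
    have : jacobiSym (-1) n₂ = -1 := by
      rw [jacobiSym.at_neg_one (Nat.odd_iff.2 (by omega)), ZMod.χ₄_nat_three_mod_four h42]
    rw [← neg_one_mul (∏ p ∈ n₂.primeFactors, K p), ← this, cfid_jac_sqf _ hn2, cfid_W2_eq,
      cfid_W1_sqf hn2, ← prod_mul_distrib]
    refine prod_congr rfl fun p hp => ?_
    have hp' : p ∈ (n₁ * n₂).primeFactors := hU ▸ mem_union_right _ hp
    have h1 : ¬p ∣ n₁ := fun h1 => (Nat.prime_of_mem_primeFactors hp).one_lt.ne'
      (Nat.eq_one_of_dvd_coprimes hco h1 (Nat.dvd_of_mem_primeFactors hp))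
    rw [← cfid_W2_eq, cfid_loc2 hn hp' (H15 p hp') ha hc hd he (H1 p hp') (H2 p hp')]
    simp only [K, if_neg h1]
  have e3 : (Nat.gcd (c * e) (n₁ * n₂)).primeFactors =
      (n₁ * n₂).primeFactors.filter fun p => p ∣ c * e := by
    ext p
    simp only [Nat.mem_primeFactors, mem_filter, Nat.dvd_gcd_iff, ne_eq, Nat.gcd_eq_zero_iff,
      hn.ne_zero, and_false, not_false_eq_true, and_true]
    tauto
  rw [e1, e2, mul_neg, neg_mul, mul_assoc, ← prod_union hco.disjoint_primeFactors, ← hU]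
  congr 2
  simp only [K]
  rw [prod_mul_distrib, prod_mul_distrib, ← prod_filter, ← e3, cfid_prod_add, mul_sum]
  refine sum_congr rfl fun S _ => ?_
  rw [mul_mul_mul_comm (XJ _ _ a), mul_left_comm, ← prod_mul_distrib (s := Nat.primeFactors (Nat.gcd _ _)),
    ← prod_mul_distrib (s := Nat.primeFactors (Nat.gcd _ _))]
  refine congrArg₂ _ rfl (prod_congr rfl fun p _ => ?_)
  by_cases h1 : p ∈ S <;> by_cases h2 : p ∣ n₁ <;> simp [h1, h2, mul_assoc]

theorem MW_eq {n₁ n₂ ν A m : ℕ} (h : Adm (n₁ * n₂)) (h41 : n₁ % 4 = 1) (h42 : n₂ % 4 = 3)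
    (h15 : jacobiSym 15 (n₁ * n₂) = -1) (hν : ν = 1 ∨ ν = 2) (hA : 0 < A) (hm : 0 < m)
    (hsum : A + 15 * m = ν * (n₁ * n₂)) :
    MW n₁ n₂ A m = -CF (n₁ * n₂) n₁.primeFactors A m := by
  have hn := h.1
  have hG : (Nat.gcd m (n₁ * n₂)).primeFactors ⊆ (n₁ * n₂).primeFactors :=
    Nat.primeFactors_mono (Nat.gcd_dvd_right _ _) hn.ne_zero
  have hGm : ∀ q ∈ (n₁ * n₂).primeFactors, q ∣ m → q ∈ (Nat.gcd m (n₁ * n₂)).primeFactors :=
    fun q hq hqm => Nat.mem_primeFactors.2 ⟨Nat.prime_of_mem_primeFactors hq,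
      Nat.dvd_gcd hqm (Nat.dvd_of_mem_primeFactors hq), Nat.gcd_ne_zero_left hm.ne'⟩
  have hGA : ∀ q ∈ (n₁ * n₂).primeFactors, q ∣ A → q ∈ (Nat.gcd m (n₁ * n₂)).primeFactors :=
    fun q hq hqA => hGm q hq (by
      have h1 : q ∣ A + 15 * m := hsum ▸ (Nat.dvd_of_mem_primeFactors hq).mul_left _
      have h2 : q.Coprime 15 :=
        (h.2.coprime_dvd_left (Nat.dvd_of_mem_primeFactors hq)).coprime_dvd_right (by norm_num)
      exact h2.dvd_mul_left.1 ((Nat.dvd_add_right hqA).1 h1))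
  have key : MW n₁ n₂ A m = ∑ a ∈ A.divisors, ∑ e ∈ m.divisors,
      -XJ (n₁ * n₂) n₁.primeFactors A *
        ∑ S ∈ (Nat.gcd m (n₁ * n₂)).primeFactors.powerset,
          (∏ p ∈ (Nat.gcd m (n₁ * n₂)).primeFactors,
            if p ∈ S then cfid_eta (n₁ * n₂) A m p else 1) *
          ((XJ (n₁ * n₂) (n₁ * n₂).primeFactors a *
            ∏ p ∈ (Nat.gcd m (n₁ * n₂)).primeFactors,
              if (p ∈ S ↔ p ∣ n₁) then cfid_I p a else cfid_I p (A / a)) *
          (XJ (n₁ * n₂) (n₁ * n₂).primeFactors e *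
            ∏ p ∈ (Nat.gcd m (n₁ * n₂)).primeFactors,
              if p ∉ S then cfid_I p e else cfid_I p (m / e))) := by
    refine sum_congr rfl fun a ha => ?_
    rw [← Nat.sum_div_divisors]
    refine sum_congr rfl fun e he => ?_
    have h1 := Nat.mul_div_cancel' (Nat.dvd_of_mem_divisors ha)
    have h2 := Nat.div_mul_cancel (Nat.dvd_of_mem_divisors he)
    have := cfid_term (a := a) (c := m / e) (d := A / a) (e := e) h h42 hν
      (Nat.pos_of_mem_divisors ha).ne' (fun h0 => by rw [h0] at h2; omega)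
      (fun h0 => by rw [h0] at h1; omega) (Nat.pos_of_mem_divisors he).ne' (by rw [h1, h2, hsum])
    rw [h1, h2] at this
    rw [Nat.div_div_self (Nat.dvd_of_mem_divisors he) hm.ne', this]
  rw [key]
  simp only [← mul_sum]
  rw [CF, neg_mul, mul_assoc, mul_assoc]
  congr 2
  simp only [sum_comm (s := m.divisors)]
  rw [sum_comm]
  simp only [← mul_sum, ← sum_mul]
  simp only [cfid_key hn hA.ne' hG hGA, cfid_key hn hm.ne' hG hGm]
  rw [← sum_mul, ← cfid_prod_add]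
  simp only [cfid_eta, add_comm]
  ring

end Pool.Agent.P.MP_8b7eba_nt.BSD15
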