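import Pool.Agent.P.MP_8b7eba_nt.BSD15.Jac

/-! Analytic lemmas for the class number formula. -/

namespace Pool.Agent.P.MP_8b7eba_nt.BSD15

open Filter Topology

theorem cnf_trap {G f f' f'' : ℝ → ℝ} (hG : ∀ x, HasDerivAt G (f x) x)
    (hf : ∀ x, HasDerivAt f (f' x) x) (hf' : ∀ x, HasDerivAt f' (f'' x) x) {a b ζ : ℝ}
    (hab : a ≤ b) (hζ : ∀ x ∈ Set.Icc a b, |f'' x| ≤ ζ) :
    |(b - a) / 2 * (f a + f b) - (G b - G a)| ≤ ζ * (b - a) ^ 3 := by
  have hζ0 : 0 ≤ ζ := (abs_nonneg _).trans (hζ a ⟨le_rfl, hab⟩)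
  have h1 : ∀ s ∈ Set.Icc a b, ∀ r ∈ Set.Icc a b, |f' r - f' s| ≤ ζ * (b - a) := by
    intro s hs r hr
    have := (convex_Icc a b).norm_image_sub_le_of_norm_hasDerivWithin_le
      (fun x _ => (hf' x).hasDerivWithinAt) hζ hs hr
    refine this.trans (mul_le_mul_of_nonneg_left ?_ hζ0)
    rw [Real.norm_eq_abs, abs_le]
    constructor <;> linarith [hs.1, hs.2, hr.1, hr.2]
  have h2 : ∀ s ∈ Set.Icc a b, |(f a - f s) / 2 + (s - a) / 2 * f' s| ≤ ζ * (b - a) ^ 2 := by
    intro s hs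
    have := (convex_Icc a b).norm_image_sub_le_of_norm_hasDerivWithin_le
      (f := fun r => f r - r * f' s) (f' := fun r => f' r - f' s) (C := ζ * (b - a))
      (fun x _ => (((hf x).sub ((hasDerivAt_id x).mul_const (f' s))).congr_deriv
        (by ring)).hasDerivWithinAt)
      (fun r hr => h1 s hs r hr) hs ⟨le_rfl, hab⟩
    have e : (f a - f s) / 2 + (s - a) / 2 * f' s = (f a - a * f' s - (f s - s * f' s)) / 2 := by
      ring
    rw [Real.norm_eq_abs, Real.norm_eq_abs, abs_sub_comm a s, abs_of_nonneg (sub_nonneg.mpr hs.1)]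
      at this
    rw [e, abs_div, abs_two]
    have h3 : 0 ≤ ζ * (b - a) := mul_nonneg hζ0 (sub_nonneg.mpr hab)
    have h4 := mul_le_mul_of_nonneg_left (show s - a ≤ b - a by linarith [hs.2]) h3
    nlinarith [mul_nonneg h3 (sub_nonneg.mpr hab)]
  have := (convex_Icc a b).norm_image_sub_le_of_norm_hasDerivWithin_le
    (f := fun s => (s - a) / 2 * (f a + f s) - G s)
    (f' := fun s => (f a - f s) / 2 + (s - a) / 2 * f' s) (C := ζ * (b - a) ^ 2)
    (fun x _ => ((((((hasDerivAt_id x).sub_const a).div_const 2).mul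
        ((hf x).const_add (f a))).sub (hG x)).congr_deriv
          (by simp only [id]; ring)).hasDerivWithinAt)
    h2 ⟨le_rfl, hab⟩ ⟨hab, le_rfl⟩
  rw [Real.norm_eq_abs, Real.norm_eq_abs, abs_of_nonneg (sub_nonneg.mpr hab)] at this
  refine le_trans (le_of_eq ?_) (this.trans_eq (by ring))
  congr 1; ring

theorem cnf_em {F : ℝ → ℝ} (hF : ContDiff ℝ 2 F) {S : ℝ → ℝ}
    (hS : ∀ t, 0 < t → HasSum (fun m : ℕ =>
      Real.exp (-(t * (m + 1))) * F (Real.exp (-(t * (m + 1))))) (S t)) :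
    ∃ L : ℝ, Tendsto (fun t => S t - L / t) (𝓝[>] 0) (𝓝 (-F 1 / 2)) := by
  set K : ℝ → ℝ := fun y => y * F y with hK
  have hKc : ContDiff ℝ 2 K := contDiff_id.mul hF
  have hK1 : ContDiff ℝ 1 (deriv K) := hKc.deriv'
  have hK2 : Continuous (deriv (deriv K)) := hK1.continuous_deriv le_rfl
  obtain ⟨C1, hC1⟩ := isCompact_Icc.exists_bound_of_continuousOn
    (hK1.continuous.continuousOn (s := Set.Icc 0 1))
  obtain ⟨C2, hC2⟩ := isCompact_Icc.exists_bound_of_continuousOn
    (hK2.continuousOn (s := Set.Icc 0 1))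
  set Φ : ℝ → ℝ := fun y => ∫ u in (0 : ℝ)..y, F u with hΦ
  have hΦd : ∀ y, HasDerivAt Φ (F y) y := fun y =>
    (hF.continuous.integral_hasStrictDerivAt 0 y).hasDerivAt
  have he : ∀ x : ℝ, HasDerivAt (fun x => Real.exp (-x)) (-Real.exp (-x)) x := fun x => by
    simpa using (hasDerivAt_neg x).exp
  have hG : ∀ x, HasDerivAt (fun x => -Φ (Real.exp (-x))) (K (Real.exp (-x))) x := fun x =>
    ((hΦd _).comp x (he x)).neg.congr_deriv (by simp only [hK]; ring)
  have hf : ∀ x, HasDerivAt (fun x => K (Real.exp (-x)))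
      (deriv K (Real.exp (-x)) * -Real.exp (-x)) x := fun x =>
    ((hKc.differentiable (by norm_num) _).hasDerivAt).comp x (he x)
  have hf' : ∀ x, HasDerivAt (fun x => deriv K (Real.exp (-x)) * -Real.exp (-x))
      (deriv (deriv K) (Real.exp (-x)) * -Real.exp (-x) * -Real.exp (-x) +
        deriv K (Real.exp (-x)) * Real.exp (-x)) x := fun x =>
    ((((hK1.differentiable (by norm_num) _).hasDerivAt).comp x (he x)).mul
      (he x).neg).congr_deriv (by simp)
  have hC0 : 0 ≤ C1 + C2 := add_nonneg ((norm_nonneg _).trans (hC1 0 (by simp)))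
    ((norm_nonneg _).trans (hC2 0 (by simp)))
  have hb : ∀ a x : ℝ, 0 ≤ a → a ≤ x →
      |deriv (deriv K) (Real.exp (-x)) * -Real.exp (-x) * -Real.exp (-x) +
        deriv K (Real.exp (-x)) * Real.exp (-x)| ≤ (C1 + C2) * Real.exp (-a) := by
    intro a x ha hx
    have e0 := Real.exp_pos (-x)
    have e1 : Real.exp (-x) ≤ 1 := Real.exp_le_one_iff.mpr (by linarith)
    have e2 : Real.exp (-x) ≤ Real.exp (-a) := Real.exp_le_exp.mpr (by linarith)
    have e3 := hC1 _ ⟨e0.le, e1⟩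
    have e4 := hC2 _ ⟨e0.le, e1⟩
    rw [Real.norm_eq_abs] at e3 e4
    refine (abs_add_le _ _).trans ?_
    rw [abs_mul, abs_mul, abs_mul, abs_neg, abs_of_pos e0]
    have e5 : |deriv (deriv K) (Real.exp (-x))| * Real.exp (-x) ≤ C2 :=
      (mul_le_of_le_one_right (abs_nonneg _) e1).trans e4
    nlinarith [mul_le_mul_of_nonneg_left e2 hC0]
  refine ⟨Φ 1, ?_⟩
  have key : ∀ t, 0 < t → |S t - Φ 1 / t - -F 1 / 2| ≤ (C1 + C2) * (t * (1 + t)) := by
    intro t ht
    have hq0 := Real.exp_pos (-t)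
    have hq1 : Real.exp (-t) < 1 := Real.exp_lt_one_iff.mpr (by linarith)
    have h1 : ∀ M : ℕ, |t * (∑ m ∈ Finset.range M, K (Real.exp (-(t * (m + 1))))) +
        t / 2 * (K 1 - K (Real.exp (-(t * M)))) - (Φ 1 - Φ (Real.exp (-(t * M))))| ≤
        (C1 + C2) * t ^ 3 * ∑ m ∈ Finset.range M, Real.exp (-t) ^ m := by
      intro M
      induction M with
      | zero => simp
      | succ M ih =>
        have h2 := cnf_trap hG hf hf' (a := t * M) (b := t * (M + 1)) (by nlinarith)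
          (fun x hx => hb _ x (by positivity) hx.1)
        rw [Finset.sum_range_succ, Finset.sum_range_succ, mul_add ((C1 + C2) * t ^ 3),
          ← Real.exp_nat_mul]
        refine le_trans (le_of_eq ?_) ((abs_add_le _ _).trans (add_le_add ih (h2.trans_eq ?_)))
        · congr 1; push_cast; ring
        · ring_nf
    have h2 : Tendsto (fun M : ℕ => Real.exp (-(t * M))) atTop (𝓝 0) :=
      Real.tendsto_exp_neg_atTop_nhds_zero.comp
        (tendsto_natCast_atTop_atTop.const_mul_atTop ht)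
    have h3 := ((((hS t ht).tendsto_sum_nat.const_mul t).add
      ((((hKc.continuous.tendsto 0).comp h2).const_sub (K 1)).const_mul (t / 2))).sub
      ((((hΦd 0).continuousAt.tendsto).comp h2).const_sub (Φ 1))).abs
    have h4 := le_of_tendsto_of_tendsto' h3
      ((hasSum_geometric_of_lt_one hq0.le hq1).tendsto_sum_nat.const_mul ((C1 + C2) * t ^ 3)) h1
    have h5 : (1 - Real.exp (-t))⁻¹ ≤ (1 + t) / t := by
      rw [inv_le_comm₀ (by linarith) (by positivity), inv_div, div_le_iff₀ (by positivity)]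
      have h6 := Real.add_one_le_exp t
      have h7 : Real.exp (-t) * Real.exp t = 1 := by rw [← Real.exp_add]; simp
      nlinarith
    have e : S t - Φ 1 / t - -F 1 / 2 = (t * S t + t / 2 * (K 1 - K 0) - (Φ 1 - Φ 0)) / t := by
      simp only [hK, hΦ, intervalIntegral.integral_same]
      field_simp; ring
    rw [e, abs_div, abs_of_pos ht, div_le_iff₀ ht]
    refine h4.trans ((mul_le_mul_of_nonneg_left h5 (by positivity)).trans_eq ?_)
    field_simp
  rw [← tendsto_sub_nhds_zero_iff]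
  refine squeeze_zero_norm' (a := fun t => (C1 + C2) * (t * (1 + t)))
    (eventually_nhdsWithin_of_forall fun t ht => key t ht) ?_
  have : Continuous fun t : ℝ => (C1 + C2) * (t * (1 + t)) := by fun_prop
  simpa using (this.tendsto 0).mono_left nhdsWithin_le_nhds

theorem cnf_periodic {n : ℕ} (hn : 0 < n) {x : ℝ} (h0 : 0 ≤ x) (h1 : x < 1) :
    HasSum (fun d : ℕ => (jacobiSym d n : ℝ) * x ^ d)
      ((∑ c ∈ Finset.range n, (jacobiSym c n : ℝ) * x ^ c) / (1 - x ^ n)) := by
  have hs : Summable fun d : ℕ => (jacobiSym d n : ℝ) * x ^ d :=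
    Summable.of_norm_bounded (summable_geometric_of_lt_one h0 h1) fun d => by
      rw [norm_mul, norm_pow, Real.norm_of_nonneg h0]
      refine mul_le_of_le_one_left (by positivity) ?_
      rcases jacobiSym.trichotomy d n with h | h | h <;> simp [h]
  have h2 := hs.sum_add_tsum_nat_add n
  have h3 : ∑' d : ℕ, (jacobiSym ((d + n : ℕ) : ℤ) n : ℝ) * x ^ (d + n) =
      x ^ n * ∑' d : ℕ, (jacobiSym d n : ℝ) * x ^ d := by
    rw [← tsum_mul_left]
    refine tsum_congr fun d => ?_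
    rw [jacobiSym.mod_left' (a₂ := d) (by push_cast; simp), pow_add]; ring
  have h4 : 1 - x ^ n ≠ 0 := by
    have := pow_lt_one₀ h0 h1 hn.ne'
    linarith
  rw [h3] at h2
  convert hs.hasSum using 1
  rw [div_eq_iff h4]; linarith

theorem cnf_lambert {n : ℕ} (hn : 1 < n) (hodd : Odd n) (hsq : Squarefree n) :
    ∃ (S : ℝ → ℝ) (L : ℝ),
      (∀ t, 0 < t → HasSum (fun k : ℕ => (Rn n k : ℝ) * Real.exp (-(t * k))) (S t)) ∧
      Tendsto (fun t => S t - L / t) (𝓝[>] 0) (𝓝 (-(Bn n : ℝ) / 2)) := by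
  set F : ℝ → ℝ := fun x => (-∑ c ∈ Finset.range n, (jacobiSym c n : ℝ) *
    ∑ i ∈ Finset.range (c - 1), x ^ i) / ∑ i ∈ Finset.range n, x ^ i with hF
  have hz : ∑ c ∈ Finset.range n, (jacobiSym c n : ℝ) = 0 := by
    exact_mod_cast sum_jacobi_eq_zero hn hodd hsq
  have hj0 : jacobiSym ((0 : ℕ) : ℤ) n = 0 := jacobiSym.zero_left hn
  have hFc : ContDiff ℝ 2 F := ContDiff.div (by fun_prop) (by fun_prop)
    fun x => hodd.geom_sum_pos.ne'
  have hF1 : F 1 = Bn n := by
    simp only [hF, Bn, one_pow, Finset.sum_const, Finset.card_range, nsmul_eq_mul, mul_one]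
    push_cast
    rw [← Finset.sum_div, neg_div, neg_inj]
    congr 1
    rw [← sub_zero (∑ c ∈ Finset.range n, (jacobiSym c n : ℝ) * c), ← hz,
      ← Finset.sum_sub_distrib]
    refine Finset.sum_congr rfl fun c _ => ?_
    rcases c with _ | c
    · rw [hj0]; simp
    · simp only [Nat.add_sub_cancel]; push_cast; ring
  have hFx : ∀ x : ℝ, 0 ≤ x → x < 1 →
      (∑ c ∈ Finset.range n, (jacobiSym c n : ℝ) * x ^ c) / (1 - x ^ n) = x * F x := by
    intro x h0 h1
    have h2 : 0 < ∑ i ∈ Finset.range n, x ^ i := hodd.geom_sum_pos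
    have h3 : 1 - x ≠ 0 := by linarith
    have h4 : ∑ c ∈ Finset.range n, (jacobiSym c n : ℝ) * x ^ c =
        x * (1 - x) * -∑ c ∈ Finset.range n, (jacobiSym c n : ℝ) *
          ∑ i ∈ Finset.range (c - 1), x ^ i := by
      rw [← sub_zero (∑ c ∈ Finset.range n, (jacobiSym c n : ℝ) * x ^ c), ← zero_mul x, ← hz,
        Finset.sum_mul, ← Finset.sum_sub_distrib, mul_neg, Finset.mul_sum,
        ← Finset.sum_neg_distrib]
      refine Finset.sum_congr rfl fun c _ => ?_
      rcases c with _ | c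
      · rw [hj0]; simp
      · simp only [Nat.add_sub_cancel]
        linear_combination ((jacobiSym ((c + 1 : ℕ) : ℤ) n : ℝ) * x) * mul_neg_geom_sum x c
    rw [h4, ← mul_neg_geom_sum x n, hF]
    field_simp
  have key : ∀ t, 0 < t → ∃ s, HasSum (fun k : ℕ => (Rn n k : ℝ) * Real.exp (-(t * k))) s ∧
      HasSum (fun m : ℕ => Real.exp (-(t * (m + 1))) * F (Real.exp (-(t * (m + 1))))) s := by
    intro t ht
    set q := Real.exp (-t) with hq
    have hq0 : 0 < q := Real.exp_pos _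
    have hq1 : q < 1 := Real.exp_lt_one_iff.mpr (by linarith)
    have hqe : ∀ k : ℕ, Real.exp (-(t * k)) = q ^ k := fun k => by
      rw [hq, ← Real.exp_nat_mul]; congr 1; ring
    have hs : Summable fun c : ℕ+ × ℕ+ => (jacobiSym (c.2 : ℕ) n : ℝ) * q ^ (c.1 * c.2 : ℕ) :=
      Summable.of_norm_bounded (summable_prod_mul_pow 0 (r := q) (by
        rwa [Real.norm_of_nonneg hq0.le])) fun c => by
        rw [norm_mul, norm_pow, Real.norm_of_nonneg hq0.le, pow_zero]
        refine mul_le_mul_of_nonneg_right ?_ (by positivity)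
        rcases jacobiSym.trichotomy (c.2 : ℕ) n with h | h | h <;> simp [h]
    obtain ⟨s, hs⟩ := hs
    refine ⟨s, ?_, ?_⟩
    · have h1 := (sigmaAntidiagonalEquivProd.hasSum_iff.mpr hs).sigma
        (g := fun k : ℕ+ => (Rn n k : ℝ) * q ^ (k : ℕ)) fun k => by
          refine (hasSum_fintype _).summable.hasSum_iff.mpr ?_
          rw [tsum_fintype]
          symm
          simp only [Function.comp, sigmaAntidiagonalEquivProd, divisorsAntidiagonalFactors,
            Equiv.coe_fn_mk, PNat.mk_coe, Finset.univ_eq_attach]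
          rw [(k : ℕ).divisorsAntidiagonal.sum_attach
            fun x : ℕ × ℕ => (jacobiSym (x.2 : ℕ) n : ℝ) * q ^ (x.1 * x.2),
            Nat.sum_divisorsAntidiagonal' fun x y => (jacobiSym (y : ℕ) n : ℝ) * q ^ (x * y), Rn]
          push_cast
          rw [Finset.sum_mul]
          exact Finset.sum_congr rfl fun i hi => by
            rw [Nat.div_mul_cancel (Nat.dvd_of_mem_divisors hi)]
      simp only [hqe]
      rw [← hasSum_nat_add_iff' 1]
      simpa [Rn] using (hasSum_pnat_iff_hasSum_succ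
        (f := fun k : ℕ => (Rn n k : ℝ) * q ^ k)).mp h1
    · have h1 := hs.prod_fiberwise (g := fun m : ℕ+ => q ^ (m : ℕ) * F (q ^ (m : ℕ))) fun m => by
        have h2 := cnf_periodic (x := q ^ (m : ℕ)) (n := n) (by omega) (by positivity)
          (pow_lt_one₀ hq0.le hq1 m.ne_zero)
        rw [hFx _ (by positivity) (pow_lt_one₀ hq0.le hq1 m.ne_zero),
          ← hasSum_nat_add_iff' 1] at h2
        simp only [Finset.range_one, Finset.sum_singleton, hj0, Int.cast_zero, zero_mul,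
          sub_zero] at h2
        simp only [pow_mul]
        exact (hasSum_pnat_iff_hasSum_succ
          (f := fun d : ℕ => (jacobiSym d n : ℝ) * (q ^ (m : ℕ)) ^ d)).mpr h2
      have h2 := (hasSum_pnat_iff_hasSum_succ (f := fun m : ℕ => q ^ m * F (q ^ m))).mp h1
      simpa only [← hqe, Nat.cast_add, Nat.cast_one] using h2
  choose! S hS1 hS2 using key
  obtain ⟨L, hL⟩ := cnf_em hFc hS2
  exact ⟨S, L, hS1, hF1 ▸ hL⟩

theorem cnf_cos (a : UnitAddCircle) {c : ℝ} (hc : 0 < c) :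
    Tendsto (fun t : ℝ => (HurwitzZeta.cosKernel a (1 / (c * t)) - 1) / t) (𝓝[>] 0) (𝓝 0) := by
  obtain ⟨p, hp, h⟩ := HurwitzZeta.isBigO_atTop_cosKernel_sub a
  have h1 : Tendsto (fun x : ℝ => (HurwitzZeta.cosKernel a x - 1) / x ^ (-1 : ℝ)) atTop (𝓝 0) :=
    (h.trans_isLittleO (isLittleO_exp_neg_mul_rpow_atTop hp (-1))).tendsto_div_nhds_zero
  have h2 : Tendsto (fun t : ℝ => 1 / (c * t)) (𝓝[>] 0) atTop := by
    simpa [mul_comm] using tendsto_inv_nhdsGT_zero.const_mul_atTop (inv_pos.mpr hc)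
  have h3 := (h1.comp h2).const_mul c
  rw [mul_zero] at h3
  refine h3.congr' (eventually_nhdsWithin_of_forall fun t ht => ?_)
  have ht' : t ≠ 0 := ne_of_gt ht
  simp only [Function.comp, Real.rpow_neg_one]
  field_simp

theorem cnf_theta (a b : UnitAddCircle) {c d : ℝ} (hc : 0 < c) (hd : 0 < d) :
    ∃ L : ℝ, Tendsto (fun t : ℝ => HurwitzZeta.evenKernel a (c * t) *
      HurwitzZeta.evenKernel b (d * t) - L / t) (𝓝[>] 0) (𝓝 0) := by
  refine ⟨1 / (c * d) ^ (1 / 2 : ℝ), ?_⟩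
  have h1 := cnf_cos a hc
  have h2 := cnf_cos b hd
  have h3 : Tendsto (fun t : ℝ => t) (𝓝[>] 0) (𝓝 0) := tendsto_id.mono_left nhdsWithin_le_nhds
  have h4 := ((((h1.mul h2).mul h3).add h1).add h2).const_mul (1 / (c * d) ^ (1 / 2 : ℝ))
  simp only [mul_zero, add_zero] at h4
  refine h4.congr' (eventually_nhdsWithin_of_forall fun t ht => ?_)
  have ht' : 0 < t := ht
  have e : (c * t) ^ (1 / 2 : ℝ) * (d * t) ^ (1 / 2 : ℝ) = (c * d) ^ (1 / 2 : ℝ) * t := by
    rw [← Real.mul_rpow (by positivity) (by positivity),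
      show c * t * (d * t) = c * d * t ^ 2 by ring, Real.mul_rpow (by positivity) (by positivity),
      ← Real.rpow_natCast, ← Real.rpow_mul ht'.le]
    norm_num
  have e1 : 0 < (c * t) ^ (1 / 2 : ℝ) := by positivity
  have e2 : 0 < (d * t) ^ (1 / 2 : ℝ) := by positivity
  have e3 : 0 < (c * d) ^ (1 / 2 : ℝ) := by positivity
  simp only [HurwitzZeta.evenKernel_functional_equation]
  rw [mul_mul_mul_comm, one_div_mul_one_div, e]
  field_simp
  ring

end Pool.Agent.P.MP_8b7eba_nt.BSD15
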