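import Pool.Agent.P.MP_8b7eba_nt.BSD15.Defs

/-! Jacobi symbol sums, Gauss sums and the sawtooth function. -/

namespace Pool.Agent.P.MP_8b7eba_nt.BSD15

open Complex
open scoped Real

theorem jac_perm {M : Type*} [AddCommMonoid M] {n u : ℕ} (hu : u.Coprime n) (F : ℕ → M)
    (hF : ∀ a b, a ≡ b [MOD n] → F a = F b) :
    ∑ a ∈ Finset.range n, F (u * a) = ∑ a ∈ Finset.range n, F a := by
  have hinj : Set.InjOn (fun a => u * a % n) (Finset.range n : Set ℕ) := by
    intro a ha b hb h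
    have h1 : a ≡ b [MOD n] := Nat.ModEq.cancel_left_of_coprime hu.symm h
    exact Nat.ModEq.eq_of_lt_of_lt h1 (Finset.mem_range.1 ha) (Finset.mem_range.1 hb)
  have hmap : ∀ a ∈ Finset.range n, u * a % n ∈ Finset.range n := fun a ha =>
    Finset.mem_range.2 (Nat.mod_lt _ (by have := Finset.mem_range.1 ha; omega))
  refine Finset.sum_nbij (fun a => u * a % n) hmap hinj ?_ fun a _ =>
    hF _ _ (Nat.mod_modEq _ _).symm
  exact Finset.surjOn_of_injOn_of_card_le _ hmap hinj le_rfl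

theorem jac_congr {n a b : ℕ} (h : a ≡ b [MOD n]) : jacobiSym a n = jacobiSym b n := by
  refine jacobiSym.mod_left' ?_
  exact_mod_cast h

theorem jac_exists_unit {n p : ℕ} (hodd : Odd n) (hsq : Squarefree n) (hp : p.Prime)
    (hpn : p ∣ n) : ∃ u : ℕ, u.Coprime n ∧ u ≡ 1 [MOD n / p] ∧ jacobiSym u n = -1 := by
  obtain ⟨m, rfl⟩ := hpn
  have hcop : p.Coprime m := Nat.coprime_of_squarefree_mul hsq
  have hm0 : m ≠ 0 := fun h => by simp [h] at hsq
  have hp2 : p ≠ 2 := by
    rintro rfl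
    exact (Nat.not_even_iff_odd.2 hodd) (even_two_mul m)
  have := Fact.mk hp
  obtain ⟨r, hr⟩ := FiniteField.exists_nonsquare (F := ZMod p)
    (by rw [ZMod.ringChar_zmod_n]; exact hp2)
  obtain ⟨u, hu1, hu2⟩ := Nat.chineseRemainder hcop r.val 1
  have hJ : jacobiSym u (p * m) = -1 := by
    rw [jacobiSym.mul_right' _ hp.ne_zero hm0, jac_congr hu1, jac_congr hu2]
    have : jacobiSym (r.val : ℤ) p = -1 := by
      rw [ZMod.nonsquare_iff_jacobiSym_eq_neg_one]
      simpa using hr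
    rw [this]
    simp
  refine ⟨u, ?_, by rwa [Nat.mul_div_cancel_left _ hp.pos], hJ⟩
  by_contra hc
  have : jacobiSym u (p * m) = 0 :=
    jacobiSym.eq_zero_iff.2 ⟨mul_ne_zero hp.ne_zero hm0, by rwa [Int.gcd_natCast_natCast]⟩
  omega

theorem sum_jacobi_eq_zero {n : ℕ} (hn : 1 < n) (hodd : Odd n) (hsq : Squarefree n) :
    ∑ a ∈ Finset.range n, jacobiSym a n = 0 := by
  obtain ⟨u, hu, -, hJ⟩ := jac_exists_unit hodd hsq (Nat.minFac_prime hn.ne') (Nat.minFac_dvd n)
  have h := jac_perm hu (fun a => jacobiSym a n) fun a b h => jac_congr h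
  simp only [Nat.cast_mul, jacobiSym.mul_left, hJ, neg_mul, one_mul, Finset.sum_neg_distrib] at h
  omega

/-- the Jacobi symbol modulo an odd squarefree number is a primitive character -/
theorem exists_gauss {n : ℕ} (hn : 1 < n) (hodd : Odd n) (hsq : Squarefree n) :
    ∃ τ : ℂ, τ ≠ 0 ∧ ∀ m : ℕ,
      ∑ a ∈ Finset.range n, (jacobiSym a n : ℂ) * cexp (2 * π * I * (a * m / n)) =
        (jacobiSym m n : ℂ) * τ := by
  have hn0 : n ≠ 0 := by omega
  obtain ⟨ζ, hζ⟩ : ∃ ζ, ζ = cexp (2 * π * I / n) := ⟨_, rfl⟩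
  have hprim : IsPrimitiveRoot ζ n := hζ ▸ Complex.isPrimitiveRoot_exp n hn0
  have he : ∀ a m : ℕ, cexp (2 * π * I * (a * m / n)) = ζ ^ (a * m) := by
    intro a m
    rw [hζ, ← Complex.exp_nat_mul]
    congr 1
    push_cast
    ring
  have hz : ∀ a b : ℕ, a ≡ b [MOD n] → ζ ^ a = ζ ^ b := by
    intro a b h
    rw [← Nat.mod_add_div a n, ← Nat.mod_add_div b n, pow_add, pow_add, pow_mul, pow_mul,
      hprim.pow_eq_one, one_pow, one_pow, h]
  simp only [he]
  have hG : ∀ m : ℕ, ∑ a ∈ Finset.range n, (jacobiSym a n : ℂ) * ζ ^ (a * m) =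
      (jacobiSym m n : ℂ) * ∑ a ∈ Finset.range n, (jacobiSym a n : ℂ) * ζ ^ a := by
    intro m
    by_cases hm : m.Coprime n
    · have h := jac_perm hm (fun a => (jacobiSym a n : ℂ) * ζ ^ a) fun a b h => by
        simp only [jac_congr h, hz a b h]
      have h2 : (jacobiSym m n : ℂ) * jacobiSym m n = 1 := by
        have := jacobiSym.sq_one (a := m) (b := n) (by simpa using hm)
        rw [← sq]
        exact_mod_cast this
      rw [← h, Finset.mul_sum]
      refine Finset.sum_congr rfl fun a _ => ?_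
      simp only [Nat.cast_mul, jacobiSym.mul_left, Int.cast_mul]
      rw [← mul_assoc, ← mul_assoc, h2, one_mul, mul_comm m a]
    · have h0 : jacobiSym m n = 0 := jacobiSym.eq_zero_iff.2 ⟨hn0, by simpa using hm⟩
      obtain ⟨p, hp, hpm, hpn⟩ := Nat.Prime.not_coprime_iff_dvd.1 hm
      obtain ⟨u, hu, hu1, hJ⟩ := jac_exists_unit hodd hsq hp hpn
      have h := jac_perm hu (fun a => (jacobiSym a n : ℂ) * ζ ^ (a * m)) fun a b h => by
        simp only [jac_congr h, hz _ _ (h.mul_right m)]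
      have h3 : ∀ a : ℕ, ζ ^ (u * a * m) = ζ ^ (a * m) := by
        intro a
        obtain ⟨m', rfl⟩ := hpm
        refine hz _ _ ?_
        have h4 := (hu1.mul_right' p).mul_right (a * m')
        rw [Nat.div_mul_cancel hpn] at h4
        calc u * a * (p * m') = u * p * (a * m') := by ring
          _ ≡ 1 * p * (a * m') [MOD n] := h4
          _ = a * (p * m') := by ring
      simp only [Nat.cast_mul, jacobiSym.mul_left, hJ, h3, neg_mul, one_mul, Int.cast_neg,
        Finset.sum_neg_distrib] at h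
      rw [h0, Int.cast_zero, zero_mul]
      linear_combination (-1 / 2 : ℂ) * h
  refine ⟨_, fun h0 => ?_, hG⟩
  have h1 : ∑ m ∈ Finset.range n, (∑ a ∈ Finset.range n, (jacobiSym a n : ℂ) * ζ ^ (a * m)) *
      ζ ^ ((n - 1) * m) = 0 := by
    simp only [hG, h0, mul_zero, zero_mul, Finset.sum_const_zero]
  simp only [Finset.sum_mul] at h1
  rw [Finset.sum_comm, Finset.sum_eq_single 1] at h1
  · have h2 : ∀ m : ℕ, ((jacobiSym (1 : ℕ) n : ℤ) : ℂ) * ζ ^ (1 * m) * ζ ^ ((n - 1) * m) = 1 := by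
      intro m
      rw [mul_assoc, ← pow_add, ← add_mul, show 1 + (n - 1) = n by omega, pow_mul,
        hprim.pow_eq_one]
      simp
    simp only [h2, Finset.sum_const, Finset.card_range, nsmul_eq_mul, mul_one] at h1
    exact hn0 (by exact_mod_cast h1)
  · intro a ha ha1
    have ha' := Finset.mem_range.1 ha
    have h2 : ∀ m : ℕ, (jacobiSym a n : ℂ) * ζ ^ (a * m) * ζ ^ ((n - 1) * m) =
        (jacobiSym a n : ℂ) * (ζ ^ (a + (n - 1))) ^ m := by
      intro m
      rw [mul_assoc, ← pow_add, ← add_mul, pow_mul]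
    simp only [h2]
    rw [← Finset.mul_sum]
    have h3 : ζ ^ (a + (n - 1)) ≠ 1 := by
      rw [Ne, hprim.pow_eq_one_iff_dvd]
      rintro ⟨c, hc⟩
      rcases c with _ | _ | c
      · omega
      · omega
      · have : n * (c + 1 + 1) = n * c + 2 * n := by ring
        omega
    have h4 := mul_geom_sum (ζ ^ (a + (n - 1))) n
    rw [← pow_mul, mul_comm (a + (n - 1)) n, pow_mul, hprim.pow_eq_one, one_pow, sub_self] at h4
    rw [(mul_eq_zero.1 h4).resolve_left (sub_ne_zero.2 h3), mul_zero]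
  · intro h
    exact absurd (Finset.mem_range.2 hn) h

theorem saw_neg (t : ℚ) : saw (-t) = -saw t := by
  unfold saw
  by_cases h : Int.fract t = 0
  · rw [if_pos h, if_pos (Int.fract_neg_eq_zero.2 h), neg_zero]
  · rw [if_neg h, if_neg (fun h' => h (Int.fract_neg_eq_zero.1 h')), Int.fract_neg h]
    ring

theorem saw_add_int (t : ℚ) (k : ℤ) : saw (t + k) = saw t := by
  simp only [saw, Int.fract_add_intCast]

theorem jac_saw_of {t : ℚ} (h0 : 0 ≤ t) (h1 : t < 1) :
    saw t = if t = 0 then 0 else t - 1 / 2 := by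
  rw [saw, Int.fract_eq_self.2 ⟨h0, h1⟩]

theorem saw_add_half (t : ℚ) : saw t + saw (t + 1 / 2) = saw (2 * t) := by
  have h0 := Int.fract_nonneg t
  have h1 := Int.fract_lt_one t
  have e : t = Int.fract t + (⌊t⌋ : ℤ) := (Int.fract_add_floor t).symm
  generalize Int.fract t = s at h0 h1 e
  generalize ⌊t⌋ = k at e
  subst e
  have e1 : s + k + 1 / 2 = s + 1 / 2 + k := by ring
  have e2 : 2 * (s + k) = 2 * s + ((2 * k : ℤ) : ℚ) := by push_cast; ring
  rw [e1, e2, saw_add_int, saw_add_int, saw_add_int]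
  rcases lt_or_ge s (1 / 2) with h | h
  · rw [jac_saw_of h0 h1, jac_saw_of (by linarith) (by linarith),
      jac_saw_of (by linarith) (by linarith)]
    rcases h0.eq_or_lt with rfl | h2
    · norm_num
    · rw [if_neg h2.ne', if_neg (by linarith), if_neg (by linarith)]
      ring
  · have e3 : s + 1 / 2 = s - 1 / 2 + ((1 : ℤ) : ℚ) := by push_cast; ring
    have e4 : 2 * s = 2 * s - 1 + ((1 : ℤ) : ℚ) := by push_cast; ring
    rw [e3, e4, saw_add_int, saw_add_int, jac_saw_of h0 h1,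
      jac_saw_of (by linarith) (by linarith), jac_saw_of (by linarith) (by linarith)]
    rcases h.eq_or_lt with rfl | h2
    · norm_num
    · rw [if_neg (by linarith), if_neg (by linarith), if_neg (by linarith)]
      ring

theorem sum_jacobi_saw {n : ℕ} (hn : 1 < n) (hodd : Odd n) (hsq : Squarefree n) :
    ∑ c ∈ Finset.range n, (jacobiSym c n : ℚ) * saw ((c : ℚ) / n) = -Bn n := by
  have hn' : (0 : ℚ) < n := by exact_mod_cast (by omega : 0 < n)
  have h0 : ∑ c ∈ Finset.range n, (jacobiSym c n : ℚ) = 0 := by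
    exact_mod_cast sum_jacobi_eq_zero hn hodd hsq
  have h1 : ∀ c ∈ Finset.range n, (jacobiSym c n : ℚ) * saw ((c : ℚ) / n) =
      (jacobiSym c n : ℚ) * c / n - (jacobiSym c n : ℚ) * (1 / 2) := by
    intro c hc
    have hc' : (c : ℚ) < n := by exact_mod_cast Finset.mem_range.1 hc
    rw [jac_saw_of (by positivity) ((div_lt_one hn').2 hc')]
    rcases Nat.eq_zero_or_pos c with rfl | hpos
    · simp [jacobiSym.zero_left hn]
    · have : (0 : ℚ) < c := by exact_mod_cast hpos
      rw [if_neg (by positivity)]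
      ring
  rw [Finset.sum_congr rfl h1, Finset.sum_sub_distrib, ← Finset.sum_mul, h0, Bn]
  ring

end Pool.Agent.P.MP_8b7eba_nt.BSD15
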