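import Pool.Agent.P.MP_8b7eba_nt.BSD15.QCount
import Pool.Agent.P.MP_8b7eba_nt.BSD15.Jac
import Pool.Agent.P.MP_8b7eba_nt.BSD15.CNFAna

/-! The class number formula. -/

namespace Pool.Agent.P.MP_8b7eba_nt.BSD15

open Filter Topology

theorem cnf_coset {n : ℕ} [Good n] {N : ℕ} (hN : 0 < N) {a b : ℤ} (ha : a ∈ Finset.Ico (0 : ℤ) N)
    (hb : b ∈ Finset.Ico (0 : ℤ) (2 * N)) :
    ∃ (T : ℝ → ℝ) (L : ℝ), (∀ t, 0 < t → HasSum (fun z : OO n =>
      if (z.re % N, z.im % (2 * N)) = (a, b) then Real.exp (-(t * z.norm / N)) else 0) (T t)) ∧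
      Tendsto (fun t => T t - L / t) (𝓝[>] 0) (𝓝 0) := by
  have hn : (0 : ℝ) < n := by exact_mod_cast lt_trans (by norm_num) (Good.gt (n := n))
  have hN' : (0 : ℝ) < N := by exact_mod_cast hN
  have hN2 : (0 : ℤ) < N := by exact_mod_cast hN
  rw [Finset.mem_Ico] at ha hb
  obtain ⟨L, hL⟩ := cnf_theta (((2 * a + b) / (2 * N) : ℝ) : UnitAddCircle)
    ((b / (2 * N) : ℝ) : UnitAddCircle) (c := N / Real.pi) (d := N * n / Real.pi)
    (by positivity) (by positivity)
  refine ⟨_, L, fun t ht => ?_, hL⟩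
  have h1 := HurwitzZeta.hasSum_int_evenKernel ((2 * a + b) / (2 * N)) (t := N / Real.pi * t)
    (by positivity)
  have h2 := HurwitzZeta.hasSum_int_evenKernel (b / (2 * N)) (t := N * n / Real.pi * t)
    (by positivity)
  have h3 := h1.mul h2 (h1.summable.mul_of_nonneg h2.summable (fun _ => (Real.exp_pos _).le)
    fun _ => (Real.exp_pos _).le)
  let φ : ℤ × ℤ → OO n := fun p => ⟨a + N * (p.1 - p.2), b + 2 * N * p.2⟩
  have hφ : Function.Injective φ := fun p q h => by
    have e1 := congrArg QuadraticAlgebra.re h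
    have e2 := congrArg QuadraticAlgebra.im h
    simp only [φ, add_right_inj] at e1 e2
    have e3 := mul_left_cancel₀ (by positivity : (2 * N : ℤ) ≠ 0) e2
    have e4 := mul_left_cancel₀ hN2.ne' e1
    exact Prod.ext (by omega) e3
  refine (hφ.hasSum_iff fun z hz => if_neg fun h => hz ?_).mp ?_
  · obtain ⟨e1, e2⟩ := Prod.ext_iff.mp h
    refine ⟨(z.re / N + z.im / (2 * N), z.im / (2 * N)), ?_⟩
    have e3 := Int.emod_add_mul_ediv z.re N
    have e4 := Int.emod_add_mul_ediv z.im (2 * N)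
    ext
    · simp only [φ] at e1 ⊢; rw [← e1]; linear_combination e3
    · simp only [φ] at e2 ⊢; rw [← e2]; linear_combination e4
  · refine h3.congr_fun fun p => ?_
    have e1 : (φ p).re % N = a := by
      simp only [φ]; rw [Int.add_mul_emod_self_left, Int.emod_eq_of_lt ha.1 ha.2]
    have e2 : (φ p).im % (2 * N) = b := by
      simp only [φ]; rw [Int.add_mul_emod_self_left, Int.emod_eq_of_lt hb.1 hb.2]
    have e3 : (4 : ℝ) * (φ p).norm =
        (2 * (a + N * (p.1 - p.2)) + (b + 2 * N * p.2)) ^ 2 + n * (b + 2 * N * p.2) ^ 2 := by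
      exact_mod_cast four_mul_norm (φ p)
    rw [Function.comp_apply, e1, e2, if_pos rfl, ← Real.exp_add]
    congr 1
    rw [show ((φ p).norm : ℝ) = _ / 4 from eq_div_of_mul_eq (by norm_num) ((mul_comm _ _).trans e3)]
    field_simp
    ring

theorem cnf_ideal {n : ℕ} [Good n] {B : Ideal (OO n)} (hB : B ≠ ⊥) :
    ∃ (T : ℝ → ℝ) (L : ℝ), (∀ t, 0 < t → HasSum (fun k : ℕ =>
      ({z : OO n | z ∈ B ∧ z.norm = k * nm B}.ncard : ℝ) * Real.exp (-(t * k))) (T t)) ∧
      Tendsto (fun t => T t - L / t) (𝓝[>] 0) (𝓝 0) := by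
  classical
  set N := nm B with hNd
  have hN : 0 < N := Nat.pos_of_ne_zero fun h => hB (nm_eq_zero.mp h)
  have hN2 : (0 : ℤ) < N := by exact_mod_cast hN
  have hNB : (N : OO n) ∈ B := Ideal.absNorm_mem B
  let s := ((Finset.Ico (0 : ℤ) N) ×ˢ (Finset.Ico (0 : ℤ) (2 * N))).filter
    fun p => (⟨p.1, p.2⟩ : OO n) ∈ B
  have key : ∀ p : ℤ × ℤ, ∃ (T : ℝ → ℝ) (L : ℝ), p ∈ s → (∀ t, 0 < t → HasSum (fun z : OO n =>
      if (z.re % N, z.im % (2 * N)) = p then Real.exp (-(t * z.norm / N)) else 0) (T t)) ∧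
      Tendsto (fun t => T t - L / t) (𝓝[>] 0) (𝓝 0) := fun p => by
    by_cases hp : p ∈ s
    · obtain ⟨h1, h2⟩ := Finset.mem_product.mp (Finset.mem_filter.mp hp).1
      obtain ⟨T, L, h⟩ := cnf_coset (n := n) hN h1 h2
      exact ⟨T, L, fun _ => h⟩
    · exact ⟨0, 0, fun h => absurd h hp⟩
  choose T L hTL using key
  refine ⟨fun t => ∑ p ∈ s, T p t, ∑ p ∈ s, L p, fun t ht => ?_, ?_⟩
  · have h1 := hasSum_sum (s := s) fun p hp => (hTL p hp).1 t ht
    have h2 : ∀ z : OO n, (z.re % N, z.im % (2 * N)) ∈ s ↔ z ∈ B := fun z => by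
      have e : z = (⟨z.re % N, z.im % (2 * N)⟩ : OO n) +
          (N : OO n) * ⟨z.re / N, 2 * (z.im / (2 * N))⟩ := by
        have e3 := Int.emod_add_mul_ediv z.re N
        have e4 := Int.emod_add_mul_ediv z.im (2 * N)
        ext
        · simp; linear_combination -e3
        · simp; linear_combination -e4
      simp only [s, Finset.mem_filter, Finset.mem_product, Finset.mem_Ico]
      conv_rhs => rw [e]
      rw [B.add_mem_iff_left (B.mul_mem_right _ hNB)]
      exact and_iff_right ⟨⟨Int.emod_nonneg _ hN2.ne', Int.emod_lt_of_pos _ hN2⟩,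
        Int.emod_nonneg _ (by positivity), Int.emod_lt_of_pos _ (by positivity)⟩
    simp only [Finset.sum_ite_eq, h2] at h1
    have h3 : HasSum ((fun z : OO n => Real.exp (-(t * z.norm / N))) ∘ (↑) : B → ℝ)
        (∑ p ∈ s, T p t) := by
      refine (hasSum_subtype_iff_indicator (s := (B : Set (OO n)))).mpr ?_
      convert h1 using 1
      funext z
      simp [Set.indicator_apply]
    refine (h3.tsum_fiberwise fun z => (z.1.norm / N).toNat).congr_fun fun k => ?_
    have e1 : ∀ z : B, (z.1.norm / N).toNat = k ↔ z.1.norm = k * N := fun z => by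
      obtain ⟨m, hm⟩ := nm_dvd_norm z.2
      have h0 := norm_nonneg' z.1
      rw [hm, ← hNd] at h0 ⊢
      have h4 : 0 ≤ m := by by_contra h; nlinarith
      rw [Int.mul_ediv_cancel_left _ hN2.ne', mul_comm, mul_left_inj' hN2.ne']
      omega
    rw [tsum_congr (g := fun _ => Real.exp (-(t * k))) fun z => by
      have e2 : (z.1.1.norm : ℝ) = k * N := by exact_mod_cast (e1 z.1).mp z.2
      simp only [Function.comp]
      rw [e2]; congr 2; field_simp, tsum_const, nsmul_eq_mul, Nat.card_coe_set_eq,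
      ← Set.ncard_image_of_injective _ Subtype.val_injective]
    congr 3
    ext z
    simp only [Set.mem_ofPred_eq, Set.mem_image, Set.mem_preimage, Set.mem_singleton_iff, e1]
    exact ⟨fun h => ⟨⟨z, h.1⟩, h.2, rfl⟩, by rintro ⟨w, h, rfl⟩; exact ⟨w.2, h⟩⟩
  · have := tendsto_finsetSum s fun p hp => (hTL p hp).2
    simpa [Finset.sum_div] using this

theorem cnf_count {n : ℕ} [Good n] (k : ℕ) :
    ∑ c : ClassGroup (OO n), ({z : OO n | z ∈ rep c ∧ z.norm = k * nm (rep c)}.ncard : ℝ) =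
      (if k = 0 then (Fintype.card (ClassGroup (OO n)) : ℝ) else 0) + 2 * Rn n k := by
  classical
  rcases Nat.eq_zero_or_pos k with rfl | hk
  · have : ∀ c : ClassGroup (OO n),
        {z : OO n | z ∈ rep c ∧ z.norm = (0 : ℕ) * nm (rep c)} = {0} := fun c => by
      ext z
      simp only [Nat.cast_zero, zero_mul, norm_eq_zero', Set.mem_ofPred_eq, Set.mem_singleton_iff]
      exact ⟨fun h => h.2, fun h => ⟨h ▸ Ideal.zero_mem _, h⟩⟩
    simp only [this]
    simp [Rn]
  · have h1 := Finset.card_eq_sum_card_fiberwise (f := fun A : Ideal (OO n) => (cls A)⁻¹)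
      (s := (finite_nm_eq (n := n) hk).toFinset) (t := Finset.univ) fun _ _ => Finset.mem_univ _
    rw [← ncard_nm_eq hk, Set.ncard_eq_toFinset_card _ (finite_nm_eq hk), h1, if_neg hk.ne',
      zero_add]
    push_cast
    rw [Finset.mul_sum]
    refine Finset.sum_congr rfl fun c _ => ?_
    rw [ncard_norm_eq (ne_bot_of_coprime (rep_coprime c)) hk, cls_rep, ← Set.ncard_coe_finset]
    push_cast
    congr 3
    ext A
    simp [inv_eq_iff_mul_eq_one]

theorem class_number_formula (n : ℕ) [Good n] :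
    (Fintype.card (ClassGroup (OO n)) : ℚ) = Bn n := by
  obtain ⟨S, L, hS, hL⟩ := cnf_lambert (n := n) (lt_trans (by norm_num) Good.gt)
    (Nat.odd_iff.mpr (by have := Good.h4 (n := n); omega)) Good.sq
  choose T M hT hM using fun c : ClassGroup (OO n) =>
    cnf_ideal (ne_bot_of_coprime (rep_coprime c))
  set h : ℝ := (Fintype.card (ClassGroup (OO n)) : ℝ) with hh
  have h1 : ∀ t, 0 < t → ∑ c, T c t = h + 2 * S t := fun t ht => by
    refine (hasSum_sum (s := Finset.univ) fun c _ => hT c t ht).unique ?_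
    refine ((hasSum_ite_eq (0 : ℕ) h).add ((hS t ht).mul_left 2)).congr_fun fun k => ?_
    rw [← Finset.sum_mul, cnf_count]
    split_ifs with hk
    · subst hk; simp [hh]
    · ring
  have h2 := (((hL.const_mul 2).const_add h).sub
    (tendsto_finsetSum Finset.univ fun c _ => hM c)).congr'
    (f₂ := fun t => (∑ c, M c - 2 * L) / t) (eventually_nhdsWithin_of_forall fun t ht => by
      simp only [Finset.sum_sub_distrib, h1 t ht, ← Finset.sum_div]; ring)
  have h3 : Tendsto (fun t : ℝ => t) (𝓝[>] 0) (𝓝 0) := tendsto_id.mono_left nhdsWithin_le_nhds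
  have h4 := (h2.mul h3).congr' (f₂ := fun _ => ∑ c, M c - 2 * L)
    (eventually_nhdsWithin_of_forall fun t ht => div_mul_cancel₀ _ (ne_of_gt ht))
  have h5 := tendsto_nhds_unique (l := 𝓝[>] (0 : ℝ)) h4 tendsto_const_nhds
  rw [← h5] at h2
  simp only [mul_zero, zero_div] at h2
  have h6 := tendsto_nhds_unique (l := 𝓝[>] (0 : ℝ)) h2 tendsto_const_nhds
  have h7 : h = (Bn n : ℝ) := by
    simp only [Finset.sum_const_zero] at h6
    linarith
  rw [hh] at h7
  exact_mod_cast h7

end Pool.Agent.P.MP_8b7eba_nt.BSD15
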