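import Mathlib

/-! Shared definitions for the project BSD15 (quadratic twists of X_0(15)). -/

namespace Pool.Agent.P.MP_8b7eba_nt.BSD15

open Complex PowerSeries
open scoped Real Topology Quaternion

/-! ### Arithmetic functions -/

/-- odd, squarefree, prime to 15 -/
def Adm (n : ℕ) : Prop := Squarefree n ∧ n.Coprime 30

/-- 3 split and 5 inert in Q(sqrt(-n)) -/
def B5 (n : ℕ) : Prop := Squarefree n ∧ n % 4 = 3 ∧ n % 3 = 2 ∧ (n % 5 = 2 ∨ n % 5 = 3)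

/-- 3 inert and 5 split in Q(sqrt(-n)) -/
def B3 (n : ℕ) : Prop := Squarefree n ∧ n % 4 = 3 ∧ n % 3 = 1 ∧ (n % 5 = 1 ∨ n % 5 = 4)

def Rn (n A : ℕ) : ℤ := ∑ d ∈ A.divisors, jacobiSym d n

/-- the completely multiplicative function with `Xp q = (q/p)` for primes `q ≠ p` and
`Xp p = (p / (n/p))` -/
def Xp (n p A : ℕ) : ℤ :=
  jacobiSym ((A / p ^ A.factorization p : ℕ) : ℤ) p * jacobiSym p (n / p) ^ A.factorization p

def XJ (n : ℕ) (J : Finset ℕ) (A : ℕ) : ℤ := ∏ p ∈ J, Xp n p A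

def CF (n : ℕ) (J : Finset ℕ) (A m : ℕ) : ℤ :=
  XJ n J A * Rn n A * Rn n m *
    ∏ p ∈ (Nat.gcd m n).primeFactors, (1 + Xp n p A * Xp n p m * jacobiSym (-15) p)

/-- the set of `m ≥ 1` with `15 m < N` -/
def mRange (N : ℕ) : Finset ℕ := (Finset.range N).filter fun m => 0 < m ∧ 15 * m < N

def CFsum (n : ℕ) (J : Finset ℕ) (ν : ℕ) : ℤ :=
  ∑ m ∈ mRange (ν * n), CF n J (ν * n - 15 * m) m

def Bn (n : ℕ) : ℚ := -∑ c ∈ Finset.range n, (jacobiSym c n : ℚ) * c / n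

def W1 (n₁ : ℕ) (a b c d : ℤ) : ℤ :=
  ∑ x ∈ Finset.range n₁,
    if (n₁ : ℤ) ∣ a + x * c ∧ (n₁ : ℤ) ∣ b + x * d then jacobiSym x n₁ else 0

def W2 (n₂ : ℕ) (a b c d : ℤ) : ℤ :=
  ∑ y ∈ Finset.range n₂,
    if (n₂ : ℤ) ∣ b - y * a ∧ (n₂ : ℤ) ∣ d - y * c then jacobiSym y n₂ else 0

/-- weighted count of the matrices `(a, -m/c; 15 c, A/a)` -/
def MW (n₁ n₂ A m : ℕ) : ℤ :=
  ∑ a ∈ A.divisors, ∑ c ∈ m.divisors,
    W1 n₁ a (-((m / c : ℕ) : ℤ)) (15 * c) ((A / a : ℕ) : ℤ) *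
      W2 n₂ a (-((m / c : ℕ) : ℤ)) (15 * c) ((A / a : ℕ) : ℤ)

/-! ### Modular symbols of level 15 -/

abbrev V := ℤ × ℤ

def Prim (x : V) : Prop := IsCoprime x.1 x.2

/-- elements of Gamma_0(15) -/
@[ext] structure Gam where
  a : ℤ
  b : ℤ
  c : ℤ
  d : ℤ
  det_eq : a * d - b * c = 1
  dvd_c : 15 ∣ c

def Gam.act (g : Gam) (x : V) : V := (g.a * x.1 + g.b * x.2, g.c * x.1 + g.d * x.2)

structure IsMS (ψ : V → ℂ) : Prop where
  neg : ∀ x, Prim x → ψ (-x) = ψ x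
  inv : ∀ (g : Gam) (x y : V), Prim x → Prim y → ψ (g.act x) - ψ (g.act y) = ψ x - ψ y

def msA (ψ : V → ℂ) : ℂ := ψ (1, 2) - ψ (0, 1)

def msB (ψ : V → ℂ) : ℂ := ψ (0, 1) - ψ (-1, 4)

def LamSpec (n : ℕ) (l : ℤ) : Prop :=
  ∀ ψ : V → ℂ, IsMS ψ →
    ∑ a ∈ Finset.range n, (jacobiSym a n : ℂ) * ψ ((a : ℤ), (n : ℤ)) =
      l * (if n % 4 = 1 then msA ψ else msB ψ)

/-- the algebraic part of the twisted central value -/
noncomputable def lam (n : ℕ) : ℤ := Classical.epsilon (LamSpec n)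

/-! ### The intersection pairing -/

def dt (x y : V) : ℤ := x.1 * y.2 - x.2 * y.1

def side (y₁ y₂ x : V) : ℤ := (dt x y₁).sign * (dt x y₂).sign * (dt y₁ y₂).sign

def cross (x₁ x₂ y₁ y₂ : V) : ℤ :=
  if side y₁ y₂ x₁ * side y₁ y₂ x₂ = -1 then side y₁ y₂ x₂ else 0

def saw (t : ℚ) : ℚ := if Int.fract t = 0 then 0 else Int.fract t - 1 / 2

def width (x : V) : ℕ := 15 / Int.gcd x.2 15

def dl (x y z : V) : ℚ := (dt y z : ℚ) / ((dt x y : ℚ) * (dt x z : ℚ))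

open Classical in
noncomputable def endT (x x' y y' : V) : ℚ :=
  if h : ∃ g : Gam, g.act y = x then saw (dl x (h.choose.act y') x' / width x) else 0

noncomputable def crossSum (x₁ x₂ y₁ y₂ : V) : ℤ :=
  ∑ᶠ g : Gam, cross x₁ x₂ (g.act y₁) (g.act y₂)

noncomputable def endSum (x₁ x₂ y₁ y₂ : V) : ℚ :=
  -endT x₁ x₂ y₁ y₂ + endT x₁ x₂ y₂ y₁ + endT x₂ x₁ y₁ y₂ - endT x₂ x₁ y₂ y₁

noncomputable def II (x₁ x₂ y₁ y₂ : V) : ℚ :=
  (crossSum x₁ x₂ y₁ y₂ : ℚ) / 2 + endSum x₁ x₂ y₁ y₂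

open Classical in
/-- the defect in the triangle identity -/
noncomputable def dfct (x₁ x₂ x₃ y : V) : ℚ :=
  (if ∃ g : Gam, g.act y = x₁ then dl x₁ x₂ x₃ / width x₁ else 0) +
  (if ∃ g : Gam, g.act y = x₂ then dl x₂ x₃ x₁ / width x₂ else 0) +
  (if ∃ g : Gam, g.act y = x₃ then dl x₃ x₁ x₂ / width x₃ else 0)

/-! ### The eta product and its expansions -/

noncomputable def qq (z : ℂ) : ℂ := cexp (2 * π * I * z)

/-- `g` is given on the upper half plane by the `q`-series with integer coefficients `c` -/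
def HasExp (c : ℤ⟦X⟧) (g : ℂ → ℂ) : Prop :=
  ∀ z : ℂ, 0 < z.im → HasSum (fun n : ℕ => ((coeff n c : ℤ) : ℂ) * qq z ^ n) (g z)

/-- the operator `q d/dq` -/
noncomputable def th {R : Type*} [CommRing R] (c : R⟦X⟧) : R⟦X⟧ :=
  PowerSeries.mk fun n => (n : R) * coeff n c

/-- the formal product of the `1 - X^(d k)`, `k ≥ 1` -/
noncomputable def Eul (d : ℕ) : ℤ⟦X⟧ :=
  PowerSeries.mk fun n => if d ∣ n then coeff (n / d) (pentagonalSeries ℤ) else 0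

noncomputable def eul (d : ℕ) (z : ℂ) : ℂ := ∏' k : ℕ, (1 - qq (d * z) ^ (k + 1))

noncomputable def uS : ℤ⟦X⟧ := Eul 1 * Eul 3
noncomputable def vS : ℤ⟦X⟧ := Eul 5 * Eul 15
noncomputable def FS : ℤ⟦X⟧ := uS * vS
noncomputable def fS : ℤ⟦X⟧ := X * FS
noncomputable def US : ℤ⟦X⟧ := fS * FS
noncomputable def WS : ℤ⟦X⟧ := 2 * FS - 3 * (vS * th uS - uS * th vS) + 3 * US

/-- the Fourier coefficients of the newform of level 15 -/
noncomputable def an (n : ℕ) : ℤ := coeff n fS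

noncomputable def ff (z : ℂ) : ℂ :=
  ModularForm.eta z * ModularForm.eta (3 * z) * ModularForm.eta (5 * z) * ModularForm.eta (15 * z)

noncomputable def DD (z : ℂ) : ℂ :=
  ModularForm.eta z * ModularForm.eta (3 * z) / (ModularForm.eta (5 * z) * ModularForm.eta (15 * z))

noncomputable def mob (a b c d : ℤ) (z : ℂ) : ℂ := (a * z + b) / (c * z + d)

/-- Atkin-Lehner matrices of type `e` (type 1 is Gamma_0(15)) -/
structure AL (e : ℕ) (a b c d : ℤ) : Prop where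
  he : e = 1 ∨ e = 3 ∨ e = 5 ∨ e = 15
  det_eq : a * d - b * c = e
  dvd_c : 15 ∣ c
  dvd_a : (e : ℤ) ∣ a
  dvd_d : (e : ℤ) ∣ d

noncomputable def sg (e : ℕ) : ℂ := if e = 1 ∨ e = 3 then 1 else -1

/-- the filter `Im z → ∞` -/
noncomputable def atI : Filter ℂ := Filter.comap Complex.im Filter.atTop

/-- the Eichler integral -/
noncomputable def FF (z : ℂ) : ℂ := ∑' n : ℕ, (an n : ℂ) / n * qq z ^ n

/-- the period at a cusp -/
noncomputable def phi (x : V) : ℂ :=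
  if x.2 = 0 then 0 else
    Filter.limUnder (𝓝[>] (0 : ℝ)) fun y : ℝ => FF ((x.1 : ℂ) / (x.2 : ℂ) + I * y)

/-- an entire function given by the Euler product of `y^2 = x^3 + A x + B` for `Re s > 3/2` -/
def IsL (A B : ℤ) (f : ℂ → ℂ) : Prop :=
  Differentiable ℂ f ∧ ∀ s : ℂ, (3 : ℝ) / 2 < s.re →
    HasProd
      (fun p : {p : ℕ // p.Prime ∧ ¬ ((p : ℤ) ∣ 2 * (4 * A ^ 3 + 27 * B ^ 2))} =>
        ((1 : ℂ)
          - ((((p.1 : ℤ) - (Nat.card {q : ZMod p.1 × ZMod p.1 //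
                q.2 ^ 2 = q.1 ^ 3 + (A : ZMod p.1) * q.1 + (B : ZMod p.1)} : ℤ)) : ℤ) : ℂ)
              * ((p.1 : ℂ) ^ (-s))
          + (p.1 : ℂ) ^ (1 - 2 * s))⁻¹)
      (f s)

/-! ### Abstract Brandt groupoids of discriminant 15 -/

structure Brandt (c₁ c₃ : ℚ) (S : Type) where
  N : S → ℚ
  L : S → S → Submodule ℤ ℍ[ℚ,c₁,c₃]
  N_pos : ∀ s, 0 < N s
  mul_mem : ∀ s t u x y, x ∈ L s t → y ∈ L t u → (N t)⁻¹ • (x * y) ∈ L s u
  star_mem : ∀ s t x, x ∈ L s t → star x ∈ L t s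
  N_mem : ∀ s, (N s) • (1 : ℍ[ℚ,c₁,c₃]) ∈ L s s
  integral : ∀ s t x, x ∈ L s t → ∃ m : ℤ, (x * star x).re = m * (N s * N t)
  gram : ∀ s t, ∃ b : Fin 4 → ℍ[ℚ,c₁,c₃], Submodule.span ℤ (Set.range b) = L s t ∧
    (Matrix.of fun i j => 2 * (b i * star (b j)).re).det = 225 * (N s * N t) ^ 4

/-- number of elements of normalised norm `ν` -/
noncomputable def Brandt.r {c₁ c₃ : ℚ} {S : Type} (B : Brandt c₁ c₃ S) (ν : ℕ) (s t : S) : ℕ :=
  {x | x ∈ B.L s t ∧ (x * star x).re = ν * (B.N s * B.N t)}.ncard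

/-- the multiplication table of the quaternion order attached to the ternary form
`a x² + b y² + c z² + u y z + v x z + w x y` -/
structure StdRel {c₁ c₃ : ℚ} (a b c u v w : ℤ) (i j k : ℍ[ℚ,c₁,c₃]) : Prop where
  tr_i : 2 * i.re = u
  tr_j : 2 * j.re = v
  tr_k : 2 * k.re = w
  ii : i * i = u • i - (b * c) • (1 : ℍ[ℚ,c₁,c₃])
  jj : j * j = v • j - (a * c) • (1 : ℍ[ℚ,c₁,c₃])
  kk : k * k = w • k - (a * b) • (1 : ℍ[ℚ,c₁,c₃])
  jk : j * k = a • star i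
  ki : k * i = b • star j
  ij : i * j = c • star k

/-! ### Interface between the genus periods and the induction -/

def Iface5 (lm : ℕ → ℤ) (n : ℕ) (S : Prop) : Prop :=
  ∃ P : Finset ℕ → ℤ,
    (∀ J ⊆ n.primeFactors, J ≠ ∅ → J ≠ n.primeFactors →
      P J ^ 2 = 2 * |lm (∏ p ∈ J, p) * lm (n / ∏ p ∈ J, p)|) ∧
    2 * P ∅ ^ 2 = |lm n| ∧
    (∀ l ∈ n.primeFactors, ∃ u : ℤ,
      ∑ J ∈ (n.primeFactors.erase l).powerset, P J = 2 ^ (n.primeFactors.card - 1) * u ∧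
        (S → Odd u)) ∧
    (∀ l ∈ n.primeFactors, ∀ q ∈ n.primeFactors, q ≠ l →
      (2 : ℤ) ^ n.primeFactors.card ∣
        ∑ J ∈ (n.primeFactors.erase l).powerset with q ∈ J, P J) ∧
    ((∀ q ∈ n.primeFactors, jacobiSym (-15) q = 1) →
      ∀ l ∈ n.primeFactors, ∀ a ∈ n.primeFactors, ∀ b ∈ n.primeFactors,
        a ≠ l → b ≠ l → a ≠ b →
        (2 : ℤ) ^ n.primeFactors.card ∣
          ∑ J ∈ (n.primeFactors.erase l).powerset with (a ∈ J ∧ b ∈ J), P J)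

def Iface3 (lm : ℕ → ℤ) (n : ℕ) : Prop :=
  ∃ P : Finset ℕ → ℤ,
    (∀ J ⊆ n.primeFactors, J ≠ ∅ → J ≠ n.primeFactors →
      2 * P J ^ 2 = |lm (∏ p ∈ J, p) * lm (n / ∏ p ∈ J, p)|) ∧
    8 * P ∅ ^ 2 = |lm n| ∧
    (∀ l ∈ n.primeFactors,
      (2 : ℤ) ^ (n.primeFactors.card - 1) ∣ ∑ J ∈ (n.primeFactors.erase l).powerset, P J) ∧
    (∀ l ∈ n.primeFactors, ∀ q ∈ n.primeFactors, q ≠ l →
      (2 : ℤ) ^ (n.primeFactors.card - 1) ∣
        ∑ J ∈ (n.primeFactors.erase l).powerset with q ∈ J, P J)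

end Pool.Agent.P.MP_8b7eba_nt.BSD15
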