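import Pool.Agent.P.MP_8b7eba_nt.ClassLink

set_option autoImplicit false

namespace Pool.Agent.P.MP_8b7eba_nt.BSD15

theorem desc_finite (n : ℕ) (hsq : Squarefree n) (h4 : n % 4 = 3) (h3 : n % 3 = 2)
    (h5 : n % 5 = 2 ∨ n % 5 = 3) (K : Type) [Field K] [NumberField K]
    (hK : Module.finrank ℚ K = 2) (δ : K) (hδ : δ ^ 2 = -(n : K))
    (hcl : ∀ c : ClassGroup (NumberField.RingOfIntegers K), c ^ 4 = 1 → c ^ 2 = 1) :
    {q : ℚ × ℚ | q.2 ^ 2 = q.1 ^ 3 + ((-12987 * (n:ℤ)^2 : ℤ) : ℚ) * q.1 +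
      ((263466 * (n:ℤ)^3 : ℤ) : ℚ)}.Finite := by
  have := Desc.finite_twist_of_classGroup hsq h4 h3 h5 hK hδ fun c hc => by
    have h2 := orderOf_dvd_of_pow_eq_one (hcl c (hc ▸ pow_orderOf_eq_one c))
    rw [hc] at h2
    omega
  push_cast
  exact this

end Pool.Agent.P.MP_8b7eba_nt.BSD15
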