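import Pool.Agent.P.MP_8b7eba_nt.BSD15.MS
import Pool.Agent.P.MP_8b7eba_nt.ModTwist
import Pool.Agent.P.MP_8b7eba_nt.ModAL

/-! The analytic input: modularity, the Euler product and the central value. -/

namespace Pool.Agent.P.MP_8b7eba_nt.BSD15

open Finset

theorem euler_isMS : IsMS fun x => Mod.lv x.1 x.2 where
  neg x _ := Mod.lv_neg_neg _ _
  inv g x y hx hy := by
    have hg : Mod.G0 ⟨g.a, g.b, g.c, g.d⟩ := ⟨g.det_eq, g.dvd_c⟩
    have h1 := Mod.lv_G0 hg (a := x.1) (c := x.2) hx.ne_zero_or_ne_zero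
    have h2 := Mod.lv_G0 hg (a := y.1) (c := y.2) hy.ne_zero_or_ne_zero
    simp only [Gam.act] at h1 h2 ⊢
    rw [h1, h2]
    ring

theorem euler_msA : msA (fun x => Mod.lv x.1 x.2) = -4 * Mod.L0 := by
  simp only [msA, Mod.lv_eq, show Mod.nP 1 2 = -3 by decide +kernel,
    show Mod.nM 1 2 = 0 by decide +kernel, show Mod.nP 0 1 = 1 by decide +kernel,
    show Mod.nM 0 1 = 0 by decide +kernel]
  push_cast
  ring

theorem euler_msB : msB (fun x => Mod.lv x.1 x.2) = 2 * Mod.om * Complex.I := by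
  simp only [msB, Mod.lv_eq, show Mod.nP (-1) 4 = 1 by decide +kernel,
    show Mod.nM (-1) 4 = -2 by decide +kernel, show Mod.nP 0 1 = 1 by decide +kernel,
    show Mod.nM 0 1 = 0 by decide +kernel]
  push_cast
  ring

theorem euler_unit_ne (n : ℕ) : (if n % 4 = 1 then msA fun x => Mod.lv x.1 x.2
    else msB fun x => Mod.lv x.1 x.2) ≠ 0 := by
  rw [euler_msA, euler_msB]
  split_ifs <;> simp [Mod.L0_ne, Mod.om_ne]

theorem euler_sum {n : ℕ} (hn : 1 < n) (h : Adm n) :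
    ∑ a ∈ range n, Mod.chi n a * Mod.lam (a / n) = lam n *
      (if n % 4 = 1 then msA fun x => Mod.lv x.1 x.2 else msB fun x => Mod.lv x.1 x.2) := by
  rw [← lam_spec hn h _ euler_isMS]
  refine sum_congr rfl fun a _ => ?_
  rw [Mod.lv_of_ne _ (by omega : (n : ℤ) ≠ 0)]
  rfl

theorem euler_lv_eq {a y n : ℤ} (h : n ∣ 15 * a * y + 1) : Mod.lv y n = Mod.lv a n := by
  obtain ⟨x, hx⟩ := h
  have hg : Mod.G0 ⟨x, a, 15 * y, n⟩ := ⟨by simp only [Mod.M2.det]; linarith, dvd_mul_right _ _⟩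
  have h0 : n ≠ 0 ∨ y ≠ 0 := by
    by_contra h
    push Not at h
    simp [h.1, h.2] at hx
  have h1 := Mod.lv_G0 hg (a := 0) (c := 1) (by simp)
  have h2 := Mod.lv_G0 hg (a := -n) (c := 15 * y) (by omega)
  have h3 := Mod.lv_AL15 (w := ⟨0, -1, 15, 0⟩) (by decide) (a := y) (c := n) h0.symm
  have h4 := Mod.lv_mul (k := 15) (by norm_num) 0 1
  rw [show 15 * y * -n + n * (15 * y) = 0 by ring, Mod.lv_zero] at h2
  simp only [mul_zero, zero_add, mul_one, zero_mul, neg_mul, one_mul, add_zero] at h1 h3 h4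
  linear_combination h3 - h1 + h2 + h4

theorem lam_vanish {n : ℕ} (hn : 1 < n) (h : Adm n) (h15 : jacobiSym (-15) n = -1) :
    lam n = 0 := by
  have : NeZero n := ⟨by omega⟩
  have h1 := lam_spec hn h _ euler_isMS
  have key : ∀ x y : ZMod n, -15 * x * y = 1 → (jacobiSym x.val n : ℂ) * Mod.lv x.val n +
      (jacobiSym y.val n : ℂ) * Mod.lv y.val n = 0 := fun x y hxy => by
    have h2 : (n : ℤ) ∣ 15 * x.val * y.val + 1 := by
      rw [← ZMod.intCast_zmod_eq_zero_iff_dvd]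
      push_cast
      rw [ZMod.natCast_zmod_val, ZMod.natCast_zmod_val]
      linear_combination -hxy
    have h3 : jacobiSym (-15 * x.val * y.val) n = jacobiSym 1 n :=
      jacobiSym.mod_left' (Int.modEq_iff_dvd.2 (h2.trans (dvd_of_eq (by ring))))
    rw [jacobiSym.mul_left, jacobiSym.mul_left, h15, jacobiSym.one_left] at h3
    have h4 : jacobiSym y.val n = -jacobiSym x.val n := by
      rcases Int.eq_one_or_neg_one_of_mul_eq_one' h3 with h | h <;> omega
    rw [euler_lv_eq h2, h4]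
    push_cast
    ring
  have hu : IsUnit (-15 : ZMod n) := by
    have := (ZMod.isUnit_iff_coprime 15 n).2 (h.2.coprime_dvd_right (by norm_num)).symm
    exact this.neg
  have h5 : ∑ x : ZMod n, (jacobiSym x.val n : ℂ) * Mod.lv x.val n = 0 := by
    have h6 : ∀ x : ZMod n, IsUnit x → -15 * x * (-15 * x)⁻¹ = 1 := fun x hx =>
      ZMod.mul_inv_of_unit _ (hu.mul hx)
    have h8 : ∀ x : ZMod n, ¬ IsUnit x → (jacobiSym x.val n : ℂ) * Mod.lv x.val n = 0 :=
      fun x hx => by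
        rw [jacobiSym.eq_zero_iff.2 ⟨by omega, fun h => hx (by
          rw [← ZMod.natCast_zmod_val x, ZMod.isUnit_iff_coprime]
          rwa [Int.gcd_natCast_natCast] at h)⟩, Int.cast_zero, zero_mul]
    classical
    refine sum_involution (fun x _ => if IsUnit x then (-15 * x)⁻¹ else x) (fun x _ => ?_)
      (fun x _ h0 hx => h0 ?_) (fun _ _ => mem_univ _) fun x _ => ?_
    · split_ifs with hx
      · exact key _ _ (h6 x hx)
      · rw [h8 x hx, add_zero]
    · by_cases hx' : IsUnit x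
      · rw [if_pos hx'] at hx
        have := key _ _ (h6 x hx')
        rw [hx] at this
        linear_combination this / 2
      · exact h8 x hx'
    · by_cases hx : IsUnit x
      · rw [if_pos hx, if_pos (IsUnit.of_mul_eq_one_right _ (h6 x hx))]
        exact ZMod.inv_eq_of_mul_eq_one _ _ _ (by linear_combination h6 x hx)
      · simp [hx]
  have h7 : ∑ a ∈ range n, (jacobiSym a n : ℂ) * Mod.lv a n =
      ∑ x : ZMod n, (jacobiSym x.val n : ℂ) * Mod.lv x.val n :=
    sum_nbij' (fun a => (a : ZMod n)) ZMod.val (fun _ _ => mem_univ _)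
      (fun x _ => mem_range.2 x.val_lt) (fun a ha => ZMod.val_cast_of_lt (mem_range.1 ha))
      (fun x _ => ZMod.natCast_zmod_val x) fun a ha => by rw [ZMod.val_cast_of_lt (mem_range.1 ha)]
  rw [h7, h5] at h1
  exact_mod_cast (mul_eq_zero.1 h1.symm).resolve_right (euler_unit_ne n)

theorem exists_isL {n : ℕ} (h : Adm n) (h4 : n % 4 = 3) :
    ∃ f : ℂ → ℂ, IsL (-12987 * (n : ℤ) ^ 2) (263466 * (n : ℤ) ^ 3) f := by
  have := Mod.exists_isL_twist (D := -n) (by simpa using h) (by omega)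
  rwa [neg_sq, show -263466 * (-n : ℤ) ^ 3 = 263466 * n ^ 3 by ring] at this

theorem isL_ne_zero {n : ℕ} (h : Adm n) (h4 : n % 4 = 3) (hl : lam n ≠ 0) {f : ℂ → ℂ}
    (hf : IsL (-12987 * (n : ℤ) ^ 2) (263466 * (n : ℤ) ^ 3) f) : f 1 ≠ 0 := by
  refine Mod.isL_twist_ne_zero (D := -n) (by simpa using h) (by omega) ?_ (by
    rwa [neg_sq, show -263466 * (-n : ℤ) ^ 3 = 263466 * n ^ 3 by ring])
  rw [Int.natAbs_neg, Int.natAbs_natCast, euler_sum (by omega) h]
  exact mul_ne_zero (by exact_mod_cast hl) (euler_unit_ne n)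

theorem exists_isL_pos {n : ℕ} (h : Adm n) (h4 : n % 4 = 1) :
    ∃ f : ℂ → ℂ, IsL (-12987 * (n : ℤ) ^ 2) (-263466 * (n : ℤ) ^ 3) f :=
  Mod.exists_isL_twist (D := n) (by simpa using h) (by omega)

theorem isL_ne_zero_pos {n : ℕ} (hn : 1 < n) (h : Adm n) (h4 : n % 4 = 1) (hl : lam n ≠ 0)
    {f : ℂ → ℂ} (hf : IsL (-12987 * (n : ℤ) ^ 2) (-263466 * (n : ℤ) ^ 3) f) : f 1 ≠ 0 := by
  refine Mod.isL_twist_ne_zero (D := n) (by simpa using h) (by omega) ?_ hf
  rw [Int.natAbs_natCast, euler_sum hn h]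
  exact mul_ne_zero (by exact_mod_cast hl) (euler_unit_ne n)

end Pool.Agent.P.MP_8b7eba_nt.BSD15
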