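import Pool.Agent.P.MP_8b7eba_nt.BSD15.PairCore

/-! The cusp contributions to the pairing. -/

namespace Pool.Agent.P.MP_8b7eba_nt.BSD15

theorem evalends_rel {α β : Type} (s : Finset α) (t : Finset β) (R : α → β → Prop)
    (f : α → ℚ) (g : β → ℚ) (h1 : ∀ a ∈ s, f a ≠ 0 → ∃ c ∈ t, R a c)
    (u1 : ∀ a ∈ s, ∀ c ∈ t, ∀ c' ∈ t, R a c → R a c' → c = c')
    (h2 : ∀ c ∈ t, g c ≠ 0 → ∃ a ∈ s, R a c)
    (u2 : ∀ c ∈ t, ∀ a ∈ s, ∀ a' ∈ s, R a c → R a' c → a = a')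
    (hfg : ∀ a ∈ s, ∀ c ∈ t, R a c → f a = g c) : ∑ a ∈ s, f a = ∑ c ∈ t, g c := by
  choose i hi hR using h1
  refine Finset.sum_bij_ne_zero i hi ?_ ?_ ?_
  · intro a ha hf a' ha' hf' he
    exact u2 _ (hi a ha hf) a ha a' ha' (hR a ha hf) (he ▸ hR a' ha' hf')
  · intro c hc hg
    obtain ⟨a, ha, hac⟩ := h2 c hc hg
    have hf : f a ≠ 0 := by rw [hfg a ha c hc hac]; exact hg
    exact ⟨a, ha, hf, u1 a ha _ (hi a ha hf) c hc (hR a ha hf) hac⟩
  · intro a ha hf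
    exact hfg a ha _ (hi a ha hf) (hR a ha hf)

theorem evalends_ex {m : ℕ} (hm : 0 < m) {u : ℤ} (hu : IsCoprime u m) (v : ℤ) :
    ∃ x ∈ Finset.range m, (m : ℤ) ∣ u * x + v := by
  obtain ⟨p, q, hpq⟩ := hu
  have hm' : (0 : ℤ) < m := by exact_mod_cast hm
  have h0 := Int.emod_nonneg (-p * v) hm'.ne'
  have h1 := Int.emod_lt_of_pos (-p * v) hm'
  refine ⟨(-p * v % m).toNat, Finset.mem_range.2 (by omega), ?_⟩
  rw [Int.toNat_of_nonneg h0, Int.emod_def]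
  refine ⟨q * v - u * (-p * v / m), ?_⟩
  linear_combination (-v) * hpq

theorem evalends_uniq {m : ℕ} {u : ℤ} (hu : IsCoprime u m) {v : ℤ} {x y : ℕ}
    (hx : x ∈ Finset.range m) (hy : y ∈ Finset.range m) (h1 : (m : ℤ) ∣ u * x + v)
    (h2 : (m : ℤ) ∣ u * y + v) : x = y := by
  have hx' := Finset.mem_range.1 hx
  have hy' := Finset.mem_range.1 hy
  have h3 : (m : ℤ) ∣ u * ((x : ℤ) - y) := by
    have := dvd_sub h1 h2
    rwa [show u * x + v - (u * y + v) = u * ((x : ℤ) - y) by ring] at this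
  have h4 := hu.symm.dvd_of_dvd_mul_left h3
  have h5 := Int.eq_zero_of_abs_lt_dvd h4 (by rw [abs_lt]; constructor <;> omega)
  omega

theorem evalends_J {m : ℕ} {a b : ℤ} (h : (m : ℤ) ∣ a - b) : jacobiSym a m = jacobiSym b m :=
  jacobiSym.mod_left' (Int.ModEq.symm (Int.modEq_iff_dvd.2 h))

theorem evalends_saw {m : ℕ} (hm : 0 < m) {a b : ℤ} (h : (m : ℤ) ∣ a - b) (t : ℚ) :
    saw ((a : ℚ) / m + t) = saw ((b : ℚ) / m + t) := by
  obtain ⟨k, hk⟩ := h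
  have hm' : (m : ℚ) ≠ 0 := by exact_mod_cast hm.ne'
  have : (a : ℚ) = b + m * k := by exact_mod_cast (by linarith : a = b + m * k)
  rw [← saw_add_int ((b : ℚ) / m + t) k, this]
  congr 1
  field_simp
  ring

theorem evalends_cop {m : ℕ} (hm : 0 < m) {a : ℤ} (h : jacobiSym a m ≠ 0) : IsCoprime a m := by
  have : NeZero m := ⟨hm.ne'⟩
  rw [Int.isCoprime_iff_gcd_eq_one]
  by_contra hc
  exact h (jacobiSym.eq_zero_iff_not_coprime.2 hc)

theorem evalends_sq {m : ℕ} {a : ℤ} (h : IsCoprime a m) : jacobiSym a m * jacobiSym a m = 1 := by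
  rw [← sq]; exact jacobiSym.sq_one (Int.isCoprime_iff_gcd_eq_one.1 h)

/-- reindexing by `a ↦ (15 a)⁻¹` -/
theorem evalends_inv {m : ℕ} (hm : 0 < m) (h15 : IsCoprime (15 : ℤ) m) (φ ψ : ℕ → ℚ)
    (h : ∀ a a' : ℕ, (m : ℤ) ∣ 15 * a * a' - 1 → φ a = ψ a') :
    ∑ a ∈ Finset.range m, (jacobiSym a m : ℚ) * φ a =
      (jacobiSym 15 m : ℚ) * ∑ a ∈ Finset.range m, (jacobiSym a m : ℚ) * ψ a := by
  rw [Finset.mul_sum]
  have cop : ∀ a a' : ℕ, (m : ℤ) ∣ 15 * a * a' - 1 → IsCoprime (15 * (a : ℤ)) m := by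
    rintro a a' ⟨k, hk⟩
    exact ⟨a', -k, by linear_combination hk⟩
  refine evalends_rel _ _ (fun a a' : ℕ => (m : ℤ) ∣ 15 * a * a' - 1) _ _ ?_ ?_ ?_ ?_ ?_
  · intro a _ hf
    have ha : jacobiSym a m ≠ 0 := fun h0 => hf (by rw [h0]; simp)
    exact evalends_ex hm (h15.mul_left (evalends_cop hm ha)) (-1)
  · intro a _ c hc c' hc' h1 h2
    exact evalends_uniq (v := -1) (cop a c h1) hc hc' (by rwa [← sub_eq_add_neg])
      (by rwa [← sub_eq_add_neg])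
  · intro c _ hg
    have hc : jacobiSym c m ≠ 0 := fun h0 => hg (by rw [h0]; simp)
    obtain ⟨a, ha, hd⟩ := evalends_ex hm (h15.mul_left (evalends_cop hm hc)) (-1)
    exact ⟨a, ha, by convert hd using 1; ring⟩
  · intro c _ a ha a' ha' h1 h2
    have h1' : (m : ℤ) ∣ 15 * c * a - 1 := by convert h1 using 1; ring
    have h2' : (m : ℤ) ∣ 15 * c * a' - 1 := by convert h2 using 1; ring
    exact evalends_uniq (v := -1) (cop c a h1') ha ha' (by rwa [← sub_eq_add_neg])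
      (by rwa [← sub_eq_add_neg])
  · intro a _ c _ hR
    have h1 := evalends_J hR
    rw [jacobiSym.one_left, jacobiSym.mul_left, jacobiSym.mul_left] at h1
    have h2 := evalends_sq (cop a c hR).of_mul_left_right
    have h3 : jacobiSym a m = jacobiSym 15 m * jacobiSym c m := by
      linear_combination (-jacobiSym a m) * h1 + (jacobiSym 15 m * jacobiSym c m) * h2
    rw [h a c hR, h3]
    push_cast
    ring

theorem evalends_adm {n : ℕ} (h : Adm n) : Odd n ∧ IsCoprime (15 : ℤ) n ∧ IsCoprime (2 : ℤ) n := by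
  have h2 : n.Coprime 2 := Nat.Coprime.coprime_dvd_right (by norm_num) h.2
  have h15 : n.Coprime 15 := Nat.Coprime.coprime_dvd_right (by norm_num) h.2
  refine ⟨Nat.coprime_two_right.1 h2, ?_, ?_⟩
  · exact_mod_cast Nat.isCoprime_iff_coprime.2 h15.symm
  · exact_mod_cast Nat.isCoprime_iff_coprime.2 h2.symm

theorem evalends_core {n₁ n₂ : ℕ} (h : Adm (n₁ * n₂)) (h41 : n₁ % 4 = 1) (h42 : n₂ % 4 = 3) :
    ∑ a ∈ Finset.range n₁, (jacobiSym a n₁ : ℚ) * ∑ b ∈ Finset.range n₂, (jacobiSym b n₂ : ℚ) *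
      saw ((((b : ℤ) * n₁ - a * n₂ : ℤ) : ℚ) / ((n₁ * n₂ : ℕ) : ℚ)) = -Bn (n₁ * n₂) := by
  have p1 : 0 < n₁ := by omega
  have p2 : 0 < n₂ := by omega
  have hn : 1 < n₁ * n₂ := by nlinarith [show 3 ≤ n₂ by omega]
  have hc : IsCoprime (n₁ : ℤ) n₂ :=
    Nat.isCoprime_iff_coprime.2 (Nat.coprime_of_squarefree_mul h.1)
  have o1 : Odd n₁ := Nat.odd_iff.2 (by omega)
  have o2 : Odd n₂ := Nat.odd_iff.2 (by omega)
  have hJ : ∀ a b : ℤ, jacobiSym (b * n₁ - a * n₂) (n₁ * n₂) =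
      jacobiSym a n₁ * jacobiSym b n₂ := by
    intro a b
    rw [jacobiSym.mul_right' _ p1.ne' p2.ne',
      evalends_J (m := n₁) (a := b * n₁ - a * n₂) (b := -1 * a * n₂) ⟨b, by ring⟩,
      evalends_J (m := n₂) (a := b * n₁ - a * n₂) (b := b * n₁) ⟨-a, by ring⟩,
      jacobiSym.mul_left, jacobiSym.mul_left, jacobiSym.mul_left, jacobiSym.at_neg_one o1,
      ZMod.χ₄_nat_one_mod_four h41, jacobiSym.quadratic_reciprocity_one_mod_four h41 o2]
    linear_combination (jacobiSym a n₁ * jacobiSym b n₂) * evalends_sq hc.symm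
  rw [← sum_jacobi_saw hn (evalends_adm h).1 h.1]
  simp only [Finset.mul_sum]
  rw [← Finset.sum_product']
  have hm1 : IsCoprime (-1 : ℤ) ((n₁ * n₂ : ℕ) : ℤ) := isCoprime_one_left.neg_left
  refine evalends_rel _ _
    (fun (x : ℕ × ℕ) (c : ℕ) => ((n₁ * n₂ : ℕ) : ℤ) ∣ -1 * c + ((x.2 : ℤ) * n₁ - x.1 * n₂))
    _ _ ?_ ?_ ?_ ?_ ?_
  · intro x _ _
    exact evalends_ex (by omega) hm1 _
  · intro x _ c hc' c' hc'' h1 h2
    exact evalends_uniq hm1 hc' hc'' h1 h2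
  · intro c _ _
    obtain ⟨a, ha, hda⟩ := evalends_ex p1 hc.symm.neg_left (-c)
    obtain ⟨b, hb, hdb⟩ := evalends_ex p2 hc (-c)
    refine ⟨(a, b), Finset.mem_product.2 ⟨ha, hb⟩, ?_⟩
    push_cast
    refine hc.mul_dvd ?_ ?_
    · convert dvd_add hda (dvd_mul_left (n₁ : ℤ) b) using 1; ring
    · convert dvd_sub hdb (dvd_mul_left (n₂ : ℤ) a) using 1; ring
  · rintro c _ ⟨a, b⟩ hx ⟨a', b'⟩ hx' h1 h2
    obtain ⟨ha, hb⟩ := Finset.mem_product.1 hx
    obtain ⟨ha', hb'⟩ := Finset.mem_product.1 hx'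
    push_cast at h1 h2
    have k1 : ∀ a b : ℕ, (n₁ : ℤ) * n₂ ∣ -1 * c + ((b : ℤ) * n₁ - a * n₂) →
        (n₁ : ℤ) ∣ -n₂ * a + -c := fun a b h => by
      have h' := dvd_sub ((dvd_mul_right (n₁ : ℤ) n₂).trans h) (dvd_mul_left (n₁ : ℤ) b)
      rwa [show -1 * (c : ℤ) + ((b : ℤ) * n₁ - a * n₂) - b * n₁ = -n₂ * a + -c by ring] at h'
    have k2 : ∀ a b : ℕ, (n₁ : ℤ) * n₂ ∣ -1 * c + ((b : ℤ) * n₁ - a * n₂) →
        (n₂ : ℤ) ∣ n₁ * b + -c := fun a b h => by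
      have h' := dvd_add ((dvd_mul_left (n₂ : ℤ) n₁).trans h) (dvd_mul_left (n₂ : ℤ) a)
      rwa [show -1 * (c : ℤ) + ((b : ℤ) * n₁ - a * n₂) + a * n₂ = n₁ * b + -c by ring] at h'
    exact Prod.ext (evalends_uniq hc.symm.neg_left ha ha' (k1 a b h1) (k1 a' b' h2))
      (evalends_uniq hc hb hb' (k2 a b h1) (k2 a' b' h2))
  · rintro ⟨a, b⟩ _ c _ hR
    have hR' : ((n₁ * n₂ : ℕ) : ℤ) ∣ ((b : ℤ) * n₁ - a * n₂) - c := by convert hR using 1; ring
    have h1 := evalends_saw (by omega) hR' 0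
    rw [add_zero, add_zero] at h1
    rw [← evalends_J hR', hJ, h1]
    push_cast
    ring

theorem evalends_gcd {m : ℤ} (h : IsCoprime (15 : ℤ) m) : Int.gcd m 15 = 1 :=
  Int.isCoprime_iff_gcd_eq_one.1 h.symm

theorem evalends_prim_inf : Prim (1, 0) := isCoprime_one_left

/-- the value of `endSum` in terms of a matrix entry -/
theorem evalends_val {a b n₁ n₂ : ℤ} (ha : IsCoprime a n₁) (hb : IsCoprime b n₂)
    (h1 : IsCoprime (15 : ℤ) n₁) (h2 : IsCoprime (15 : ℤ) n₂) :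
    ∃ c : ℤ, n₁ ∣ 15 * c * a + n₂ ∧ n₂ ∣ 15 * c * b - n₁ ∧
      endSum (a, n₁) (1, 0) (b, n₂) (1, 0) =
        saw ((c : ℚ) / (n₁ * n₂)) - saw (((b * n₁ - a * n₂ : ℤ) : ℚ) / (n₁ * n₂)) := by
  have pa : Prim (a, n₁) := ha
  have pb : Prim (b, n₂) := hb
  have g1 := evalends_gcd h1
  have g2 := evalends_gcd h2
  obtain ⟨g, hg⟩ := (equiv_iff pa pb).2 (g1.trans g2.symm)
  obtain ⟨c, hc⟩ := g.dvd_c
  have e1 : g.a * b + g.b * n₂ = a := congrArg Prod.fst hg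
  have e2 : g.c * b + g.d * n₂ = n₁ := congrArg Prod.snd hg
  have hdet := g.det_eq
  have e3 : a * g.c - n₁ * g.a = -n₂ := by
    rw [← e1, ← e2]; linear_combination (-n₂) * hdet
  refine ⟨c, ⟨g.a, ?_⟩, ⟨-g.d, ?_⟩, ?_⟩
  · rw [← hc]; linear_combination e3
  · rw [← hc]; linear_combination e2
  · have z1 : endT (a, n₁) (1, 0) (1, 0) (b, n₂) = 0 :=
      endT_of_not _ _ fun h => by
        have := (equiv_iff pa evalends_prim_inf).1 h
        rw [g1] at this; simp at this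
    have z2 : endT (1, 0) (a, n₁) (b, n₂) (1, 0) = 0 :=
      endT_of_not _ _ fun h => by
        have := (equiv_iff evalends_prim_inf pb).1 h
        rw [g2] at this; simp at this
    have v1 := endT_eq (1, 0) (1, 0) pa g hg
    have v2 := endT_eq (x := (1, 0)) (y := (1, 0)) (a, n₁) (b, n₂) evalends_prim_inf
      ⟨1, 0, 0, 1, by norm_num, dvd_zero _⟩ (by simp [Gam.act])
    have w1 : dl (a, n₁) (g.act (1, 0)) (1, 0) / width (a, n₁) = -((c : ℚ) / (n₁ * n₂)) := by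
      have d1 : dt (a, n₁) (g.act (1, 0)) = -n₂ := by simp only [dt, Gam.act]; linear_combination e3
      have d2 : dt (g.act (1, 0)) (1, 0) = -(15 * c) := by simp only [dt, Gam.act]; linear_combination -hc
      have d3 : dt (a, n₁) (1, 0) = -n₁ := by simp [dt]
      have d4 : width (a, n₁) = 15 := by simp only [width, g1]
      rw [dl, d1, d2, d3, d4]
      push_cast
      ring
    have w2 : dl (1, 0) (Gam.act ⟨1, 0, 0, 1, by norm_num, dvd_zero _⟩ (b, n₂)) (a, n₁) /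
        width (1, 0) = ((b * n₁ - a * n₂ : ℤ) : ℚ) / (n₁ * n₂) := by
      simp only [dl, dt, Gam.act, width]
      norm_num
      ring
    rw [endSum, z1, z2, v1, v2, w1, w2, saw_neg]
    ring

theorem eval_ends {n₁ n₂ : ℕ} (h : Adm (n₁ * n₂)) (h41 : n₁ % 4 = 1) (h42 : n₂ % 4 = 3)
    (h15 : jacobiSym 15 (n₁ * n₂) = -1) :
    ∑ a ∈ Finset.range n₁, ∑ b ∈ Finset.range n₂, (jacobiSym a n₁ : ℚ) * (jacobiSym b n₂ : ℚ) *
      endSum ((a : ℤ), (n₁ : ℤ)) (1, 0) ((b : ℤ), (n₂ : ℤ)) (1, 0) = 2 * Bn (n₁ * n₂) := by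
  have p1 : 0 < n₁ := by omega
  have p2 : 0 < n₂ := by omega
  have hc : IsCoprime (n₁ : ℤ) n₂ :=
    Nat.isCoprime_iff_coprime.2 (Nat.coprime_of_squarefree_mul h.1)
  have c15 := (evalends_adm h).2.1
  push_cast at c15
  have c1 := c15.of_mul_right_left
  have c2 := c15.of_mul_right_right
  have core := evalends_core h h41 h42
  set s : ℕ → ℕ → ℚ := fun a b =>
    saw ((((b : ℤ) * n₁ - a * n₂ : ℤ) : ℚ) / ((n₁ * n₂ : ℕ) : ℚ)) with hs
  set E : ℕ → ℕ → ℚ := fun a b =>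
    endSum ((a : ℤ), (n₁ : ℤ)) (1, 0) ((b : ℤ), (n₂ : ℤ)) (1, 0) with hE
  have key : ∑ a ∈ Finset.range n₁, (jacobiSym a n₁ : ℚ) *
        ∑ b ∈ Finset.range n₂, (jacobiSym b n₂ : ℚ) * (E a b + s a b) =
      (jacobiSym 15 n₁ : ℚ) * ∑ a ∈ Finset.range n₁, (jacobiSym a n₁ : ℚ) *
        ((jacobiSym 15 n₂ : ℚ) * ∑ b ∈ Finset.range n₂, (jacobiSym b n₂ : ℚ) * s a b) := by
    refine evalends_inv p1 c1 _ _ fun a a' ha => evalends_inv p2 c2 _ _ fun b b' hb => ?_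
    have ca : IsCoprime (15 * (a : ℤ)) n₁ := by
      obtain ⟨k, hk⟩ := ha
      exact ⟨a', -k, by linear_combination hk⟩
    have cb : IsCoprime (15 * (b : ℤ)) n₂ := by
      obtain ⟨k, hk⟩ := hb
      exact ⟨b', -k, by linear_combination hk⟩
    obtain ⟨c, d1, d2, hv⟩ := evalends_val ca.of_mul_left_right cb.of_mul_left_right c1 c2
    have hd : ((n₁ * n₂ : ℕ) : ℤ) ∣ c - ((b' : ℤ) * n₁ - a' * n₂) := by
      push_cast
      refine hc.mul_dvd (ca.symm.dvd_of_dvd_mul_left ?_) (cb.symm.dvd_of_dvd_mul_left ?_)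
      · convert dvd_sub (dvd_add d1 (ha.mul_left n₂)) (dvd_mul_left (n₁ : ℤ) (15 * a * b')) using 1
        ring
      · convert dvd_add (dvd_sub d2 (hb.mul_left n₁)) (dvd_mul_left (n₂ : ℤ) (15 * b * a')) using 1
        ring
    have h1 := evalends_saw (Nat.mul_pos p1 p2) hd 0
    rw [add_zero, add_zero] at h1
    simp only [hE, hs]
    rw [hv, ← h1]
    push_cast
    ring
  have h15' : (jacobiSym 15 n₁ : ℚ) * jacobiSym 15 n₂ = -1 := by
    rw [jacobiSym.mul_right' _ p1.ne' p2.ne'] at h15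
    exact_mod_cast h15
  have l1 : ∑ a ∈ Finset.range n₁, (jacobiSym a n₁ : ℚ) *
        ∑ b ∈ Finset.range n₂, (jacobiSym b n₂ : ℚ) * (E a b + s a b) =
      ∑ a ∈ Finset.range n₁, ∑ b ∈ Finset.range n₂,
        (jacobiSym a n₁ : ℚ) * (jacobiSym b n₂ : ℚ) * E a b + -Bn (n₁ * n₂) := by
    rw [← core, ← Finset.sum_add_distrib]
    refine Finset.sum_congr rfl fun a _ => ?_
    rw [Finset.mul_sum, Finset.mul_sum, ← Finset.sum_add_distrib]
    exact Finset.sum_congr rfl fun b _ => by ring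
  have l2 : ∑ a ∈ Finset.range n₁, (jacobiSym a n₁ : ℚ) *
        ((jacobiSym 15 n₂ : ℚ) * ∑ b ∈ Finset.range n₂, (jacobiSym b n₂ : ℚ) * s a b) =
      (jacobiSym 15 n₂ : ℚ) * -Bn (n₁ * n₂) := by
    rw [← core, Finset.mul_sum]
    exact Finset.sum_congr rfl fun a _ => by ring
  rw [l1, l2, ← mul_assoc, h15'] at key
  linear_combination key

theorem evalends_half {n : ℕ} (h : Adm n) (h4 : n % 4 = 3) :
    ∑ b ∈ Finset.range n, (jacobiSym b n : ℚ) * saw (((b : ℤ) : ℚ) / n + -(1 / 2)) =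
      -(((jacobiSym 2 n : ℚ) - 1) * Bn n) := by
  have hn : 1 < n := by omega
  obtain ⟨ho, -, c2⟩ := evalends_adm h
  have hB := sum_jacobi_saw hn ho h.1
  have h2 : ∑ b ∈ Finset.range n, (jacobiSym b n : ℚ) * saw (((2 * b : ℤ) : ℚ) / n + 0) =
      ∑ c ∈ Finset.range n, (jacobiSym 2 n : ℚ) * ((jacobiSym c n : ℚ) * saw ((c : ℚ) / n)) := by
    have hm1 : IsCoprime (-1 : ℤ) (n : ℤ) := isCoprime_one_left.neg_left
    refine evalends_rel _ _ (fun b c : ℕ => (n : ℤ) ∣ 2 * b + -c) _ _ ?_ ?_ ?_ ?_ ?_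
    · intro b _ _
      obtain ⟨c, hc, hd⟩ := evalends_ex (by omega) hm1 (2 * b)
      exact ⟨c, hc, by convert hd using 1; ring⟩
    · intro b _ c hc c' hc' h1 h2
      exact evalends_uniq hm1 (v := 2 * b) hc hc' (by convert h1 using 1; ring)
        (by convert h2 using 1; ring)
    · intro c _ _
      exact evalends_ex (by omega) c2 _
    · intro c _ b hb b' hb' h1 h2
      exact evalends_uniq c2 hb hb' h1 h2
    · intro b _ c _ hR
      have hR' : (n : ℤ) ∣ 2 * b - c := hR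
      have hJ := evalends_J hR'
      rw [jacobiSym.mul_left] at hJ
      have h3 : jacobiSym b n = jacobiSym 2 n * jacobiSym c n := by
        linear_combination (jacobiSym 2 n) * hJ - jacobiSym b n * evalends_sq c2
      rw [evalends_saw (by omega) hR' 0, h3]
      push_cast
      rw [add_zero]
      ring
  rw [← Finset.mul_sum, hB] at h2
  have h3 : ∀ b : ℕ, saw (((b : ℤ) : ℚ) / n + -(1 / 2)) =
      saw (((2 * b : ℤ) : ℚ) / n + 0) - saw ((b : ℚ) / n) := by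
    intro b
    have e1 := saw_add_half ((b : ℚ) / n)
    have e2 := saw_add_int (((b : ℤ) : ℚ) / n + -(1 / 2)) 1
    rw [show ((b : ℤ) : ℚ) / n + -(1 / 2) + ((1 : ℤ) : ℚ) = (b : ℚ) / n + 1 / 2 by
      push_cast; ring] at e2
    rw [show ((2 * b : ℤ) : ℚ) / n + 0 = 2 * ((b : ℚ) / n) by push_cast; ring, ← e1, e2]
    ring
  simp only [h3, mul_sub, Finset.sum_sub_distrib]
  rw [h2, hB]
  ring

theorem eval_ends_two {n : ℕ} (h : Adm n) (h4 : n % 4 = 3) (h15 : jacobiSym 15 n = -1) :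
    ∑ b ∈ Finset.range n, (jacobiSym b n : ℚ) *
      endSum (1, 2) (1, 0) ((b : ℤ), (n : ℤ)) (1, 0) = 2 * ((jacobiSym 2 n : ℚ) - 1) * Bn n := by
  have p : 0 < n := by omega
  have hq : (n : ℚ) ≠ 0 := by exact_mod_cast p.ne'
  obtain ⟨ho, c15, c2⟩ := evalends_adm h
  have half := evalends_half h h4
  set s : ℕ → ℚ := fun b => saw (((b : ℤ) : ℚ) / n + -(1 / 2)) with hs
  set E : ℕ → ℚ := fun b => endSum (1, 2) (1, 0) ((b : ℤ), (n : ℤ)) (1, 0) with hE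
  have key : ∑ b ∈ Finset.range n, (jacobiSym b n : ℚ) * (E b + s b) =
      (jacobiSym 15 n : ℚ) * ∑ b ∈ Finset.range n, (jacobiSym b n : ℚ) * s b := by
    refine evalends_inv p c15 _ _ fun b b' hb => ?_
    have cb : IsCoprime (15 * (b : ℤ)) n := by
      obtain ⟨k, hk⟩ := hb
      exact ⟨b', -k, by linear_combination hk⟩
    obtain ⟨c, d1, d2, hv⟩ := evalends_val (a := 1) (n₁ := 2) isCoprime_one_left
      cb.of_mul_left_right ⟨1, -7, by norm_num⟩ c15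
    obtain ⟨e, he⟩ : (2 : ℤ) ∣ c + n := by omega
    have hd : (n : ℤ) ∣ e - b' := by
      refine (c2.mul_left cb).symm.dvd_of_dvd_mul_left ?_
      have : (2 : ℤ) * (15 * b) * (e - b') =
          (15 * c * b - 2) - 2 * (15 * b * b' - 1) + 15 * b * n := by
        linear_combination (-15 * (b : ℤ)) * he
      rw [this]
      exact dvd_add (dvd_sub d2 (hb.mul_left 2)) (dvd_mul_left _ _)
    have h1 := evalends_saw p hd (-(1 / 2))
    have hc : (c : ℚ) = 2 * e - n := by exact_mod_cast (by linarith : c = 2 * e - n)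
    simp only [hE, hs]
    rw [hv, ← h1, hc]
    have a1 : (2 * (e : ℚ) - n) / (((2 : ℤ) : ℚ) * ((n : ℤ) : ℚ)) = (e : ℚ) / n + -(1 / 2) := by
      push_cast; field_simp; ring
    have a2 : (((b : ℤ) * 2 - 1 * n : ℤ) : ℚ) / (((2 : ℤ) : ℚ) * ((n : ℤ) : ℚ)) =
        ((b : ℤ) : ℚ) / n + -(1 / 2) := by
      push_cast; field_simp; ring
    rw [a1, a2]
    ring
  simp only [mul_add, Finset.sum_add_distrib] at key
  rw [half, h15] at key
  push_cast at key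
  linear_combination key

end Pool.Agent.P.MP_8b7eba_nt.BSD15
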