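import Pool.Agent.P.MP_8b7eba_nt.BSD15.Jac

/-! The homology of X_0(15) in terms of modular symbols. -/

namespace Pool.Agent.P.MP_8b7eba_nt.BSD15

theorem ms_prim_left {x y : V} (h : dt x y = 1) : Prim x :=
  ⟨y.2, -y.1, by unfold dt at h; linear_combination h⟩

theorem ms_prim_right {x y : V} (h : dt x y = 1) : Prim y :=
  ⟨-x.2, x.1, by unfold dt at h; linear_combination h⟩

/-- Manin symbols only depend on the class in the projective line modulo 15 -/
theorem ms_pair {ψ : V → ℂ} (h : IsMS ψ) (x y x' y' : V) (hd : dt x y = 1) (hd' : dt x' y' = 1)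
    (hc : 15 ∣ x.2 * y'.2 - y.2 * x'.2) : ψ x - ψ y = ψ x' - ψ y' := by
  have hx := ms_prim_left hd'
  have hy := ms_prim_right hd'
  unfold dt at hd hd'
  let g : Gam := ⟨x.1 * y'.2 - y.1 * x'.2, y.1 * x'.1 - x.1 * y'.1, x.2 * y'.2 - y.2 * x'.2,
    y.2 * x'.1 - x.2 * y'.1, by linear_combination (x'.1 * y'.2 - x'.2 * y'.1) * hd + hd', hc⟩
  have e1 : g.act x' = x :=
    Prod.ext (by simp only [g, Gam.act]; linear_combination x.1 * hd')
      (by simp only [g, Gam.act]; linear_combination x.2 * hd')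
  have e2 : g.act y' = y :=
    Prod.ext (by simp only [g, Gam.act]; linear_combination y.1 * hd')
      (by simp only [g, Gam.act]; linear_combination y.2 * hd')
  have := h.inv g x' y' hx hy
  rwa [e1, e2] at this

theorem ms_pair' {ψ : V → ℂ} (h : IsMS ψ) (x y x' y' : V) (hd : dt x y = 1) (hd' : dt y' x' = 1)
    (hc : 15 ∣ x.2 * y'.2 + y.2 * x'.2) : ψ x - ψ y = ψ x' - ψ y' := by
  rw [← h.neg y' (ms_prim_left hd')]
  refine ms_pair h x y x' (-y') hd ?_ ?_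
  · unfold dt at hd' ⊢
    simp only [Prod.fst_neg, Prod.snd_neg]
    linear_combination hd'
  · rw [← dvd_neg]
    simp only [Prod.snd_neg]
    have : -(x.2 * -y'.2 - y.2 * x'.2) = x.2 * y'.2 + y.2 * x'.2 := by ring
    rwa [this]

theorem ms_shift {ψ : V → ℂ} (h : IsMS ψ) {a c : ℤ} (hp : IsCoprime a c) :
    ψ (a + c, c) = ψ (a, c) := by
  have := h.inv ⟨1, 1, 0, 1, by norm_num, dvd_zero _⟩ (a, c) (1, 0) hp isCoprime_one_left
  simpa [Gam.act] using this

theorem ms_one_four (ψ : V → ℂ) (h : IsMS ψ) : ψ (1, 4) = ψ (0, 1) + msB ψ := by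
  have := ms_pair h (1, 4) (0, 1) (0, 1) (-1, 4) rfl rfl (by decide)
  unfold msB
  linear_combination this

theorem ms_neg_one_two (ψ : V → ℂ) (h : IsMS ψ) : ψ (-1, 2) = ψ (1, 2) :=
  (ms_shift h (a := -1) (c := 2) isCoprime_one_left.neg_left).symm

/-- the standard cusp equivalent to a cusp of denominator `c` -/
def ms_base (c : ℤ) : V :=
  if 3 ∣ c then (if 5 ∣ c then (1, 0) else (1, 3)) else (if 5 ∣ c then (1, 5) else (0, 1))

/-- the value at `x` differs from the value at the standard cusp by a period -/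
def ms_R (x : V) : Prop :=
  ∃ u v : ℤ, ∀ ψ : V → ℂ, IsMS ψ → ψ x = ψ (ms_base x.2) + u * msA ψ + v * msB ψ

theorem ms_R_one (c : ℕ) (hc : c < 15) : ms_R (1, c) := by
  interval_cases c
  · refine ⟨0, 0, fun ψ h => ?_⟩
    show ψ (1, 0) = ψ (1, 0) + _ + _
    simp only [msA]
    push_cast
    ring
  · refine ⟨0, 0, fun ψ h => ?_⟩
    show ψ (1, 1) = ψ (0, 1) + _ + _
    simp only [msA]
    push_cast
    linear_combination (-1) * ms_pair h (1, 0) (1, 1) (1, 0) (0, 1) rfl rfl (by decide)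
  · refine ⟨1, 0, fun ψ h => ?_⟩
    show ψ (1, 2) = ψ (0, 1) + _ + _
    simp only [msA]
    push_cast
    ring
  · refine ⟨0, 0, fun ψ h => ?_⟩
    show ψ (1, 3) = ψ (1, 3) + _ + _
    simp only [msA]
    push_cast
    ring
  · refine ⟨0, 1, fun ψ h => ?_⟩
    show ψ (1, 4) = ψ (0, 1) + _ + _
    simp only [msA]
    push_cast
    linear_combination (1) * ms_one_four ψ h
  · refine ⟨0, 0, fun ψ h => ?_⟩
    show ψ (1, 5) = ψ (1, 5) + _ + _
    simp only [msA]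
    push_cast
    ring
  · refine ⟨-1, 0, fun ψ h => ?_⟩
    show ψ (1, 6) = ψ (1, 3) + _ + _
    simp only [msA]
    push_cast
    linear_combination (1) * ms_pair' h (1, 6) (0, 1) (1, 3) (1, 2) rfl rfl (by decide)
  · refine ⟨-1, 0, fun ψ h => ?_⟩
    show ψ (1, 7) = ψ (0, 1) + _ + _
    simp only [msA]
    push_cast
    linear_combination (1) * ms_pair' h (1, 6) (0, 1) (1, 3) (1, 2) rfl rfl (by decide) +
      (-1) * ms_pair h (1, 6) (1, 7) (1, 3) (0, 1) rfl rfl (by decide)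
  · refine ⟨-1, 0, fun ψ h => ?_⟩
    show ψ (1, 8) = ψ (0, 1) + _ + _
    simp only [msA]
    push_cast
    linear_combination (-1) * ms_pair h (1, 0) (1, 1) (1, 0) (0, 1) rfl rfl (by decide) +
      (1) * ms_pair' h (1, 6) (0, 1) (1, 3) (1, 2) rfl rfl (by decide) +
      (-1) * ms_pair h (1, 6) (1, 7) (1, 3) (0, 1) rfl rfl (by decide) +
      (-1) * ms_pair' h (1, 7) (1, 8) (0, 1) (1, 1) rfl rfl (by decide)
  · refine ⟨-1, -1, fun ψ h => ?_⟩
    show ψ (1, 9) = ψ (1, 3) + _ + _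
    simp only [msA]
    push_cast
    linear_combination (-1) * ms_pair h (1, 0) (1, 1) (1, 0) (0, 1) rfl rfl (by decide) +
      (1) * ms_pair' h (1, 6) (0, 1) (1, 3) (1, 2) rfl rfl (by decide) +
      (-1) * ms_pair h (1, 6) (1, 7) (1, 3) (0, 1) rfl rfl (by decide) +
      (-1) * ms_pair' h (1, 7) (1, 8) (0, 1) (1, 1) rfl rfl (by decide) +
      (-1) * ms_pair' h (1, 8) (1, 9) (1, 4) (1, 3) rfl rfl (by decide) +
      (-1) * ms_one_four ψ h
  · refine ⟨0, -1, fun ψ h => ?_⟩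
    show ψ (1, 10) = ψ (1, 5) + _ + _
    simp only [msA]
    push_cast
    linear_combination (-1) * ms_pair h (1, 0) (1, 1) (1, 0) (0, 1) rfl rfl (by decide) +
      (-1) * ms_pair h (1, 6) (1, 7) (1, 3) (0, 1) rfl rfl (by decide) +
      (-1) * ms_pair' h (1, 7) (1, 8) (0, 1) (1, 1) rfl rfl (by decide) +
      (-1) * ms_pair' h (1, 8) (1, 9) (1, 4) (1, 3) rfl rfl (by decide) +
      (-1) * ms_pair' h (1, 9) (1, 10) (1, 6) (1, 5) rfl rfl (by decide) +
      (-1) * ms_one_four ψ h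
  · refine ⟨0, -1, fun ψ h => ?_⟩
    show ψ (1, 11) = ψ (0, 1) + _ + _
    simp only [msA]
    push_cast
    linear_combination (-1) * ms_pair h (1, 0) (1, 1) (1, 0) (0, 1) rfl rfl (by decide) +
      (-1) * ms_pair h (1, 6) (1, 7) (1, 3) (0, 1) rfl rfl (by decide) +
      (-1) * ms_pair' h (1, 7) (1, 8) (0, 1) (1, 1) rfl rfl (by decide) +
      (-1) * ms_pair' h (1, 8) (1, 9) (1, 4) (1, 3) rfl rfl (by decide) +
      (-1) * ms_pair' h (1, 9) (1, 10) (1, 6) (1, 5) rfl rfl (by decide) +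
      (-1) * ms_pair h (1, 10) (1, 11) (1, 5) (0, 1) rfl rfl (by decide) +
      (-1) * ms_one_four ψ h
  · refine ⟨0, -1, fun ψ h => ?_⟩
    show ψ (1, 12) = ψ (1, 3) + _ + _
    simp only [msA]
    push_cast
    linear_combination (-1) * ms_pair h (1, 0) (1, 1) (1, 0) (0, 1) rfl rfl (by decide) +
      (-1) * ms_pair h (1, 6) (1, 7) (1, 3) (0, 1) rfl rfl (by decide) +
      (-1) * ms_pair' h (1, 7) (1, 8) (0, 1) (1, 1) rfl rfl (by decide) +
      (-1) * ms_pair' h (1, 8) (1, 9) (1, 4) (1, 3) rfl rfl (by decide) +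
      (-1) * ms_pair' h (1, 9) (1, 10) (1, 6) (1, 5) rfl rfl (by decide) +
      (-1) * ms_pair h (1, 10) (1, 11) (1, 5) (0, 1) rfl rfl (by decide) +
      (-1) * ms_pair' h (1, 11) (1, 12) (0, 1) (1, 3) rfl rfl (by decide) +
      (-1) * ms_one_four ψ h
  · refine ⟨1, 0, fun ψ h => ?_⟩
    show ψ (1, 13) = ψ (0, 1) + _ + _
    simp only [msA]
    push_cast
    linear_combination (-1) * ms_pair' h (1, 6) (0, 1) (1, 3) (1, 2) rfl rfl (by decide) +
      (-1) * ms_pair' h (1, 9) (1, 10) (1, 6) (1, 5) rfl rfl (by decide) +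
      (-1) * ms_pair h (1, 10) (1, 11) (1, 5) (0, 1) rfl rfl (by decide) +
      (-1) * ms_pair' h (1, 11) (1, 12) (0, 1) (1, 3) rfl rfl (by decide) +
      (-1) * ms_pair h (1, 12) (1, 13) (1, 9) (0, 1) rfl rfl (by decide)
  · refine ⟨0, 0, fun ψ h => ?_⟩
    show ψ (1, 14) = ψ (0, 1) + _ + _
    simp only [msA]
    push_cast
    linear_combination (-1) * ms_pair' h (1, 6) (0, 1) (1, 3) (1, 2) rfl rfl (by decide) +
      (-1) * ms_pair' h (1, 9) (1, 10) (1, 6) (1, 5) rfl rfl (by decide) +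
      (-1) * ms_pair h (1, 10) (1, 11) (1, 5) (0, 1) rfl rfl (by decide) +
      (-1) * ms_pair' h (1, 11) (1, 12) (0, 1) (1, 3) rfl rfl (by decide) +
      (-1) * ms_pair h (1, 12) (1, 13) (1, 9) (0, 1) rfl rfl (by decide) +
      (-1) * ms_pair h (1, 13) (1, 14) (1, 2) (0, 1) rfl rfl (by decide)

theorem ms_R_zero : ms_R (0, 1) := ⟨0, 0, fun ψ _ => by
  show ψ (0, 1) = ψ (0, 1) + _ + _
  simp⟩

theorem ms_R_zero' : ms_R (0, -1) := ⟨0, 0, fun ψ h => by
  show ψ (0, -1) = ψ (0, 1) + _ + _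
  simpa using h.neg (0, 1) isCoprime_one_right⟩

theorem ms_dvd_iff {p : ℤ} (hp : Prime p) {x y x' y' : V} (hd : dt x y = 1)
    (hc : p ∣ x.2 * y'.2 - y.2 * x'.2) :
    (p ∣ x.2 → p ∣ x'.2) ∧ (p ∣ y.2 → p ∣ y'.2) := by
  have key : p ∣ x.2 → p ∣ y.2 → False := fun h1 h2 => by
    have : p ∣ dt x y := dvd_sub (h2.mul_left _) (h1.mul_right _)
    rw [hd] at this
    exact hp.not_dvd_one this
  constructor
  · intro h1
    have h2 : p ∣ y.2 * x'.2 := (dvd_sub_right (h1.mul_right _)).1 hc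
    exact (hp.dvd_or_dvd h2).resolve_left (key h1)
  · intro h1
    have h2 : p ∣ x.2 * y'.2 := (dvd_sub_left (h1.mul_right _)).1 hc
    exact (hp.dvd_or_dvd h2).resolve_left fun h => key h h1

theorem ms_base_eq {x y x' y' : V} (hd : dt x y = 1) (hd' : dt x' y' = 1)
    (hc : 15 ∣ x.2 * y'.2 - y.2 * x'.2) :
    ms_base x.2 = ms_base x'.2 ∧ ms_base y.2 = ms_base y'.2 := by
  have hc' : 15 ∣ x'.2 * y.2 - y'.2 * x.2 := by
    rw [← dvd_neg]
    have : -(x'.2 * y.2 - y'.2 * x.2) = x.2 * y'.2 - y.2 * x'.2 := by ring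
    rwa [this]
  have h3 : Prime (3 : ℤ) := Int.prime_three
  have h5 : Prime (5 : ℤ) := Int.prime_iff_natAbs_prime.2 (by norm_num)
  have a3 := ms_dvd_iff h3 hd (dvd_trans (by norm_num) hc)
  have b3 := ms_dvd_iff h3 hd' (dvd_trans (by norm_num) hc')
  have a5 := ms_dvd_iff h5 hd (dvd_trans (by norm_num) hc)
  have b5 := ms_dvd_iff h5 hd' (dvd_trans (by norm_num) hc')
  simp only [ms_base, iff_of_eq (propext ⟨a3.1, b3.1⟩), iff_of_eq (propext ⟨a3.2, b3.2⟩),
    iff_of_eq (propext ⟨a5.1, b5.1⟩), iff_of_eq (propext ⟨a5.2, b5.2⟩), and_self]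

theorem ms_transfer {x y x' y' : V} (hd : dt x y = 1) (hd' : dt x' y' = 1)
    (hc : 15 ∣ x.2 * y'.2 - y.2 * x'.2) (h1 : ms_R x') (h2 : ms_R y') (h3 : ms_R y) : ms_R x := by
  obtain ⟨e1, e2⟩ := ms_base_eq hd hd' hc
  obtain ⟨u1, v1, h1⟩ := h1
  obtain ⟨u2, v2, h2⟩ := h2
  obtain ⟨u3, v3, h3⟩ := h3
  refine ⟨u1 - u2 + u3, v1 - v2 + v3, fun ψ h => ?_⟩
  have := h3 ψ h
  rw [e2] at this
  rw [e1]
  push_cast
  linear_combination ms_pair h x y x' y' hd hd' hc + h1 ψ h - h2 ψ h + this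

theorem ms_proj_line : ∀ c d : ZMod 15, (5 * c ≠ 0 ∨ 5 * d ≠ 0) → (3 * c ≠ 0 ∨ 3 * d ≠ 0) →
    (∃ e, c * 1 - d * e = 0) ∨ (∃ e, c * e + d = 0) ∨ c * 10 - d * 9 = 0 ∨ c * 6 - d * 5 = 0 := by
  decide

theorem ms_step {x y : V} (hd : dt x y = 1) (hy : ms_R y) : ms_R x := by
  have h1 : (x.1 : ZMod 15) * y.2 - x.2 * y.1 = 1 := by
    have := congrArg (Int.cast : ℤ → ZMod 15) hd
    simpa [dt] using this
  have key : ∀ k : ZMod 15, k ≠ 0 → k * x.2 ≠ 0 ∨ k * y.2 ≠ 0 := by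
    intro k hk
    by_contra hc
    push Not at hc
    exact hk (by linear_combination (x.1 : ZMod 15) * hc.2 - (y.1 : ZMod 15) * hc.1 - k * h1)
  have cast : ∀ z : ℤ, (z : ZMod 15) = 0 → 15 ∣ z := fun z hz =>
    (ZMod.intCast_zmod_eq_zero_iff_dvd z 15).1 hz
  rcases ms_proj_line x.2 y.2 (key 5 (by decide)) (key 3 (by decide)) with ⟨e, h⟩ | ⟨e, h⟩ | h | h
  · refine ms_transfer (x' := (1, e.val)) (y' := (0, 1)) hd (by simp [dt]) (cast _ ?_)
      (ms_R_one _ (ZMod.val_lt e)) ms_R_zero hy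
    simpa using h
  · refine ms_transfer (x' := (0, -1)) (y' := (1, e.val)) hd (by simp [dt]) (cast _ ?_)
      ms_R_zero' (ms_R_one _ (ZMod.val_lt e)) hy
    simpa using h
  · refine ms_transfer (x' := (1, 9)) (y' := (1, 10)) hd rfl (cast _ ?_)
      (ms_R_one 9 (by norm_num)) (ms_R_one 10 (by norm_num)) hy
    simpa using h
  · refine ms_transfer (x' := (1, 5)) (y' := (1, 6)) hd rfl (cast _ ?_)
      (ms_R_one 5 (by norm_num)) (ms_R_one 6 (by norm_num)) hy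
    simpa using h

theorem ms_R_all : ∀ (k : ℕ) (x : V), x.2.natAbs = k → Prim x → ms_R x := by
  intro k
  induction k using Nat.strong_induction_on with
  | _ k ih =>
    rintro ⟨a, c⟩ hk hx
    by_cases hc : c = 0
    · subst hc
      rcases Int.isUnit_iff.1 (isCoprime_zero_right.1 hx) with h | h
      · obtain rfl : a = 1 := h
        exact ms_R_one 0 (by norm_num)
      · obtain rfl : a = -1 := h
        exact ⟨0, 0, fun ψ h => by
          show ψ (-1, 0) = ψ (1, 0) + _ + _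
          simpa using h.neg (1, 0) isCoprime_one_left⟩
    · obtain ⟨r, s, hrs⟩ := hx
      have hd : dt (a, c) (-s - r / c * a, r % c) = 1 := by
        simp only [dt, Int.emod_def] at hrs ⊢
        linear_combination hrs
      refine ms_step hd (ih _ ?_ _ rfl (ms_prim_right hd))
      have h1 := Int.emod_nonneg r hc
      have h2 := Int.emod_lt_abs r hc
      simp only at hk ⊢
      rw [Int.abs_eq_natAbs] at h2
      omega

theorem ms_decomp (x : V) (hx : Prim x) (h15 : IsCoprime x.2 15) :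
    ∃ u v : ℤ, ∀ ψ : V → ℂ, IsMS ψ → ψ x = ψ (0, 1) + u * msA ψ + v * msB ψ := by
  have h := ms_R_all _ x rfl hx
  have h3 : ¬ (3 : ℤ) ∣ x.2 := fun h => by
    have := h15.isUnit_of_dvd' h (by norm_num)
    rw [Int.isUnit_iff] at this
    omega
  have h5 : ¬ (5 : ℤ) ∣ x.2 := fun h => by
    have := h15.isUnit_of_dvd' h (by norm_num)
    rw [Int.isUnit_iff] at this
    omega
  simpa only [ms_R, ms_base, if_neg h3, if_neg h5] using h

theorem IsMS.refl {ψ : V → ℂ} (h : IsMS ψ) : IsMS fun x => ψ (-x.1, x.2) := by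
  refine ⟨fun x hx => h.neg (-x.1, x.2) (IsCoprime.neg_left hx), fun g x y hx hy => ?_⟩
  have := h.inv ⟨g.a, -g.b, -g.c, g.d, by linear_combination g.det_eq, g.dvd_c.neg_right⟩
    (-x.1, x.2) (-y.1, y.2) (IsCoprime.neg_left hx) (IsCoprime.neg_left hy)
  simp only [Gam.act] at this ⊢
  rw [← this]
  congr 3 <;> ring

theorem ms_sum {n : ℕ} (hn : 1 < n) (h : Adm n) : ∃ U W : ℤ, ∀ ψ : V → ℂ, IsMS ψ →
    ∑ a ∈ Finset.range n, (jacobiSym a n : ℂ) * ψ ((a : ℤ), (n : ℤ)) = U * msA ψ + W * msB ψ := by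
  have hodd : Odd n := (Nat.coprime_two_right).1 (h.2.coprime_dvd_right (by norm_num))
  have h15 : IsCoprime (n : ℤ) 15 :=
    Nat.isCoprime_iff_coprime.2 (h.2.coprime_dvd_right (show 15 ∣ 30 by norm_num))
  have key : ∀ a : ℕ, ∃ u v : ℤ, ∀ ψ : V → ℂ, IsMS ψ → (jacobiSym a n : ℂ) * ψ ((a : ℤ), (n : ℤ)) =
      (jacobiSym a n : ℂ) * ψ (0, 1) + u * msA ψ + v * msB ψ := by
    intro a
    by_cases hc : a.Coprime n
    · obtain ⟨u, v, huv⟩ := ms_decomp (a, n) (Nat.isCoprime_iff_coprime.2 hc) h15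
      refine ⟨jacobiSym a n * u, jacobiSym a n * v, fun ψ hψ => ?_⟩
      rw [huv ψ hψ]
      push_cast
      ring
    · have : jacobiSym a n = 0 :=
        jacobiSym.eq_zero_iff.2 ⟨by omega, by rwa [Int.gcd_natCast_natCast]⟩
      exact ⟨0, 0, fun ψ _ => by simp [this]⟩
  choose u v huv using key
  refine ⟨∑ a ∈ Finset.range n, u a, ∑ a ∈ Finset.range n, v a, fun ψ hψ => ?_⟩
  have h0 : ∑ a ∈ Finset.range n, (jacobiSym a n : ℂ) = 0 := by
    exact_mod_cast sum_jacobi_eq_zero hn hodd h.1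
  simp only [huv _ ψ hψ, Finset.sum_add_distrib, ← Finset.sum_mul, h0]
  push_cast
  ring

theorem ms_sum_refl {n : ℕ} (hn : 1 < n) {ψ : V → ℂ} (h : IsMS ψ) :
    ∑ a ∈ Finset.range n, (jacobiSym a n : ℂ) * ψ ((a : ℤ), (n : ℤ)) =
      (jacobiSym (-1) n : ℂ) * ∑ a ∈ Finset.range n, (jacobiSym a n : ℂ) * ψ (-(a : ℤ), (n : ℤ)) := by
  obtain ⟨k, rfl⟩ : ∃ k, n = k + 1 := ⟨n - 1, by omega⟩
  have h0 : jacobiSym ((0 : ℕ) : ℤ) (k + 1) = 0 := jacobiSym.zero_left hn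
  rw [Finset.sum_range_succ', Finset.sum_range_succ', h0, ← Finset.sum_range_reflect]
  simp only [Int.cast_zero, zero_mul, add_zero, Finset.mul_sum]
  refine Finset.sum_congr rfl fun j hj => ?_
  have hj' := Finset.mem_range.1 hj
  have e : ((k - 1 - j + 1 : ℕ) : ℤ) = -((j + 1 : ℕ) : ℤ) + ((k + 1 : ℕ) : ℤ) := by omega
  have hJ : jacobiSym (-((j + 1 : ℕ) : ℤ) + ((k + 1 : ℕ) : ℤ)) (k + 1) =
      jacobiSym (-1) (k + 1) * jacobiSym ((j + 1 : ℕ) : ℤ) (k + 1) := by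
    rw [← jacobiSym.mul_left]
    exact jacobiSym.mod_left' (by rw [Int.add_emod_right, neg_one_mul])
  rw [e, hJ]
  by_cases hc : (j + 1).Coprime (k + 1)
  · rw [ms_shift h (Nat.isCoprime_iff_coprime.2 hc).neg_left]
    push_cast
    ring
  · have : jacobiSym ((j + 1 : ℕ) : ℤ) (k + 1) = 0 :=
      jacobiSym.eq_zero_iff.2 ⟨by omega, by rwa [Int.gcd_natCast_natCast]⟩
    rw [this]
    simp

theorem lam_spec {n : ℕ} (hn : 1 < n) (h : Adm n) : LamSpec n (lam n) := by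
  refine Classical.epsilon_spec (p := LamSpec n) ?_
  have hodd : Odd n := (Nat.coprime_two_right).1 (h.2.coprime_dvd_right (by norm_num))
  obtain ⟨U, W, hUW⟩ := ms_sum hn h
  have key : ∀ ψ : V → ℂ, IsMS ψ →
      U * msA ψ + W * msB ψ = (jacobiSym (-1) n : ℂ) * (U * msA ψ - W * msB ψ) := by
    intro ψ hψ
    have h1 := hUW _ hψ.refl
    have hA : msA (fun x => ψ (-x.1, x.2)) = msA ψ := by
      simp only [msA, neg_zero, ms_neg_one_two ψ hψ]
    have hB : msB (fun x => ψ (-x.1, x.2)) = -msB ψ := by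
      have := ms_one_four ψ hψ
      simp only [msB, neg_zero, neg_neg] at this ⊢
      linear_combination -this
    rw [hA, hB] at h1
    rw [← hUW ψ hψ, ms_sum_refl hn hψ, h1]
    ring
  by_cases h4 : n % 4 = 1
  · refine ⟨U, fun ψ hψ => ?_⟩
    have h1 := key ψ hψ
    rw [jacobiSym.at_neg_one hodd, ZMod.χ₄_nat_one_mod_four h4] at h1
    rw [if_pos h4, hUW ψ hψ]
    push_cast at h1
    linear_combination (1 / 2 : ℂ) * h1
  · refine ⟨W, fun ψ hψ => ?_⟩
    have h1 := key ψ hψ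
    have h3 : n % 4 = 3 := by
      obtain ⟨k, hk⟩ := hodd
      omega
    rw [jacobiSym.at_neg_one hodd, ZMod.χ₄_nat_three_mod_four h3] at h1
    rw [if_neg h4, hUW ψ hψ]
    push_cast at h1
    linear_combination (1 / 2 : ℂ) * h1

end Pool.Agent.P.MP_8b7eba_nt.BSD15
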