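import Pool.Agent.P.MP_8b7eba_nt.BSD15.PairTri
import Pool.Agent.P.MP_8b7eba_nt.BSD15.MS

/-! The pairing of twisted symbols in terms of `lam`. -/

namespace Pool.Agent.P.MP_8b7eba_nt.BSD15

theorem pairlam_cross {x₁ x₂ y₁ y₂ : V} (h : dt x₁ x₂ * dt y₁ y₂ = 1) :
    cross x₁ x₂ y₁ y₂ = 0 := by
  rw [cross, if_neg]
  intro hs
  simp only [side, ← Int.sign_mul] at hs
  rw [Int.sign_eq_neg_one_iff_neg] at hs
  have e : dt x₁ y₁ * dt x₂ y₂ = dt x₁ y₂ * dt x₂ y₁ + 1 := by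
    rw [← h]; simp only [dt]; ring
  have e2 : dt x₁ y₁ * dt x₁ y₂ * dt y₁ y₂ * (dt x₂ y₁ * dt x₂ y₂ * dt y₁ y₂) =
      (dt x₁ y₁ * dt x₂ y₂) * (dt x₁ y₂ * dt x₂ y₁) * dt y₁ y₂ ^ 2 := by ring
  rw [e2, e] at hs
  have h1 : 0 ≤ (dt x₁ y₂ * dt x₂ y₁ + 1) * (dt x₁ y₂ * dt x₂ y₁) := by
    generalize dt x₁ y₂ * dt x₂ y₁ = B
    rcases le_or_gt 0 B with hB | hB
    · positivity
    · exact mul_nonneg_of_nonpos_of_nonpos (by omega) hB.le
  exact absurd hs (not_lt.2 (mul_nonneg h1 (sq_nonneg _)))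

theorem pairlam_prim {x : V} (h : Int.gcd x.1 x.2 = 1) : Prim x :=
  Int.isCoprime_iff_gcd_eq_one.2 h

theorem pairlam_saw (p : ℤ) (t : ℚ) (h0 : 0 < t) (h1 : t < 1) : saw (p + t) = t - 1 / 2 := by
  have : Int.fract ((p : ℚ) + t) = t := by
    rw [Int.fract_intCast_add]
    exact Int.fract_eq_self.2 ⟨h0.le, h1⟩
  rw [saw, this, if_neg h0.ne']

theorem II_AB : II (0, 1) (-1, 4) (1, 2) (0, 1) = 1 := by
  have hc : crossSum (0, 1) (-1, 4) (1, 2) (0, 1) = 0 := by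
    rw [crossSum]
    refine finsum_eq_zero_of_forall_eq_zero fun g => pairlam_cross ?_
    have := g.det_eq
    simp only [dt, Gam.act]
    linear_combination this
  have p1 : Prim (0, 1) := pairlam_prim (by decide)
  have p2 : Prim (-1, 4) := pairlam_prim (by decide)
  have e1 : endT (0, 1) (-1, 4) (1, 2) (0, 1) = -7 / 30 := by
    rw [endT_eq _ _ p1 ⟨2, -1, 15, -7, by decide, by decide⟩ (by decide)]
    have : dl (0, 1) (Gam.act ⟨2, -1, 15, -7, by decide, by decide⟩ (0, 1)) (-1, 4) /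
        width (0, 1) = ((-1 : ℤ) : ℚ) + 4 / 15 := by
      have hw : width (0, 1) = 15 := by decide
      rw [hw]
      norm_num [dl, dt, Gam.act]
    rw [this, pairlam_saw _ _ (by norm_num) (by norm_num)]
    norm_num
  have e2 : endT (0, 1) (-1, 4) (0, 1) (1, 2) = 1 / 10 := by
    rw [endT_eq _ _ p1 ⟨1, 0, 0, 1, by decide, by decide⟩ (by decide)]
    have : dl (0, 1) (Gam.act ⟨1, 0, 0, 1, by decide, by decide⟩ (1, 2)) (-1, 4) /
        width (0, 1) = ((-1 : ℤ) : ℚ) + 3 / 5 := by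
      have hw : width (0, 1) = 15 := by decide
      rw [hw]
      norm_num [dl, dt, Gam.act]
    rw [this, pairlam_saw _ _ (by norm_num) (by norm_num)]
    norm_num
  have e3 : endT (-1, 4) (0, 1) (1, 2) (0, 1) = 3 / 10 := by
    rw [endT_eq _ _ p2 ⟨-7, 3, 30, -13, by decide, by decide⟩ (by decide)]
    have : dl (-1, 4) (Gam.act ⟨-7, 3, 30, -13, by decide, by decide⟩ (0, 1)) (0, 1) /
        width (-1, 4) = ((-1 : ℤ) : ℚ) + 4 / 5 := by
      have hw : width (-1, 4) = 15 := by decide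
      rw [hw]
      norm_num [dl, dt, Gam.act]
    rw [this, pairlam_saw _ _ (by norm_num) (by norm_num)]
    norm_num
  have e4 : endT (-1, 4) (0, 1) (0, 1) (1, 2) = -11 / 30 := by
    rw [endT_eq _ _ p2 ⟨4, -1, -15, 4, by decide, by decide⟩ (by decide)]
    have : dl (-1, 4) (Gam.act ⟨4, -1, -15, 4, by decide, by decide⟩ (1, 2)) (0, 1) /
        width (-1, 4) = ((0 : ℤ) : ℚ) + 2 / 15 := by
      have hw : width (-1, 4) = 15 := by decide
      rw [hw]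
      norm_num [dl, dt, Gam.act]
    rw [this, pairlam_saw _ _ (by norm_num) (by norm_num)]
    norm_num
  rw [II, hc, endSum, e1, e2, e3, e4]
  norm_num

theorem pairlam_inf : Prim (1, 0) := pairlam_prim (by decide)

theorem pairlam_dfct {x₁ x₂ x₃ y y' : V} (h₁ : Prim x₁) (h₂ : Prim x₂) (h₃ : Prim x₃)
    (hy : Prim y) (hy' : Prim y') (h : Int.gcd y.2 15 = Int.gcd y'.2 15) :
    dfct x₁ x₂ x₃ y = dfct x₁ x₂ x₃ y' := by
  have e : ∀ x, Prim x → ((∃ g : Gam, g.act y = x) ↔ ∃ g : Gam, g.act y' = x) := fun x hx => by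
    rw [equiv_iff hx hy, equiv_iff hx hy', h]
  unfold dfct
  rw [propext (e _ h₁), propext (e _ h₂), propext (e _ h₃)]

/-- a closed family of geodesics -/
structure PairlamFam {ι : Type} (s : Finset ι) (c : ι → ℚ) (y₁ y₂ : ι → V) : Prop where
  prim : ∀ i ∈ s, c i ≠ 0 → Prim (y₁ i) ∧ Prim (y₂ i) ∧ dt (y₁ i) (y₂ i) ≠ 0
  closed : ∀ x₁ x₂ x₃, Prim x₁ → Prim x₂ → Prim x₃ →
    ∑ i ∈ s, c i * (dfct x₁ x₂ x₃ (y₁ i) - dfct x₁ x₂ x₃ (y₂ i)) = 0

theorem pairlam_congr {ι : Type} {s : Finset ι} {c f g : ι → ℚ}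
    (h : ∀ i ∈ s, c i ≠ 0 → f i = g i) : ∑ i ∈ s, c i * f i = ∑ i ∈ s, c i * g i := by
  refine Finset.sum_congr rfl fun i hi => ?_
  by_cases hc : c i = 0
  · rw [hc, zero_mul, zero_mul]
  · rw [h i hi hc]

theorem PairlamFam.sub {ι : Type} {s : Finset ι} {c : ι → ℚ} {y₁ y₂ : ι → V}
    (h : PairlamFam s c y₁ y₂) {x y : V} (hx : Prim x) (hy : Prim y) :
    ∑ i ∈ s, c i * II x (1, 0) (y₁ i) (y₂ i) - ∑ i ∈ s, c i * II y (1, 0) (y₁ i) (y₂ i) =
      ∑ i ∈ s, c i * II x y (y₁ i) (y₂ i) := by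
  have h0 := h.closed x y (1, 0) hx hy pairlam_inf
  rw [← pairlam_congr (f := fun i => II x y (y₁ i) (y₂ i) + II y (1, 0) (y₁ i) (y₂ i) -
    II x (1, 0) (y₁ i) (y₂ i))] at h0
  · simp only [mul_add, mul_sub, Finset.sum_add_distrib, Finset.sum_sub_distrib] at h0
    linear_combination -h0
  · intro i hi hc
    obtain ⟨p1, p2, p3⟩ := h.prim i hi hc
    rw [← II_triangle hx hy pairlam_inf p1 p2 p3, II_swap x (1, 0)]
    ring

theorem PairlamFam.isMS {ι : Type} {s : Finset ι} {c : ι → ℚ} {y₁ y₂ : ι → V}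
    (h : PairlamFam s c y₁ y₂) :
    IsMS fun x => ((∑ i ∈ s, c i * II x (1, 0) (y₁ i) (y₂ i) : ℚ) : ℂ) where
  neg x hx := by
    congr 1
    refine pairlam_congr fun i hi hc => ?_
    obtain ⟨p1, p2, -⟩ := h.prim i hi hc
    exact II_neg hx pairlam_inf p1 p2
  inv g x y hx hy := by
    rw [← Rat.cast_sub, ← Rat.cast_sub, h.sub hx hy, h.sub (hx.act g) (hy.act g)]
    congr 1
    refine pairlam_congr fun i hi hc => ?_
    obtain ⟨p1, p2, -⟩ := h.prim i hi hc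
    exact II_act hx hy p1 p2 g

theorem pairlam_odd {n : ℕ} (hn : Adm n) : Odd n :=
  Nat.coprime_two_right.1 (Nat.Coprime.coprime_dvd_right (by norm_num) hn.2)

theorem pairlam_prim_b {n : ℕ} (hn : 1 < n) {b : ℕ} (hb : (jacobiSym b n : ℚ) ≠ 0) :
    Prim ((b : ℤ), (n : ℤ)) := by
  refine pairlam_prim ?_
  by_contra h
  have : NeZero n := ⟨by omega⟩
  exact hb (by exact_mod_cast jacobiSym.eq_zero_iff_not_coprime.2 h)

theorem pairlam_fam {n : ℕ} (hn : Adm n) (h1 : 1 < n) :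
    PairlamFam (Finset.range n) (fun b => (jacobiSym b n : ℚ)) (fun b => ((b : ℤ), (n : ℤ)))
      (fun _ => (1, 0)) where
  prim b _ hb := ⟨pairlam_prim_b h1 hb, pairlam_inf, by simp only [dt]; omega⟩
  closed x₁ x₂ x₃ h₁ h₂ h₃ := by
    rw [pairlam_congr (g := fun _ => dfct x₁ x₂ x₃ (0, 1) - dfct x₁ x₂ x₃ (1, 0)),
      ← Finset.sum_mul]
    · have := sum_jacobi_eq_zero h1 (pairlam_odd hn) hn.1
      rw [← Int.cast_sum, this, Int.cast_zero, zero_mul]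
    · intro b _ hb
      rw [pairlam_dfct h₁ h₂ h₃ (pairlam_prim_b h1 hb) (pairlam_prim (x := (0, 1)) (by decide))]
      have h15 : n.Coprime 15 := Nat.Coprime.coprime_dvd_right (by norm_num) hn.2
      have e : Int.gcd (n : ℤ) ((15 : ℕ) : ℤ) = 1 := by rw [Int.gcd_natCast_natCast]; exact h15
      exact e.trans (by decide)

theorem pairlam_fam' : PairlamFam (Finset.univ : Finset Unit) (fun _ => 1) (fun _ => (1, 2))
    (fun _ => (0, 1)) where
  prim _ _ _ := ⟨pairlam_prim (by decide), pairlam_prim (by decide), by decide⟩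
  closed x₁ x₂ x₃ h₁ h₂ h₃ := by
    rw [pairlam_dfct h₁ h₂ h₃ (pairlam_prim (x := (1, 2)) (by decide))
      (pairlam_prim (x := (0, 1)) (by decide)) (by decide)]
    simp

theorem pair_lam_triv {n : ℕ} (hn : Adm n) (h4 : n % 4 = 3) :
    ∑ b ∈ Finset.range n, (jacobiSym b n : ℚ) *
      (II (1, 2) (1, 0) ((b : ℤ), (n : ℤ)) (1, 0) - II (0, 1) (1, 0) ((b : ℤ), (n : ℤ)) (1, 0)) =
      -lam n := by
  have h1 : 1 < n := by omega
  have p12 : Prim (1, 2) := pairlam_prim (by decide)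
  have p01 : Prim (0, 1) := pairlam_prim (by decide)
  have p14 : Prim (-1, 4) := pairlam_prim (by decide)
  have e1 := (pairlam_fam hn h1).sub p12 p01
  have e2 := lam_spec h1 hn _ pairlam_fam'.isMS
  have e3 := pairlam_fam'.sub p01 p14
  rw [if_neg (by omega), msB, ← Rat.cast_sub, e3] at e2
  simp only [Finset.univ_unique, Finset.sum_singleton, one_mul, II_AB, Rat.cast_one, mul_one] at e2
  have e4 : ∑ b ∈ Finset.range n, (jacobiSym b n : ℚ) *
      II ((b : ℤ), (n : ℤ)) (1, 0) (1, 2) (0, 1) = lam n := by exact_mod_cast e2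
  simp only [mul_sub, Finset.sum_sub_distrib]
  rw [e1, ← e4, ← Finset.sum_neg_distrib]
  simp only [← mul_neg]
  refine pairlam_congr fun b _ hb => ?_
  exact II_antisymm p12 p01 (pairlam_prim_b h1 hb) pairlam_inf

theorem pair_lam {n₁ n₂ : ℕ} (h₁ : Adm n₁) (h₂ : Adm n₂) (hn₁ : 1 < n₁) (h41 : n₁ % 4 = 1)
    (h42 : n₂ % 4 = 3) :
    ∑ a ∈ Finset.range n₁, ∑ b ∈ Finset.range n₂, (jacobiSym a n₁ : ℚ) * (jacobiSym b n₂ : ℚ) *
      II ((a : ℤ), (n₁ : ℤ)) (1, 0) ((b : ℤ), (n₂ : ℤ)) (1, 0) = -(lam n₁ * lam n₂) := by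
  have e1 := lam_spec hn₁ h₁ _ (pairlam_fam h₂ (by omega)).isMS
  have e2 := pair_lam_triv h₂ h42
  simp only [mul_sub, Finset.sum_sub_distrib] at e2
  rw [if_pos h41, msA, ← Rat.cast_sub, e2] at e1
  have e3 : ∑ a ∈ Finset.range n₁, (jacobiSym a n₁ : ℚ) * ∑ b ∈ Finset.range n₂,
      (jacobiSym b n₂ : ℚ) * II ((a : ℤ), (n₁ : ℤ)) (1, 0) ((b : ℤ), (n₂ : ℤ)) (1, 0) =
      lam n₁ * -lam n₂ := by exact_mod_cast e1
  simp only [Finset.mul_sum, ← mul_assoc] at e3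
  rw [e3]
  ring

end Pool.Agent.P.MP_8b7eba_nt.BSD15
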