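import Pool.Agent.P.MP_8b7eba_nt.BSD15.EvalCross
import Pool.Agent.P.MP_8b7eba_nt.BSD15.EvalEnds
import Pool.Agent.P.MP_8b7eba_nt.BSD15.CFid
import Pool.Agent.P.MP_8b7eba_nt.BSD15.PairLam

/-! The modular side of the Gross formula. -/

namespace Pool.Agent.P.MP_8b7eba_nt.BSD15

theorem Adm.left {a b : ℕ} (h : Adm (a * b)) : Adm a :=
  ⟨h.1.of_mul_left, Nat.Coprime.coprime_mul_right h.2⟩

theorem Adm.right {a b : ℕ} (h : Adm (a * b)) : Adm b :=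
  ⟨h.1.of_mul_right, Nat.Coprime.coprime_mul_left h.2⟩

theorem eval_sum_MW {n₁ n₂ ν : ℕ} (h : Adm (n₁ * n₂)) (h41 : n₁ % 4 = 1) (h42 : n₂ % 4 = 3)
    (h15 : jacobiSym 15 (n₁ * n₂) = -1) (hν : ν = 1 ∨ ν = 2) :
    ∑ m ∈ mRange (ν * (n₁ * n₂)), MW n₁ n₂ (ν * (n₁ * n₂) - 15 * m) m =
      -CFsum (n₁ * n₂) n₁.primeFactors ν := by
  rw [CFsum, ← Finset.sum_neg_distrib]
  refine Finset.sum_congr rfl fun m hm => ?_
  simp only [mRange, Finset.mem_filter, Finset.mem_range] at hm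
  exact MW_eq h h41 h42 h15 hν (by omega) hm.2.1 (by omega)

theorem eval_pair {n₁ n₂ : ℕ} (h : Adm (n₁ * n₂)) (h41 : n₁ % 4 = 1)
    (h42 : n₂ % 4 = 3) (h15 : jacobiSym 15 (n₁ * n₂) = -1) :
    ∑ a ∈ Finset.range n₁, ∑ b ∈ Finset.range n₂, (jacobiSym a n₁ : ℚ) * (jacobiSym b n₂ : ℚ) *
      II ((a : ℤ), (n₁ : ℤ)) (1, 0) ((b : ℤ), (n₂ : ℤ)) (1, 0) =
    2 * Bn (n₁ * n₂) + 2 * (CFsum (n₁ * n₂) n₁.primeFactors 1 : ℚ) := by
  have h1 := eval_cross h h41 h42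
  have h2 := eval_ends h h41 h42 h15
  have h3 := eval_sum_MW h h41 h42 h15 (Or.inl rfl)
  rw [one_mul] at h3
  rw [h3] at h1
  have h1' := congrArg (Int.cast : ℤ → ℚ) h1
  push_cast at h1'
  simp only [II, mul_add, Finset.sum_add_distrib]
  rw [h2]
  have : ∑ a ∈ Finset.range n₁, ∑ b ∈ Finset.range n₂,
      (jacobiSym a n₁ : ℚ) * (jacobiSym b n₂ : ℚ) *
        ((crossSum ((a : ℤ), (n₁ : ℤ)) (1, 0) ((b : ℤ), (n₂ : ℤ)) (1, 0) : ℚ) / 2) =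
      (∑ a ∈ Finset.range n₁, ∑ b ∈ Finset.range n₂,
      (jacobiSym a n₁ : ℚ) * (jacobiSym b n₂ : ℚ) *
        (crossSum ((a : ℤ), (n₁ : ℤ)) (1, 0) ((b : ℤ), (n₂ : ℤ)) (1, 0) : ℚ)) / 2 := by
    simp only [Finset.sum_div, mul_div_assoc]
  rw [this, h1']
  ring

theorem modular_side {n₁ n₂ : ℕ} (h : Adm (n₁ * n₂)) (hn₁ : 1 < n₁) (h41 : n₁ % 4 = 1)
    (h42 : n₂ % 4 = 3) (h15 : jacobiSym 15 (n₁ * n₂) = -1) :
    2 * Bn (n₁ * n₂) + 2 * (CFsum (n₁ * n₂) n₁.primeFactors 1 : ℚ) = -(lam n₁ * lam n₂) := by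
  rw [← eval_pair h h41 h42 h15, pair_lam h.left h.right hn₁ h41 h42]

theorem modular_side_triv {n : ℕ} (h : Adm n) (h4 : n % 4 = 3) (h15 : jacobiSym 15 n = -1) :
    (2 * (1 + (jacobiSym 2 n : ℚ)) * Bn n + 2 * (CFsum n ∅ 2 : ℚ)) -
      3 * (2 * Bn n + 2 * (CFsum n ∅ 1 : ℚ)) = -lam n := by
  have h' : Adm (1 * n) := by rwa [one_mul]
  have h15' : jacobiSym 15 (1 * n) = -1 := by rwa [one_mul]
  have e1 := eval_pair h' rfl h4 h15'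
  have e2 := eval_ends h' rfl h4 h15'
  have e3 := eval_ends_two h h4 h15
  have e4 := eval_cross_two h h4
  have e5 := eval_sum_MW h' rfl h4 h15' (Or.inr rfl)
  simp only [one_mul, Nat.primeFactors_one, Finset.range_one, Finset.sum_singleton,
    jacobiSym.one_right, Int.cast_one, Nat.cast_zero, Nat.cast_one] at e1 e2 e5
  rw [e5] at e4
  have e4' := congrArg (Int.cast : ℤ → ℚ) e4
  push_cast at e4'
  rw [← pair_lam_triv h h4]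
  have : ∑ b ∈ Finset.range n, (jacobiSym b n : ℚ) *
      (II (1, 2) (1, 0) ((b : ℤ), (n : ℤ)) (1, 0) - II (0, 1) (1, 0) ((b : ℤ), (n : ℤ)) (1, 0)) =
      (∑ b ∈ Finset.range n, (jacobiSym b n : ℚ) *
        ((crossSum (1, 2) (1, 0) ((b : ℤ), (n : ℤ)) (1, 0) : ℚ) +
          2 * crossSum (0, 1) (1, 0) ((b : ℤ), (n : ℤ)) (1, 0))) / 2 +
      ∑ b ∈ Finset.range n, (jacobiSym b n : ℚ) * endSum (1, 2) (1, 0) ((b : ℤ), (n : ℤ)) (1, 0) +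
      2 * ∑ b ∈ Finset.range n, (jacobiSym b n : ℚ) *
        endSum (0, 1) (1, 0) ((b : ℤ), (n : ℤ)) (1, 0) -
      3 * ∑ b ∈ Finset.range n, (jacobiSym b n : ℚ) *
        II (0, 1) (1, 0) ((b : ℤ), (n : ℤ)) (1, 0) := by
    simp only [Finset.sum_div, Finset.mul_sum, ← Finset.sum_add_distrib, ← Finset.sum_sub_distrib]
    refine Finset.sum_congr rfl fun b _ => ?_
    simp only [II]
    ring
  rw [this, e4', e3, e2, e1]
  ring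

end Pool.Agent.P.MP_8b7eba_nt.BSD15
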