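import Pool.Agent.P.MP_8b7eba_nt.BSD15.PairCore

/-! The crossing part of the pairing as a sum over integer matrices. -/

namespace Pool.Agent.P.MP_8b7eba_nt.BSD15

abbrev evalcross_M := ℤ × ℤ × ℤ × ℤ

def evalcross_c0 (g : evalcross_M) : ℤ :=
  if g.1 * g.2.1 * g.2.2.1 * g.2.2.2 < 0 then -(g.2.2.1.sign * g.2.2.2.sign) else 0

noncomputable def evalcross_box (N : ℕ) : Finset evalcross_M :=
  (Finset.Icc (-(N : ℤ)) N ×ˢ Finset.Icc (-(N : ℤ)) N ×ˢ Finset.Icc (-(N : ℤ)) N ×ˢ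
    Finset.Icc (-(N : ℤ)) N).filter fun g =>
      g.1 * g.2.2.2 - g.2.1 * g.2.2.1 = N ∧ 15 ∣ g.2.2.1 ∧ g.1 * g.2.1 * g.2.2.1 * g.2.2.2 < 0

theorem evalcross_signs {N : ℕ} {a b c d : ℤ} (h : a * d - b * c = N) (h2 : a * b * c * d < 0) :
    0 < a * d ∧ b * c < 0 := by
  have h3 : (a * d) * (b * c) < 0 := by linarith [show (a * d) * (b * c) = a * b * c * d by ring]
  have hN : (0 : ℤ) ≤ N := Int.natCast_nonneg N
  rcases mul_neg_iff.1 h3 with h4 | h4
  · exact h4
  · linarith [h4.1, h4.2]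

theorem evalcross_abs_le {x y B : ℤ} (h : x * y ≠ 0) (hB : |x * y| ≤ B) :
    x ∈ Finset.Icc (-B) B ∧ y ∈ Finset.Icc (-B) B := by
  have hx : x ≠ 0 := left_ne_zero_of_mul h
  have hy : y ≠ 0 := right_ne_zero_of_mul h
  have h1 : 1 ≤ |x| := Int.one_le_abs hx
  have h2 : 1 ≤ |y| := Int.one_le_abs hy
  rw [abs_mul] at hB
  simp only [Finset.mem_Icc, ← abs_le]
  constructor <;> nlinarith

theorem evalcross_mem_box {N : ℕ} {a b c d : ℤ} : (a, b, c, d) ∈ evalcross_box N ↔
    a * d - b * c = N ∧ 15 ∣ c ∧ a * b * c * d < 0 := by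
  simp only [evalcross_box, Finset.mem_filter, Finset.mem_product]
  refine ⟨fun h => h.2, fun h => ⟨?_, h⟩⟩
  obtain ⟨h1, h2⟩ := evalcross_signs h.1 h.2.2
  have h3 := evalcross_abs_le (B := N) h1.ne' (by rw [abs_of_pos h1]; linarith [h.1])
  have h4 := evalcross_abs_le (B := N) h2.ne (by rw [abs_of_neg h2]; linarith [h.1])
  exact ⟨h3.1, h4.1, h4.2, h3.2⟩

theorem evalcross_sign_mul {k : ℤ} (hk : 0 < k) (x : ℤ) : (k * x).sign = x.sign := by
  rw [Int.sign_mul, Int.sign_eq_one_of_pos hk, one_mul]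

theorem evalcross_std {a b c d : ℤ} (h : 0 < a * d - b * c) :
    cross (0, 1) (1, 0) (b, d) (a, c) = evalcross_c0 (a, b, c, d) := by
  have h1 : (b * c - d * a).sign = -1 := Int.sign_eq_neg_one_of_neg (by linarith)
  simp only [cross, side, dt, evalcross_c0, h1, zero_mul, one_mul, zero_sub, sub_zero,
    Int.sign_neg]
  have h2 : a * b * c * d < 0 ↔ -b.sign * -a.sign * -1 * (d.sign * c.sign * -1) = -1 := by
    rw [← Int.sign_eq_neg_one_iff_neg, Int.sign_mul, Int.sign_mul, Int.sign_mul]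
    constructor <;> intro h <;> linarith
  simp only [h2]
  split_ifs
  · ring
  · rfl

/-- the matrix `adj(α) γ β` -/
def evalcross_phi (p q r y n : ℤ) (γ : Gam) : evalcross_M :=
  (r * γ.a - q * γ.c, r * (γ.a * y + γ.b * n) - q * (γ.c * y + γ.d * n), p * γ.c,
    p * (γ.c * y + γ.d * n))

theorem evalcross_cross_eq {p q r y n : ℤ} (hp : 0 < p) (hr : 0 < r) (hn : 0 < n) (γ : Gam) :
    cross (q, r) (p, 0) (γ.act (y, n)) (γ.act (1, 0)) =
      evalcross_c0 (evalcross_phi p q r y n γ) := by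
  have hd := γ.det_eq
  have hpr := mul_pos hp hr
  unfold evalcross_phi
  rw [← evalcross_std (by
    have : (r * γ.a - q * γ.c) * (p * (γ.c * y + γ.d * n)) -
      (r * (γ.a * y + γ.b * n) - q * (γ.c * y + γ.d * n)) * (p * γ.c) =
        p * r * n * (γ.a * γ.d - γ.b * γ.c) := by ring
    rw [this, hd, mul_one]; positivity)]
  have e0 : (dt (r * (γ.a * y + γ.b * n) - q * (γ.c * y + γ.d * n), p * (γ.c * y + γ.d * n))
      (r * γ.a - q * γ.c, p * γ.c)).sign = (dt (γ.act (y, n)) (γ.act (1, 0))).sign := by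
    rw [← evalcross_sign_mul hpr (dt (γ.act (y, n)) (γ.act (1, 0)))]
    congr 1; simp only [dt, Gam.act]; ring
  have e1 : side (γ.act (y, n)) (γ.act (1, 0)) (q, r) = side
      (r * (γ.a * y + γ.b * n) - q * (γ.c * y + γ.d * n), p * (γ.c * y + γ.d * n))
      (r * γ.a - q * γ.c, p * γ.c) (0, 1) := by
    unfold side
    rw [e0]
    congr 3 <;> simp only [dt, Gam.act] <;> ring
  have e2 : side (γ.act (y, n)) (γ.act (1, 0)) (p, 0) = side
      (r * (γ.a * y + γ.b * n) - q * (γ.c * y + γ.d * n), p * (γ.c * y + γ.d * n))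
      (r * γ.a - q * γ.c, p * γ.c) (1, 0) := by
    unfold side
    rw [e0]
    congr 3 <;> simp only [dt, Gam.act] <;> ring
  unfold cross
  rw [e1, e2]

theorem evalcross_phi_inj {p q r y n : ℤ} (hp : 0 < p) (hr : 0 < r) (hn : 0 < n) :
    Function.Injective (evalcross_phi p q r y n) := by
  intro γ γ' h
  simp only [evalcross_phi, Prod.mk.injEq] at h
  obtain ⟨h1, h2, h3, h4⟩ := h
  have hc : γ.c = γ'.c := mul_left_cancel₀ hp.ne' h3
  have ha : γ.a = γ'.a := mul_left_cancel₀ hr.ne' (by rw [hc] at h1; linarith)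
  have h5 := mul_left_cancel₀ hp.ne' h4
  have hd : γ.d = γ'.d := mul_right_cancel₀ hn.ne' (by rw [hc] at h5; linarith)
  have hb : γ.b = γ'.b := by
    rw [h5, ha] at h2
    have h6 : γ'.a * y + γ.b * n = γ'.a * y + γ'.b * n :=
      mul_left_cancel₀ hr.ne' (by linarith)
    exact mul_right_cancel₀ hn.ne' (by linarith)
  exact Gam.ext ha hb hc hd

def evalcross_Ca (p q r : ℤ) (g : evalcross_M) : Prop :=
  p * r ∣ p * g.1 + q * g.2.2.1 ∧ p * r ∣ p * g.2.1 + q * g.2.2.2 ∧ p * r ∣ r * g.2.2.1 ∧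
    p * r ∣ r * g.2.2.2

def evalcross_Cb (y n : ℤ) (g : evalcross_M) : Prop :=
  n ∣ g.2.1 - y * g.1 ∧ n ∣ g.2.2.2 - y * g.2.2.1

theorem evalcross_range {p q r y n : ℤ} (hp : 0 < p) (hr : 0 < r) (hn : 0 < n)
    (h15 : IsCoprime (15 : ℤ) (p * r)) (hc : IsCoprime n (p * r)) (a b c d : ℤ) :
    (a, b, c, d) ∈ Set.range (evalcross_phi p q r y n) ↔ a * d - b * c = p * r * n ∧ 15 ∣ c ∧
      evalcross_Ca p q r (a, b, c, d) ∧ evalcross_Cb y n (a, b, c, d) := by
  have hpr := (mul_pos hp hr).ne'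
  constructor
  · rintro ⟨γ, h⟩
    simp only [evalcross_phi, Prod.mk.injEq] at h
    obtain ⟨rfl, rfl, rfl, rfl⟩ := h
    refine ⟨?_, γ.dvd_c.mul_left _, ⟨⟨γ.a, by ring⟩, ⟨γ.a * y + γ.b * n, by ring⟩,
      ⟨γ.c, by ring⟩, ⟨γ.c * y + γ.d * n, by ring⟩⟩, ⟨r * γ.b - q * γ.d, by ring⟩,
      ⟨p * γ.d, by ring⟩⟩
    linear_combination p * r * n * γ.det_eq
  · rintro ⟨hdet, h15c, ⟨⟨h11, e11⟩, ⟨h12, e12⟩, ⟨h21, e21⟩, ⟨h22, e22⟩⟩, ⟨u, eu⟩, ⟨v, ev⟩⟩
    simp only at e11 e12 e21 e22 eu ev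
    obtain ⟨gb, hgb⟩ : n ∣ h12 - y * h11 := hc.dvd_of_dvd_mul_left
      ⟨p * u + q * v, by linear_combination -e12 + y * e11 + p * eu + q * ev⟩
    obtain ⟨gd, hgd⟩ : n ∣ h22 - y * h21 := hc.dvd_of_dvd_mul_left
      ⟨r * v, by linear_combination -e22 + y * e21 + r * ev⟩
    have h15' : 15 ∣ h21 := h15.dvd_of_dvd_mul_left (e21 ▸ h15c.mul_left r)
    have hdet' : h11 * gd - gb * h21 = 1 := by
      have : (p * r) * ((p * r) * (n * (h11 * gd - gb * h21))) = (p * r) * ((p * r) * (n * 1)) := by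
        have e : (p * r * h11) * (p * r * h22) - (p * r * h12) * (p * r * h21) =
            p * r * (a * d - b * c) := by rw [← e11, ← e12, ← e21, ← e22]; ring
        rw [hdet] at e
        linear_combination e - (p * r) ^ 2 * h11 * hgd + (p * r) ^ 2 * h21 * hgb
      exact mul_left_cancel₀ hn.ne' (mul_left_cancel₀ hpr (mul_left_cancel₀ hpr this))
    refine ⟨⟨h11, gb, h21, gd, hdet', h15'⟩, ?_⟩
    simp only [evalcross_phi, Prod.mk.injEq]
    refine ⟨mul_left_cancel₀ hpr ?_, mul_left_cancel₀ hpr ?_, mul_left_cancel₀ hr.ne' ?_,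
      mul_left_cancel₀ hr.ne' ?_⟩
    · linear_combination -r * e11 + q * e21
    · linear_combination -r * e12 + q * e22 - p * r * r * hgb + p * r * q * hgd
    · linear_combination -e21
    · linear_combination -e22 - p * r * hgd

open Classical in
theorem evalcross_sum {p q r y n : ℤ} {N : ℕ} (hp : 0 < p) (hr : 0 < r) (hn : 0 < n)
    (h15 : IsCoprime (15 : ℤ) (p * r)) (hc : IsCoprime n (p * r)) (hN : p * r * n = N) :
    crossSum (q, r) (p, 0) (y, n) (1, 0) = ∑ g ∈ evalcross_box N,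
      (if evalcross_Ca p q r g then 1 else 0) * (if evalcross_Cb y n g then 1 else 0) *
        evalcross_c0 g := by
  unfold crossSum
  simp only [evalcross_cross_eq hp hr hn]
  rw [← finsum_mem_range (evalcross_phi_inj hp hr hn),
    finsum_mem_eq_sum_of_inter_support_eq
      (t := (evalcross_box N).filter fun g => evalcross_Ca p q r g ∧ evalcross_Cb y n g),
    Finset.sum_filter]
  · refine Finset.sum_congr rfl fun g _ => ?_
    by_cases h1 : evalcross_Ca p q r g <;> by_cases h2 : evalcross_Cb y n g <;> simp [h1, h2]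
  · ext ⟨a, b, c, d⟩
    simp only [Set.mem_inter_iff, evalcross_range hp hr hn h15 hc, Finset.coe_filter,
      Set.mem_ofPred_eq, evalcross_mem_box, hN, Function.mem_support]
    constructor
    · rintro ⟨⟨h1, h2, h3⟩, h4⟩
      refine ⟨⟨⟨h1, h2, ?_⟩, h3⟩, h4⟩
      by_contra h5
      exact h4 (if_neg h5)
    · rintro ⟨⟨⟨h1, h2, -⟩, h3⟩, h4⟩
      exact ⟨⟨h1, h2, h3⟩, h4⟩

theorem evalcross_half {α : Type} (s : Finset α) (σ : α → α) (P : α → Prop) [DecidablePred P]
    (F : α → ℤ) (hσ : ∀ x, σ (σ x) = x) (hs : ∀ x ∈ s, σ x ∈ s) (hP : ∀ x ∈ s, P (σ x) ↔ ¬P x)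
    (hF : ∀ x ∈ s, F (σ x) = F x) : ∑ x ∈ s, F x = 2 * ∑ x ∈ s.filter P, F x := by
  rw [← Finset.sum_filter_add_sum_filter_not s P, two_mul]
  congr 1
  refine Finset.sum_nbij' σ σ ?_ ?_ (fun x _ => hσ x) (fun x _ => hσ x) ?_
  · intro x hx
    rw [Finset.mem_filter] at hx ⊢
    exact ⟨hs x hx.1, (hP x hx.1).2 hx.2⟩
  · intro x hx
    rw [Finset.mem_filter] at hx ⊢
    exact ⟨hs x hx.1, fun h => (hP x hx.1).1 h hx.2⟩
  · intro x hx
    exact (hF x (Finset.mem_filter.1 hx).1).symm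

theorem evalcross_reduce (N : ℕ) (W : evalcross_M → ℤ)
    (h1 : ∀ a b c d, W (-a, -b, -c, -d) = W (a, b, c, d))
    (h2 : ∀ a b c d, W (a, -b, -c, d) = -W (a, b, c, d)) :
    ∑ g ∈ evalcross_box N, W g * evalcross_c0 g =
      -4 * ∑ m ∈ mRange N, ∑ a ∈ (N - 15 * m).divisors, ∑ c ∈ m.divisors,
        W (a, -((m / c : ℕ) : ℤ), 15 * c, (((N - 15 * m) / a : ℕ) : ℤ)) := by
  rw [evalcross_half _ (fun g => (-g.1, -g.2.1, -g.2.2.1, -g.2.2.2)) (fun g => 0 < g.1),
    evalcross_half _ (fun g => (g.1, -g.2.1, -g.2.2.1, g.2.2.2)) (fun g => 0 < g.2.2.1)]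
  · rw [← mul_assoc, show (-4 : ℤ) = 2 * 2 * -1 by norm_num, mul_assoc (2 * 2)]
    congr 1
    simp only [← Finset.sum_product', Finset.sum_sigma', Finset.mul_sum]
    symm
    refine Finset.sum_bij (fun x _ => ((x.2.1 : ℤ), -((x.1 / x.2.2 : ℕ) : ℤ), 15 * (x.2.2 : ℤ),
      (((N - 15 * x.1) / x.2.1 : ℕ) : ℤ))) ?_ ?_ ?_ ?_
    · rintro ⟨m, a, c⟩ hx
      simp only [Finset.mem_sigma, Finset.mem_product, Nat.mem_divisors, mRange,
        Finset.mem_filter, Finset.mem_range] at hx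
      obtain ⟨⟨-, hm, hN⟩, ⟨⟨d, hd⟩, -⟩, ⟨b, rfl⟩, -⟩ := hx
      have hc : 0 < c := Nat.pos_of_mul_pos_right hm
      have hb : 0 < b := Nat.pos_of_mul_pos_left hm
      have had : 0 < a * d := by omega
      have ha : 0 < a := Nat.pos_of_mul_pos_right had
      have hd' : 0 < d := Nat.pos_of_mul_pos_left had
      simp only [Finset.mem_filter, evalcross_mem_box, hd, Nat.mul_div_cancel_left _ hc,
        Nat.mul_div_cancel_left _ ha]
      refine ⟨⟨⟨?_, dvd_mul_right _ _, ?_⟩, by exact_mod_cast ha⟩, by positivity⟩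
      · have : N = a * d + 15 * (c * b) := by omega
        rw [this]; push_cast; ring
      · have : (0 : ℤ) < a * b * (15 * c) * d := by positivity
        linarith
    · rintro ⟨m, a, c⟩ hx ⟨m', a', c'⟩ hx' h
      simp only [Finset.mem_sigma, Finset.mem_product, Nat.mem_divisors] at hx hx'
      simp only [Prod.mk.injEq, Nat.cast_inj, neg_inj] at h
      obtain ⟨rfl, h3, h4, -⟩ := h
      obtain rfl : c = c' := by omega
      obtain rfl : m = m' := by
        rw [← Nat.mul_div_cancel' hx.2.2.1, h3, Nat.mul_div_cancel' hx'.2.2.1]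
      rfl
    · rintro ⟨a, b, c, d⟩ hx
      simp only [Finset.mem_filter, evalcross_mem_box] at hx
      obtain ⟨⟨⟨hdet, ⟨c', rfl⟩, hneg⟩, ha⟩, hc⟩ := hx
      obtain ⟨h3, h4⟩ := evalcross_signs hdet hneg
      have hd : 0 < d := (pos_iff_pos_of_mul_pos h3).1 ha
      have hb : 0 < -b := by
        by_contra h5
        have : 0 ≤ b * (15 * c') := mul_nonneg (by linarith) hc.le
        linarith
      obtain ⟨a, rfl⟩ := Int.eq_ofNat_of_zero_le ha.le
      obtain ⟨d, rfl⟩ := Int.eq_ofNat_of_zero_le hd.le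
      obtain ⟨c, rfl⟩ := Int.eq_ofNat_of_zero_le (show 0 ≤ c' by linarith)
      obtain ⟨b', hb'⟩ := Int.eq_ofNat_of_zero_le hb.le
      obtain rfl : b = -(b' : ℤ) := by linarith
      have ha' : 0 < a := by exact_mod_cast ha
      have hd' : 0 < d := by exact_mod_cast hd
      have hc' : 0 < c := by omega
      have hb'' : 0 < b' := by omega
      have hN : N = a * d + 15 * (c * b') := by
        have : (N : ℤ) = a * d + 15 * (c * b') := by linarith
        exact_mod_cast this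
      have h5 : N - 15 * (c * b') = a * d := by omega
      have h6 := Nat.mul_pos ha' hd'
      have h7 := Nat.mul_pos hc' hb''
      refine ⟨⟨c * b', a, c⟩, ?_, ?_⟩
      · simp only [Finset.mem_sigma, Finset.mem_product, Nat.mem_divisors, mRange,
          Finset.mem_filter, Finset.mem_range, h5]
        exact ⟨⟨by omega, h7, by omega⟩, ⟨dvd_mul_right _ _, h6.ne'⟩, dvd_mul_right _ _, h7.ne'⟩
      · simp only [h5, Nat.mul_div_cancel_left _ hc', Nat.mul_div_cancel_left _ ha']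
    · rintro ⟨m, a, c⟩ hx
      simp only [Finset.mem_sigma, Finset.mem_product, Nat.mem_divisors, mRange,
        Finset.mem_filter, Finset.mem_range] at hx
      obtain ⟨⟨-, hm, hN⟩, ⟨⟨d, hd⟩, -⟩, ⟨b, rfl⟩, -⟩ := hx
      have hc : 0 < c := Nat.pos_of_mul_pos_right hm
      have hb : 0 < b := Nat.pos_of_mul_pos_left hm
      have had : 0 < a * d := by omega
      have ha : 0 < a := Nat.pos_of_mul_pos_right had
      have hd' : 0 < d := Nat.pos_of_mul_pos_left had
      simp only [hd, Nat.mul_div_cancel_left _ hc, Nat.mul_div_cancel_left _ ha, evalcross_c0]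
      have h3 : (0 : ℤ) < a * b * (15 * c) * d := by positivity
      rw [if_pos (by linarith), Int.sign_eq_one_of_pos (by positivity),
        Int.sign_eq_one_of_pos (by exact_mod_cast hd')]
      ring
  · intro x; simp
  · rintro ⟨a, b, c, d⟩ hx
    simp only [Finset.mem_filter, evalcross_mem_box, dvd_neg] at hx ⊢
    exact ⟨⟨by linarith [hx.1.1], hx.1.2.1, by linarith [hx.1.2.2]⟩, hx.2⟩
  · rintro ⟨a, b, c, d⟩ hx
    simp only [Finset.mem_filter, evalcross_mem_box] at hx ⊢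
    have : c ≠ 0 := by rintro rfl; simp at hx
    omega
  · rintro ⟨a, b, c, d⟩ _
    simp only [h2, evalcross_c0, Int.sign_neg, show a * -b * -c * d = a * b * c * d by ring]
    split_ifs <;> ring
  · intro x; simp
  · rintro ⟨a, b, c, d⟩ hx
    simp only [evalcross_mem_box, dvd_neg] at hx ⊢
    exact ⟨by linarith [hx.1], hx.2.1, by linarith [hx.2.2]⟩
  · rintro ⟨a, b, c, d⟩ hx
    simp only [evalcross_mem_box] at hx ⊢
    have : a ≠ 0 := by rintro rfl; simp at hx
    omega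
  · rintro ⟨a, b, c, d⟩ _
    simp only [h1, evalcross_c0, Int.sign_neg, show -a * -b * -c * -d = a * b * c * d by ring]
    split_ifs <;> ring

theorem evalcross_refl (n : ℕ) (f : ℤ → ℤ) (hf : ∀ x, f (x + n) = f x) :
    ∑ x ∈ Finset.range n, f (-(x : ℤ)) = ∑ x ∈ Finset.range n, f x := by
  have h1 := Finset.sum_range_succ (fun x : ℕ => f (-(x : ℤ))) n
  have h2 := Finset.sum_range_succ' (fun x : ℕ => f (-(x : ℤ))) n
  have h3 : f (-(n : ℤ)) = f (-((0 : ℕ) : ℤ)) := by rw [← hf]; simp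
  rw [← Finset.sum_range_reflect (fun x : ℕ => f x) n]
  have h4 : ∑ x ∈ Finset.range n, f (-((x + 1 : ℕ) : ℤ)) =
      ∑ x ∈ Finset.range n, f ((n - 1 - x : ℕ) : ℤ) := by
    refine Finset.sum_congr rfl fun x hx => ?_
    rw [← hf]
    congr 1
    have := Finset.mem_range.1 hx
    omega
  linarith

theorem evalcross_jac_add (x : ℤ) (n : ℕ) : jacobiSym (x + n) n = jacobiSym x n :=
  jacobiSym.mod_left' (by simp)

theorem evalcross_W1_neg (n : ℕ) (a b c d : ℤ) : W1 n (-a) (-b) (-c) (-d) = W1 n a b c d := by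
  unfold W1
  refine Finset.sum_congr rfl fun x _ => ?_
  rw [show -a + x * -c = -(a + x * c) by ring, show -b + x * -d = -(b + x * d) by ring]
  simp only [dvd_neg]

theorem evalcross_W2_neg (n : ℕ) (a b c d : ℤ) : W2 n (-a) (-b) (-c) (-d) = W2 n a b c d := by
  unfold W2
  refine Finset.sum_congr rfl fun x _ => ?_
  rw [show -b - x * -a = -(b - x * a) by ring, show -d - x * -c = -(d - x * c) by ring]
  simp only [dvd_neg]

theorem evalcross_dvd_shift (n u v x : ℤ) : n ∣ u + (x + n) * v ↔ n ∣ u + x * v := by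
  rw [show u + (x + n) * v = u + x * v + n * v by ring]
  exact dvd_add_left (dvd_mul_right _ _)

theorem evalcross_W1_flip {n : ℕ} (h : n % 4 = 1) (a b c d : ℤ) :
    W1 n a (-b) (-c) d = W1 n a b c d := by
  unfold W1
  rw [← evalcross_refl n (fun x => if (n : ℤ) ∣ a + x * c ∧ (n : ℤ) ∣ b + x * d then
    jacobiSym x n else 0) fun x => by simp only [evalcross_dvd_shift, evalcross_jac_add]]
  refine Finset.sum_congr rfl fun x _ => ?_
  rw [show a + -(x : ℤ) * c = a + x * -c by ring, show b + -(x : ℤ) * d = -(-b + x * d) by ring,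
    jacobiSym.neg _ (Nat.odd_iff.2 (by omega)), ZMod.χ₄_nat_one_mod_four h, one_mul]
  simp only [dvd_neg]

theorem evalcross_W2_flip {n : ℕ} (h : n % 4 = 3) (a b c d : ℤ) :
    W2 n a (-b) (-c) d = -W2 n a b c d := by
  unfold W2
  have := evalcross_refl n (fun x => if (n : ℤ) ∣ b + x * -a ∧ (n : ℤ) ∣ d + x * -c then
    jacobiSym x n else 0) fun x => by simp only [evalcross_dvd_shift, evalcross_jac_add]
  simp only [mul_neg, ← sub_eq_add_neg] at this
  rw [← this, ← Finset.sum_neg_distrib]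
  refine Finset.sum_congr rfl fun x _ => ?_
  rw [show b - -(x : ℤ) * a = -(-b - x * a) by ring, show d - -(x : ℤ) * c = d - x * -c by ring,
    jacobiSym.neg _ (Nat.odd_iff.2 (by omega)), ZMod.χ₄_nat_three_mod_four h]
  simp only [dvd_neg]
  split_ifs <;> simp

open Classical in
theorem evalcross_W2_eq (n : ℕ) (g : evalcross_M) :
    ∑ y ∈ Finset.range n, jacobiSym y n * (if evalcross_Cb y n g then 1 else 0) =
      W2 n g.1 g.2.1 g.2.2.1 g.2.2.2 := by
  unfold W2 evalcross_Cb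
  refine Finset.sum_congr rfl fun y _ => ?_
  split_ifs <;> simp

open Classical in
theorem evalcross_W1_eq (n : ℕ) (g : evalcross_M) :
    ∑ x ∈ Finset.range n, jacobiSym x n * (if evalcross_Ca 1 x n g then 1 else 0) =
      W1 n g.1 g.2.1 g.2.2.1 g.2.2.2 := by
  unfold W1 evalcross_Ca
  refine Finset.sum_congr rfl fun y _ => ?_
  simp only [one_mul, dvd_mul_right, and_true]
  split_ifs <;> simp

theorem eval_cross {n₁ n₂ : ℕ} (h : Adm (n₁ * n₂)) (h41 : n₁ % 4 = 1) (h42 : n₂ % 4 = 3) :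
    ∑ a ∈ Finset.range n₁, ∑ b ∈ Finset.range n₂, jacobiSym a n₁ * jacobiSym b n₂ *
      crossSum ((a : ℤ), (n₁ : ℤ)) (1, 0) ((b : ℤ), (n₂ : ℤ)) (1, 0) =
      -4 * ∑ m ∈ mRange (n₁ * n₂), MW n₁ n₂ (n₁ * n₂ - 15 * m) m := by
  classical
  have h1 : (0 : ℤ) < n₁ := by omega
  have h2 : (0 : ℤ) < n₂ := by omega
  have h15 : IsCoprime (15 : ℤ) (1 * n₁) := by
    rw [one_mul]
    exact Nat.isCoprime_iff_coprime.2 ((Nat.Coprime.coprime_mul_right h.2).symm.coprime_dvd_left
      (m := 15) (by norm_num))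
  have hc : IsCoprime (n₂ : ℤ) (1 * n₁) := by
    rw [one_mul]
    exact Nat.isCoprime_iff_coprime.2 (Nat.coprime_of_squarefree_mul h.1).symm
  simp only [evalcross_sum (N := n₁ * n₂) one_pos h1 h2 h15 hc (by push_cast; ring), MW]
  rw [← evalcross_reduce (n₁ * n₂)
    (fun g => W1 n₁ g.1 g.2.1 g.2.2.1 g.2.2.2 * W2 n₂ g.1 g.2.1 g.2.2.1 g.2.2.2)
    (fun a b c d => by simp only [evalcross_W1_neg, evalcross_W2_neg])
    (fun a b c d => by simp only [evalcross_W1_flip h41, evalcross_W2_flip h42, mul_neg])]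
  simp only [← evalcross_W1_eq, ← evalcross_W2_eq, Finset.sum_mul_sum]
  simp only [Finset.sum_mul, Finset.mul_sum]
  rw [Finset.sum_comm (s := evalcross_box _)]
  refine Finset.sum_congr rfl fun a _ => ?_
  rw [Finset.sum_comm (s := evalcross_box _)]
  refine Finset.sum_congr rfl fun b _ => Finset.sum_congr rfl fun g _ => ?_
  ring

theorem evalcross_scale1 (y₁ y₂ : V) : crossSum (0, 2) (1, 0) y₁ y₂ = crossSum (0, 1) (1, 0) y₁ y₂ := by
  unfold crossSum
  refine finsum_congr fun g => ?_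
  have : ∀ y : V, (dt (0, 2) y).sign = (dt (0, 1) y).sign := fun y => by
    rw [← evalcross_sign_mul two_pos (dt (0, 1) y)]; congr 1; simp only [dt]; ring
  have h : ∀ z₁ z₂ : V, side z₁ z₂ (0, 2) = side z₁ z₂ (0, 1) := fun z₁ z₂ => by
    simp only [side, this]
  unfold cross
  rw [h]

theorem evalcross_scale2 (y₁ y₂ : V) : crossSum (0, 1) (2, 0) y₁ y₂ = crossSum (0, 1) (1, 0) y₁ y₂ := by
  unfold crossSum
  refine finsum_congr fun g => ?_
  have : ∀ y : V, (dt (2, 0) y).sign = (dt (1, 0) y).sign := fun y => by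
    rw [← evalcross_sign_mul two_pos (dt (1, 0) y)]; congr 1; simp only [dt]; ring
  have h : ∀ z₁ z₂ : V, side z₁ z₂ (2, 0) = side z₁ z₂ (1, 0) := fun z₁ z₂ => by
    simp only [side, this]
  unfold cross
  rw [h]

open Classical in
theorem evalcross_one {n : ℕ} (h4 : n % 4 = 3) {g : evalcross_M} (hg : g ∈ evalcross_box (2 * n)) :
    (if evalcross_Ca 1 1 2 g then (1 : ℤ) else 0) + (if evalcross_Ca 1 0 2 g then 1 else 0) +
      (if evalcross_Ca 2 0 1 g then 1 else 0) = 1 := by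
  obtain ⟨a, b, c, d⟩ := g
  have hd := (evalcross_mem_box.1 hg).1
  push_cast at hd
  simp only [evalcross_Ca, one_mul, mul_one, zero_mul, add_zero, dvd_mul_right, and_true, true_and]
  obtain ⟨a, rfl | rfl⟩ := Int.even_or_odd' a <;> obtain ⟨b, rfl | rfl⟩ := Int.even_or_odd' b <;>
    obtain ⟨c, rfl | rfl⟩ := Int.even_or_odd' c <;> obtain ⟨d, rfl | rfl⟩ := Int.even_or_odd' d <;>
    ring_nf at hd <;> generalize a * d = u at hd <;> generalize b * c = v at hd <;>
    split_ifs <;> omega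

theorem eval_cross_two {n : ℕ} (h : Adm n) (h4 : n % 4 = 3) :
    ∑ b ∈ Finset.range n, jacobiSym b n *
      (crossSum (1, 2) (1, 0) ((b : ℤ), (n : ℤ)) (1, 0) +
        2 * crossSum (0, 1) (1, 0) ((b : ℤ), (n : ℤ)) (1, 0)) =
      -4 * ∑ m ∈ mRange (2 * n), MW 1 n (2 * n - 15 * m) m := by
  classical
  have h2 : (0 : ℤ) < n := by omega
  have h15 : IsCoprime (15 : ℤ) 2 := Int.isCoprime_iff_gcd_eq_one.2 (by norm_num)
  have hc : IsCoprime (n : ℤ) 2 :=
    Nat.isCoprime_iff_coprime.2 (h.2.coprime_dvd_right (n := 2) (by norm_num))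
  have hW : ∀ a b c d, W1 1 a b c d = 1 := fun a b c d => by simp [W1]
  have key : ∀ b : ℤ, crossSum (1, 2) (1, 0) (b, (n : ℤ)) (1, 0) +
      2 * crossSum (0, 1) (1, 0) (b, (n : ℤ)) (1, 0) = ∑ g ∈ evalcross_box (2 * n),
        (if evalcross_Cb b n g then 1 else 0) * evalcross_c0 g := fun b => by
    rw [two_mul]
    nth_rw 1 [← evalcross_scale1]
    rw [← evalcross_scale2,
      evalcross_sum (N := 2 * n) (q := 1) one_pos two_pos h2 (by simpa using h15)
        (by simpa using hc) (by push_cast; ring),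
      evalcross_sum (N := 2 * n) (q := 0) one_pos two_pos h2 (by simpa using h15)
        (by simpa using hc) (by push_cast; ring),
      evalcross_sum (N := 2 * n) (q := 0) two_pos one_pos h2 (by simpa using h15)
        (by simpa using hc) (by push_cast; ring), ← Finset.sum_add_distrib,
      ← Finset.sum_add_distrib]
    refine Finset.sum_congr rfl fun g hg => ?_
    linear_combination (if evalcross_Cb b n g then 1 else 0) * evalcross_c0 g *
      evalcross_one h4 hg
  simp only [key, MW, hW, one_mul]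
  rw [← evalcross_reduce (2 * n) (fun g => W2 n g.1 g.2.1 g.2.2.1 g.2.2.2)
    (fun a b c d => by simp only [evalcross_W2_neg])
    (fun a b c d => by simp only [evalcross_W2_flip h4])]
  simp only [← evalcross_W2_eq, Finset.sum_mul, Finset.mul_sum]
  rw [Finset.sum_comm (s := evalcross_box _)]
  refine Finset.sum_congr rfl fun b _ => Finset.sum_congr rfl fun g _ => ?_
  ring

end Pool.Agent.P.MP_8b7eba_nt.BSD15
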