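import Pool.Agent.P.MP_8b7eba_nt.BSD15.QCount

/-! Genus theory. -/

namespace Pool.Agent.P.MP_8b7eba_nt.BSD15

theorem Xp_mul (n : ℕ) {p : ℕ} (hp : p.Prime) {A B : ℕ} (hA : A ≠ 0) (hB : B ≠ 0) :
    Xp n p (A * B) = Xp n p A * Xp n p B := by
  have _ := hp
  unfold Xp
  rw [Nat.ordCompl_mul A B p, Nat.factorization_mul hA hB, Finsupp.add_apply, pow_add,
    Nat.cast_mul, jacobiSym.mul_left]
  ring

theorem Xp_of_not_dvd (n : ℕ) {p A : ℕ} (h : ¬ p ∣ A) : Xp n p A = jacobiSym A p := by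
  unfold Xp
  rw [Nat.factorization_eq_zero_of_not_dvd h]
  simp

theorem genus_Xp_self (n : ℕ) {p : ℕ} (hp : p.Prime) : Xp n p p = jacobiSym p (n / p) := by
  unfold Xp
  rw [hp.factorization_self]
  simp [Nat.div_self hp.pos]

theorem genus_jac_prod (a : ℤ) (s : Finset ℕ) (hs : ∀ p ∈ s, p ≠ 0) :
    jacobiSym a (∏ p ∈ s, p) = ∏ p ∈ s, jacobiSym a p := by
  induction s using Finset.induction_on with
  | empty => simp
  | insert q s hq ih =>
    rw [Finset.prod_insert hq, Finset.prod_insert hq,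
      jacobiSym.mul_right' a (hs q (by simp))
        (Finset.prod_ne_zero_iff.2 fun p hp => hs p (by simp [hp])),
      ih fun p hp => hs p (by simp [hp])]

theorem genus_exists_nonres {p : ℕ} (hp : p.Prime) (h2 : p ≠ 2) :
    ∃ a : ℕ, jacobiSym a p = -1 := by
  have := Fact.mk hp
  obtain ⟨a, ha⟩ := FiniteField.exists_nonsquare (F := ZMod p) (by rwa [ZMod.ringChar_zmod_n])
  refine ⟨a.val, ZMod.nonsquare_iff_jacobiSym_eq_neg_one.2 ?_⟩
  simpa using ha

variable {n : ℕ} [Good n]

theorem genus_ne_zero : n ≠ 0 := by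
  have := Good.gt (n := n)
  omega

theorem genus_odd {d : ℕ} (h : d ∣ n) : d % 2 = 1 := by
  have h4 := Good.h4 (n := n)
  by_contra h2
  have : 2 ∣ n := (Nat.dvd_of_mod_eq_zero (by omega)).trans h
  omega

theorem genus_coprime {d : ℕ} (h : d ∣ n) : d.Coprime (n / d) := by
  have hs := Good.sq (n := n)
  rw [← Nat.mul_div_cancel' h] at hs
  exact Nat.coprime_of_squarefree_mul hs

theorem genus_jac_n (a : ℤ) : jacobiSym a n = ∏ p ∈ n.primeFactors, jacobiSym a p := by
  rw [← genus_jac_prod a _ fun p hp => (Nat.prime_of_mem_primeFactors hp).ne_zero,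
    Nat.prod_primeFactors_of_squarefree Good.sq]

theorem Xp_sq {p : ℕ} (hp : p ∈ n.primeFactors) {A : ℕ} (hA : A ≠ 0) : Xp n p A ^ 2 = 1 := by
  have hpp := Nat.prime_of_mem_primeFactors hp
  unfold Xp
  rw [mul_pow, ← pow_mul, mul_comm (A.factorization p), pow_mul, jacobiSym.sq_one, jacobiSym.sq_one]
  · simp
  · exact_mod_cast genus_coprime (Nat.dvd_of_mem_primeFactors hp)
  · exact_mod_cast (Nat.coprime_ordCompl hpp hA).symm

theorem genus_recip {p : ℕ} (hp : p ∈ n.primeFactors) :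
    jacobiSym p (n / p) * jacobiSym ((n / p : ℕ) : ℤ) p = 1 := by
  have hd := Nat.dvd_of_mem_primeFactors hp
  have h1 := genus_odd hd
  have h2 := genus_odd (Nat.div_dvd_of_dvd hd)
  have h3 : p * (n / p) % 4 = 3 := by rw [Nat.mul_div_cancel' hd]; exact Good.h4
  have h4 : jacobiSym p (n / p) = jacobiSym ((n / p : ℕ) : ℤ) p := by
    by_cases h : p % 4 = 1
    · exact jacobiSym.quadratic_reciprocity_one_mod_four h (Nat.odd_iff.2 h2)
    · refine jacobiSym.quadratic_reciprocity_one_mod_four' (Nat.odd_iff.2 h1) ?_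
      have h5 : p % 4 = 3 := by omega
      have h6 : n / p % 4 = 1 ∨ n / p % 4 = 3 := by omega
      rcases h6 with h6 | h6
      · exact h6
      · rw [Nat.mul_mod, h5, h6] at h3
        omega
  rw [← h4, ← sq, jacobiSym.sq_one]
  exact_mod_cast genus_coprime hd

theorem genus_gcd_one {p : ℕ} (hp : p.Prime) {x : ℤ} (h : ¬ (p : ℤ) ∣ x) : x.gcd p = 1 := by
  rw [Int.gcd_comm]
  exact Int.isCoprime_iff_gcd_eq_one.1
    ((Nat.prime_iff_prime_int.1 hp).irreducible.coprime_iff_not_dvd.2 h)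

/-- the genus characters are trivial on the values of the principal form -/
theorem genus_Xp_form {p : ℕ} (hp : p ∈ n.primeFactors) (N : ℕ) :
    ∀ x y : ℤ, N ≠ 0 → 4 * (N : ℤ) = x ^ 2 + n * y ^ 2 → Xp n p N = 1 := by
  have hpp := Nat.prime_of_mem_primeFactors hp
  have hpi := Nat.prime_iff_prime_int.1 hpp
  have hd := Nat.dvd_of_mem_primeFactors hp
  have hodd : Odd p := Nat.odd_iff.2 (genus_odd hd)
  have hp0 : (p : ℤ) ≠ 0 := by exact_mod_cast hpp.ne_zero
  have h4 : ¬ (p : ℤ) ∣ 4 := by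
    intro h
    have h' : p ∣ 2 ^ 2 := by exact_mod_cast h
    have := (Nat.prime_dvd_prime_iff_eq hpp Nat.prime_two).1 (hpp.dvd_of_dvd_pow h')
    rw [this] at hodd
    exact absurd hodd (by decide)
  have hn : (n : ℤ) = p * ((n / p : ℕ) : ℤ) := by exact_mod_cast (Nat.mul_div_cancel' hd).symm
  have hm : ¬ (p : ℤ) ∣ ((n / p : ℕ) : ℤ) := by
    intro h
    exact (hpp.coprime_iff_not_dvd.1 (genus_coprime hd)) (by exact_mod_cast h)
  have hJ : ∀ (M : ℕ) (u : ℤ), (p : ℤ) ∣ u - 4 * (M : ℤ) → jacobiSym M p = jacobiSym u p := by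
    intro M u h
    rw [← jacobiSym.mod_left' (Int.modEq_iff_dvd.2 h), jacobiSym.mul_left, jacobiSym.at_four hodd,
      one_mul]
  induction N using Nat.strong_induction_on with
  | _ N ih =>
  intro x y hN h
  by_cases hpN : p ∣ N
  swap
  · have hx : ¬ (p : ℤ) ∣ x := by
      intro hx
      have : (p : ℤ) ∣ 4 * (N : ℤ) := by
        rw [h, hn]
        exact dvd_add (Dvd.dvd.pow hx two_ne_zero) ((dvd_mul_right _ _).mul_right _)
      rcases hpi.dvd_or_dvd this with h' | h'
      · exact h4 h'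
      · exact hpN (by exact_mod_cast h')
    rw [Xp_of_not_dvd n hpN, hJ N (x ^ 2), jacobiSym.sq_one' (genus_gcd_one hpp hx)]
    rw [h, hn]
    exact ⟨-(((n / p : ℕ) : ℤ) * y ^ 2), by ring⟩
  obtain ⟨M, rfl⟩ := hpN
  have hM : M ≠ 0 := right_ne_zero_of_mul hN
  have hx : (p : ℤ) ∣ x := by
    refine hpi.dvd_of_dvd_pow (n := 2) ⟨4 * M - ((n / p : ℕ) : ℤ) * y ^ 2, ?_⟩
    rw [hn] at h
    push_cast at h ⊢
    linear_combination -h
  obtain ⟨x, rfl⟩ := hx
  have h2 : 4 * (M : ℤ) = p * x ^ 2 + ((n / p : ℕ) : ℤ) * y ^ 2 := by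
    refine mul_left_cancel₀ hp0 ?_
    rw [hn] at h
    push_cast at h ⊢
    linear_combination h
  by_cases hy : (p : ℤ) ∣ y
  · obtain ⟨y, rfl⟩ := hy
    have : (p : ℤ) ∣ 4 * (M : ℤ) := ⟨x ^ 2 + ((n / p : ℕ) : ℤ) * p * y ^ 2, by rw [h2]; ring⟩
    have hpM : p ∣ M := by
      rcases hpi.dvd_or_dvd this with h' | h'
      · exact absurd h' h4
      · exact_mod_cast h'
    obtain ⟨M, rfl⟩ := hpM
    have hM' : M ≠ 0 := right_ne_zero_of_mul hM
    have h3 : 4 * (M : ℤ) = x ^ 2 + n * y ^ 2 := by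
      refine mul_left_cancel₀ hp0 ?_
      rw [hn]
      generalize ((n / p : ℕ) : ℤ) = m at h2
      push_cast at h2
      linear_combination h2
    have hlt : M < p * (p * M) := by
      rw [← mul_assoc]
      exact lt_mul_of_one_lt_left (Nat.pos_of_ne_zero hM') (one_lt_mul'' hpp.one_lt hpp.one_lt)
    rw [Xp_mul n hpp hpp.ne_zero hM, Xp_mul n hpp hpp.ne_zero hM', ih M hlt x y hM' h3, mul_one,
      ← sq, Xp_sq hp hpp.ne_zero]
  · have hpM : ¬ p ∣ M := by
      rintro ⟨M, rfl⟩
      have : (p : ℤ) ∣ ((n / p : ℕ) : ℤ) * y ^ 2 := ⟨4 * M - x ^ 2, by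
        generalize ((n / p : ℕ) : ℤ) = m at h2
        push_cast at h2
        linear_combination -h2⟩
      rcases hpi.dvd_or_dvd this with h' | h'
      · exact hm h'
      · exact hy (hpi.dvd_of_dvd_pow h')
    rw [Xp_mul n hpp hpp.ne_zero hM, genus_Xp_self n hpp, Xp_of_not_dvd n hpM,
      hJ M (((n / p : ℕ) : ℤ) * y ^ 2) ⟨-x ^ 2, by rw [h2]; ring⟩, jacobiSym.mul_left,
      jacobiSym.sq_one' (genus_gcd_one hpp hy), mul_one, genus_recip hp]

theorem genus_cj_ne_bot {A : Ideal (OO n)} (hA : A ≠ ⊥) : cj A ≠ ⊥ := by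
  rwa [Ne, ← nm_eq_zero, nm_cj, nm_eq_zero]

theorem genus_rep_ne_bot (c : ClassGroup (OO n)) : rep c ≠ ⊥ := ne_bot_of_coprime (rep_coprime c)

theorem genus_nm_ne {A : Ideal (OO n)} (hA : A ≠ ⊥) : nm A ≠ 0 := fun h => hA (nm_eq_zero.1 h)

theorem gch_cls {p : ℕ} (hp : p ∈ n.primeFactors) {A : Ideal (OO n)} (hA : A ≠ ⊥) :
    gch p (cls A) = Xp n p (nm A) := by
  have hR := genus_rep_ne_bot (cls A)
  have hC := genus_cj_ne_bot hA
  have hRC : rep (cls A) * cj A ≠ ⊥ := mul_ne_zero hR hC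
  have h1 : cls (rep (cls A) * cj A) = 1 := by
    rw [cls_mul hR hC, cls_rep, cls_cj, mul_inv_cancel]
  obtain ⟨z, hz⟩ := (cls_eq_one_iff hRC).1 h1
  have h2 := genus_Xp_form hp (nm (rep (cls A) * cj A)) (2 * z.re + z.im) z.im (genus_nm_ne hRC)
    (by rw [hz, nm_span, four_mul_norm])
  rw [nm_mul, nm_cj, Xp_mul n (Nat.prime_of_mem_primeFactors hp) (genus_nm_ne hR)
    (genus_nm_ne hA)] at h2
  have h3 := Xp_sq hp (genus_nm_ne hA)
  unfold gch
  linear_combination Xp n p (nm A) * h2 - Xp n p (nm (rep (cls A))) * h3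

theorem gch_mul {p : ℕ} (hp : p ∈ n.primeFactors) (c d : ClassGroup (OO n)) :
    gch p (c * d) = gch p c * gch p d := by
  have hc := genus_rep_ne_bot c
  have hd := genus_rep_ne_bot d
  have := gch_cls hp (A := rep c * rep d) (mul_ne_zero hc hd)
  rwa [cls_mul hc hd, cls_rep, cls_rep, nm_mul,
    Xp_mul n (Nat.prime_of_mem_primeFactors hp) (genus_nm_ne hc) (genus_nm_ne hd)] at this

theorem gch_sq {p : ℕ} (hp : p ∈ n.primeFactors) (c : ClassGroup (OO n)) : gch p c ^ 2 = 1 :=
  Xp_sq hp (genus_nm_ne (genus_rep_ne_bot c))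

theorem genus_gch_one {p : ℕ} (hp : p ∈ n.primeFactors) :
    gch p (1 : ClassGroup (OO n)) = 1 := by
  have h1 := gch_mul hp (1 : ClassGroup (OO n)) 1
  have h2 := gch_sq hp (1 : ClassGroup (OO n))
  rw [mul_one] at h1
  rw [h1, ← sq, h2]

omit [Good n] in
theorem genus_Rn_symm {N : ℕ} (h : N.Coprime n) : Rn n N = jacobiSym N n * Rn n N := by
  unfold Rn
  rw [Finset.mul_sum, ← Nat.sum_div_divisors N fun d => jacobiSym d n]
  refine Finset.sum_congr rfl fun d hd => ?_
  have hd' := Nat.dvd_of_mem_divisors hd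
  have h1 : jacobiSym d n ^ 2 = 1 :=
    jacobiSym.sq_one (by exact_mod_cast Nat.Coprime.coprime_dvd_left hd' h)
  have h2 : jacobiSym N n = jacobiSym ((N / d : ℕ) : ℤ) n * jacobiSym d n := by
    rw [← jacobiSym.mul_left, ← Nat.cast_mul, Nat.div_mul_cancel hd']
  rw [h2]
  linear_combination -jacobiSym ((N / d : ℕ) : ℤ) n * h1

theorem prod_gch (c : ClassGroup (OO n)) : ∏ p ∈ n.primeFactors, gch p c = 1 := by
  have hc := rep_coprime c
  have h0 : 0 < nm (rep c) := Nat.pos_of_ne_zero (genus_nm_ne (genus_rep_ne_bot c))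
  have h1 : ∏ p ∈ n.primeFactors, gch p c = jacobiSym (nm (rep c)) n := by
    rw [genus_jac_n]
    refine Finset.prod_congr rfl fun p hp => Xp_of_not_dvd n ?_
    exact (Nat.prime_of_mem_primeFactors hp).coprime_iff_not_dvd.1
      (Nat.Coprime.coprime_dvd_left (Nat.dvd_of_mem_primeFactors hp) hc.symm)
  have h2 : Rn n (nm (rep c)) ≠ 0 := by
    rw [← ncard_nm_eq h0]
    exact_mod_cast ((Set.ncard_pos (finite_nm_eq h0)).2 ⟨rep c, rfl⟩).ne'
  rw [h1]
  exact mul_right_cancel₀ h2 (by rw [one_mul]; exact (genus_Rn_symm hc).symm)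

theorem gch_surj (ε : ℕ → ℤ) (h1 : ∀ p ∈ n.primeFactors, ε p = 1 ∨ ε p = -1)
    (hprod : ∏ p ∈ n.primeFactors, ε p = 1) :
    ∃ c : ClassGroup (OO n), ∀ p ∈ n.primeFactors, gch p c = ε p := by
  have ha : ∀ p : ℕ, ∃ a : ℕ, p ∈ n.primeFactors → jacobiSym a p = ε p := by
    intro p
    by_cases hp : p ∈ n.primeFactors
    · rcases h1 p hp with h | h
      · exact ⟨1, fun _ => by simp [h]⟩
      · have h2 := genus_odd (Nat.dvd_of_mem_primeFactors hp)
        obtain ⟨a, ha⟩ := genus_exists_nonres (Nat.prime_of_mem_primeFactors hp) (by omega)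
        exact ⟨a, fun _ => by rw [ha, h]⟩
    · exact ⟨0, fun h => absurd h hp⟩
  choose a ha using ha
  obtain ⟨f, hf⟩ := Nat.chineseRemainderOfFinset a id n.primeFactors
    (fun p hp => (Nat.prime_of_mem_primeFactors hp).ne_zero)
    (fun p hp q hq hpq => (Nat.coprime_primes (Nat.prime_of_mem_primeFactors hp)
      (Nat.prime_of_mem_primeFactors hq)).2 hpq)
  have hf' : ∀ p ∈ n.primeFactors, jacobiSym f p = ε p := fun p hp => by
    rw [← ha p hp]
    exact jacobiSym.mod_left' (by exact_mod_cast hf p hp)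
  have hfn : jacobiSym f n = 1 := by rw [genus_jac_n, Finset.prod_congr rfl hf', hprod]
  have hcop : f.Coprime n := by
    by_contra h
    have : jacobiSym f n = 0 := jacobiSym.eq_zero_iff.2 ⟨genus_ne_zero, by exact_mod_cast h⟩
    rw [this] at hfn
    exact zero_ne_one hfn
  obtain ⟨q, hqn, hq, hqf⟩ := Nat.forall_exists_prime_gt_and_modEq n genus_ne_zero hcop
  have hR : Rn n q = 2 := by
    unfold Rn
    rw [hq.sum_divisors, jacobiSym.mod_left' (a₂ := f) (by exact_mod_cast hqf), hfn]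
    simp
  have hne : {A : Ideal (OO n) | nm A = q}.Nonempty := by
    apply Set.nonempty_of_ncard_ne_zero
    intro h
    rw [← ncard_nm_eq hq.pos, h] at hR
    exact absurd hR (by decide)
  obtain ⟨A, hA⟩ := hne
  have hA' : nm A = q := hA
  refine ⟨cls A, fun p hp => ?_⟩
  have hpn := Nat.dvd_of_mem_primeFactors hp
  rw [gch_cls hp (fun h => hq.ne_zero (hA' ▸ nm_eq_zero.2 h)), hA', Xp_of_not_dvd, ← hf' p hp]
  · exact jacobiSym.mod_left' (by exact_mod_cast hqf.of_dvd hpn)
  · intro h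
    have := (Nat.prime_dvd_prime_iff_eq (Nat.prime_of_mem_primeFactors hp) hq).1 h
    have := Nat.le_of_dvd (Nat.pos_of_ne_zero genus_ne_zero) hpn
    omega

/-! ### Ambiguous classes -/

theorem genus_cls_span {z : OO n} (hz : z ≠ 0) : cls (Ideal.span {z}) = 1 :=
  (cls_eq_one_iff (by simpa using hz)).2 ⟨z, rfl⟩

theorem genus_nm_top : nm (⊤ : Ideal (OO n)) = 1 := Ideal.absNorm_top

theorem genus_nm_eq_one {A : Ideal (OO n)} (h : nm A = 1) : A = ⊤ := Ideal.absNorm_eq_one_iff.1 h

theorem genus_cls_top : cls (⊤ : Ideal (OO n)) = 1 := by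
  rw [← Ideal.span_singleton_one]; exact genus_cls_span one_ne_zero

/-- a class of order dividing two contains an ideal fixed by conjugation -/
theorem genus_exists_fixed {c : ClassGroup (OO n)} (hc : c ^ 2 = 1) :
    ∃ B : Ideal (OO n), B ≠ ⊥ ∧ cj B = B ∧ cls B = c := by
  have hA := genus_rep_ne_bot c
  have hcA := cls_rep c
  generalize rep c = A at hA hcA
  have hAA : A * A ≠ ⊥ := mul_ne_zero hA hA
  obtain ⟨α, hα⟩ := (cls_eq_one_iff hAA).1 (by rw [cls_mul hA hA, hcA, ← sq, hc])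
  have hα0 : α ≠ 0 := by
    rintro rfl
    exact hAA (by simpa using hα)
  have hN : α * star α = (nm A : OO n) * (nm A : OO n) := by
    rw [← QuadraticAlgebra.algebraMap_norm_eq_mul_star, ← nm_span, ← hα, nm_mul]
    simp
  by_cases hβ : (nm A : OO n) + star α = 0
  · refine ⟨A, hA, mul_left_cancel₀ hA ?_, hcA⟩
    have h1 : α = -(nm A : OO n) := by
      have := congrArg star hβ
      rw [star_add, star_star, star_natCast, star_zero] at this
      linear_combination this
    rw [mul_cj, hα, h1, Ideal.span_singleton_neg]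
  · have hβ' : Ideal.span {(nm A : OO n) + star α} ≠ ⊥ := by simpa using hβ
    refine ⟨A * Ideal.span {(nm A : OO n) + star α}, mul_ne_zero hA hβ', ?_, ?_⟩
    · refine mul_left_cancel₀ hA ?_
      rw [cj_mul, ← mul_assoc, ← mul_assoc, mul_cj, hα, cj_span, Ideal.span_singleton_mul_span_singleton,
        Ideal.span_singleton_mul_span_singleton, star_add, star_star, star_natCast]
      congr 2
      linear_combination -hN
    · rw [cls_mul hA hβ', hcA, genus_cls_span hβ, mul_one]

theorem genus_cj_isPrime {P : Ideal (OO n)} (hP : P.IsPrime) : (cj P).IsPrime := by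
  refine ⟨fun h => hP.ne_top ?_, fun {x y} h => ?_⟩
  · rw [Ideal.eq_top_iff_one] at h ⊢
    simpa using mem_cj.1 h
  · rw [mem_cj, star_mul] at h
    rw [mem_cj, mem_cj]
    exact (hP.mem_or_mem h).symm

/-- the ramified ideal above `p` -/
noncomputable def genusD (n : ℕ) [Good n] (p : ℕ) : Ideal (OO n) :=
  if h : p ∣ n then (exists_ramified h).choose else ⊤

theorem genusD_nm {p : ℕ} (h : p ∣ n) : nm (genusD n p) = p := by
  rw [genusD, dif_pos h]; exact (exists_ramified h).choose_spec.1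

theorem genusD_cj {p : ℕ} (h : p ∣ n) : cj (genusD n p) = genusD n p := by
  rw [genusD, dif_pos h]; exact (exists_ramified h).choose_spec.2.1

theorem genusD_ne_bot {p : ℕ} (h : p ∣ n) : genusD n p ≠ ⊥ := by
  rw [Ne, ← nm_eq_zero, genusD_nm h]
  exact ne_zero_of_dvd_ne_zero genus_ne_zero h

theorem genusD_mul_self {p : ℕ} (h : p ∣ n) :
    genusD n p * genusD n p = Ideal.span {(p : OO n)} := by
  have := mul_cj (genusD n p)
  rwa [genusD_cj h, genusD_nm h] at this

theorem genus_cls_sq {B : Ideal (OO n)} (h : cj B = B) : cls B ^ 2 = 1 := by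
  have := cls_cj B
  rw [h] at this
  rw [sq]
  nth_rewrite 1 [this]
  exact inv_mul_cancel _

theorem genus_prod_spec (s : Finset ℕ) (hs : ∀ p ∈ s, p ∣ n) :
    (∏ p ∈ s, genusD n p) ≠ ⊥ ∧ cls (∏ p ∈ s, genusD n p) = ∏ p ∈ s, cls (genusD n p) ∧
      (∏ p ∈ s, genusD n p) ^ 2 = Ideal.span {((∏ p ∈ s, p : ℕ) : OO n)} := by
  induction s using Finset.induction_on with
  | empty => simp [genus_cls_top]
  | insert q s hq ih =>
    obtain ⟨h1, h2, h3⟩ := ih fun p hp => hs p (by simp [hp])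
    have hqn := hs q (by simp)
    simp only [Finset.prod_insert hq]
    refine ⟨mul_ne_zero (genusD_ne_bot hqn) h1, by rw [cls_mul (genusD_ne_bot hqn) h1, h2], ?_⟩
    rw [mul_pow, h3, sq, genusD_mul_self hqn, Ideal.span_singleton_mul_span_singleton, Nat.cast_mul]

omit [Good n] in
theorem genus_del_ne : del n ≠ 0 := by
  intro h
  have := congrArg QuadraticAlgebra.im h
  simp [del] at this

theorem genus_prod_cls : ∏ p ∈ n.primeFactors, cls (genusD n p) = 1 := by
  obtain ⟨-, h2, h3⟩ := genus_prod_spec (n := n) n.primeFactors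
    fun p hp => Nat.dvd_of_mem_primeFactors hp
  rw [Nat.prod_primeFactors_of_squarefree Good.sq] at h3
  have h4 : Ideal.span {del n} ^ 2 = Ideal.span {(n : OO n)} := by
    rw [sq, Ideal.span_singleton_mul_span_singleton, del_mul_del, Ideal.span_singleton_neg]
  have h5 : ∏ p ∈ n.primeFactors, genusD n p = Ideal.span {del n} :=
    pow_left_injective two_ne_zero (h3.trans h4.symm)
  rw [← h2, h5, genus_cls_span genus_del_ne]

/-- a prime fixed by conjugation is principal or ramified -/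
theorem genus_fixed_prime {P : Ideal (OO n)} (hP : P.IsPrime) (h0 : P ≠ ⊥) (hc : cj P = P) :
    cls P = 1 ∨ ∃ p ∈ n.primeFactors, P = genusD n p := by
  by_cases hd : del n ∈ P
  · right
    have h1 : ((∏ p ∈ n.primeFactors, p : ℕ) : OO n) ∈ P := by
      rw [Nat.prod_primeFactors_of_squarefree Good.sq, ← neg_mem_iff, ← del_mul_del]
      exact P.mul_mem_left _ hd
    rw [Nat.cast_prod] at h1
    obtain ⟨p, hp, hpP⟩ := Ideal.IsPrime.prod_mem_iff.1 h1
    have hpn := Nat.dvd_of_mem_primeFactors hp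
    have h2 : genusD n p ≤ P := by
      have : genusD n p * genusD n p ≤ P := by
        rw [genusD_mul_self hpn]
        exact (Ideal.span_singleton_le_iff_mem _).2 hpP
      exact (hP.mul_le.1 this).elim id id
    have h3 : (genusD n p).IsPrime := Ideal.isPrime_of_irreducible_absNorm (by
      have := genusD_nm hpn
      unfold nm at this
      rw [this]
      exact Nat.prime_of_mem_primeFactors hp)
    exact ⟨p, hp, ((h3.isMaximal (genusD_ne_bot hpn)).eq_of_le hP.ne_top h2).symm⟩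
  · left
    obtain ⟨q, hq⟩ := (IsPrincipalIdealRing.principal (P.comap (Int.castRingHom (OO n)))).principal
    refine (cls_eq_one_iff h0).2 ⟨(q : OO n), le_antisymm (fun z hz => ?_) ?_⟩
    · have h1 : star z ∈ P := by rwa [← mem_cj, hc]
      have h2 : (z.im : OO n) * del n ∈ P := by
        have : (z.im : OO n) * del n = z - star z := by
          ext
          · simp [del]
          · simp [del]; ring
        rw [this]
        exact P.sub_mem hz h1
      have h3 : (z.im : OO n) ∈ P := (hP.mem_or_mem h2).resolve_right hd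
      have hz' : z = (z.re : OO n) + (z.im : OO n) * QuadraticAlgebra.omega := by
        ext <;> simp
      have h4 : (z.re : OO n) ∈ P := by
        have := P.sub_mem hz (P.mul_mem_right QuadraticAlgebra.omega h3)
        rwa [sub_eq_of_eq_add hz'] at this
      have h5 : ∀ k : ℤ, (k : OO n) ∈ P → (q : OO n) ∣ (k : OO n) := fun k hk => by
        have : k ∈ P.comap (Int.castRingHom (OO n)) := hk
        rw [hq] at this
        exact Int.cast_dvd_cast _ _ (Ideal.mem_span_singleton.1 this)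
      rw [Ideal.mem_span_singleton, hz']
      exact dvd_add (h5 _ h4) ((h5 _ h3).mul_right _)
    · rw [Ideal.span_singleton_le_iff_mem]
      have : q ∈ P.comap (Int.castRingHom (OO n)) := by
        rw [hq]; exact Ideal.mem_span_singleton_self q
      exact this

theorem genus_fixed_mem (H : Subgroup (ClassGroup (OO n)))
    (hH : ∀ p ∈ n.primeFactors, cls (genusD n p) ∈ H) (N : ℕ) :
    ∀ B : Ideal (OO n), nm B = N → B ≠ ⊥ → cj B = B → cls B ∈ H := by
  induction N using Nat.strong_induction_on with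
  | _ N ih =>
  intro B hN h0 hc
  by_cases hB : B = ⊤
  · rw [hB, genus_cls_top]; exact H.one_mem
  obtain ⟨P, hP, hBP⟩ := Ideal.exists_le_maximal B hB
  have hP0 : P ≠ ⊥ := fun h => h0 (le_bot_iff.1 (h ▸ hBP))
  have hP1 : 1 < nm P := by
    have h1 := genus_nm_ne hP0
    have h2 : nm P ≠ 1 := fun h => hP.ne_top (genus_nm_eq_one h)
    omega
  -- division by a fixed factor
  have step : ∀ Q : Ideal (OO n), Q ∣ B → cj Q = Q → 1 < nm Q → cls Q ∈ H → cls B ∈ H := by
    rintro Q ⟨C, rfl⟩ hQ h1 hQH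
    have hQ0 : Q ≠ ⊥ := left_ne_zero_of_mul h0
    have hC0 : C ≠ ⊥ := right_ne_zero_of_mul h0
    rw [cls_mul hQ0 hC0]
    refine H.mul_mem hQH (ih (nm C) ?_ C rfl hC0 ?_)
    · rw [← hN, nm_mul]
      have := Nat.pos_of_ne_zero (genus_nm_ne hC0)
      nlinarith
    · rw [cj_mul, hQ] at hc
      exact mul_left_cancel₀ hQ0 hc
  by_cases hcP : cj P = P
  · refine step P (Ideal.dvd_iff_le.2 hBP) hcP hP1 ?_
    rcases genus_fixed_prime hP.isPrime hP0 hcP with h | ⟨p, hp, h⟩
    · rw [h]; exact H.one_mem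
    · rw [h]; exact hH p hp
  · have hM : (cj P).IsMaximal := (genus_cj_isPrime hP.isPrime).isMaximal (genus_cj_ne_bot hP0)
    have hcop : IsCoprime P (cj P) :=
      Ideal.isCoprime_iff_sup_eq.2 (hP.coprime_of_ne hM (Ne.symm hcP))
    have hB2 : B ≤ cj P := by
      rw [← hc]; exact Ideal.map_mono hBP
    refine step (P * cj P) (hcop.mul_dvd (Ideal.dvd_iff_le.2 hBP) (Ideal.dvd_iff_le.2 hB2)) ?_ ?_ ?_
    · rw [cj_mul, cj_cj, mul_comm]
    · rw [nm_mul, nm_cj]; nlinarith
    · rw [cls_mul hP0 (genus_cj_ne_bot hP0), cls_cj, mul_inv_cancel]; exact H.one_mem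

theorem genus_exists_factor : ∃ q, q ∈ n.primeFactors :=
  Nat.nonempty_primeFactors.2 (by have := Good.gt (n := n); omega)

theorem genus_card_ker_le :
    Nat.card (powMonoidHom 2 : ClassGroup (OO n) →* ClassGroup (OO n)).ker ≤
      2 ^ (n.primeFactors.card - 1) := by
  classical
  obtain ⟨q, hq⟩ := genus_exists_factor (n := n)
  set E : Finset (ClassGroup (OO n)) := (n.primeFactors.erase q).image fun p => cls (genusD n p)
    with hE
  set H := Subgroup.closure (E : Set (ClassGroup (OO n))) with hH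
  have h1 : ∀ p ∈ n.primeFactors.erase q, cls (genusD n p) ∈ H := fun p hp =>
    Subgroup.subset_closure (Finset.mem_coe.2 (Finset.mem_image_of_mem _ hp))
  have h2 : ∀ p ∈ n.primeFactors, cls (genusD n p) ∈ H := by
    intro p hp
    by_cases hpq : p = q
    · have h3 := genus_prod_cls (n := n)
      rw [← Finset.mul_prod_erase _ _ hq] at h3
      rw [hpq, eq_inv_of_mul_eq_one_left h3]
      exact H.inv_mem (H.prod_mem h1)
    · exact h1 p (Finset.mem_erase.2 ⟨hpq, hp⟩)
  have h3 : (powMonoidHom 2 : ClassGroup (OO n) →* ClassGroup (OO n)).ker = H := by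
    refine le_antisymm (fun c hc => ?_) ((Subgroup.closure_le _).2 fun c hc => ?_)
    · obtain ⟨B, h0, hB, rfl⟩ := genus_exists_fixed (c := c) hc
      exact genus_fixed_mem H h2 _ B rfl h0 hB
    · obtain ⟨p, hp, rfl⟩ := Finset.mem_image.1 (Finset.mem_coe.1 hc)
      exact genus_cls_sq (genusD_cj (Nat.dvd_of_mem_primeFactors (Finset.mem_of_mem_erase hp)))
  have h4 : ∀ g : H, g ^ 2 = 1 := fun g => Subtype.ext (by
    have : (g : ClassGroup (OO n)) ∈ (powMonoidHom 2 : ClassGroup (OO n) →* _).ker := h3.ge g.2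
    exact this)
  rw [h3]
  refine (Nat.le_of_dvd (by positivity) (card_dvd_exponent_pow_rank' H h4)).trans ?_
  refine Nat.pow_le_pow_right two_pos ((Subgroup.rank_closure_finset_le_card E).trans ?_)
  exact Finset.card_image_le.trans (Finset.card_erase_of_mem hq).le

/-- the genus character as a homomorphism -/
noncomputable def genusHom {p : ℕ} (hp : p ∈ n.primeFactors) : ClassGroup (OO n) →* ℤˣ :=
  MonoidHom.toHomUnits
    { toFun := gch p, map_one' := genus_gch_one hp, map_mul' := gch_mul hp }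

theorem genusHom_coe {p : ℕ} (hp : p ∈ n.primeFactors) (c : ClassGroup (OO n)) :
    (genusHom hp c : ℤ) = gch p c := rfl

/-- all genus characters but one -/
noncomputable def genusPi (n : ℕ) [Good n] (q : ℕ) :
    ClassGroup (OO n) →* (n.primeFactors.erase q → ℤˣ) :=
  MonoidHom.pi fun p => genusHom (Finset.mem_of_mem_erase p.2)

theorem genusPi_surj {q : ℕ} (hq : q ∈ n.primeFactors) : Function.Surjective (genusPi n q) := by
  intro v
  let ε₀ : ℕ → ℤˣ := fun p => if h : p ∈ n.primeFactors.erase q then v ⟨p, h⟩ else 1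
  let ε : ℕ → ℤˣ := fun p => if p = q then (∏ r ∈ n.primeFactors.erase q, ε₀ r)⁻¹ else ε₀ p
  have hprod : ∏ p ∈ n.primeFactors, ε p = 1 := by
    rw [← Finset.mul_prod_erase _ _ hq,
      Finset.prod_congr rfl fun p hp => (if_neg (Finset.ne_of_mem_erase hp) : ε p = ε₀ p)]
    simp [ε]
  obtain ⟨c, hc⟩ := gch_surj (n := n) (fun p => (ε p : ℤ))
    (fun p _ => by rcases Int.units_eq_one_or (ε p) with h | h <;> simp [h])
    (by rw [← Units.coe_prod, hprod, Units.val_one])
  refine ⟨c, funext fun p => Units.ext ?_⟩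
  have := hc p (Finset.mem_of_mem_erase p.2)
  simp only [ε, ε₀, if_neg (Finset.ne_of_mem_erase p.2), dif_pos p.2] at this
  exact this

theorem genus_main {q : ℕ} (hq : q ∈ n.primeFactors) :
    Nat.card (powMonoidHom 2 : ClassGroup (OO n) →* ClassGroup (OO n)).ker =
      2 ^ (n.primeFactors.card - 1) ∧
    (powMonoidHom 2 : ClassGroup (OO n) →* ClassGroup (OO n)).range = (genusPi n q).ker := by
  set s : ClassGroup (OO n) →* ClassGroup (OO n) := powMonoidHom 2 with hs
  have h1 : s.range ≤ (genusPi n q).ker := by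
    rintro _ ⟨d, rfl⟩
    rw [MonoidHom.mem_ker, hs, powMonoidHom_apply, map_pow]
    funext p
    exact Int.units_sq _
  have h2 : Nat.card s.ker * Nat.card s.range = Nat.card (ClassGroup (OO n)) := by
    rw [← Subgroup.index_ker, Subgroup.card_mul_index]
  have h3 : Nat.card (genusPi n q).ker * 2 ^ (n.primeFactors.card - 1) =
      Nat.card (ClassGroup (OO n)) := by
    rw [← (genusPi n q).ker.card_mul_index, Subgroup.index_ker,
      MonoidHom.range_eq_top.2 (genusPi_surj hq), Subgroup.card_top, Nat.card_fun,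
      Nat.card_eq_finsetCard, Finset.card_erase_of_mem hq, Nat.card_eq_fintype_card (α := ℤˣ),
      Fintype.card_units_int]
  have h4 := genus_card_ker_le (n := n)
  rw [← hs] at h4
  have h5 := Subgroup.card_le_of_le h1
  have h6 : 0 < Nat.card s.range := Nat.card_pos
  have h7 : 0 < 2 ^ (n.primeFactors.card - 1) := by positivity
  have h8 : Nat.card (genusPi n q).ker ≤ Nat.card s.range := by
    by_contra h
    nlinarith
  refine ⟨?_, Subgroup.eq_of_le_of_card_ge h1 h8⟩
  rw [le_antisymm h8 h5, ← h2, mul_comm] at h3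
  exact (Nat.eq_of_mul_eq_mul_right h6 h3).symm

theorem card_two_torsion :
    Nat.card {c : ClassGroup (OO n) // c ^ 2 = 1} = 2 ^ (n.primeFactors.card - 1) := by
  obtain ⟨q, hq⟩ := genus_exists_factor (n := n)
  exact (genus_main hq).1

theorem isSquare_iff (c : ClassGroup (OO n)) :
    (∃ d, c = d ^ 2) ↔ ∀ p ∈ n.primeFactors, gch p c = 1 := by
  constructor
  · rintro ⟨d, rfl⟩ p hp
    rw [sq, gch_mul hp, ← sq, gch_sq hp]
  · intro h
    obtain ⟨q, hq⟩ := genus_exists_factor (n := n)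
    have : c ∈ (genusPi n q).ker :=
      funext fun p => Units.ext (h p (Finset.mem_of_mem_erase p.2))
    rw [← (genus_main hq).2] at this
    obtain ⟨d, hd⟩ := this
    exact ⟨d, hd.symm⟩

end Pool.Agent.P.MP_8b7eba_nt.BSD15
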