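import Pool.Agent.P.MP_8b7eba_nt.BSD15.GrossFlip

/-! The quaternionic side of the Gross formula. -/

namespace Pool.Agent.P.MP_8b7eba_nt.BSD15

variable {n : ℕ} [Good n]

/-- the sign function of a set of primes -/
def grossSg (S : Finset ℕ) (p : ℕ) : ℤ := if p ∈ S then -1 else 1

theorem gross_gJ_mul {J : Finset ℕ} (hJ : J ⊆ n.primeFactors) (c d : ClassGroup (OO n)) :
    gJ J (c * d) = gJ J c * gJ J d := by
  unfold gJ
  rw [← Finset.prod_mul_distrib]
  exact Finset.prod_congr rfl fun p hp => gch_mul (hJ hp) c d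

theorem gross_gJ_sq {J : Finset ℕ} (hJ : J ⊆ n.primeFactors) (c : ClassGroup (OO n)) :
    gJ J c * gJ J c = 1 := by
  unfold gJ
  rw [← Finset.prod_mul_distrib]
  exact Finset.prod_eq_one fun p hp => by rw [← sq]; exact gch_sq (hJ hp) c

theorem gross_gJ_cls {J : Finset ℕ} (hJ : J ⊆ n.primeFactors) {A : Ideal (OO n)} (hA : A ≠ ⊥) :
    gJ J (cls A) = XJ n J (nm A) := by
  unfold gJ XJ
  exact Finset.prod_congr rfl fun p hp => gch_cls (hJ hp) hA

theorem gross_flip {F : Ideal (OO n)} (hF : F ≠ ⊥) {S : Finset ℕ} (hS : S ⊆ n.primeFactors)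
    (ν : ℕ) : ∃ c : ClassGroup (OO n), ∀ s t : ClassGroup (OO n),
      (grossL (grossSg S) F (rep (s * c)) (rep (t * c)) ν).ncard = rr F (rep s) (rep t) ν := by
  have hn : ∏ p ∈ n.primeFactors, p = n := Nat.prod_primeFactors_of_squarefree Good.sq
  have hdn : (∏ p ∈ S, p) ∣ n := by
    conv_rhs => rw [← hn]
    exact Finset.prod_dvd_prod_of_subset _ _ _ hS
  obtain ⟨D, hD1, hD2, hD3⟩ := exists_ramified (n := n) hdn
  have hc : (cls D)⁻¹ = cls D := by rw [← cls_cj, hD2]
  have hcc : cls D * cls D = 1 := by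
    nth_rewrite 1 [← hc]
    exact inv_mul_cancel _
  have hdv : ∀ p ∈ n.primeFactors, (p ∣ ∏ q ∈ S, q ↔ p ∈ S) := by
    intro p hp
    have hpp := Nat.prime_of_mem_primeFactors hp
    constructor
    · intro h
      obtain ⟨q, hq, hpq⟩ := (Prime.dvd_finsetProd_iff hpp.prime _).1 h
      have := (Nat.prime_dvd_prime_iff_eq hpp (Nat.prime_of_mem_primeFactors (hS hq))).1 hpq
      rwa [this]
    · intro h
      exact Finset.dvd_prod_of_mem _ h
  refine ⟨cls D, fun s t => ?_⟩
  unfold rr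
  rw [gross_LL_eq]
  apply le_antisymm
  · refine gross_flip_le hF hdn hD1 hD2 hD3 (rep_coprime _) (rep_coprime _)
      (ne_bot_of_coprime (rep_coprime _)) (ne_bot_of_coprime (rep_coprime _)) ?_ ?_ _ _ ?_ ν
    · rw [cls_rep, cls_rep, mul_inv, mul_inv_cancel_left, inv_mul_cancel]
    · rw [cls_rep, cls_rep, mul_inv, mul_inv_cancel_left, inv_mul_cancel]
    · intro p hp
      simp only [hdv p hp, grossSg]
      split_ifs <;> simp
  · refine gross_flip_le hF hdn hD1 hD2 hD3 (rep_coprime _) (rep_coprime _)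
      (ne_bot_of_coprime (rep_coprime _)) (ne_bot_of_coprime (rep_coprime _)) ?_ ?_ _ _ ?_ ν
    · rw [cls_rep, cls_rep, mul_comm s, mul_inv_cancel_right, hcc]
    · rw [cls_rep, cls_rep, mul_comm t, mul_inv_cancel_right, hcc]
    · intro p hp
      simp only [hdv p hp, grossSg, mul_one]

theorem gross_sum_flip {F : Ideal (OO n)} (hF : F ≠ ⊥) {S J : Finset ℕ} (hS : S ⊆ n.primeFactors)
    (hJ : J ⊆ n.primeFactors) (ν : ℕ) :
    ∑ s : ClassGroup (OO n), ∑ t : ClassGroup (OO n),
      gJ J s * gJ J t * ((grossL (grossSg S) F (rep s) (rep t) ν).ncard : ℤ) =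
    ∑ s : ClassGroup (OO n), ∑ t : ClassGroup (OO n),
      gJ J s * gJ J t * rr F (rep s) (rep t) ν := by
  obtain ⟨c, hc⟩ := gross_flip hF hS ν
  rw [← Equiv.sum_comp (Equiv.mulRight c)]
  refine Finset.sum_congr rfl fun s _ => ?_
  rw [← Equiv.sum_comp (Equiv.mulRight c)]
  refine Finset.sum_congr rfl fun t _ => ?_
  simp only [Equiv.coe_mulRight]
  rw [hc, gross_gJ_mul hJ, gross_gJ_mul hJ]
  linear_combination (gJ J s * gJ J t * rr F (rep s) (rep t) ν) * gross_gJ_sq hJ c

/-- the weight attached to `m` -/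
def grossW (n m : ℕ) : ℤ := ∏ p ∈ n.primeFactors, (1 + if p ∣ m then 1 else 0)

theorem gross_p_odd {p : ℕ} (hp : p ∈ n.primeFactors) : p ≠ 2 := by
  rintro rfl
  have h1 := Nat.dvd_of_mem_primeFactors hp
  have h2 := Good.h4 (n := n)
  omega

open Classical in
theorem gross_point {F : Ideal (OO n)} (hF : ((nm F : ℕ) : ZMod n) = -15) (h15 : n.Coprime 15)
    {N : ℕ} (hN : N.Coprime n) {a b : OO n} {m A0 ν : ℕ} (hA0 : A0 + 15 * m = ν * n)
    (ha : a.norm = A0 * N) (hb : b.norm = m * (N * nm F : ℕ)) :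
    ∑ S ∈ n.primeFactors.powerset,
      (if ∀ p ∈ n.primeFactors, grossRp p a = grossSg S p * grossRp p b then (1 : ℤ) else 0) =
      grossW n m := by
  have h1 : grossW n m = ∏ p ∈ n.primeFactors,
      ((if grossRp p a = -grossRp p b then (1 : ℤ) else 0) +
        if grossRp p a = grossRp p b then (1 : ℤ) else 0) := by
    unfold grossW
    refine Finset.prod_congr rfl fun p hp => ?_
    have hpn := Nat.dvd_of_mem_primeFactors hp
    have hpp := Nat.prime_of_mem_primeFactors hp
    have : Fact p.Prime := ⟨hpp⟩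
    have ea := gross_rp_sq hpn a
    have eb := gross_rp_sq hpn b
    have hf : ((nm F : ℕ) : ZMod p) = -15 := by
      have := congrArg (ZMod.castHom hpn (ZMod p)) hF
      rwa [map_natCast, map_neg, map_ofNat] at this
    have hn0 : ((n : ℕ) : ZMod p) = 0 := (ZMod.natCast_eq_zero_iff _ _).2 hpn
    have hA : ((A0 : ℕ) : ZMod p) = -15 * m := by
      have := congrArg (Nat.cast : ℕ → ZMod p) hA0
      push_cast at this
      rw [hn0] at this
      linear_combination this
    rw [ha] at ea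
    rw [hb] at eb
    push_cast at ea eb
    rw [hA] at ea
    rw [hf] at eb
    have hNp : ((N : ℕ) : ZMod p) ≠ 0 := fun h =>
      hpp.one_lt.ne' (Nat.eq_one_of_dvd_coprimes hN ((ZMod.natCast_eq_zero_iff _ _).1 h) hpn)
    have h15p : (15 : ZMod p) ≠ 0 := fun h =>
      hpp.one_lt.ne' (Nat.eq_one_of_dvd_coprimes h15 hpn
        ((ZMod.natCast_eq_zero_iff 15 p).1 (by exact_mod_cast h)))
    have h2p : (2 : ZMod p) ≠ 0 := fun h =>
      gross_p_odd hp ((Nat.prime_dvd_prime_iff_eq hpp Nat.prime_two).1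
        ((ZMod.natCast_eq_zero_iff 2 p).1 (by exact_mod_cast h)))
    by_cases hm : p ∣ m
    · have hm0 : ((m : ℕ) : ZMod p) = 0 := (ZMod.natCast_eq_zero_iff _ _).2 hm
      rw [hm0] at ea eb
      have ea' : grossRp p a = 0 := pow_eq_zero_iff two_ne_zero |>.1 (by rw [ea]; ring)
      have eb' : grossRp p b = 0 := pow_eq_zero_iff two_ne_zero |>.1 (by rw [eb]; ring)
      simp [hm, ea', eb']
    · have hm0 : ((m : ℕ) : ZMod p) ≠ 0 := fun h => hm ((ZMod.natCast_eq_zero_iff _ _).1 h)
      have hb0 : grossRp p b ≠ 0 := by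
        intro h
        rw [h] at eb
        have : (m : ZMod p) * (N * 15) = 0 := by linear_combination eb
        exact mul_ne_zero hm0 (mul_ne_zero hNp h15p) this
      have hne : grossRp p b ≠ -grossRp p b := by
        intro h
        have : 2 * grossRp p b = 0 := by linear_combination h
        exact mul_ne_zero h2p hb0 this
      have hsq : grossRp p a ^ 2 = grossRp p b ^ 2 := by rw [ea, eb]; ring
      rcases sq_eq_sq_iff_eq_or_eq_neg.1 hsq with h | h
      · rw [h]; simp [hm, hne]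
      · rw [h]; simp [hm, hne.symm]
  rw [h1, Finset.prod_add]
  refine Finset.sum_congr rfl fun S hS => ?_
  rw [Finset.prod_boole, Finset.prod_boole, ite_zero_mul_ite_zero, mul_one]
  refine if_congr ?_ rfl rfl
  have hS' := Finset.mem_powerset.1 hS
  constructor
  · intro h
    refine ⟨fun p hp => ?_, fun p hp => ?_⟩
    · have := h p (hS' hp)
      simpa [grossSg, hp] using this
    · have h2 := Finset.mem_sdiff.1 hp
      have := h p h2.1
      simpa [grossSg, h2.2] using this
  · rintro ⟨h2, h3⟩ p hp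
    by_cases hpS : p ∈ S
    · simpa [grossSg, hpS] using h2 p hpS
    · simpa [grossSg, hpS] using h3 p (Finset.mem_sdiff.2 ⟨hp, hpS⟩)

/-- elements of an ideal with given normalised norm -/
def grossE (B : Ideal (OO n)) (k : ℕ) : Set (OO n) := {z | z ∈ B ∧ z.norm = k * nm B}

theorem gross_E_finite (B : Ideal (OO n)) (k : ℕ) : (grossE B k).Finite :=
  (finite_norm_le (n := n) (k * nm B)).subset fun _ hz => hz.2.le

theorem gross_F_ne {F : Ideal (OO n)} (hF : ((nm F : ℕ) : ZMod n) = -15) (h15 : n.Coprime 15) :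
    F ≠ ⊥ := by
  intro h
  rw [nm_eq_zero.2 h] at hF
  have h1 : ((15 : ℕ) : ZMod n) = 0 := by
    push_cast at hF ⊢
    linear_combination hF
  have h2 := (ZMod.natCast_eq_zero_iff _ _).1 h1
  have h3 := Nat.eq_one_of_dvd_coprimes h15 dvd_rfl h2
  have := Good.gt (n := n)
  omega

omit [Good n] in
theorem gross_not_dvd (h15 : n.Coprime 15) {ν : ℕ} (hν : ν = 1 ∨ ν = 2) : ¬ 15 ∣ ν * n := by
  intro h
  have h1 : 15 ∣ ν := (Nat.Coprime.dvd_mul_right h15.symm).1 h
  rcases hν with rfl | rfl <;> omega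

theorem gross_sum_S {F A B : Ideal (OO n)} (hF : ((nm F : ℕ) : ZMod n) = -15) (h15 : n.Coprime 15)
    (hA : (nm A).Coprime n) (hB : (nm B).Coprime n) {ν : ℕ} (hν : ν = 1 ∨ ν = 2) :
    ∑ S ∈ n.primeFactors.powerset, ((grossL (grossSg S) F A B ν).ncard : ℤ) =
      ∑ m ∈ (Finset.range (ν * n)).filter (fun m => 15 * m < ν * n),
        grossW n m * (((grossE (A * cj B) (ν * n - 15 * m)).ncard : ℤ) *
          ((grossE (A * B * F) m).ncard : ℤ)) := by
  classical
  have hF0 := gross_F_ne hF h15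
  have hT := gross_T_finite hF0 A B ν
  have hNA : nm A ≠ 0 := fun h => ne_bot_of_coprime hA (nm_eq_zero.1 h)
  have hNB : nm B ≠ 0 := fun h => ne_bot_of_coprime hB (nm_eq_zero.1 h)
  have hNF : nm F ≠ 0 := fun h => hF0 (nm_eq_zero.1 h)
  have e1 : nm (A * cj B) = nm A * nm B := by rw [nm_mul, nm_cj]
  have e2 : nm (A * B * F) = nm A * nm B * nm F := by rw [nm_mul, nm_mul]
  have hpos : (0 : ℤ) < (nm A : ℤ) * nm B * nm F := by positivity
  have h1 : ∀ S, ((grossL (grossSg S) F A B ν).ncard : ℤ) = ∑ x ∈ hT.toFinset,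
      (if ∀ p ∈ n.primeFactors, grossRp p x.1 = grossSg S p * grossRp p x.2 then (1 : ℤ) else 0) := by
    intro S
    rw [Finset.sum_boole, ← Set.ncard_coe_finset]
    congr 2
    ext x
    simp [grossL]
  simp only [h1]
  rw [Finset.sum_comm]
  -- decompose along m
  have h2 : hT.toFinset = ((Finset.range (ν * n)).filter (fun m => 15 * m < ν * n)).biUnion
      fun m => (gross_E_finite (A * cj B) (ν * n - 15 * m)).toFinset ×ˢ
        (gross_E_finite (A * B * F) m).toFinset := by
    ext ⟨a, b⟩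
    simp only [Set.Finite.mem_toFinset, Finset.mem_biUnion, Finset.mem_filter, Finset.mem_range,
      Finset.mem_product, grossT, grossE, Set.mem_ofPred_eq, e1, e2]
    constructor
    · rintro ⟨ha, hb, hn⟩
      obtain ⟨k, hk⟩ := nm_dvd_norm hb
      rw [e2] at hk
      push_cast at hk
      have hk0 : 0 ≤ k := by
        have := norm_nonneg' b
        rw [hk] at this
        exact nonneg_of_mul_nonneg_right this hpos |> fun h => by
          by_contra h2
          push Not at h2
          nlinarith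
      obtain ⟨m, rfl⟩ := Int.eq_ofNat_of_zero_le hk0
      have han : a.norm = ((ν * n : ℤ) - 15 * m) * (nm A * nm B) := by
        have hf : (nm F : ℤ) ≠ 0 := by exact_mod_cast hNF
        apply mul_left_cancel₀ hf
        rw [hk] at hn
        linear_combination hn
      have hle : 15 * m ≤ ν * n := by
        have h3 := norm_nonneg' a
        rw [han] at h3
        have h4 : (0 : ℤ) < (nm A : ℤ) * nm B := by positivity
        have h5 : (0 : ℤ) ≤ (ν * n : ℤ) - 15 * m := by
          by_contra h6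
          push Not at h6
          nlinarith
        have : ((15 * m : ℕ) : ℤ) ≤ ((ν * n : ℕ) : ℤ) := by push_cast; linarith
        exact_mod_cast this
      have hlt : 15 * m < ν * n := by
        refine lt_of_le_of_ne hle fun h => gross_not_dvd h15 hν ⟨m, h.symm⟩
      refine ⟨m, ⟨by omega, hlt⟩, ⟨ha, ?_⟩, hb, ?_⟩
      · rw [han]; push_cast [Nat.cast_sub hle]; ring
      · rw [hk]; push_cast; ring
    · rintro ⟨m, ⟨_, hlt⟩, ⟨ha, han⟩, hb, hbn⟩
      refine ⟨ha, hb, ?_⟩
      rw [han, hbn]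
      push_cast [Nat.cast_sub hlt.le]
      ring
  rw [h2, Finset.sum_biUnion]
  · refine Finset.sum_congr rfl fun m hm => ?_
    have hlt := (Finset.mem_filter.1 hm).2
    rw [Finset.sum_congr rfl (g := fun _ => grossW n m)]
    · rw [Finset.sum_const, Finset.card_product, Set.ncard_eq_toFinset_card _ (gross_E_finite _ _),
        Set.ncard_eq_toFinset_card _ (gross_E_finite _ _), nsmul_eq_mul]
      push_cast; ring
    · rintro ⟨a, b⟩ hx
      simp only [Finset.mem_product, Set.Finite.mem_toFinset, grossE, Set.mem_ofPred_eq, e1,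
        e2] at hx
      exact gross_point hF h15 (Nat.Coprime.mul_left hA hB) (A0 := ν * n - 15 * m) (ν := ν)
        (by omega) hx.1.2 hx.2.2
  · intro m _ m' _ hne
    rw [Function.onFun, Finset.disjoint_left]
    rintro ⟨a, b⟩ hx hy
    simp only [Finset.mem_product, Set.Finite.mem_toFinset, grossE, Set.mem_ofPred_eq, e1,
        e2] at hx hy
    have h3 := hx.2.2.symm.trans hy.2.2
    push_cast at h3
    have := mul_right_cancel₀ hpos.ne' h3
    exact hne (by exact_mod_cast this)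

/-- ideals of norm `k` -/
noncomputable def grossI (n : ℕ) [Good n] (k : ℕ) : Finset (Ideal (OO n)) :=
  if hk : 0 < k then (finite_nm_eq (n := n) hk).toFinset else ∅

theorem gross_mem_I {k : ℕ} (hk : 0 < k) {A : Ideal (OO n)} : A ∈ grossI n k ↔ nm A = k := by
  simp [grossI, hk]

theorem gross_card_I {k : ℕ} (hk : 0 < k) : ((grossI n k).card : ℤ) = Rn n k := by
  rw [← ncard_nm_eq hk, ← Set.ncard_coe_finset]
  congr 2
  ext A
  simp [gross_mem_I hk]

open Classical in
theorem gross_E_card {B : Ideal (OO n)} (hB : B ≠ ⊥) {k : ℕ} (hk : 0 < k) :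
    ((grossE B k).ncard : ℤ) =
      2 * ∑ A ∈ grossI n k, if cls A * cls B = 1 then (1 : ℤ) else 0 := by
  unfold grossE
  rw [ncard_norm_eq hB hk, Finset.sum_boole, ← Set.ncard_coe_finset]
  push_cast
  congr 3
  ext A
  simp [gross_mem_I hk]

theorem gross_E_zero (B : Ideal (OO n)) : (grossE B 0).ncard = 1 := by
  have : grossE B 0 = {0} := by
    ext z
    simp only [grossE, Set.mem_ofPred_eq, Nat.cast_zero, zero_mul, norm_eq_zero',
      Set.mem_singleton_iff]
    exact ⟨fun h => h.2, fun h => ⟨h ▸ B.zero_mem, h⟩⟩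
  rw [this, Set.ncard_singleton]

theorem gross_gch_one {p : ℕ} (hp : p ∈ n.primeFactors) : gch p (1 : ClassGroup (OO n)) = 1 := by
  have h1 := gch_mul hp (1 : ClassGroup (OO n)) 1
  have h2 := gch_sq hp (1 : ClassGroup (OO n))
  rw [mul_one, ← sq, h2] at h1
  exact h1

theorem gross_gch_inv {p : ℕ} (hp : p ∈ n.primeFactors) (c : ClassGroup (OO n)) :
    gch p c⁻¹ = gch p c := by
  have h1 := gch_mul hp c c⁻¹
  have h2 := gch_sq hp c
  rw [mul_inv_cancel, gross_gch_one hp] at h1
  linear_combination (-gch p c⁻¹) * h2 - gch p c * h1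

open Classical in
theorem gross_sq_count (c : ClassGroup (OO n)) :
    ∑ s : ClassGroup (OO n), (if c * s ^ 2 = 1 then (1 : ℤ) else 0) =
      if ∀ p ∈ n.primeFactors, gch p c = 1 then 2 ^ (n.primeFactors.card - 1) else 0 := by
  split_ifs with h
  · obtain ⟨d, rfl⟩ := (isSquare_iff c).2 h
    rw [← Equiv.sum_comp (Equiv.mulLeft d⁻¹)]
    have h1 : ∀ s : ClassGroup (OO n), d ^ 2 * (d⁻¹ * s) ^ 2 = s ^ 2 := by
      intro s
      rw [← mul_pow, mul_inv_cancel_left]
    simp only [Equiv.coe_mulLeft, h1]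
    rw [Finset.sum_boole]
    have h2 := card_two_torsion (n := n)
    rw [Nat.subtype_card (Finset.univ.filter fun c : ClassGroup (OO n) => c ^ 2 = 1)
      (by simp)] at h2
    exact_mod_cast h2
  · refine Finset.sum_eq_zero fun s _ => if_neg fun hs => h ((isSquare_iff c).1 ⟨s⁻¹, ?_⟩)
    rw [inv_pow]
    exact eq_inv_of_mul_eq_one_left hs

open Classical in
theorem gross_pair0 {J : Finset ℕ} (hJ : J ⊆ n.primeFactors) (α : ClassGroup (OO n))
    (g : ClassGroup (OO n) → ClassGroup (OO n) → ℤ) :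
    ∑ s : ClassGroup (OO n), ∑ t : ClassGroup (OO n),
      gJ J s * gJ J t * ((if α * (s * t⁻¹) = 1 then (1 : ℤ) else 0) * g s t) =
      gJ J α * ∑ s : ClassGroup (OO n), g s (α * s) := by
  rw [Finset.mul_sum]
  refine Finset.sum_congr rfl fun s _ => ?_
  rw [Finset.sum_eq_single (α * s)]
  · rw [if_pos (by rw [← mul_assoc, mul_inv_cancel]), gross_gJ_mul hJ]
    linear_combination (gJ J α * g s (α * s)) * gross_gJ_sq hJ s
  · intro t _ ht
    rw [if_neg, zero_mul, mul_zero]
    intro h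
    rw [← mul_assoc, mul_inv_eq_one] at h
    exact ht h.symm
  · simp

theorem gross_Rn_mul (ν : ℕ) (hν : ν ≠ 0) : Rn n (ν * n) = Rn n ν := by
  unfold Rn
  symm
  have hn0 := gross_n_pos (n := n)
  refine Finset.sum_subset (Nat.divisors_subset_of_dvd (mul_ne_zero hν hn0.ne')
    (Dvd.intro _ rfl)) ?_
  intro d hd hd'
  have : NeZero n := ⟨hn0.ne'⟩
  rw [jacobiSym.eq_zero_iff_not_coprime]
  intro h
  apply hd'
  have h1 : d.Coprime n := by simpa [Int.gcd_natCast_natCast] using h
  exact Nat.mem_divisors.2 ⟨(Nat.Coprime.dvd_mul_right h1).1 (Nat.dvd_of_mem_divisors hd), hν⟩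

theorem gross_XJ_mul {J : Finset ℕ} (hJ : J ⊆ n.primeFactors) (ν : ℕ) (hν : ν ≠ 0) :
    XJ n J (ν * n) = XJ n J ν := by
  have hn0 := gross_n_pos (n := n)
  have h1 : nm (Ideal.span {del n}) = n := by
    have := nm_span (del n)
    rw [norm_del] at this
    exact_mod_cast this
  have h2 : Ideal.span {del n} ≠ ⊥ := fun h => hn0.ne' (h1 ▸ nm_eq_zero.2 h)
  unfold XJ
  refine Finset.prod_congr rfl fun p hp => ?_
  have h3 := gch_cls (hJ hp) h2
  rw [(cls_eq_one_iff h2).2 ⟨_, rfl⟩, gross_gch_one (hJ hp), h1] at h3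
  rw [Xp_mul n (Nat.prime_of_mem_primeFactors (hJ hp)) hν hn0.ne', ← h3, mul_one]

theorem gross_cls1 (s t : ClassGroup (OO n)) : cls (rep s * cj (rep t)) = s * t⁻¹ := by
  have h1 : cj (rep t) ≠ ⊥ := ne_bot_of_coprime (by rw [nm_cj]; exact rep_coprime t)
  rw [cls_mul (ne_bot_of_coprime (rep_coprime s)) h1, cls_cj, cls_rep, cls_rep]

theorem gross_ne1 (s t : ClassGroup (OO n)) : rep s * cj (rep t) ≠ ⊥ :=
  mul_ne_zero (ne_bot_of_coprime (rep_coprime s))
    (ne_bot_of_coprime (A := cj (rep t)) (by rw [nm_cj]; exact rep_coprime t))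

theorem gross_ne2 (s t : ClassGroup (OO n)) : rep s * rep t ≠ ⊥ :=
  mul_ne_zero (ne_bot_of_coprime (rep_coprime s)) (ne_bot_of_coprime (rep_coprime t))

theorem gross_cls2 {F : Ideal (OO n)} (hF : F ≠ ⊥) (s t : ClassGroup (OO n)) :
    cls (rep s * rep t * F) = s * t * cls F := by
  rw [cls_mul (gross_ne2 s t) hF, cls_mul (ne_bot_of_coprime (rep_coprime s))
    (ne_bot_of_coprime (rep_coprime t)), cls_rep, cls_rep]

theorem gross_term_zero (F : Ideal (OO n)) {J : Finset ℕ} (hJ : J ⊆ n.primeFactors) {ν : ℕ}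
    (hν : ν ≠ 0) :
    ∑ s : ClassGroup (OO n), ∑ t : ClassGroup (OO n), gJ J s * gJ J t *
      (((grossE (rep s * cj (rep t)) (ν * n)).ncard : ℤ) *
        ((grossE (rep s * rep t * F) 0).ncard : ℤ)) =
      2 * Fintype.card (ClassGroup (OO n)) * (XJ n J ν * Rn n ν) := by
  classical
  have hk : 0 < ν * n := Nat.pos_of_ne_zero (mul_ne_zero hν gross_n_pos.ne')
  have h1 : ∀ s t : ClassGroup (OO n), gJ J s * gJ J t *
      (((grossE (rep s * cj (rep t)) (ν * n)).ncard : ℤ) *
        ((grossE (rep s * rep t * F) 0).ncard : ℤ)) =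
      ∑ A ∈ grossI n (ν * n), gJ J s * gJ J t *
        ((if cls A * (s * t⁻¹) = 1 then (1 : ℤ) else 0) * 2) := by
    intro s t
    rw [gross_E_zero, gross_E_card (gross_ne1 s t) hk, gross_cls1, ← Finset.mul_sum,
      ← Finset.sum_mul]
    push_cast; ring
  simp only [h1]
  rw [Finset.sum_congr rfl fun s _ => Finset.sum_comm, Finset.sum_comm]
  rw [Finset.sum_congr rfl (g := fun _ => XJ n J ν * (2 * Fintype.card (ClassGroup (OO n))))]
  · rw [Finset.sum_const, nsmul_eq_mul, gross_card_I hk, gross_Rn_mul ν hν]; ring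
  · intro A hA
    have hA1 := (gross_mem_I hk).1 hA
    have hA0 : A ≠ ⊥ := fun h => hk.ne' (hA1 ▸ nm_eq_zero.2 h)
    rw [gross_pair0 hJ (cls A) (fun _ _ => 2), gross_gJ_cls hJ hA0, hA1, gross_XJ_mul hJ ν hν]
    simp [mul_comm]

open Classical in
theorem gross_eta {F : Ideal (OO n)} (hF : ((nm F : ℕ) : ZMod n) = -15) (h15 : n.Coprime 15)
    {m A0 ν : ℕ} (hm : m ≠ 0) (hA : A0 ≠ 0) (hA0 : A0 + 15 * m = ν * n) :
    grossW n m * (if ∀ p ∈ n.primeFactors, Xp n p A0 * Xp n p m * Xp n p (nm F) = 1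
      then (1 : ℤ) else 0) =
    ∏ p ∈ (Nat.gcd m n).primeFactors, (1 + Xp n p A0 * Xp n p m * jacobiSym (-15) p) := by
  have hn0 := gross_n_pos (n := n)
  rw [← Finset.prod_boole, grossW, ← Finset.prod_mul_distrib]
  have h1 : (Nat.gcd m n).primeFactors = n.primeFactors.filter (fun p => p ∣ m) := by
    rw [Nat.primeFactors_gcd hm hn0.ne']
    ext p
    simp only [Finset.mem_inter, Nat.mem_primeFactors, Finset.mem_filter]
    tauto
  rw [h1, Finset.prod_filter]
  refine Finset.prod_congr rfl fun p hp => ?_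
  have hpn := Nat.dvd_of_mem_primeFactors hp
  have hpp := Nat.prime_of_mem_primeFactors hp
  have : Fact p.Prime := ⟨hpp⟩
  have hf : ((nm F : ℕ) : ZMod p) = -15 := by
    have := congrArg (ZMod.castHom hpn (ZMod p)) hF
    rwa [map_natCast, map_neg, map_ofNat] at this
  have h15p : (15 : ZMod p) ≠ 0 := fun h =>
    hpp.one_lt.ne' (Nat.eq_one_of_dvd_coprimes h15 hpn
      ((ZMod.natCast_eq_zero_iff 15 p).1 (by exact_mod_cast h)))
  have hj : ∀ a b : ℤ, (a : ZMod p) = b → jacobiSym a p = jacobiSym b p := fun a b h =>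
    jacobiSym.mod_left' ((ZMod.intCast_eq_intCast_iff' a b p).1 h)
  have hXF : Xp n p (nm F) = jacobiSym (-15) p := by
    rw [Xp_of_not_dvd n]
    · exact hj _ _ (by push_cast; exact hf)
    · intro h
      rw [(ZMod.natCast_eq_zero_iff _ _).2 h] at hf
      exact h15p (by linear_combination hf)
  have hF0 : nm F ≠ 0 := fun h => gross_F_ne hF h15 (nm_eq_zero.1 h)
  have s1 := Xp_sq hp hA
  have s2 := Xp_sq hp hm
  have s3 := Xp_sq hp hF0
  rw [hXF] at s3 ⊢
  by_cases hpm : p ∣ m
  · simp only [hpm, if_true]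
    have h2 : (Xp n p A0 * Xp n p m * jacobiSym (-15) p) ^ 2 = 1 := by
      rw [mul_pow, mul_pow, s1, s2, s3]; norm_num
    rcases sq_eq_sq_iff_eq_or_eq_neg.1 (h2.trans (one_pow 2).symm) with h | h <;> rw [h] <;> norm_num
  · simp only [hpm, if_false]
    have hn1 : ((n : ℕ) : ZMod p) = 0 := (ZMod.natCast_eq_zero_iff _ _).2 hpn
    have hA1 : ((A0 : ℕ) : ZMod p) = -15 * m := by
      have := congrArg (Nat.cast : ℕ → ZMod p) hA0
      push_cast at this
      rw [hn1] at this
      linear_combination this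
    have hm0 : ((m : ℕ) : ZMod p) ≠ 0 := fun h => hpm ((ZMod.natCast_eq_zero_iff _ _).1 h)
    have hpA : ¬ p ∣ A0 := by
      intro h
      rw [(ZMod.natCast_eq_zero_iff _ _).2 h] at hA1
      exact mul_ne_zero h15p hm0 (by linear_combination hA1)
    have h3 : Xp n p A0 = jacobiSym (-15) p * Xp n p m := by
      rw [Xp_of_not_dvd n hpA, Xp_of_not_dvd n hpm, ← jacobiSym.mul_left]
      exact hj _ _ (by push_cast; exact hA1)
    rw [if_pos]
    · norm_num
    · rw [h3]
      linear_combination (Xp n p m ^ 2) * s3 + s2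

theorem gross_term_pos {F : Ideal (OO n)} (hF : ((nm F : ℕ) : ZMod n) = -15) (h15 : n.Coprime 15)
    {J : Finset ℕ} (hJ : J ⊆ n.primeFactors) {m A0 ν : ℕ} (hm : m ≠ 0) (hA : A0 ≠ 0)
    (hA0 : A0 + 15 * m = ν * n) :
    grossW n m * ∑ s : ClassGroup (OO n), ∑ t : ClassGroup (OO n), gJ J s * gJ J t *
      (((grossE (rep s * cj (rep t)) A0).ncard : ℤ) *
        ((grossE (rep s * rep t * F) m).ncard : ℤ)) =
      4 * 2 ^ (n.primeFactors.card - 1) * CF n J A0 m := by
  classical
  have hF0 := gross_F_ne hF h15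
  have hk : 0 < A0 := Nat.pos_of_ne_zero hA
  have hk' : 0 < m := Nat.pos_of_ne_zero hm
  have h1 : ∀ s t : ClassGroup (OO n), gJ J s * gJ J t *
      (((grossE (rep s * cj (rep t)) A0).ncard : ℤ) *
        ((grossE (rep s * rep t * F) m).ncard : ℤ)) =
      ∑ A ∈ grossI n A0, gJ J s * gJ J t *
        ((if cls A * (s * t⁻¹) = 1 then (1 : ℤ) else 0) *
          (4 * ∑ B ∈ grossI n m, if cls B * (s * t * cls F) = 1 then (1 : ℤ) else 0)) := by
    intro s t
    rw [gross_E_card (gross_ne1 s t) hk, gross_E_card (mul_ne_zero (gross_ne2 s t) hF0) hk',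
      gross_cls1, gross_cls2 hF0, ← Finset.mul_sum, ← Finset.sum_mul]
    ring
  simp only [h1]
  rw [Finset.sum_congr rfl fun s _ => Finset.sum_comm, Finset.sum_comm]
  rw [Finset.sum_congr rfl (g := fun _ => XJ n J A0 * (4 * (Rn n m *
    (2 ^ (n.primeFactors.card - 1) *
      (if ∀ p ∈ n.primeFactors, Xp n p A0 * Xp n p m * Xp n p (nm F) = 1
      then (1 : ℤ) else 0)))))]
  · rw [Finset.sum_const, nsmul_eq_mul, gross_card_I hk, CF, ← gross_eta hF h15 hm hA hA0]
    ring
  · intro A hA'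
    have hA1 := (gross_mem_I hk).1 hA'
    have hA0 : A ≠ ⊥ := fun h => hA (hA1 ▸ nm_eq_zero.2 h)
    rw [gross_pair0 hJ (cls A) (fun s t =>
      4 * ∑ B ∈ grossI n m, if cls B * (s * t * cls F) = 1 then (1 : ℤ) else 0),
      gross_gJ_cls hJ hA0, hA1, ← Finset.mul_sum, Finset.sum_comm, ← gross_card_I hk',
      ← nsmul_eq_mul, ← Finset.sum_const]
    congr 2
    refine Finset.sum_congr rfl fun B hB => ?_
    have hB1 := (gross_mem_I hk').1 hB
    have hB0 : B ≠ ⊥ := fun h => hm (hB1 ▸ nm_eq_zero.2 h)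
    have h2 : ∀ s : ClassGroup (OO n),
        cls B * (s * (cls A * s) * cls F) = cls A * cls B * cls F * s ^ 2 := by
      intro s
      rw [sq]
      simp only [mul_comm, mul_left_comm, mul_assoc]
    simp only [h2]
    rw [gross_sq_count, mul_ite, mul_one, mul_zero]
    refine if_congr (forall₂_congr fun p hp => ?_) rfl rfl
    rw [gch_mul hp, gch_mul hp, gch_cls hp hA0, gch_cls hp hB0, gch_cls hp hF0, hA1, hB1]

theorem gross {F : Ideal (OO n)} (hF : ((nm F : ℕ) : ZMod n) = -15) (h15 : n.Coprime 15)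
    {J : Finset ℕ} (hJ : J ⊆ n.primeFactors) {ν : ℕ} (hν : ν = 1 ∨ ν = 2) :
    ∑ s : ClassGroup (OO n), ∑ t : ClassGroup (OO n),
      gJ J s * gJ J t * rr F (rep s) (rep t) ν =
      2 * Fintype.card (ClassGroup (OO n)) * (XJ n J ν * Rn n ν) + 2 * CFsum n J ν := by
  have hF0 := gross_F_ne hF h15
  have hν0 : ν ≠ 0 := by omega
  have hn0 := gross_n_pos (n := n)
  have hk : 0 < ν * n := Nat.pos_of_ne_zero (mul_ne_zero hν0 hn0.ne')
  have hr : n.primeFactors.card = n.primeFactors.card - 1 + 1 := by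
    have h1 : n.primeFactors.Nonempty :=
      Nat.nonempty_primeFactors.2 (lt_trans (by norm_num) (Good.gt (n := n)))
    have := h1.card_pos
    omega
  apply mul_left_cancel₀ (pow_ne_zero n.primeFactors.card (two_ne_zero (α := ℤ)))
  have h1 : (2 : ℤ) ^ n.primeFactors.card * ∑ s : ClassGroup (OO n), ∑ t : ClassGroup (OO n),
      gJ J s * gJ J t * rr F (rep s) (rep t) ν =
      ∑ S ∈ n.primeFactors.powerset, ∑ s : ClassGroup (OO n), ∑ t : ClassGroup (OO n),
        gJ J s * gJ J t * ((grossL (grossSg S) F (rep s) (rep t) ν).ncard : ℤ) := by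
    rw [Finset.sum_congr rfl fun S hS => gross_sum_flip hF0 (Finset.mem_powerset.1 hS) hJ ν,
      Finset.sum_const, Finset.card_powerset, nsmul_eq_mul]
    push_cast; rfl
  rw [h1, Finset.sum_comm]
  rw [Finset.sum_congr rfl fun s _ => Finset.sum_comm]
  simp only [← Finset.mul_sum, gross_sum_S hF h15 (rep_coprime _) (rep_coprime _) hν]
  have h2 : (Finset.range (ν * n)).filter (fun m => 15 * m < ν * n) =
      insert 0 (mRange (ν * n)) := by
    ext m
    simp only [mRange, Finset.mem_filter, Finset.mem_range, Finset.mem_insert]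
    omega
  have h3 : 0 ∉ mRange (ν * n) := by simp [mRange]
  have h4 : ∀ m : ℕ, ∑ s : ClassGroup (OO n), ∑ t : ClassGroup (OO n), gJ J s * gJ J t *
      (grossW n m * (((grossE (rep s * cj (rep t)) (ν * n - 15 * m)).ncard : ℤ) *
        ((grossE (rep s * rep t * F) m).ncard : ℤ))) =
      grossW n m * ∑ s : ClassGroup (OO n), ∑ t : ClassGroup (OO n), gJ J s * gJ J t *
      (((grossE (rep s * cj (rep t)) (ν * n - 15 * m)).ncard : ℤ) *
        ((grossE (rep s * rep t * F) m).ncard : ℤ)) := by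
    intro m
    simp only [Finset.mul_sum]
    exact Finset.sum_congr rfl fun s _ => Finset.sum_congr rfl fun t _ => by ring
  simp only [Finset.mul_sum]
  rw [Finset.sum_congr rfl fun s _ => Finset.sum_comm, Finset.sum_comm]
  simp only [h4]
  rw [h2, Finset.sum_insert h3, mul_zero, Nat.sub_zero, gross_term_zero F hJ hν0]
  have h5 : grossW n 0 = 2 ^ n.primeFactors.card := by
    simp [grossW, one_add_one_eq_two]
  rw [h5, mul_add, CFsum, Finset.mul_sum, Finset.mul_sum]
  congr 1
  refine Finset.sum_congr rfl fun m hm => ?_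
  simp only [mRange, Finset.mem_filter, Finset.mem_range] at hm
  rw [gross_term_pos hF h15 hJ (ν := ν) (by omega) (by omega) (by omega)]
  conv_rhs => rw [hr, pow_succ]
  ring

end Pool.Agent.P.MP_8b7eba_nt.BSD15
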