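import Pool.Agent.P.MP_8b7eba_nt.BSD15.Genus

/-! The sign change along ramified ideals. -/

namespace Pool.Agent.P.MP_8b7eba_nt.BSD15

variable {n : ℕ} [Good n]

/-- reduction modulo the ramified prime above `p` -/
def grossRp (p : ℕ) (z : OO n) : ZMod p := ZMod.cast (rho z)

theorem gross_rp_add {p : ℕ} (hp : p ∣ n) (z w : OO n) :
    grossRp p (z + w) = grossRp p z + grossRp p w := by
  unfold grossRp
  rw [rho_add, ZMod.cast_add hp]

theorem gross_rp_sub {p : ℕ} (hp : p ∣ n) (z w : OO n) :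
    grossRp p (z - w) = grossRp p z - grossRp p w := by
  unfold grossRp
  rw [rho_sub, ZMod.cast_sub hp]

theorem gross_rp_mul {p : ℕ} (hp : p ∣ n) (z w : OO n) :
    grossRp p (z * w) = grossRp p z * grossRp p w := by
  unfold grossRp
  rw [rho_mul, ZMod.cast_mul hp]

theorem gross_rp_natCast {p : ℕ} (hp : p ∣ n) (k : ℕ) : grossRp p (k : OO n) = k := by
  unfold grossRp
  rw [rho_natCast, ZMod.cast_natCast hp]

theorem gross_rp_star (p : ℕ) (z : OO n) : grossRp p (star z) = grossRp p z := by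
  unfold grossRp
  rw [rho_star]

theorem gross_rp_sq {p : ℕ} (hp : p ∣ n) (z : OO n) :
    grossRp p z ^ 2 = (z.norm : ZMod p) := by
  unfold grossRp
  rw [← ZMod.cast_pow hp, rho_sq, ZMod.cast_intCast hp]

theorem gross_n_pos : 0 < n := lt_trans (by norm_num) (Good.gt (n := n))

theorem gross_rho_eq_iff (z w : OO n) :
    rho z = rho w ↔ ∀ p ∈ n.primeFactors, grossRp p z = grossRp p w := by
  constructor
  · intro h p _
    unfold grossRp
    rw [h]
  · intro h
    have : NeZero n := ⟨gross_n_pos.ne'⟩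
    rw [← sub_eq_zero]
    obtain ⟨k, hk⟩ : ∃ k : ℕ, (k : ZMod n) = rho z - rho w := ⟨_, ZMod.natCast_zmod_val _⟩
    rw [← hk, ZMod.natCast_eq_zero_iff]
    have hn : ∏ p ∈ n.primeFactors, p = n := Nat.prod_primeFactors_of_squarefree Good.sq
    rw [← hn]
    refine Finset.prod_primes_dvd k (fun p hp => (Nat.prime_of_mem_primeFactors hp).prime) ?_
    intro p hp
    have hpn := Nat.dvd_of_mem_primeFactors hp
    have h1 := h p hp
    rw [← sub_eq_zero, ← gross_rp_sub hpn] at h1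
    unfold grossRp at h1
    rw [rho_sub, ← hk, ZMod.cast_natCast hpn, ZMod.natCast_eq_zero_iff] at h1
    exact h1

/-- pairs of elements with the norm equation and no congruence -/
def grossT (F A B : Ideal (OO n)) (ν : ℕ) : Set (OO n × OO n) :=
  {x | x.1 ∈ A * cj B ∧ x.2 ∈ A * B * F ∧
    (nm F : ℤ) * x.1.norm + 15 * x.2.norm = ν * n * nm F * nm A * nm B}

/-- the twisted congruence -/
def grossL (σ : ℕ → ℤ) (F A B : Ideal (OO n)) (ν : ℕ) : Set (OO n × OO n) :=
  {x | x ∈ grossT F A B ν ∧ ∀ p ∈ n.primeFactors, grossRp p x.1 = σ p * grossRp p x.2}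

theorem gross_T_finite {F : Ideal (OO n)} (hF : F ≠ ⊥) (A B : Ideal (OO n)) (ν : ℕ) :
    (grossT F A B ν).Finite := by
  refine ((finite_norm_le (n := n) (ν * n * nm F * nm A * nm B)).prod
    (finite_norm_le (n := n) (ν * n * nm F * nm A * nm B))).subset ?_
  rintro ⟨a, b⟩ ⟨_, _, h⟩
  have h1 := norm_nonneg' a
  have h2 := norm_nonneg' b
  have h3 : (1 : ℤ) ≤ nm F := by
    have : nm F ≠ 0 := fun h => hF (nm_eq_zero.1 h)
    exact_mod_cast Nat.one_le_iff_ne_zero.2 this
  simp only [Set.mem_prod, Set.mem_ofPred_eq] at h ⊢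
  constructor <;> nlinarith

theorem gross_L_finite (σ : ℕ → ℤ) {F : Ideal (OO n)} (hF : F ≠ ⊥) (A B : Ideal (OO n)) (ν : ℕ) :
    (grossL σ F A B ν).Finite :=
  (gross_T_finite hF A B ν).subset fun _ hx => hx.1

theorem gross_LL_eq (F A B : Ideal (OO n)) (ν : ℕ) : LL F A B ν = grossL (fun _ => 1) F A B ν := by
  ext x
  simp only [LL, grossL, grossT, Set.mem_ofPred_eq, gross_rho_eq_iff, Int.cast_one, one_mul]
  tauto

theorem gross_natCast_ne_zero {k : ℕ} (hk : k ≠ 0) : (k : OO n) ≠ 0 := by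
  intro h
  have h1 : (k : OO n).norm = 0 := norm_eq_zero'.2 h
  rw [QuadraticAlgebra.norm_natCast] at h1
  exact hk (by exact_mod_cast pow_eq_zero_iff (two_ne_zero) |>.1 h1)

omit [Good n] in
theorem gross_exists_div {I : Ideal (OO n)} {c x : OO n} (h : x ∈ Ideal.span {c} * I) :
    ∃ y ∈ I, x = c * y := by
  obtain ⟨y, hy, rfl⟩ := Ideal.mem_span_singleton_mul.1 h
  exact ⟨y, hy, rfl⟩

omit [Good n] in
theorem gross_add_star (w : OO n) : w + star w = ((2 * w.re + w.im : ℤ) : OO n) := by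
  ext
  · rw [QuadraticAlgebra.re_intCast]; simp; ring
  · rw [QuadraticAlgebra.im_intCast]; simp

theorem gross_flip_le {F A B A' B' D : Ideal (OO n)} (hF : F ≠ ⊥) {d : ℕ} (hdn : d ∣ n)
    (hD1 : nm D = d) (hD2 : cj D = D) (hD3 : ∀ z ∈ D, (d : ℤ) ∣ 2 * z.re + z.im)
    (hA : (nm A).Coprime n) (hB : (nm B).Coprime n)
    (hA' : A' ≠ ⊥) (hB' : B' ≠ ⊥)
    (hcA : cls A' * (cls A)⁻¹ * cls D = 1) (hcB : cls B' * (cls B)⁻¹ * cls D = 1)
    (σ σ' : ℕ → ℤ) (hσ : ∀ p ∈ n.primeFactors, σ' p = (if p ∣ d then -1 else 1) * σ p) (ν : ℕ) :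
    (grossL σ F A B ν).ncard ≤ (grossL σ' F A' B' ν).ncard := by
  have hd0 : d ≠ 0 := fun h => gross_n_pos.ne' (Nat.eq_zero_of_zero_dvd (h ▸ hdn))
  have hA0 := ne_bot_of_coprime hA
  have hB0 := ne_bot_of_coprime hB
  have hD0 : D ≠ ⊥ := fun h => hd0 (hD1 ▸ nm_eq_zero.2 h)
  have hcj : ∀ {I : Ideal (OO n)}, I ≠ ⊥ → cj I ≠ ⊥ := fun {I} hI h =>
    hI (nm_eq_zero.1 (by rw [← nm_cj, h]; exact nm_eq_zero.2 rfl))
  obtain ⟨z, hz⟩ : ∃ z, A' * cj A * D = Ideal.span {z} := by
    refine (cls_eq_one_iff (mul_ne_zero (mul_ne_zero hA' (hcj hA0)) hD0)).1 ?_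
    rw [cls_mul (mul_ne_zero hA' (hcj hA0)) hD0, cls_mul hA' (hcj hA0), cls_cj, hcA]
  obtain ⟨w, hw⟩ : ∃ w, B' * cj B * D = Ideal.span {w} := by
    refine (cls_eq_one_iff (mul_ne_zero (mul_ne_zero hB' (hcj hB0)) hD0)).1 ?_
    rw [cls_mul (mul_ne_zero hB' (hcj hB0)) hD0, cls_mul hB' (hcj hB0), cls_cj, hcB]
  have hw' : cj B' * B * D = Ideal.span {star w} := by
    rw [← cj_span, ← hw, cj_mul, cj_mul, cj_cj, hD2]
  have hDD : D * D = Ideal.span {(d : OO n)} := by
    have := mul_cj D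
    rwa [hD2, hD1] at this
  have hzD : z ∈ D := by
    have : z ∈ A' * cj A * D := hz ▸ Ideal.mem_span_singleton_self z
    exact Ideal.mul_le_right this
  have hwD : w ∈ D := by
    have : w ∈ B' * cj B * D := hw ▸ Ideal.mem_span_singleton_self w
    exact Ideal.mul_le_right this
  have hwD' : star w ∈ D := by
    have : star w ∈ cj B' * B * D := hw' ▸ Ideal.mem_span_singleton_self _
    exact Ideal.mul_le_right this
  obtain ⟨u, hu⟩ : ∃ u, z * star w = d * u := by
    have : z * star w ∈ D * D := Ideal.mul_mem_mul hzD hwD'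
    rw [hDD] at this
    exact Ideal.mem_span_singleton.1 this
  obtain ⟨u', hu'⟩ : ∃ u, z * w = d * u := by
    have : z * w ∈ D * D := Ideal.mul_mem_mul hzD hwD
    rw [hDD] at this
    exact Ideal.mem_span_singleton.1 this
  have hdO : (d : OO n) ≠ 0 := gross_natCast_ne_zero hd0
  have hNA : nm A ≠ 0 := fun h => hA0 (nm_eq_zero.1 h)
  have hNB : nm B ≠ 0 := fun h => hB0 (nm_eq_zero.1 h)
  have hNA' : nm A' ≠ 0 := fun h => hA' (nm_eq_zero.1 h)
  have hNB' : nm B' ≠ 0 := fun h => hB' (nm_eq_zero.1 h)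
  have hzn : z.norm = nm A' * nm A * d := by
    rw [← nm_span, ← hz, nm_mul, nm_mul, nm_cj, hD1]; push_cast; ring
  have hwn : w.norm = nm B' * nm B * d := by
    rw [← nm_span, ← hw, nm_mul, nm_mul, nm_cj, hD1]; push_cast; ring
  have hdZ : (d : ℤ) ≠ 0 := by exact_mod_cast hd0
  have hun : u.norm = nm A' * nm B' * (nm A * nm B) := by
    have := congrArg QuadraticAlgebra.norm hu
    rw [map_mul, map_mul, QuadraticAlgebra.norm_star, hzn, hwn,
      QuadraticAlgebra.norm_natCast] at this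
    have h2 : (d : ℤ) ^ 2 ≠ 0 := pow_ne_zero _ hdZ
    apply mul_left_cancel₀ h2
    rw [← this]; ring
  have hun' : u'.norm = nm A' * nm B' * (nm A * nm B) := by
    have := congrArg QuadraticAlgebra.norm hu'
    rw [map_mul, map_mul, hzn, hwn, QuadraticAlgebra.norm_natCast] at this
    have h2 : (d : ℤ) ^ 2 ≠ 0 := pow_ne_zero _ hdZ
    apply mul_left_cancel₀ h2
    rw [← this]; ring
  have hN0 : ((nm A * nm B : ℕ) : OO n) ≠ 0 := gross_natCast_ne_zero (mul_ne_zero hNA hNB)
  have hNZ : ((nm A : ℤ) * nm B) ≠ 0 := by exact_mod_cast mul_ne_zero hNA hNB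
  have hu0 : u ≠ 0 := by
    intro h
    rw [norm_eq_zero'.2 h] at hun
    have : ((nm A' : ℤ) * nm B' * (nm A * nm B)) ≠ 0 := by
      exact_mod_cast mul_ne_zero (mul_ne_zero hNA' hNB') (mul_ne_zero hNA hNB)
    exact this hun.symm
  have hu0' : u' ≠ 0 := by
    intro h
    rw [norm_eq_zero'.2 h] at hun'
    have : ((nm A' : ℤ) * nm B' * (nm A * nm B)) ≠ 0 := by
      exact_mod_cast mul_ne_zero (mul_ne_zero hNA' hNB') (mul_ne_zero hNA hNB)
    exact this hun'.symm
  -- the sign relation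
  have hsg : ∀ p ∈ n.primeFactors,
      grossRp p u = ((if p ∣ d then -1 else 1 : ℤ) : ZMod p) * grossRp p u' := by
    intro p hp
    have hpn := Nat.dvd_of_mem_primeFactors hp
    have : Fact p.Prime := ⟨Nat.prime_of_mem_primeFactors hp⟩
    split_ifs with hpd
    · obtain ⟨k, hk⟩ := hD3 w hwD
      have h1 : (d : OO n) * (u + u') = d * (z * (k : OO n)) := by
        rw [mul_add, ← hu, ← hu', ← mul_add, add_comm (star w), gross_add_star, hk]
        push_cast; ring
      have h2 := mul_left_cancel₀ hdO h1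
      have h3 : grossRp p z = 0 := by
        have h4 := gross_rp_sq hpn z
        rw [hzn] at h4
        have h5 : ((d : ℕ) : ZMod p) = 0 := (ZMod.natCast_eq_zero_iff _ _).2 hpd
        push_cast at h4
        rw [h5, mul_zero] at h4
        exact pow_eq_zero_iff two_ne_zero |>.1 h4
      have h6 := congrArg (grossRp p) h2
      rw [gross_rp_add hpn, gross_rp_mul hpn, h3, zero_mul] at h6
      push_cast
      linear_combination h6
    · have h1 := congrArg (grossRp p) hu
      have h2 := congrArg (grossRp p) hu'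
      rw [gross_rp_mul hpn, gross_rp_mul hpn, gross_rp_natCast hpn] at h1 h2
      rw [gross_rp_star] at h1
      have h5 : ((d : ℕ) : ZMod p) ≠ 0 := fun h => hpd ((ZMod.natCast_eq_zero_iff _ _).1 h)
      apply mul_left_cancel₀ h5
      push_cast
      rw [← h1, one_mul, ← h2]
  -- the map
  have key : ∀ x ∈ grossL σ F A B ν, ∃ y ∈ grossL σ' F A' B' ν,
      u * x.1 = (nm A * nm B : ℕ) * y.1 ∧ u' * x.2 = (nm A * nm B : ℕ) * y.2 := by
    rintro ⟨a, b⟩ ⟨⟨ha, hb, hn⟩, hc⟩
    simp only at ha hb hn hc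
    have e1 : Ideal.span {z} * Ideal.span {star w} * (A * cj B) =
        Ideal.span {(d : OO n) * (nm A * nm B : ℕ)} * (A' * cj B') := by
      rw [← hz, ← hw', Nat.cast_mul, ← Ideal.span_singleton_mul_span_singleton,
        ← Ideal.span_singleton_mul_span_singleton, ← hDD, ← mul_cj, ← mul_cj]
      ring
    have e2 : Ideal.span {z} * Ideal.span {w} * (A * B * F) =
        Ideal.span {(d : OO n) * (nm A * nm B : ℕ)} * (A' * B' * F) := by
      rw [← hz, ← hw, Nat.cast_mul, ← Ideal.span_singleton_mul_span_singleton,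
        ← Ideal.span_singleton_mul_span_singleton, ← hDD, ← mul_cj, ← mul_cj]
      ring
    have m1 : z * star w * a ∈ Ideal.span {z} * Ideal.span {star w} * (A * cj B) :=
      Ideal.mul_mem_mul (Ideal.mul_mem_mul (Ideal.mem_span_singleton_self _)
        (Ideal.mem_span_singleton_self _)) ha
    have m2 : z * w * b ∈ Ideal.span {z} * Ideal.span {w} * (A * B * F) :=
      Ideal.mul_mem_mul (Ideal.mul_mem_mul (Ideal.mem_span_singleton_self _)
        (Ideal.mem_span_singleton_self _)) hb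
    rw [e1] at m1
    rw [e2] at m2
    obtain ⟨a', ha', ea⟩ := gross_exists_div m1
    obtain ⟨b', hb', eb⟩ := gross_exists_div m2
    have ea' : u * a = (nm A * nm B : ℕ) * a' := by
      apply mul_left_cancel₀ hdO
      rw [← mul_assoc, ← hu, ea, mul_assoc]
    have eb' : u' * b = (nm A * nm B : ℕ) * b' := by
      apply mul_left_cancel₀ hdO
      rw [← mul_assoc, ← hu', eb, mul_assoc]
    refine ⟨(a', b'), ⟨⟨ha', hb', ?_⟩, ?_⟩, ea', eb'⟩
    · have n1 := congrArg QuadraticAlgebra.norm ea'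
      have n2 := congrArg QuadraticAlgebra.norm eb'
      rw [map_mul, map_mul, QuadraticAlgebra.norm_natCast] at n1 n2
      rw [hun] at n1
      rw [hun'] at n2
      push_cast at n1 n2
      apply mul_left_cancel₀ (pow_ne_zero 2 hNZ)
      simp only
      linear_combination (-(nm F : ℤ)) * n1 - 15 * n2 +
        ((nm A' : ℤ) * nm B' * (nm A * nm B)) * hn
    · intro p hp
      have hpn := Nat.dvd_of_mem_primeFactors hp
      have hpp := Nat.prime_of_mem_primeFactors hp
      have : Fact p.Prime := ⟨hpp⟩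
      have h1 := congrArg (grossRp p) ea'
      have h2 := congrArg (grossRp p) eb'
      rw [gross_rp_mul hpn, gross_rp_mul hpn, gross_rp_natCast hpn] at h1 h2
      have h5 : ((nm A * nm B : ℕ) : ZMod p) ≠ 0 := by
        intro h
        have h6 := (ZMod.natCast_eq_zero_iff _ _).1 h
        have h7 : (nm A * nm B).Coprime n := Nat.Coprime.mul_left hA hB
        exact hpp.one_lt.ne' (Nat.eq_one_of_dvd_coprimes h7 h6 hpn)
      apply mul_left_cancel₀ h5
      simp only
      rw [← h1, hσ p hp, hsg p hp, hc p hp, Int.cast_mul]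
      linear_combination (((if p ∣ d then -1 else 1 : ℤ) : ZMod p) * σ p) * h2
  choose! f hf using key
  refine Set.ncard_le_ncard_of_injOn f (fun x hx => (hf x hx).1) ?_ (gross_L_finite σ' hF _ _ ν)
  intro x hx y hy hxy
  obtain ⟨_, h1, h2⟩ := hf x hx
  obtain ⟨_, h3, h4⟩ := hf y hy
  rw [hxy, ← h3] at h1
  rw [hxy, ← h4] at h2
  exact Prod.ext (mul_left_cancel₀ hu0 h1) (mul_left_cancel₀ hu0' h2)

end Pool.Agent.P.MP_8b7eba_nt.BSD15
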