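import Pool.Agent.P.MP_8b7eba_nt.BSD15.Defs

/-! Hermite reduction in ranks three and four. -/

namespace Pool.Agent.P.MP_8b7eba_nt.BSD15

open Matrix

/-- nearest integer division -/
theorem hermite_round (B d : ℤ) (hd : 0 < d) :
    ∃ q : ℤ, -d ≤ 2 * (B - q * d) ∧ 2 * (B - q * d) ≤ d := by
  refine ⟨(2 * B + d) / (2 * d), ?_, ?_⟩
  · have h := Int.ediv_mul_le (2 * B + d) (show (2 * d) ≠ 0 by omega)
    nlinarith
  · have h := Int.lt_ediv_add_one_mul_self (2 * B + d) (show 0 < 2 * d by omega)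
    nlinarith

/-- the exchange step: if `d * d' = e + r ^ 2` with `|2 r| ≤ d` and `4 e < 3 d ^ 2` then `d' < d` -/
theorem hermite_lt (d d' e r : ℤ) (hd : 0 < d) (h : d * d' = e + r ^ 2) (h1 : -d ≤ 2 * r)
    (h2 : 2 * r ≤ d) (h3 : 4 * e < 3 * d ^ 2) : d' < d := by
  have h4 : (2 * r) ^ 2 ≤ d ^ 2 := sq_le_sq' h1 h2
  by_contra hc
  push Not at hc
  have : d * d ≤ d * d' := mul_le_mul_of_nonneg_left hc hd.le
  nlinarith

/-! ### rank four -/

/-- the quaternary form with Gram matrix `!![a,b,c,d; b,e,f,g; c,f,h,i; d,g,i,j]` -/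
def hermite_Q (a b c d e f g h i j x y z w : ℤ) : ℤ :=
  a * x ^ 2 + e * y ^ 2 + h * z ^ 2 + j * w ^ 2 +
    2 * (b * x * y + c * x * z + d * x * w + f * y * z + g * y * w + i * z * w)

/-- the third leading minor -/
def hermite_d3 (a b c e f h : ℤ) : ℤ :=
  a * (e * h - f ^ 2) - b * (b * h - f * c) + c * (b * f - e * c)

/-- the determinant -/
def hermite_d4 (a b c d e f g h i j : ℤ) : ℤ :=
  a * (e * (h * j - i * i) - f * (f * j - i * g) + g * (f * i - h * g))
  - b * (b * (h * j - i * i) - f * (c * j - i * d) + g * (c * i - h * d))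
  + c * (b * (f * j - i * g) - e * (c * j - i * d) + g * (c * g - f * d))
  - d * (b * (f * i - h * g) - e * (c * i - h * d) + f * (c * g - f * d))

/-- positive definiteness -/
def hermite_PD (a b c d e f g h i j : ℤ) : Prop :=
  ∀ x y z w : ℤ, ¬ (x = 0 ∧ y = 0 ∧ z = 0 ∧ w = 0) → 0 < hermite_Q a b c d e f g h i j x y z w

theorem hermite_four_aux (N : ℕ) : ∀ a b c d e f g h i j : ℤ, hermite_PD a b c d e f g h i j →
    hermite_d4 a b c d e f g h i j = 225 →
    a + (a * e - b ^ 2) + hermite_d3 a b c e f h ≤ N →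
    ∃ x y z w : ℤ, ¬ (x = 0 ∧ y = 0 ∧ z = 0 ∧ w = 0) ∧
      hermite_Q a b c d e f g h i j x y z w ≤ 5 := by
  induction N using Nat.strong_induction_on with
  | _ N ih =>
  intro a b c d e f g h i j hp hdet hN
  have ha : 0 < a := by
    have := hp 1 0 0 0 (by simp)
    simpa [hermite_Q] using this
  have hd2 : 0 < a * e - b ^ 2 := by
    have h1 := hp (-b) a 0 0 (by omega)
    have h2 : hermite_Q a b c d e f g h i j (-b) a 0 0 = a * (a * e - b ^ 2) := by
      unfold hermite_Q; ring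
    rw [h2] at h1
    exact (pos_iff_pos_of_mul_pos h1).1 ha
  have hd3 : 0 < hermite_d3 a b c e f h := by
    have h1 := hp (b * f - c * e) (b * c - a * f) (a * e - b ^ 2) 0 (by omega)
    have h2 : hermite_Q a b c d e f g h i j (b * f - c * e) (b * c - a * f) (a * e - b ^ 2) 0 =
        (a * e - b ^ 2) * hermite_d3 a b c e f h := by
      unfold hermite_Q hermite_d3; ring
    rw [h2] at h1
    exact (pos_iff_pos_of_mul_pos h1).1 hd2
  by_cases c1 : 4 * (a * e - b ^ 2) < 3 * a ^ 2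
  · obtain ⟨q, q1, q2⟩ := hermite_round b a ha
    have hlt : e - 2 * q * b + q ^ 2 * a < a :=
      hermite_lt a _ (a * e - b ^ 2) (b - q * a) ha (by ring) q1 q2 c1
    have key : ∀ x y z w : ℤ,
        hermite_Q (e - 2 * q * b + q ^ 2 * a) (b - q * a) (f - q * c) (g - q * d) a c d h i j
          x y z w = hermite_Q a b c d e f g h i j (y - q * x) x z w := by
      intro x y z w; unfold hermite_Q; ring
    obtain ⟨x, y, z, w, hne, hle⟩ := ih (N - 1) (by omega)
      (e - 2 * q * b + q ^ 2 * a) (b - q * a) (f - q * c) (g - q * d) a c d h i j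
      (by
        intro x y z w hne
        rw [key]
        refine hp _ _ _ _ ?_
        rintro ⟨h1, rfl, rfl, rfl⟩
        exact hne ⟨rfl, by simpa using h1, rfl, rfl⟩)
      (by rw [← hdet]; unfold hermite_d4; ring)
      (by
        have e2 : (e - 2 * q * b + q ^ 2 * a) * a - (b - q * a) ^ 2 = a * e - b ^ 2 := by ring
        have e3 : hermite_d3 (e - 2 * q * b + q ^ 2 * a) (b - q * a) (f - q * c) a c h =
            hermite_d3 a b c e f h := by unfold hermite_d3; ring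
        rw [e2, e3]; omega)
    refine ⟨y - q * x, x, z, w, ?_, by rw [← key]; exact hle⟩
    rintro ⟨h1, rfl, rfl, rfl⟩
    exact hne ⟨rfl, by simpa using h1, rfl, rfl⟩
  by_cases c2 : 4 * (a * hermite_d3 a b c e f h) < 3 * (a * e - b ^ 2) ^ 2
  · obtain ⟨q, q1, q2⟩ := hermite_round (a * f - b * c) (a * e - b ^ 2) hd2
    have hlt : a * (h - 2 * q * f + q ^ 2 * e) - (c - q * b) ^ 2 < a * e - b ^ 2 :=
      hermite_lt _ _ (a * hermite_d3 a b c e f h) _ hd2 (by unfold hermite_d3; ring) q1 q2 c2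
    have key : ∀ x y z w : ℤ,
        hermite_Q a (c - q * b) b d (h - 2 * q * f + q ^ 2 * e) (f - q * e) (i - q * g) e g j
          x y z w = hermite_Q a b c d e f g h i j x (z - q * y) y w := by
      intro x y z w; unfold hermite_Q; ring
    obtain ⟨x, y, z, w, hne, hle⟩ := ih (N - 1) (by omega)
      a (c - q * b) b d (h - 2 * q * f + q ^ 2 * e) (f - q * e) (i - q * g) e g j
      (by
        intro x y z w hne
        rw [key]
        refine hp _ _ _ _ ?_
        rintro ⟨rfl, h1, rfl, rfl⟩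
        exact hne ⟨rfl, rfl, by simpa using h1, rfl⟩)
      (by rw [← hdet]; unfold hermite_d4; ring)
      (by
        have e3 : hermite_d3 a (c - q * b) b (h - 2 * q * f + q ^ 2 * e) (f - q * e) e =
            hermite_d3 a b c e f h := by unfold hermite_d3; ring
        rw [e3]; omega)
    refine ⟨x, z - q * y, y, w, ?_, by rw [← key]; exact hle⟩
    rintro ⟨rfl, h1, rfl, rfl⟩
    exact hne ⟨rfl, rfl, by simpa using h1, rfl⟩
  by_cases c3 : 4 * ((a * e - b ^ 2) * 225) < 3 * hermite_d3 a b c e f h ^ 2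
  · obtain ⟨q, q1, q2⟩ := hermite_round
      (a * (e * i - f * g) - b * (b * i - g * c) + d * (b * f - e * c)) _ hd3
    have hlt : hermite_d3 a b (d - q * c) e (g - q * f) (j - 2 * q * i + q ^ 2 * h) <
        hermite_d3 a b c e f h :=
      hermite_lt _ _ ((a * e - b ^ 2) * 225) _ hd3
        (by rw [← hdet]; unfold hermite_d3 hermite_d4; ring) q1 q2 c3
    have key : ∀ x y z w : ℤ,
        hermite_Q a b (d - q * c) c e (g - q * f) f (j - 2 * q * i + q ^ 2 * h) (i - q * h) h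
          x y z w = hermite_Q a b c d e f g h i j x y (w - q * z) z := by
      intro x y z w; unfold hermite_Q; ring
    obtain ⟨x, y, z, w, hne, hle⟩ := ih (N - 1) (by omega)
      a b (d - q * c) c e (g - q * f) f (j - 2 * q * i + q ^ 2 * h) (i - q * h) h
      (by
        intro x y z w hne
        rw [key]
        refine hp _ _ _ _ ?_
        rintro ⟨rfl, rfl, h1, rfl⟩
        exact hne ⟨rfl, rfl, rfl, by simpa using h1⟩)
      (by rw [← hdet]; unfold hermite_d4; ring)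
      (by omega)
    refine ⟨x, y, w - q * z, z, ?_, by rw [← key]; exact hle⟩
    rintro ⟨rfl, rfl, h1, rfl⟩
    exact hne ⟨rfl, rfl, rfl, by simpa using h1⟩
  refine ⟨1, 0, 0, 0, by simp, ?_⟩
  have e1 : hermite_Q a b c d e f g h i j 1 0 0 0 = a := by unfold hermite_Q; ring
  rw [e1]
  push Not at c1 c2 c3
  generalize a * e - b ^ 2 = d2 at *
  generalize hermite_d3 a b c e f h = d3 at *
  by_contra hc
  push Not at hc
  have h6 : 6 ≤ a := hc
  -- `d2 ≥ 27`, `3 d2 ^ 2 ≤ 4 a d3`, `d3 ^ 2 ≤ 300 d2`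
  have s1 : 9 * d2 ^ 4 ≤ 16 * a ^ 2 * d3 ^ 2 := by
    have : (3 * d2 ^ 2) ^ 2 ≤ (4 * (a * d3)) ^ 2 :=
      pow_le_pow_left₀ (by positivity) c2 2
    nlinarith
  have s2 : 9 * d2 ^ 4 ≤ 4800 * a ^ 2 * d2 := by
    have : 16 * a ^ 2 * d3 ^ 2 ≤ 16 * a ^ 2 * (300 * d2) :=
      mul_le_mul_of_nonneg_left (by nlinarith) (by positivity)
    nlinarith
  have s3 : 9 * d2 ^ 4 ≤ 6400 * d2 ^ 2 := by
    have : 3 * a ^ 2 * d2 ≤ 4 * d2 * d2 := mul_le_mul_of_nonneg_right c1 hd2.le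
    nlinarith
  have s4 : 27 ≤ d2 := by nlinarith
  have s5 : 729 * d2 ^ 2 ≤ d2 ^ 4 := by
    have : 729 ≤ d2 ^ 2 := by nlinarith
    nlinarith
  nlinarith

theorem hermite_four (G : Matrix (Fin 4) (Fin 4) ℤ) (hs : G.IsSymm)
    (hpos : ∀ v : Fin 4 → ℤ, v ≠ 0 → 0 < v ⬝ᵥ (G *ᵥ v)) (hdet : G.det = 225) :
    ∃ v : Fin 4 → ℤ, v ≠ 0 ∧ v ⬝ᵥ (G *ᵥ v) ≤ 5 := by
  have h10 : G 1 0 = G 0 1 := hs.apply 0 1
  have h20 : G 2 0 = G 0 2 := hs.apply 0 2
  have h30 : G 3 0 = G 0 3 := hs.apply 0 3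
  have h21 : G 2 1 = G 1 2 := hs.apply 1 2
  have h31 : G 3 1 = G 1 3 := hs.apply 1 3
  have h32 : G 3 2 = G 2 3 := hs.apply 2 3
  have key : ∀ x y z w : ℤ, ![x, y, z, w] ⬝ᵥ (G *ᵥ ![x, y, z, w]) =
      hermite_Q (G 0 0) (G 0 1) (G 0 2) (G 0 3) (G 1 1) (G 1 2) (G 1 3) (G 2 2) (G 2 3) (G 3 3)
        x y z w := by
    intro x y z w
    simp only [dotProduct, mulVec, Fin.sum_univ_four, hermite_Q, h10, h20, h30, h21, h31, h32]
    simp
    ring
  have hz : ∀ x y z w : ℤ, (![x, y, z, w] : Fin 4 → ℤ) = 0 ↔ (x = 0 ∧ y = 0 ∧ z = 0 ∧ w = 0) := by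
    intro x y z w
    constructor
    · intro h
      exact ⟨congrFun h 0, congrFun h 1, congrFun h 2, congrFun h 3⟩
    · rintro ⟨rfl, rfl, rfl, rfl⟩
      ext k; fin_cases k <;> rfl
  have hd : hermite_d4 (G 0 0) (G 0 1) (G 0 2) (G 0 3) (G 1 1) (G 1 2) (G 1 3) (G 2 2) (G 2 3)
      (G 3 3) = 225 := by
    rw [← hdet, Matrix.det_succ_row_zero]
    simp only [Fin.sum_univ_four, Matrix.det_fin_three, Matrix.submatrix_apply, hermite_d4]
    simp [Fin.succAbove, h10, h20, h30, h21, h31, h32]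
    ring
  obtain ⟨x, y, z, w, hne, hle⟩ := hermite_four_aux _ (G 0 0) (G 0 1) (G 0 2) (G 0 3) (G 1 1)
    (G 1 2) (G 1 3) (G 2 2) (G 2 3) (G 3 3)
    (fun x y z w hne => by rw [← key]; exact hpos _ (fun h => hne ((hz x y z w).1 h))) hd
    (Int.self_le_toNat _)
  exact ⟨![x, y, z, w], fun h => hne ((hz x y z w).1 h), by rw [key]; exact hle⟩

/-! ### rank three -/

/-- the symmetric matrix with entries `a, b, c, f, g, h` -/
def hermite_M (a b c f g h : ℤ) : Matrix (Fin 3) (Fin 3) ℤ := !![a, h, g; h, b, f; g, f, c]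

/-- the conclusion of `ternary_class` -/
def hermite_Tgt (A : Matrix (Fin 3) (Fin 3) ℤ) : Prop :=
  ∃ U : Matrix (Fin 3) (Fin 3) ℤ, U.det = 1 ∧
    (Uᵀ * A * U = !![2, 0, 0; 0, 2, 1; 0, 1, 8] ∨ Uᵀ * A * U = !![2, 0, 0; 0, 4, 1; 0, 1, 4] ∨
      Uᵀ * A * U = !![2, 1, 0; 1, 2, 0; 0, 0, 10])

theorem hermite_tgt_of (A B U : Matrix (Fin 3) (Fin 3) ℤ) (hU : U.det = 1)
    (hB : Uᵀ * A * U = B) (h : hermite_Tgt B) : hermite_Tgt A := by
  obtain ⟨V, hV, h⟩ := h
  refine ⟨U * V, by rw [det_mul, hU, hV, one_mul], ?_⟩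
  have : (U * V)ᵀ * A * (U * V) = Vᵀ * B * V := by
    rw [← hB, transpose_mul]; simp only [Matrix.mul_assoc]
  rw [this]; exact h

/-- the ternary form -/
def hermite_T (a b c f g h x y z : ℤ) : ℤ :=
  a * x ^ 2 + b * y ^ 2 + c * z ^ 2 + 2 * (h * x * y + g * x * z + f * y * z)

theorem hermite_fin (b c f g h : ℤ) (hb : Even b) (hc : Even c)
    (hdet : hermite_d3 2 h g b f c = 30) (h1 : -1 ≤ h) (h2 : h ≤ 1) (g1 : -1 ≤ g) (g2 : g ≤ 1)
    (d1 : 3 ≤ 2 * b - h ^ 2) (d2 : 2 * b - h ^ 2 ≤ 8)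
    (f1 : -(2 * b - h ^ 2) ≤ 2 * (2 * f - h * g)) (f2 : 2 * (2 * f - h * g) ≤ 2 * b - h ^ 2) :
    hermite_Tgt (hermite_M 2 b c f g h) := by
  obtain ⟨b, rfl⟩ := hb
  obtain ⟨c, rfl⟩ := hc
  unfold hermite_d3 at hdet
  have hb1 : 1 ≤ b := by nlinarith [sq_nonneg h]
  have hb2 : b ≤ 2 := by
    have : h ^ 2 ≤ 1 := by nlinarith
    omega
  have hf1 : -2 ≤ f := by
    interval_cases h <;> interval_cases g <;> omega
  have hf2 : f ≤ 2 := by
    interval_cases h <;> interval_cases g <;> omega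
  interval_cases h <;> interval_cases g <;> interval_cases b <;> interval_cases f <;>
    first
    | (exfalso; omega)
    | (obtain rfl : c = 5 := by omega
       first
       | exact ⟨!![-1, -1, 0; -1, 0, 0; 0, 0, -1], by decide, Or.inr (Or.inr (by decide))⟩
       | exact ⟨!![-1, -1, 0; 0, 1, 0; 0, 0, -1], by decide, Or.inr (Or.inr (by decide))⟩)
    | (obtain rfl : c = 4 := by omega
       first
       | exact ⟨!![0, -1, -1; -1, 0, 0; 0, 0, -1], by decide, Or.inl (by decide)⟩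
       | exact ⟨!![-1, 0, 0; 0, -1, 0; 0, 0, 1], by decide, Or.inl (by decide)⟩
       | exact ⟨!![-1, 0, 0; 0, -1, -1; 0, 0, 1], by decide, Or.inl (by decide)⟩
       | exact ⟨!![0, -1, 0; -1, 0, 0; 0, 0, -1], by decide, Or.inl (by decide)⟩)
    | (obtain rfl : c = 2 := by omega
       first
       | exact ⟨!![-1, 0, 0; 0, -1, 0; 0, 0, 1], by decide, Or.inr (Or.inl (by decide))⟩
       | exact ⟨!![-1, 0, 0; 0, 0, -1; 0, -1, 0], by decide, Or.inr (Or.inl (by decide))⟩)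

theorem hermite_three_aux (N : ℕ) : ∀ a b c f g h : ℤ,
    (∀ x y z : ℤ, ¬ (x = 0 ∧ y = 0 ∧ z = 0) → 0 < hermite_T a b c f g h x y z) →
    Even a → Even b → Even c → hermite_d3 a h g b f c = 30 → a + (a * b - h ^ 2) ≤ N →
    hermite_Tgt (hermite_M a b c f g h) := by
  induction N using Nat.strong_induction_on with
  | _ N ih =>
  intro a b c f g h hp hea heb hec hdet hN
  have ha : 0 < a := by
    have := hp 1 0 0 (by simp)
    simpa [hermite_T] using this
  have hd2 : 0 < a * b - h ^ 2 := by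
    have h1 := hp (-h) a 0 (by omega)
    have h2 : hermite_T a b c f g h (-h) a 0 = a * (a * b - h ^ 2) := by
      unfold hermite_T; ring
    rw [h2] at h1
    exact (pos_iff_pos_of_mul_pos h1).1 ha
  by_cases c1 : 4 * (a * b - h ^ 2) < 3 * a ^ 2
  · obtain ⟨q, q1, q2⟩ := hermite_round h a ha
    have hlt : b - 2 * q * h + q ^ 2 * a < a :=
      hermite_lt a _ (a * b - h ^ 2) (h - q * a) ha (by ring) q1 q2 c1
    refine hermite_tgt_of _ (hermite_M (b - 2 * q * h + q ^ 2 * a) a c (-g) (f - q * g)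
      (-(h - q * a))) !![-q, -1, 0; 1, 0, 0; 0, 0, 1] (by simp [Matrix.det_fin_three]) ?_ ?_
    · ext i j
      fin_cases i <;> fin_cases j <;>
        simp [hermite_M, Matrix.mul_apply, Fin.sum_univ_three] <;> ring
    · refine ih (N - 1) (by omega) _ _ _ _ _ _ ?_ ?_ hea hec ?_ ?_
      · intro x y z hne
        have key : hermite_T (b - 2 * q * h + q ^ 2 * a) a c (-g) (f - q * g) (-(h - q * a)) x y z
            = hermite_T a b c f g h (-q * x - y) x z := by unfold hermite_T; ring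
        rw [key]
        refine hp _ _ _ ?_
        rintro ⟨h1, rfl, rfl⟩
        exact hne ⟨rfl, by simpa using h1, rfl⟩
      · obtain ⟨a', rfl⟩ := hea
        obtain ⟨b', rfl⟩ := heb
        exact ⟨b' - q * h + q ^ 2 * a', by ring⟩
      · rw [← hdet]; unfold hermite_d3; ring
      · have e2 : (b - 2 * q * h + q ^ 2 * a) * a - (-(h - q * a)) ^ 2 = a * b - h ^ 2 := by ring
        rw [e2]; omega
  by_cases c2 : 4 * (a * 30) < 3 * (a * b - h ^ 2) ^ 2
  · obtain ⟨q, q1, q2⟩ := hermite_round (a * f - h * g) (a * b - h ^ 2) hd2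
    have hlt : a * (c - 2 * q * f + q ^ 2 * b) - (g - q * h) ^ 2 < a * b - h ^ 2 :=
      hermite_lt _ _ (a * 30) _ hd2 (by rw [← hdet]; unfold hermite_d3; ring) q1 q2 c2
    refine hermite_tgt_of _ (hermite_M a (c - 2 * q * f + q ^ 2 * b) b (-(f - q * b)) (-h)
      (g - q * h)) !![1, 0, 0; 0, -q, -1; 0, 1, 0] (by simp [Matrix.det_fin_three]) ?_ ?_
    · ext i j
      fin_cases i <;> fin_cases j <;>
        simp [hermite_M, Matrix.mul_apply, Fin.sum_univ_three] <;> ring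
    · refine ih (N - 1) (by omega) _ _ _ _ _ _ ?_ hea ?_ heb ?_ ?_
      · intro x y z hne
        have key : hermite_T a (c - 2 * q * f + q ^ 2 * b) b (-(f - q * b)) (-h) (g - q * h) x y z
            = hermite_T a b c f g h x (-q * y - z) y := by unfold hermite_T; ring
        rw [key]
        refine hp _ _ _ ?_
        rintro ⟨rfl, h1, rfl⟩
        exact hne ⟨rfl, rfl, by simpa using h1⟩
      · obtain ⟨c', rfl⟩ := hec
        obtain ⟨b', rfl⟩ := heb
        exact ⟨c' - q * f + q ^ 2 * b', by ring⟩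
      · rw [← hdet]; unfold hermite_d3; ring
      · omega
  push Not at c1 c2
  -- size reduction
  obtain ⟨r, r1, r2⟩ := hermite_round h a ha
  obtain ⟨s, s1, s2⟩ := hermite_round (a * f - h * g) (a * b - h ^ 2) hd2
  obtain ⟨t, t1, t2⟩ := hermite_round (g - s * h) a ha
  set h' := h - r * a with hh'
  set b' := b - 2 * r * h + r ^ 2 * a with hb'
  set g' := g - s * h - t * a with hg'
  set f' := f - s * b - t * h - r * (g - s * h - t * a) with hf'
  set c' := c + s ^ 2 * b + t ^ 2 * a - 2 * s * f - 2 * t * g + 2 * s * t * h with hc'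
  have e2 : a * b' - h' ^ 2 = a * b - h ^ 2 := by rw [hh', hb']; ring
  have eB : a * f' - h' * g' = a * f - h * g - s * (a * b - h ^ 2) := by
    rw [hh', hf', hg']; ring
  have e3 : hermite_d3 a h' g' b' f' c' = 30 := by
    rw [← hdet, hh', hf', hg', hb', hc']; unfold hermite_d3; ring
  have heb' : Even b' := by
    obtain ⟨a', rfl⟩ := hea
    obtain ⟨b'', rfl⟩ := heb
    exact ⟨b'' - r * h + r ^ 2 * a', by rw [hb']; ring⟩
  have hec' : Even c' := by
    obtain ⟨a', rfl⟩ := hea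
    obtain ⟨b'', rfl⟩ := heb
    obtain ⟨c'', rfl⟩ := hec
    exact ⟨c'' + s ^ 2 * b'' + t ^ 2 * a' - s * f - t * g + s * t * h, by rw [hc']; ring⟩
  refine hermite_tgt_of _ (hermite_M a b' c' f' g' h') !![1, -r, -t; 0, 1, -s; 0, 0, 1]
    (by simp [Matrix.det_fin_three]) ?_ ?_
  · ext i j
    fin_cases i <;> fin_cases j <;>
      simp [hermite_M, Matrix.mul_apply, Fin.sum_univ_three, hh', hb', hg', hf', hc'] <;> ring
  rw [← eB, ← e2] at s1 s2
  rw [← e2] at c1 c2 hd2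
  clear_value h' b' g' f' c'
  have ha4 : a ≤ 4 := by
    generalize a * b' - h' ^ 2 = d at *
    by_contra hc
    push Not at hc
    have h5 : 5 ≤ a := hc
    have u1 : (3 * a ^ 2) ^ 2 ≤ (4 * d) ^ 2 := pow_le_pow_left₀ (by positivity) c1 2
    have u2 : 9 * a ^ 4 ≤ 640 * a := by nlinarith
    have u3 : 125 ≤ a ^ 3 := by
      calc (125 : ℤ) = 5 ^ 3 := by norm_num
        _ ≤ a ^ 3 := pow_le_pow_left₀ (by norm_num) h5 3
    nlinarith
  obtain ⟨a', ha'⟩ := hea
  have ha2 : a = 2 ∨ a = 4 := by omega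
  rcases ha2 with rfl | rfl
  · refine hermite_fin b' c' f' g' h' heb' hec' e3 (by omega) (by omega) (by omega) (by omega)
      (by omega) ?_ s1 s2
    generalize 2 * b' - h' ^ 2 = d at *
    nlinarith
  · exfalso
    have d12 : 4 * b' - h' ^ 2 = 12 := by
      generalize 4 * b' - h' ^ 2 = d at *
      have : 12 ≤ d := by omega
      have : d ≤ 12 := by nlinarith
      omega
    obtain ⟨b'', rfl⟩ := heb'
    obtain ⟨c'', rfl⟩ := hec'
    unfold hermite_d3 at e3
    have k1 : -2 ≤ h' := by omega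
    have k2 : h' ≤ 2 := by omega
    have k3 : -2 ≤ g' := by omega
    have k4 : g' ≤ 2 := by omega
    rw [d12] at s1 s2
    have k5 : b'' = 2 := by interval_cases h' <;> omega
    subst k5
    have k6 : -3 ≤ f' := by interval_cases h' <;> omega
    have k7 : f' ≤ 3 := by interval_cases h' <;> omega
    interval_cases h' <;> interval_cases g' <;> interval_cases f' <;> omega

theorem ternary_class (A : Matrix (Fin 3) (Fin 3) ℤ) (hs : A.IsSymm)
    (hpos : ∀ v : Fin 3 → ℤ, v ≠ 0 → 0 < v ⬝ᵥ (A *ᵥ v)) (heven : ∀ i, Even (A i i))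
    (hdet : A.det = 30) :
    ∃ U : Matrix (Fin 3) (Fin 3) ℤ, U.det = 1 ∧
      (Uᵀ * A * U = !![2, 0, 0; 0, 2, 1; 0, 1, 8] ∨ Uᵀ * A * U = !![2, 0, 0; 0, 4, 1; 0, 1, 4] ∨
        Uᵀ * A * U = !![2, 1, 0; 1, 2, 0; 0, 0, 10]) := by
  have h10 : A 1 0 = A 0 1 := hs.apply 0 1
  have h20 : A 2 0 = A 0 2 := hs.apply 0 2
  have h21 : A 2 1 = A 1 2 := hs.apply 1 2
  have hA : A = hermite_M (A 0 0) (A 1 1) (A 2 2) (A 1 2) (A 0 2) (A 0 1) := by
    ext i j
    fin_cases i <;> fin_cases j <;> simp [hermite_M, h10, h20, h21]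
  have key : ∀ x y z : ℤ, ![x, y, z] ⬝ᵥ (A *ᵥ ![x, y, z]) =
      hermite_T (A 0 0) (A 1 1) (A 2 2) (A 1 2) (A 0 2) (A 0 1) x y z := by
    intro x y z
    simp only [dotProduct, mulVec, Fin.sum_univ_three, hermite_T, h10, h20, h21]
    simp
    ring
  have hd : hermite_d3 (A 0 0) (A 0 1) (A 0 2) (A 1 1) (A 1 2) (A 2 2) = 30 := by
    rw [← hdet, Matrix.det_fin_three, h10, h20, h21]; unfold hermite_d3; ring
  have := hermite_three_aux _ (A 0 0) (A 1 1) (A 2 2) (A 1 2) (A 0 2) (A 0 1)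
    (fun x y z hne => by
      rw [← key]
      exact hpos _ (fun h => hne ⟨congrFun h 0, congrFun h 1, congrFun h 2⟩))
    (heven 0) (heven 1) (heven 2) hd (Int.self_le_toNat _)
  rw [← hA] at this
  exact this

end Pool.Agent.P.MP_8b7eba_nt.BSD15
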