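import Pool.Agent.P.MP_8b7eba_nt.BSD15.Defs

/-! The induction on the number of prime factors. -/

namespace Pool.Agent.P.MP_8b7eba_nt.BSD15

theorem ind_mod {m : ℕ} (h : Adm m) : m % 2 = 1 ∧ m % 3 ≠ 0 ∧ m % 5 ≠ 0 := by
  have key : ∀ p : ℕ, 1 < p → p ∣ 30 → m % p ≠ 0 := by
    intro p h1 h2 h3
    have := Nat.eq_one_of_dvd_coprimes h.2 (Nat.dvd_of_mod_eq_zero h3) h2
    omega
  have h2 := key 2 (by norm_num) (by norm_num)
  exact ⟨by omega, key 3 (by norm_num) (by norm_num), key 5 (by norm_num) (by norm_num)⟩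

theorem ind_jac {m : ℕ} (h : Adm m) : jacobiSym (-15) m = -1 ∨ (jacobiSym (-15) m = 1 ∧
    ((m % 3 = 1 ∧ (m % 5 = 1 ∨ m % 5 = 4)) ∨ (m % 3 = 2 ∧ (m % 5 = 2 ∨ m % 5 = 3)))) := by
  obtain ⟨h2, h3, h5⟩ := ind_mod h
  rw [jacobiSym.mod_right (-15) (Nat.odd_iff.2 h2)]
  have e : 4 * (-15 : ℤ).natAbs = 60 := rfl
  rw [e]
  have e3 : m % 3 = m % 60 % 3 := by omega
  have e5 : m % 5 = m % 60 % 5 := by omega
  have e2 : m % 2 = m % 60 % 2 := by omega
  rw [e3] at h3 ⊢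
  rw [e5] at h5 ⊢
  rw [e2] at h2
  have : m % 60 < 60 := Nat.mod_lt _ (by norm_num)
  generalize m % 60 = t at *
  interval_cases t <;> simp_all <;> norm_num

theorem ind_jac_l {l : ℕ} (h : l % 60 = 23) : jacobiSym (-15) l = 1 := by
  rw [jacobiSym.mod_right (-15) (Nat.odd_iff.2 (by omega))]
  have e : 4 * (-15 : ℤ).natAbs = 60 := rfl
  rw [e, h]
  norm_num

theorem ind_adm_dvd {m n : ℕ} (h : Adm n) (hd : m ∣ n) : Adm m :=
  ⟨h.1.squarefree_of_dvd hd, h.2.coprime_dvd_left hd⟩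

theorem ind_b5_adm {n : ℕ} (hsq : Squarefree n) (h4 : n % 4 = 3) (h3 : n % 3 ≠ 0)
    (h5 : n % 5 ≠ 0) : Adm n := by
  refine ⟨hsq, ?_⟩
  have h2 : n.Coprime 2 := (Nat.coprime_two_right).2 (Nat.odd_iff.2 (by omega))
  have h3' : n.Coprime 3 :=
    Nat.Coprime.symm ((Nat.Prime.coprime_iff_not_dvd Nat.prime_three).2 (by omega))
  have h5' : n.Coprime 5 :=
    Nat.Coprime.symm ((Nat.Prime.coprime_iff_not_dvd Nat.prime_five).2 (by omega))
  exact Nat.Coprime.mul_right (Nat.Coprime.mul_right h2 h3') h5'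

theorem ind_sq {a : ℕ} {P : ℤ} (h : (2 : ℤ) ^ (2 * a) ∣ P ^ 2) : (2 : ℤ) ^ a ∣ P := by
  rw [mul_comm, pow_mul] at h
  exact (Int.pow_dvd_pow_iff two_ne_zero).1 h

theorem ind_sq5 {r : ℕ} (hr : 0 < r) {P x : ℤ} (h : P ^ 2 = 2 * |x|)
    (hx : (2 : ℤ) ^ (2 * r - 1) ∣ x) : (2 : ℤ) ^ r ∣ P := by
  refine ind_sq ?_
  rw [h, show 2 * r = (2 * r - 1) + 1 by omega, pow_succ']
  exact mul_dvd_mul_left 2 ((dvd_abs _ _).2 hx)

theorem ind_sq3 {r : ℕ} (hr : 0 < r) {P x : ℤ} (h : 2 * P ^ 2 = |x|)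
    (hx : (2 : ℤ) ^ (2 * r - 1) ∣ x) : (2 : ℤ) ^ (r - 1) ∣ P := by
  refine ind_sq ?_
  have := (dvd_abs _ _).2 hx
  rw [← h, show 2 * r - 1 = 2 * (r - 1) + 1 by omega, pow_succ'] at this
  exact (mul_dvd_mul_iff_left two_ne_zero).1 this

theorem ind_isolate {T : Finset (Finset ℕ)} {P : Finset ℕ → ℤ} {J₀ : Finset ℕ} (h0 : J₀ ∈ T)
    {d : ℤ} (h : ∀ J ∈ T, J ≠ J₀ → d ∣ P J) : d ∣ ∑ J ∈ T, P J - P J₀ := by
  rw [← Finset.add_sum_erase T P h0, add_sub_cancel_left]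
  exact Finset.dvd_sum fun J hJ => h J (Finset.mem_of_mem_erase hJ) (Finset.ne_of_mem_erase hJ)

theorem ind_isolate' {T : Finset (Finset ℕ)} {P : Finset ℕ → ℤ} {J₀ : Finset ℕ} (h0 : J₀ ∈ T)
    {d : ℤ} (h : ∀ J ∈ T, J ≠ J₀ → d ∣ P J) (hs : d ∣ ∑ J ∈ T, P J) : d ∣ P J₀ := by
  have := dvd_sub hs (ind_isolate h0 h)
  rwa [sub_sub_cancel] at this

/-- the expected divisibility -/
def IndG (lm : ℕ → ℤ) (m : ℕ) : Prop :=
  (m % 4 = 1 → (2 : ℤ) ^ (2 * m.primeFactors.card) ∣ lm m) ∧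
  (m % 4 = 3 → (2 : ℤ) ^ (2 * m.primeFactors.card - 1) ∣ lm m)

theorem ind_part {n : ℕ} (h : Adm n) {J : Finset ℕ} (hJ : J ⊆ n.primeFactors) (h0 : J ≠ ∅) :
    Adm (∏ p ∈ J, p) ∧ 1 < ∏ p ∈ J, p ∧ (∏ p ∈ J, p).primeFactors = J := by
  have hp : ∀ p ∈ J, p.Prime := fun p hp => Nat.prime_of_mem_primeFactors (hJ hp)
  have e := Nat.primeFactors_prod hp
  refine ⟨ind_adm_dvd h ?_, ?_, e⟩
  · exact (Finset.prod_dvd_prod_of_subset _ _ _ hJ).trans (Nat.prod_primeFactors_dvd n)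
  · rw [← Nat.nonempty_primeFactors, e]
    exact Finset.nonempty_iff_ne_empty.2 h0

theorem ind_split {lm : ℕ → ℤ} {n : ℕ} (h : Adm n) (h4 : n % 4 = 3) {J : Finset ℕ}
    (hJ : J ⊆ n.primeFactors) (h0 : J ≠ ∅) (h1 : J ≠ n.primeFactors)
    (hG : ∀ a b : ℕ, Adm a → Adm b → 1 < a → 1 < b → a = ∏ p ∈ J, p → a * b = n →
      a.primeFactors.card = J.card → J.card + b.primeFactors.card = n.primeFactors.card →
      lm a = 0 ∨ (IndG lm a ∧ IndG lm b)) :
    (2 : ℤ) ^ (2 * n.primeFactors.card - 1) ∣ lm (∏ p ∈ J, p) * lm (n / ∏ p ∈ J, p) := by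
  have h0' : n.primeFactors \ J ≠ ∅ := by
    intro hc
    exact h1 (Finset.Subset.antisymm hJ (Finset.sdiff_eq_empty_iff_subset.1 hc))
  obtain ⟨a1, a2, a3⟩ := ind_part h hJ h0
  obtain ⟨b1, b2, b3⟩ := ind_part h Finset.sdiff_subset h0'
  rw [Nat.prod_primeFactors_sdiff_of_squarefree h.1 hJ] at b1 b2 b3
  have hm : (∏ p ∈ J, p) * (n / ∏ p ∈ J, p) = n := Nat.mul_div_cancel'
    ((Finset.prod_dvd_prod_of_subset _ _ _ hJ).trans (Nat.prod_primeFactors_dvd n))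
  have c1 : J.card + (n / ∏ p ∈ J, p).primeFactors.card = n.primeFactors.card := by
    rw [b3, Finset.card_sdiff_of_subset hJ]
    have := Finset.card_le_card hJ
    omega
  have c2 : 0 < J.card := Finset.card_pos.2 (Finset.nonempty_iff_ne_empty.2 h0)
  have c3 : 0 < (n / ∏ p ∈ J, p).primeFactors.card :=
    Finset.card_pos.2 (Nat.nonempty_primeFactors.2 b2)
  rcases hG _ _ a1 b1 a2 b2 rfl hm (by rw [a3]) c1 with hz | ⟨ga, gb⟩
  · rw [hz, zero_mul]; exact dvd_zero _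
  have m1 := (ind_mod a1).1
  have m2 := (ind_mod b1).1
  have hmod := Nat.mul_mod (∏ p ∈ J, p) (n / ∏ p ∈ J, p) 4
  rw [hm, h4] at hmod
  unfold IndG at ga gb
  rw [a3] at ga
  rcases (show (∏ p ∈ J, p) % 4 = 1 ∨ (∏ p ∈ J, p) % 4 = 3 by omega) with e1 | e1 <;>
    rcases (show (n / ∏ p ∈ J, p) % 4 = 1 ∨ (n / ∏ p ∈ J, p) % 4 = 3 by omega) with e2 | e2
  · rw [e1, e2] at hmod; omega
  · have := mul_dvd_mul (ga.1 e1) (gb.2 e2)
    rwa [← pow_add, show 2 * J.card + (2 * (n / ∏ p ∈ J, p).primeFactors.card - 1) =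
      2 * n.primeFactors.card - 1 by omega] at this
  · have := mul_dvd_mul (ga.2 e1) (gb.1 e2)
    rwa [← pow_add, show 2 * J.card - 1 + 2 * (n / ∏ p ∈ J, p).primeFactors.card =
      2 * n.primeFactors.card - 1 by omega] at this
  · rw [e1, e2] at hmod; omega

theorem ind_ne_of_erase {n l : ℕ} (hl : l ∈ n.primeFactors) {J : Finset ℕ}
    (hJ : J ⊆ n.primeFactors.erase l) : J ⊆ n.primeFactors ∧ J ≠ n.primeFactors := by
  refine ⟨hJ.trans (Finset.erase_subset _ _), ?_⟩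
  rintro rfl
  exact Finset.notMem_erase l _ (hJ hl)

/-- the class `B5` from the lower levels -/
theorem ind_neg5 {lm : ℕ → ℤ} {n : ℕ} {S : Prop} (h : B5 n) (hI : Iface5 lm n S)
    (ih : ∀ m, Adm m → 1 < m → m.primeFactors.card < n.primeFactors.card → IndG lm m) :
    ∃ v : ℤ, |lm n| = 2 * (2 ^ (n.primeFactors.card - 1) * v) ^ 2 ∧ (S → Odd v) := by
  obtain ⟨hsq, h4, h3, h5⟩ := h
  have ha : Adm n := ind_b5_adm hsq h4 (by omega) (by omega)
  obtain ⟨P, p1, p2, p3, -⟩ := hI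
  obtain ⟨l, hl⟩ := Nat.nonempty_primeFactors.2 (show 1 < n by omega)
  have hr : 0 < n.primeFactors.card := Finset.card_pos.2 ⟨l, hl⟩
  obtain ⟨u, hu, hu'⟩ := p3 l hl
  have key := ind_isolate (T := (n.primeFactors.erase l).powerset) (P := P) (J₀ := ∅)
    (Finset.empty_mem_powerset _) (d := 2 ^ n.primeFactors.card) (by
      intro J hJ h0
      obtain ⟨j1, j2⟩ := ind_ne_of_erase hl (Finset.mem_powerset.1 hJ)
      have c2 : 0 < J.card := Finset.card_pos.2 (Finset.nonempty_iff_ne_empty.2 h0)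
      refine ind_sq5 hr (p1 J j1 h0 j2) (ind_split ha h4 j1 h0 j2 ?_)
      intro a b a1 b1 a2 b2 _ _ c0 c1
      have c3 : 0 < b.primeFactors.card := Finset.card_pos.2 (Nat.nonempty_primeFactors.2 b2)
      exact Or.inr ⟨ih a a1 a2 (by omega), ih b b1 b2 (by omega)⟩)
  obtain ⟨w, hw⟩ := key
  refine ⟨u - 2 * w, ?_, fun hS => (hu' hS).sub_even (even_two_mul w)⟩
  rw [← p2]
  congr 2
  rw [hu, show n.primeFactors.card = (n.primeFactors.card - 1) + 1 by omega, pow_succ] at hw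
  simp only [Nat.add_sub_cancel] at hw
  linear_combination (-1 : ℤ) * hw

theorem ind_neg {lm : ℕ → ℤ} {S : ℕ → Prop}
    (h5 : ∀ n, B5 n → Iface5 lm n (S n)) (h3 : ∀ n, B3 n → Iface3 lm n)
    (hvan : ∀ n, 1 < n → Adm n → jacobiSym (-15) n = -1 → lm n = 0) {n : ℕ} (ha : Adm n)
    (h4 : n % 4 = 3)
    (ih : ∀ m, Adm m → 1 < m → m.primeFactors.card < n.primeFactors.card → IndG lm m) :
    (2 : ℤ) ^ (2 * n.primeFactors.card - 1) ∣ lm n := by
  obtain ⟨l, hl⟩ := Nat.nonempty_primeFactors.2 (show 1 < n by omega)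
  have hr : 0 < n.primeFactors.card := Finset.card_pos.2 ⟨l, hl⟩
  rcases ind_jac ha with hj | ⟨-, hc | hc⟩
  · rw [hvan n (by omega) ha hj]; exact dvd_zero _
  · obtain ⟨P, p1, p2, p3, -⟩ := h3 n ⟨ha.1, h4, hc.1, hc.2⟩
    have key := ind_isolate' (T := (n.primeFactors.erase l).powerset) (P := P) (J₀ := ∅)
      (Finset.empty_mem_powerset _) (d := 2 ^ (n.primeFactors.card - 1)) (by
        intro J hJ h0
        obtain ⟨j1, j2⟩ := ind_ne_of_erase hl (Finset.mem_powerset.1 hJ)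
        have c2 : 0 < J.card := Finset.card_pos.2 (Finset.nonempty_iff_ne_empty.2 h0)
        refine ind_sq3 hr (p1 J j1 h0 j2) (ind_split ha h4 j1 h0 j2 ?_)
        intro a b a1 b1 a2 b2 _ _ c0 c1
        have c3 : 0 < b.primeFactors.card := Finset.card_pos.2 (Nat.nonempty_primeFactors.2 b2)
        exact Or.inr ⟨ih a a1 a2 (by omega), ih b b1 b2 (by omega)⟩) (p3 l hl)
    obtain ⟨w, hw⟩ := key
    rw [← dvd_abs, ← p2, hw]
    refine ⟨4 * w ^ 2, ?_⟩
    rw [show 2 * n.primeFactors.card - 1 = (n.primeFactors.card - 1) * 2 + 1 by omega]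
    ring
  · have hb : B5 n := ⟨ha.1, h4, hc.1, hc.2⟩
    obtain ⟨v, hv, -⟩ := ind_neg5 hb (h5 n hb) ih
    rw [← dvd_abs, hv]
    refine ⟨v ^ 2, ?_⟩
    rw [show 2 * n.primeFactors.card - 1 = (n.primeFactors.card - 1) * 2 + 1 by omega]
    ring

theorem ind_aux {lm : ℕ → ℤ} {S : ℕ → Prop} (h5 : ∀ n, B5 n → Iface5 lm n (S n))
    (hprime : ∀ l, l.Prime → B5 l → S l) {m : ℕ} (ha : Adm m) (hm : 1 < m) :
    ∃ l : ℕ, ∃ v : ℤ, l % 60 = 23 ∧ Odd v ∧ |lm l| = 2 * v ^ 2 ∧ Squarefree (m * l) ∧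
      l ∈ (m * l).primeFactors ∧ (m * l).primeFactors.erase l = m.primeFactors ∧
      (m * l).primeFactors.card = m.primeFactors.card + 1 ∧
      lm (∏ p ∈ m.primeFactors, p) * lm (m * l / ∏ p ∈ m.primeFactors, p) = lm m * lm l := by
  obtain ⟨l, l1, l2, l3⟩ := Nat.forall_exists_prime_gt_and_modEq m (q := 60) (a := 23)
    (by norm_num) (by norm_num)
  have l4 : l % 60 = 23 := l3
  have hb : B5 l := ⟨l2.squarefree, by omega, by omega, by omega⟩
  obtain ⟨v, hv, hv'⟩ := ind_neg5 hb (h5 l hb) (by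
    intro a _ a2 a3
    have c3 : 0 < a.primeFactors.card := Finset.card_pos.2 (Nat.nonempty_primeFactors.2 a2)
    rw [l2.primeFactors, Finset.card_singleton] at a3
    omega)
  rw [l2.primeFactors, Finset.card_singleton] at hv
  have hnd : ¬ l ∣ m := fun h => absurd (Nat.le_of_dvd (by omega) h) (by omega)
  have hco : m.Coprime l := ((Nat.Prime.coprime_iff_not_dvd l2).2 hnd).symm
  have hnm : l ∉ m.primeFactors := fun h => hnd (Nat.dvd_of_mem_primeFactors h)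
  have e : (m * l).primeFactors = insert l m.primeFactors := by
    rw [hco.primeFactors_mul, l2.primeFactors, Finset.union_comm]
    rfl
  refine ⟨l, v, l4, hv' (hprime l l2 hb), by simpa using hv,
    (Nat.squarefree_mul hco).2 ⟨ha.1, l2.squarefree⟩, by rw [e]; exact Finset.mem_insert_self _ _,
    by rw [e, Finset.erase_insert hnm], by rw [e, Finset.card_insert_of_notMem hnm], ?_⟩
  rw [Nat.prod_primeFactors_of_squarefree ha.1, Nat.mul_div_cancel_left _ (by omega)]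

theorem ind_fin {k : ℕ} {x v P : ℤ} (hv : Odd v) (hP : (2 : ℤ) ^ k ∣ P)
    (h : P ^ 2 = |x| * v ^ 2) : (2 : ℤ) ^ (2 * k) ∣ x := by
  have h1 : (2 : ℤ) ^ (2 * k) ∣ |x| * v ^ 2 := by
    rw [← h, mul_comm, pow_mul]
    exact pow_dvd_pow_of_dvd hP 2
  have h2 : IsCoprime ((2 : ℤ) ^ (2 * k)) (v ^ 2) :=
    IsCoprime.pow (Int.isCoprime_two_left.2 hv)
  exact (dvd_abs _ _).1 (h2.dvd_of_dvd_mul_right h1)

theorem ind_twelve {m : ℕ} (hsq : Squarefree m) (h : ∀ q ∈ m.primeFactors, q % 12 = 11) :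
    m % 12 = 1 ∨ m % 12 = 11 := by
  rw [← Nat.prod_primeFactors_of_squarefree hsq]
  refine Finset.prod_induction _ (fun x => x % 12 = 1 ∨ x % 12 = 11) ?_ (Or.inl rfl)
    fun q hq => Or.inr (h q hq)
  rintro a b (ha | ha) (hb | hb) <;> simp [Nat.mul_mod, ha, hb]

/-- the common part of the two positive classes -/
theorem ind_other {lm : ℕ → ℤ} {m n l : ℕ} (ha : Adm n) (h4 : n % 4 = 3) (hl : l ∈ n.primeFactors)
    (he : n.primeFactors.erase l = m.primeFactors)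
    (hc : n.primeFactors.card = m.primeFactors.card + 1)
    (ih : ∀ a, Adm a → 1 < a → a.primeFactors.card < m.primeFactors.card → IndG lm a)
    (hneg : ∀ a, Adm a → a % 4 = 3 → a.primeFactors.card = m.primeFactors.card → IndG lm a)
    {J : Finset ℕ} (hJ : J ⊆ n.primeFactors.erase l) (h0 : J ≠ ∅) (h1 : J ≠ m.primeFactors)
    (hs : ∀ q b, J = {q} → q % 4 = 3 → Adm b → 1 < b → q * b = n → b % 4 = 1 →
      b.primeFactors.card = m.primeFactors.card → lm q = 0 ∨ IndG lm b) :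
    (2 : ℤ) ^ (2 * n.primeFactors.card - 1) ∣ lm (∏ p ∈ J, p) * lm (n / ∏ p ∈ J, p) := by
  obtain ⟨j1, j2⟩ := ind_ne_of_erase hl hJ
  refine ind_split ha h4 j1 h0 j2 ?_
  intro a b a1 b1 a2 b2 ea eab c0 c1
  have c2 : 0 < J.card := Finset.card_pos.2 (Finset.nonempty_iff_ne_empty.2 h0)
  have c3 : J.card < m.primeFactors.card :=
    Finset.card_lt_card (Finset.ssubset_iff_subset_ne.2 ⟨he ▸ hJ, h1⟩)
  have ga := ih a a1 a2 (by omega)
  by_cases c4 : J.card = 1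
  · obtain ⟨q, hq⟩ := Finset.card_eq_one.1 c4
    have eq : a = q := by rw [ea, hq, Finset.prod_singleton]
    subst eq
    have m2 := (ind_mod b1).1
    rcases (show b % 4 = 1 ∨ b % 4 = 3 by omega) with e2 | e2
    · have hmod := Nat.mul_mod a b 4
      rw [eab, h4, e2] at hmod
      rcases hs a b hq (by omega) b1 b2 eab e2 (by omega) with h | h
      · exact Or.inl h
      · exact Or.inr ⟨ga, h⟩
    · exact Or.inr ⟨ga, hneg b b1 e2 (by omega)⟩
  · exact Or.inr ⟨ga, ih b b1 b2 (by omega)⟩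

theorem ind_pos5 {lm : ℕ → ℤ} {S : ℕ → Prop} (h5 : ∀ n, B5 n → Iface5 lm n (S n))
    (hprime : ∀ l, l.Prime → B5 l → S l)
    (hvan : ∀ n, 1 < n → Adm n → jacobiSym (-15) n = -1 → lm n = 0) {m : ℕ} (ha : Adm m)
    (hm : 1 < m) (h4 : m % 4 = 1) (h3 : m % 3 = 1)
    (ih : ∀ a, Adm a → 1 < a → a.primeFactors.card < m.primeFactors.card → IndG lm a)
    (hneg : ∀ a, Adm a → a % 4 = 3 → a.primeFactors.card = m.primeFactors.card → IndG lm a) :
    (2 : ℤ) ^ (2 * m.primeFactors.card) ∣ lm m := by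
  rcases ind_jac ha with hj | ⟨-, hc⟩
  · rw [hvan m hm ha hj]; exact dvd_zero _
  obtain ⟨l, v, l1, hv, hl, hsq, hmem, he, hcard, hlm⟩ := ind_aux h5 hprime ha hm
  have n4 : (m * l) % 4 = 3 := by
    rw [Nat.mul_mod, h4, show l % 4 = 3 by omega]
  have n3 : (m * l) % 3 = 2 := by
    rw [Nat.mul_mod, h3, show l % 3 = 2 by omega]
  have n5 : (m * l) % 5 = 2 ∨ (m * l) % 5 = 3 := by
    rw [Nat.mul_mod, show l % 5 = 3 by omega]
    rcases (show m % 5 = 1 ∨ m % 5 = 4 by omega) with h | h <;> simp [h]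
  have hb : B5 (m * l) := ⟨hsq, n4, n3, n5⟩
  have han : Adm (m * l) := ind_b5_adm hsq n4 (by omega) (by omega)
  obtain ⟨P, p1, -, -, p4, p5⟩ := h5 _ hb
  have hne : m.primeFactors ≠ ∅ :=
    Finset.nonempty_iff_ne_empty.1 (Nat.nonempty_primeFactors.2 hm)
  have hsub : ∀ q ∈ m.primeFactors, q ∈ (m * l).primeFactors ∧ q ≠ l := by
    intro q hq
    rw [← he] at hq
    exact ⟨Finset.mem_of_mem_erase hq, Finset.ne_of_mem_erase hq⟩
  have key : (2 : ℤ) ^ (m * l).primeFactors.card ∣ P m.primeFactors := by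
    by_cases hA : ∃ q ∈ m.primeFactors, q % 4 ≠ 3 ∨ jacobiSym (-15) q = -1
    · obtain ⟨q, q1, q2⟩ := hA
      refine ind_isolate' ?_ ?_ (p4 l hmem q (hsub q q1).1 (hsub q q1).2)
      · simp [he, q1]
      · intro J hJ h1
        obtain ⟨j1, j2⟩ := Finset.mem_filter.1 hJ
        have j3 := Finset.mem_powerset.1 j1
        have h0 : J ≠ ∅ := Finset.ne_empty_of_mem j2
        obtain ⟨j4, j5⟩ := ind_ne_of_erase hmem j3
        refine ind_sq5 (by omega) (p1 J j4 h0 j5) (ind_other han n4 hmem he hcard ih hneg j3 h0 h1 ?_)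
        rintro q' b rfl e1 - - - - -
        have := Finset.mem_singleton.1 j2
        subst this
        exact Or.inl (hvan q (Nat.prime_of_mem_primeFactors q1).one_lt
          (ind_adm_dvd ha (Nat.dvd_of_mem_primeFactors q1)) (q2.resolve_left (not_not.2 e1)))
    · push Not at hA
      have h2 : 1 < m.primeFactors.card := by
        by_contra hc
        have c3 : 0 < m.primeFactors.card := Finset.card_pos.2 (Nat.nonempty_primeFactors.2 hm)
        obtain ⟨q, hq⟩ := Finset.card_eq_one.1 (show m.primeFactors.card = 1 by omega)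
        have e1 := Nat.prod_primeFactors_of_squarefree ha.1
        have e2 := (hA q (by rw [hq]; exact Finset.mem_singleton_self q)).1
        rw [hq, Finset.prod_singleton] at e1
        omega
      obtain ⟨a, a1, b, b1, hab⟩ := Finset.one_lt_card.1 h2
      refine ind_isolate' ?_ ?_ (p5 ?_ l hmem a (hsub a a1).1 b (hsub b b1).1 (hsub a a1).2
        (hsub b b1).2 hab)
      · simp [he, a1, b1]
      · intro J hJ h1
        obtain ⟨j1, j2, j2'⟩ := Finset.mem_filter.1 hJ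
        have j3 := Finset.mem_powerset.1 j1
        have h0 : J ≠ ∅ := Finset.ne_empty_of_mem j2
        obtain ⟨j4, j5⟩ := ind_ne_of_erase hmem j3
        refine ind_sq5 (by omega) (p1 J j4 h0 j5) (ind_other han n4 hmem he hcard ih hneg j3 h0 h1 ?_)
        rintro q' b' rfl - - - - - -
        exact absurd ((Finset.mem_singleton.1 j2).trans (Finset.mem_singleton.1 j2').symm) hab
      · intro q hq
        by_cases hql : q = l
        · rw [hql]; exact ind_jac_l l1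
        · have hq' : q ∈ m.primeFactors := by rw [← he]; exact Finset.mem_erase.2 ⟨hql, hq⟩
          rcases ind_jac (ind_adm_dvd ha (Nat.dvd_of_mem_primeFactors hq')) with h | h
          · exact absurd h (hA q hq').2
          · exact h.1
  obtain ⟨j4, j5⟩ := ind_ne_of_erase hmem he.symm.subset
  have e := p1 _ j4 hne j5
  rw [hlm, abs_mul, hl] at e
  rw [hcard, pow_succ] at key
  obtain ⟨w, hw⟩ := key
  refine ind_fin (P := 2 ^ m.primeFactors.card * w) hv (dvd_mul_right _ _) ?_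
  rw [hw] at e
  nlinarith

theorem ind_pos3 {lm : ℕ → ℤ} {S : ℕ → Prop} (h5 : ∀ n, B5 n → Iface5 lm n (S n))
    (h3' : ∀ n, B3 n → Iface3 lm n) (hprime : ∀ l, l.Prime → B5 l → S l)
    (hvan : ∀ n, 1 < n → Adm n → jacobiSym (-15) n = -1 → lm n = 0) {m : ℕ} (ha : Adm m)
    (hm : 1 < m) (h4 : m % 4 = 1) (h3 : m % 3 = 2)
    (ih : ∀ a, Adm a → 1 < a → a.primeFactors.card < m.primeFactors.card → IndG lm a)
    (hneg : ∀ a, Adm a → a % 4 = 3 → a.primeFactors.card = m.primeFactors.card → IndG lm a)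
    (hpos : ∀ a, Adm a → 1 < a → a % 4 = 1 → a % 3 = 1 →
      a.primeFactors.card = m.primeFactors.card → IndG lm a) :
    (2 : ℤ) ^ (2 * m.primeFactors.card) ∣ lm m := by
  rcases ind_jac ha with hj | ⟨-, hc⟩
  · rw [hvan m hm ha hj]; exact dvd_zero _
  obtain ⟨l, v, l1, hv, hl, hsq, hmem, he, hcard, hlm⟩ := ind_aux h5 hprime ha hm
  have n4 : (m * l) % 4 = 3 := by
    rw [Nat.mul_mod, h4, show l % 4 = 3 by omega]
  have n3 : (m * l) % 3 = 1 := by
    rw [Nat.mul_mod, h3, show l % 3 = 2 by omega]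
  have n5 : (m * l) % 5 = 1 ∨ (m * l) % 5 = 4 := by
    rw [Nat.mul_mod, show l % 5 = 3 by omega]
    rcases (show m % 5 = 2 ∨ m % 5 = 3 by omega) with h | h <;> simp [h]
  have hb : B3 (m * l) := ⟨hsq, n4, n3, n5⟩
  have han : Adm (m * l) := ind_b5_adm hsq n4 (by omega) (by omega)
  obtain ⟨P, p1, -, -, p4⟩ := h3' _ hb
  have hne : m.primeFactors ≠ ∅ :=
    Finset.nonempty_iff_ne_empty.1 (Nat.nonempty_primeFactors.2 hm)
  have hsub : ∀ q ∈ m.primeFactors, q ∈ (m * l).primeFactors ∧ q ≠ l := by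
    intro q hq
    rw [← he] at hq
    exact ⟨Finset.mem_of_mem_erase hq, Finset.ne_of_mem_erase hq⟩
  obtain ⟨q, q1, q2⟩ : ∃ q ∈ m.primeFactors, q % 12 ≠ 11 := by
    by_contra hc
    push Not at hc
    have := ind_twelve ha.1 hc
    omega
  have hq : Adm q := ind_adm_dvd ha (Nat.dvd_of_mem_primeFactors q1)
  have key : (2 : ℤ) ^ ((m * l).primeFactors.card - 1) ∣ P m.primeFactors := by
    refine ind_isolate' ?_ ?_ (p4 l hmem q (hsub q q1).1 (hsub q q1).2)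
    · simp [he, q1]
    · intro J hJ h1
      obtain ⟨j1, j2⟩ := Finset.mem_filter.1 hJ
      have j3 := Finset.mem_powerset.1 j1
      have h0 : J ≠ ∅ := Finset.ne_empty_of_mem j2
      obtain ⟨j4, j5⟩ := ind_ne_of_erase hmem j3
      refine ind_sq3 (by omega) (p1 J j4 h0 j5) (ind_other han n4 hmem he hcard ih hneg j3 h0 h1 ?_)
      rintro q' b rfl e1 b1 b2 eb b4 bc
      have := Finset.mem_singleton.1 j2
      subst this
      have q3 := (ind_mod hq).2.1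
      have hmod := Nat.mul_mod q b 3
      rw [eb, n3, show q % 3 = 1 by omega] at hmod
      exact Or.inr (hpos b b1 b2 b4 (by omega) bc)
  obtain ⟨j4, j5⟩ := ind_ne_of_erase hmem he.symm.subset
  have e := p1 _ j4 hne j5
  rw [hlm, abs_mul, hl] at e
  rw [hcard, Nat.add_sub_cancel] at key
  exact ind_fin hv key (by linarith)

theorem induction_main (lm : ℕ → ℤ) (S : ℕ → Prop)
    (h5 : ∀ n, B5 n → Iface5 lm n (S n)) (h3 : ∀ n, B3 n → Iface3 lm n)
    (hprime : ∀ l, l.Prime → B5 l → S l)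
    (hvan : ∀ n, 1 < n → Adm n → jacobiSym (-15) n = -1 → lm n = 0) :
    ∀ n, B5 n → S n → lm n ≠ 0 := by
  have key : ∀ k, ∀ m, Adm m → 1 < m → m.primeFactors.card = k → IndG lm m := by
    intro k
    induction k using Nat.strong_induction_on with
    | _ k ih =>
      have ih' : ∀ m : ℕ, m.primeFactors.card = k → ∀ a, Adm a → 1 < a →
          a.primeFactors.card < m.primeFactors.card → IndG lm a :=
        fun m hm a a1 a2 a3 => ih _ (hm ▸ a3) a a1 a2 rfl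
      have hneg : ∀ a, Adm a → a % 4 = 3 → a.primeFactors.card = k → IndG lm a :=
        fun a a1 a2 a3 => ⟨fun h => by omega, fun _ => ind_neg h5 h3 hvan a1 a2 (ih' a a3)⟩
      have hpos : ∀ a, Adm a → 1 < a → a % 4 = 1 → a % 3 = 1 → a.primeFactors.card = k →
          IndG lm a := fun a a1 a2 a3 a4 a5 =>
        ⟨fun _ => ind_pos5 h5 hprime hvan a1 a2 a3 a4 (ih' a a5) (a5 ▸ hneg), fun h => by omega⟩
      intro m m1 m2 m3
      refine ⟨fun h4 => ?_, fun h4 => (hneg m m1 h4 m3).2 h4⟩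
      have := (ind_mod m1).2.1
      rcases (show m % 3 = 1 ∨ m % 3 = 2 by omega) with h | h
      · exact (hpos m m1 m2 h4 h m3).1 h4
      · exact ind_pos3 h5 h3 hprime hvan m1 m2 h4 h (ih' m m3) (m3 ▸ hneg) (m3 ▸ hpos)
  intro n hn hS h0
  obtain ⟨v, hv, hv'⟩ := ind_neg5 hn (h5 n hn) fun m m1 m2 _ => key _ m m1 m2 rfl
  rw [h0, abs_zero] at hv
  have h1 : v ≠ 0 := by
    rintro rfl
    exact absurd (hv' hS) (by decide)
  have : (0 : ℤ) < 2 * (2 ^ (n.primeFactors.card - 1) * v) ^ 2 := by positivity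
  omega

end Pool.Agent.P.MP_8b7eba_nt.BSD15
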