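import Pool.Agent.P.MP_8b7eba_nt.BSD15.LattA

/-! The Brandt groupoid attached to the ideals prime to n. -/

namespace Pool.Agent.P.MP_8b7eba_nt.BSD15

open scoped Quaternion

variable {n : ℕ} [Good n]

theorem latt_rho_zero : rho (0 : OO n) = 0 := by simpa using rho_natCast (n := n) 0

theorem latt_rho_del (z : OO n) : rho (del n * z) = 0 := rho_eq_zero_iff.2 (dvd_mul_right _ _)

omit [Good n] in
theorem latt_del_ne : del n ≠ 0 := by
  intro h
  have := congrArg QuadraticAlgebra.im h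
  simp [del] at this

omit [Good n] in
theorem latt_cast_ne {k : ℕ} (hk : k ≠ 0) : (k : OO n) ≠ 0 := by exact_mod_cast hk

theorem latt_ne_of_coprime {k : ℕ} (h : k.Coprime n) : k ≠ 0 := by
  rintro rfl
  have := Good.gt (n := n)
  simp at h
  omega

omit [Good n] in
theorem latt_cancel {k : ℕ} (h : k.Coprime n) {x : ZMod n} (hx : (k : ZMod n) * x = 0) : x = 0 :=
  ((ZMod.isUnit_iff_coprime k n).2 h).mul_right_eq_zero.1 hx

theorem latt_nm_mem (I : Ideal (OO n)) : ((nm I : ℕ) : OO n) ∈ I := by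
  have : ((nm I : ℕ) : OO n) ∈ I * cj I := by
    rw [mul_cj]; exact Ideal.mem_span_singleton_self _
  exact (Ideal.mul_le_left : I * cj I ≤ I) this

theorem latt_of_del {I : Ideal (OO n)} (h : (nm I).Coprime n) {z : OO n} (hz : del n * z ∈ I) :
    z ∈ I := by
  obtain ⟨u, v, huv⟩ := Nat.isCoprime_iff_coprime.2 h
  have h1 : (u : OO n) * (nm I : ℕ) + (v : OO n) * n = 1 := by exact_mod_cast congrArg (Int.cast : ℤ → OO n) huv
  have h2 : z = (u * z) * (nm I : ℕ) + (-(v * del n)) * (del n * z) := by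
    have h3 := del_mul_del (n := n)
    linear_combination (-z) * h1 + (v * z) * h3
  rw [h2]
  exact I.add_mem (I.mul_mem_left _ (latt_nm_mem I)) (I.mul_mem_left _ hz)

theorem latt_div {I : Ideal (OO n)} (h : (nm I).Coprime n) {z : OO n} (hz : z ∈ I)
    (h0 : rho z = 0) : ∃ w ∈ I, z = del n * w := by
  obtain ⟨w, rfl⟩ := rho_eq_zero_iff.1 h0
  exact ⟨w, latt_of_del h hz, rfl⟩

theorem latt_star_mem {A : Ideal (OO n)} {z : OO n} (h : z ∈ A) : star z ∈ cj A := by
  rw [mem_cj, star_star]; exact h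

/-- the lattice of pairs -/
def latt_lam (I J : Ideal (OO n)) : Submodule ℤ (OO n × OO n) where
  carrier := {x | x.1 ∈ I ∧ x.2 ∈ J ∧ rho x.1 = rho x.2}
  add_mem' := by
    rintro x y ⟨h1, h2, h3⟩ ⟨k1, k2, k3⟩
    exact ⟨I.add_mem h1 k1, J.add_mem h2 k2, by simp only [Prod.fst_add, Prod.snd_add, rho_add, h3, k3]⟩
  zero_mem' := ⟨I.zero_mem, J.zero_mem, rfl⟩
  smul_mem' := by
    rintro c x ⟨h1, h2, h3⟩
    refine ⟨?_, ?_, ?_⟩
    · simpa using I.mul_mem_left (c : OO n) h1
    · simpa using J.mul_mem_left (c : OO n) h2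
    · rw [Prod.smul_fst, Prod.smul_snd, zsmul_eq_mul, zsmul_eq_mul, rho_mul, rho_mul, h3]

theorem latt_index {I J : Ideal (OO n)} (hI : (nm I).Coprime n) :
    Nat.card ((OO n × OO n) ⧸ latt_lam I J) = nm I * nm J * n := by
  let φ : OO n × OO n →+ ZMod n :=
    { toFun := fun x => rho x.1 - rho x.2
      map_zero' := by simp
      map_add' := fun x y => by simp only [Prod.fst_add, Prod.snd_add, rho_add]; ring }
  let K : AddSubgroup (OO n × OO n) := I.toAddSubgroup.prod J.toAddSubgroup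
  have h1 : (latt_lam I J).toAddSubgroup = φ.ker ⊓ K := by
    ext x
    constructor
    · rintro ⟨h1, h2, h3⟩
      exact ⟨sub_eq_zero.2 h3, h1, h2⟩
    · rintro ⟨h3, h1, h2⟩
      exact ⟨h1, h2, sub_eq_zero.1 h3⟩
  have h2 : K.map φ = ⊤ := by
    rw [eq_top_iff]
    intro y _
    obtain ⟨u, hu⟩ := (ZMod.isUnit_iff_coprime _ n).2 hI
    obtain ⟨k, hk⟩ := ZMod.intCast_surjective (y * ((u⁻¹ : (ZMod n)ˣ) : ZMod n))
    refine ⟨((k : OO n) * ((nm I : ℕ) : OO n), 0), ⟨I.mul_mem_left _ (latt_nm_mem I), J.zero_mem⟩, ?_⟩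
    change rho ((k : OO n) * ((nm I : ℕ) : OO n)) - rho (0 : OO n) = y
    rw [rho_mul, rho_intCast, rho_natCast, latt_rho_zero, hk, ← hu]
    simp
  have h3 : (φ.ker ⊓ K).relIndex K = n := by
    rw [AddSubgroup.inf_relIndex_right, AddSubgroup.relIndex_ker, h2, AddSubgroup.card_top,
      Nat.card_zmod]
  have h4 : K.index = nm I * nm J := AddSubgroup.index_prod _ _
  have h5 := AddSubgroup.relIndex_mul_index (inf_le_right : φ.ker ⊓ K ≤ K)
  rw [h3, h4, ← h1] at h5
  change (latt_lam I J).toAddSubgroup.index = _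
  rw [← h5]
  ring

/-- coordinates of a pair -/
def latt_co (n : ℕ) : (OO n × OO n) ≃ₗ[ℤ] (Fin 4 → ℤ) where
  toFun x := ![x.1.re, x.1.im, x.2.re, x.2.im]
  invFun v := (⟨v 0, v 1⟩, ⟨v 2, v 3⟩)
  map_add' x y := by ext i; fin_cases i <;> simp
  map_smul' k x := by ext i; fin_cases i <;> simp
  left_inv x := by ext <;> simp
  right_inv v := by ext i; fin_cases i <;> simp

theorem latt_gram (c : ℚ) {I J : Ideal (OO n)} (hI : (nm I).Coprime n) (hJ : nm J ≠ 0) :
    ∃ b : Fin 4 → ℍ[ℚ,-(n : ℚ),c],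
      Submodule.span ℤ (Set.range b) = (latt_lam I J).map (latt_io n c) ∧
      (Matrix.of fun i j => 2 * (b i * star (b j)).re).det = c ^ 2 * (nm I * nm J) ^ 2 := by
  have hidx := latt_index (J := J) hI
  have hn := latt_n_ne (n := n)
  have hfin : Finite ((OO n × OO n) ⧸ latt_lam I J) := by
    apply Nat.finite_of_card_ne_zero
    rw [hidx]
    exact mul_ne_zero (mul_ne_zero (latt_ne_of_coprime hI) hJ) (latt_n_pos (n := n)).ne'
  let b₀ : Module.Basis (Fin 4) ℤ (OO n × OO n) := Module.Basis.ofEquivFun (latt_co n)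
  have hrk : Module.finrank ℤ (latt_lam I J) = 4 := by
    rw [(Submodule.finiteQuotient_iff _).1 hfin, Module.finrank_eq_card_basis b₀, Fintype.card_fin]
  let bN := Module.finBasisOfFinrankEq ℤ (latt_lam I J) hrk
  have hdet := Submodule.natAbs_det_basis_change b₀ _ bN
  rw [hidx] at hdet
  set v : Fin 4 → OO n × OO n := (↑) ∘ bN with hv
  refine ⟨fun i => latt_io n c (v i), ?_, ?_⟩
  · have h1 : Submodule.span ℤ (Set.range v) = latt_lam I J := by
      rw [hv, Set.range_comp]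
      have := Submodule.map_span (latt_lam I J).subtype (Set.range bN)
      rw [bN.span_eq, Submodule.map_top, Submodule.range_subtype] at this
      exact this.symm
    rw [← h1, Submodule.map_span, ← Set.range_comp]
    rfl
  · set m : ℚ := ((((n + 1) / 4 : ℕ) : ℤ) : ℚ) with hm
    let P : Matrix (Fin 4) (Fin 4) ℚ := (b₀.toMatrix v).map (Int.castRingHom ℚ)
    let G : Matrix (Fin 4) (Fin 4) ℚ :=
      !![2 / n, 1 / n, 0, 0; 1 / n, 2 * m / n, 0, 0; 0, 0, -c * 2 / n, -c / n;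
        0, 0, -c / n, -c * 2 * m / n]
    have hP : ∀ k i, P k i = ((latt_co n (v i) k : ℤ) : ℚ) := by
      intro k i
      simp [P, b₀, Module.Basis.toMatrix_apply]
    have h1 : (Matrix.of fun i j => 2 * (latt_io n c (v i) * star (latt_io n c (v j))).re) =
        P.transpose * G * P := by
      ext i j
      have := latt_pair c (v i).1 (v i).2 (v j).1 (v j).2
      rw [Matrix.of_apply, this, ← hm]
      simp [Matrix.mul_apply, Fin.sum_univ_four, hP, G, latt_co]
      ring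
    have h2 : P.det = ((b₀.det v : ℤ) : ℚ) := by
      rw [Module.Basis.det_apply]
      exact (RingHom.map_det (Int.castRingHom ℚ) _).symm
    have h3 : P.det ^ 2 = ((nm I * nm J * n : ℕ) : ℚ) ^ 2 := by
      rw [h2, ← hdet, Nat.cast_natAbs, Int.cast_abs, sq_abs]
    have h4 : G.det = c ^ 2 * (4 * m - 1) ^ 2 / n ^ 4 := by
      simp [G, Matrix.det_succ_row_zero, Fin.sum_univ_succ, Fin.succAbove]
      field_simp
      ring
    rw [h1, Matrix.det_mul, Matrix.det_mul, Matrix.det_transpose, h4, ← latt_m]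
    calc P.det * (c ^ 2 * (n : ℚ) ^ 2 / n ^ 4) * P.det = P.det ^ 2 * (c ^ 2 * (n : ℚ) ^ 2 / n ^ 4) := by
          ring
      _ = _ := by
          rw [h3]
          push_cast
          field_simp

theorem latt_mul_mem {F s t u : Ideal (OO n)} (hF : ((nm F : ℕ) : ZMod n) = -15)
    (hFc : (nm F).Coprime n) (hs : (nm s).Coprime n) (ht : (nm t).Coprime n)
    (hu : (nm u).Coprime n) {x y : OO n × OO n} (hx : x ∈ latt_lam (s * cj t) (s * t * F))
    (hy : y ∈ latt_lam (t * cj u) (t * u * F)) :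
    ∃ z ∈ latt_lam (s * cj u) (s * u * F),
      (nm F : OO n) * (x.1 * y.1) + 15 * (x.2 * star y.2) = nm F * nm t * (del n * z.1) ∧
      x.1 * y.2 - x.2 * star y.1 = nm t * (del n * z.2) := by
  obtain ⟨a₁, b₁⟩ := x
  obtain ⟨a₂, b₂⟩ := y
  obtain ⟨ha₁, hb₁, r₁⟩ := hx
  obtain ⟨ha₂, hb₂, r₂⟩ := hy
  simp only at ha₁ hb₁ r₁ ha₂ hb₂ r₂ ⊢
  have m1 : a₁ * a₂ ∈ Ideal.span {(nm t : OO n)} * (s * cj u) := by
    have := Ideal.mul_mem_mul ha₁ ha₂
    rwa [show s * cj t * (t * cj u) = (t * cj t) * (s * cj u) by ring, mul_cj] at this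
  have m2 : b₁ * star b₂ ∈ Ideal.span {(nm F : OO n) * nm t} * (s * cj u) := by
    have := Ideal.mul_mem_mul hb₁ (latt_star_mem hb₂)
    rwa [cj_mul, cj_mul, show s * t * F * (cj t * cj u * cj F) =
      (F * cj F) * (t * cj t) * (s * cj u) by ring, mul_cj, mul_cj,
      Ideal.span_singleton_mul_span_singleton] at this
  have m3 : a₁ * b₂ - b₁ * star a₂ ∈ Ideal.span {(nm t : OO n)} * (s * u * F) := by
    refine Ideal.sub_mem _ ?_ ?_
    · have := Ideal.mul_mem_mul ha₁ hb₂
      rwa [show s * cj t * (t * u * F) = (t * cj t) * (s * u * F) by ring, mul_cj] at this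
    · have := Ideal.mul_mem_mul hb₁ (latt_star_mem ha₂)
      rwa [cj_mul, cj_cj, show s * t * F * (cj t * u) = (t * cj t) * (s * u * F) by ring,
        mul_cj] at this
  obtain ⟨h, hh, e1⟩ := Ideal.mem_span_singleton_mul.1 m1
  obtain ⟨g, hg, e2⟩ := Ideal.mem_span_singleton_mul.1 m2
  obtain ⟨B, hB, e3⟩ := Ideal.mem_span_singleton_mul.1 m3
  have h15 : rho (15 : OO n) = 15 := by simpa using rho_natCast (n := n) 15
  have hA : h + 15 * g ∈ s * cj u := Ideal.add_mem _ hh (Ideal.mul_mem_left _ _ hg)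
  have eA : (nm F : OO n) * (a₁ * a₂) + 15 * (b₁ * star b₂) = nm F * nm t * (h + 15 * g) := by
    rw [← e1, ← e2]; ring
  have rA : rho (h + 15 * g) = 0 := by
    apply latt_cancel ht
    apply latt_cancel hFc
    have := congrArg rho eA
    simp only [rho_add, rho_mul, rho_natCast, rho_star, h15] at this ⊢
    rw [← r₁, ← r₂] at this
    linear_combination -this + (rho a₁ * rho a₂) * hF
  have rB : rho B = 0 := by
    apply latt_cancel ht
    have := congrArg rho e3
    simp only [rho_sub, rho_mul, rho_natCast, rho_star] at this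
    rw [this, r₁, r₂]
    ring
  obtain ⟨a₃, ha₃, e4⟩ := latt_div (by rw [nm_mul, nm_cj]; exact hs.mul_left hu) hA rA
  obtain ⟨b₃, hb₃, e5⟩ := latt_div
    (by rw [nm_mul, nm_mul]; exact (hs.mul_left hu).mul_left hFc) hB rB
  rw [e4] at eA
  rw [e5] at e3
  refine ⟨(a₃, b₃), ⟨ha₃, hb₃, ?_⟩, eA, e3.symm⟩
  obtain ⟨w, hw⟩ := rho_eq_zero_iff.1 (show rho (a₂ - b₂) = 0 by rw [rho_sub, r₂, sub_self])
  have hw' : star a₂ - star b₂ = -(del n * star w) := by
    rw [← star_sub, hw, star_mul', star_del]; ring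
  obtain ⟨e, he⟩ : (n : ℤ) ∣ (nm F : ℤ) + 15 := by
    rw [← ZMod.intCast_zmod_eq_zero_iff_dvd]
    push_cast
    rw [hF]; ring
  have he' : (nm F : OO n) + 15 = n * e := by exact_mod_cast congrArg (Int.cast : ℤ → OO n) he
  have key : (nm F : OO n) * nm t * (a₃ - b₃) =
      nm F * (a₁ * w - b₁ * star w) - del n * (e * (b₁ * star b₂)) := by
    apply mul_left_cancel₀ (latt_del_ne (n := n))
    have hd := del_mul_del (n := n)
    linear_combination -eA - (nm F : OO n) * e3 + (nm F * a₁) * hw + (nm F * b₁) * hw' +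
      (b₁ * star b₂) * he' + (e * (b₁ * star b₂)) * hd
  have := congrArg rho key
  rw [rho_sub _ (del n * _), latt_rho_del] at this
  simp only [rho_sub, rho_mul, rho_natCast, rho_star, r₁] at this
  apply sub_eq_zero.1
  apply latt_cancel ht
  apply latt_cancel hFc
  linear_combination this

theorem exists_brandt {F : Ideal (OO n)} (hF : ((nm F : ℕ) : ZMod n) = -15) (h15 : n.Coprime 15) :
    ∃ B : Brandt (-(n : ℚ)) (-15 / (nm F : ℚ)) {A : Ideal (OO n) // (nm A).Coprime n},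
      (∀ ν s t, B.r ν s t = rr F s.1 t.1 ν) ∧
      (∀ s, ∃ x ∈ B.L s s, 2 * x.re = B.N s ∧
        (x * star x).re = (((n + 1) / 4 : ℕ) : ℤ) * B.N s ^ 2 ∧
        ((∃ β : OO n, s.1 * s.1 * F = Ideal.span {β}) → ∃ v ∈ B.L s s, v.re = 0 ∧
          (v * star v).re = 15 * B.N s ^ 2 ∧ (x * star v).re = 0)) := by
  have hFc : (nm F).Coprime n := by
    rw [← ZMod.isUnit_iff_coprime, hF]
    have := (ZMod.isUnit_iff_coprime 15 n).2 h15.symm
    exact (by simpa using this : IsUnit (15 : ZMod n)).neg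
  have hf : nm F ≠ 0 := latt_ne_of_coprime hFc
  have hf' : (nm F : ℚ) ≠ 0 := by exact_mod_cast hf
  have hn := latt_n_ne (n := n)
  have hN : ∀ s : {A : Ideal (OO n) // (nm A).Coprime n}, (nm s.1 : ℚ) ≠ 0 := fun s => by
    exact_mod_cast latt_ne_of_coprime s.2
  have hself : ∀ (s : Ideal (OO n)) (z : OO n),
      (del n * (z * nm s), (0 : OO n)) ∈ latt_lam (s * cj s) (s * s * F) := by
    intro s z
    refine ⟨?_, Ideal.zero_mem _, ?_⟩
    · rw [mul_cj]
      exact Ideal.mul_mem_left _ _ (Ideal.mul_mem_left _ _ (Ideal.mem_span_singleton_self _))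
    · exact (latt_rho_del _).trans latt_rho_zero.symm
  refine ⟨{ N := fun s => nm s.1
            L := fun s t => (latt_lam (s.1 * cj t.1) (s.1 * t.1 * F)).map
              (latt_io n (-15 / (nm F : ℚ)))
            N_pos := fun s => lt_of_le_of_ne (Nat.cast_nonneg _) (hN s).symm
            mul_mem := ?_
            star_mem := ?_
            N_mem := ?_
            integral := ?_
            gram := ?_ }, ?_, ?_⟩
  · rintro s t u _ _ ⟨x, hx, rfl⟩ ⟨y, hy, rfl⟩
    obtain ⟨z, hz, e1, e2⟩ := latt_mul_mem hF hFc s.2 t.2 u.2 hx hy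
    refine ⟨z, hz, ?_⟩
    have h1 := latt_mul hf x.1 x.2 y.1 y.2
    rw [e1, e2] at h1
    have hd := del_mul_del (n := n)
    have h2 : (-(del n * (nm F * nm t.1 * (del n * z.1))),
        -(del n * (nm F * (nm t.1 * (del n * z.2))))) = ((nm F * n * nm t.1 : ℕ) : ℤ) • z := by
      ext1
      · rw [Prod.smul_fst, zsmul_eq_mul]
        push_cast
        linear_combination (-(nm F : OO n) * nm t.1 * z.1) * hd
      · rw [Prod.smul_snd, zsmul_eq_mul]
        push_cast
        linear_combination (-(nm F : OO n) * nm t.1 * z.2) * hd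
    rw [h2, map_zsmul, ← Int.cast_smul_eq_zsmul ℚ] at h1
    have h3 := congrArg (fun q => (((nm F : ℚ) * n * nm t.1)⁻¹) • q) h1
    simp only [smul_smul] at h3
    have hNt := hN t
    rw [show ((nm F : ℚ) * n * nm t.1)⁻¹ * (((nm F * n * nm t.1 : ℕ) : ℤ) : ℚ) = 1 by
      push_cast; field_simp, one_smul,
      show ((nm F : ℚ) * n * nm t.1)⁻¹ * ((nm F : ℚ) * n) = (nm t.1 : ℚ)⁻¹ by field_simp] at h3
    exact h3.symm
  · rintro s t _ ⟨⟨a, b⟩, ⟨ha, hb, r⟩, rfl⟩
    refine ⟨(-star a, -b), ⟨neg_mem ?_, neg_mem ?_, ?_⟩, (latt_star _ a b).symm⟩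
    · have := latt_star_mem ha
      rwa [cj_mul, cj_cj, mul_comm] at this
    · rwa [mul_comm t.1]
    · simp only at r ⊢
      rw [rho_neg, rho_neg, rho_star, r]
  · intro s
    refine ⟨_, hself s.1 1, ?_⟩
    ext <;> simp [latt_io_re, latt_io_I, latt_io_J, latt_io_K, del]
  · rintro s t _ ⟨⟨a, b⟩, ⟨ha, hb, r⟩, rfl⟩
    simp only at ha hb r
    obtain ⟨α, hα⟩ := nm_dvd_norm ha
    obtain ⟨β, hβ⟩ := nm_dvd_norm hb
    rw [nm_mul, nm_cj] at hα
    rw [nm_mul, nm_mul] at hβ
    have h1 : ((α + 15 * β : ℤ) : ZMod n) = 0 := by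
      apply latt_cancel s.2
      apply latt_cancel t.2
      apply latt_cancel hFc
      have e1 := rho_sq a
      have e2 := rho_sq b
      rw [hα] at e1
      rw [hβ, ← r] at e2
      push_cast at e1 e2 ⊢
      linear_combination -(nm F : ZMod n) * e1 - 15 * e2 + rho a ^ 2 * hF
    obtain ⟨k, hk⟩ := (ZMod.intCast_zmod_eq_zero_iff_dvd _ _).1 h1
    refine ⟨k, ?_⟩
    have hk' : (α : ℚ) + 15 * β = n * k := by exact_mod_cast hk
    rw [latt_norm, hα, hβ]
    push_cast
    field_simp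
    linear_combination ((nm s.1 : ℚ) * nm t.1) * hk'
  · intro s t
    obtain ⟨b, hb1, hb2⟩ := latt_gram (-15 / (nm F : ℚ)) (I := s.1 * cj t.1) (J := s.1 * t.1 * F)
      (by rw [nm_mul, nm_cj]; exact s.2.mul_left t.2)
      (latt_ne_of_coprime (by rw [nm_mul, nm_mul]; exact (s.2.mul_left t.2).mul_left hFc))
    refine ⟨b, hb1, ?_⟩
    rw [hb2]
    simp only [nm_mul, nm_cj]
    push_cast
    field_simp
    ring
  · intro ν s t
    unfold Brandt.r rr
    rw [← Set.ncard_image_of_injective (LL F s.1 t.1 ν) (latt_io_inj (-15 / (nm F : ℚ)))]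
    congr 1
    have key : ∀ a b : OO n,
        (latt_io n (-15 / (nm F : ℚ)) (a, b) * star (latt_io n (-15 / (nm F : ℚ)) (a, b))).re =
          ν * ((nm s.1 : ℚ) * nm t.1) ↔
        (nm F : ℤ) * a.norm + 15 * b.norm = ν * n * nm F * nm s.1 * nm t.1 := by
      intro a b
      rw [latt_norm, ← Int.cast_inj (α := ℚ)]
      push_cast
      constructor
      · intro h
        field_simp at h
        linear_combination h
      · intro h
        field_simp
        linear_combination h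
    ext x
    constructor
    · rintro ⟨⟨⟨a, b⟩, ⟨ha, hb, r⟩, rfl⟩, h⟩
      exact ⟨(a, b), ⟨ha, hb, r, (key a b).1 h⟩, rfl⟩
    · rintro ⟨⟨a, b⟩, ⟨ha, hb, r, h⟩, rfl⟩
      exact ⟨⟨(a, b), ⟨ha, hb, r⟩, rfl⟩, (key a b).2 h⟩
  · intro s
    have hm := latt_m (n := n)
    refine ⟨_, ⟨_, hself s.1 QuadraticAlgebra.omega, rfl⟩, ?_, ?_, ?_⟩
    · simp [latt_io_re, del]
      ring
    · rw [latt_norm, map_mul, map_mul, norm_del, QuadraticAlgebra.norm_natCast,
        QuadraticAlgebra.norm_zero, QuadraticAlgebra.norm_def]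
      simp only [QuadraticAlgebra.omega_re, QuadraticAlgebra.omega_im, Int.cast_add, Int.cast_mul,
        Int.cast_neg, Int.cast_sub, Int.cast_one, Int.cast_zero, Int.cast_pow]
      generalize ((((n + 1) / 4 : ℕ) : ℤ) : ℚ) = m
      simp only [Int.cast_natCast]
      field_simp
      ring
    · rintro ⟨β, hβ⟩
      refine ⟨latt_io n _ (0, del n * β), ⟨(0, del n * β), ⟨Ideal.zero_mem _, ?_, ?_⟩, rfl⟩,
        ?_, ?_, ?_⟩
      · rw [hβ]
        exact Ideal.mul_mem_left _ _ (Ideal.mem_span_singleton_self _)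
      · exact latt_rho_zero.trans (latt_rho_del _).symm
      · simp [latt_io_re]
      · have h1 := nm_span β
        rw [← hβ, nm_mul, nm_mul] at h1
        rw [latt_norm, map_mul, norm_del, ← h1, QuadraticAlgebra.norm_zero]
        push_cast
        field_simp
        ring
      · have := latt_pair (-15 / (nm F : ℚ)) (del n * (QuadraticAlgebra.omega * ((nm s.1 : ℕ) : OO n))) 0 0
          (del n * β)
        simpa using this

theorem rr_pos_of_cls_eq {F A B : Ideal (OO n)} (hF : F ≠ ⊥) (hA : A ≠ ⊥) (hB : B ≠ ⊥)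
    (h : cls A = cls B) : 0 < rr F A B 1 := by
  have hB' : cj B ≠ ⊥ := by
    rw [Ne, ← nm_eq_zero, nm_cj, nm_eq_zero]; exact hB
  have hAB : A * cj B ≠ ⊥ := mul_ne_zero hA hB'
  obtain ⟨γ, hγ⟩ := (cls_eq_one_iff hAB).1 (by rw [cls_mul hA hB', cls_cj, h, mul_inv_cancel])
  have hf : (1 : ℤ) ≤ nm F := by
    have : nm F ≠ 0 := fun h => hF (nm_eq_zero.1 h)
    omega
  have hfin : (LL F A B 1).Finite := by
    set M : ℤ := ((1 : ℕ) : ℤ) * n * nm F * nm A * nm B with hM
    refine ((finite_norm_le (n := n) M).prod (finite_norm_le (n := n) M)).subset ?_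
    rintro ⟨a, b⟩ ⟨-, -, -, h4⟩
    have h1 := norm_nonneg' a
    have h2 := norm_nonneg' b
    simp only at h4
    rw [← hM] at h4
    constructor
    · change a.norm ≤ M
      nlinarith
    · change b.norm ≤ M
      nlinarith
  refine (Set.ncard_pos hfin).2 ⟨(del n * γ, 0), ?_, Ideal.zero_mem _,
    (latt_rho_del _).trans latt_rho_zero.symm, ?_⟩
  · rw [hγ]
    exact Ideal.mul_mem_left _ _ (Ideal.mem_span_singleton_self _)
  · have h1 := nm_span γ
    rw [← hγ, nm_mul, nm_cj] at h1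
    simp only [map_mul, norm_del, ← h1, QuadraticAlgebra.norm_zero]
    push_cast
    ring

theorem rr_conj {F A : Ideal (OO n)} (hF : (nm F).Coprime n) (ν : ℕ) :
    rr F (cj A * cj F) (cj A * cj F) ν = rr F A A ν := by
  have hf : nm F ≠ 0 := latt_ne_of_coprime hF
  have hf' : (nm F : OO n) ≠ 0 := latt_cast_ne hf
  have hfz : (nm F : ℤ) ≠ 0 := by exact_mod_cast hf
  let φ : OO n × OO n → OO n × OO n := fun x => (nm F * x.1, nm F * star x.2)
  have hφ : Function.Injective φ := by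
    rintro ⟨a, b⟩ ⟨a', b'⟩ h
    have h1 := mul_left_cancel₀ hf' (Prod.ext_iff.1 h).1
    have h2 := star_injective (mul_left_cancel₀ hf' (Prod.ext_iff.1 h).2)
    exact Prod.ext h1 h2
  have e1 : cj A * cj F * cj (cj A * cj F) = Ideal.span {(nm F : OO n)} * (A * cj A) := by
    rw [cj_mul, cj_cj, cj_cj, ← mul_cj F]; ring
  have e2 : cj A * cj F * (cj A * cj F) * F = Ideal.span {(nm F : OO n)} * cj (A * A * F) := by
    rw [cj_mul, cj_mul, ← mul_cj F]; ring
  unfold rr
  rw [← Set.ncard_image_of_injective (LL F A A ν) hφ]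
  congr 1
  ext ⟨a', b'⟩
  unfold LL
  simp only [Set.mem_ofPred_eq, Set.mem_image]
  rw [e1, e2, Ideal.mem_span_singleton_mul, Ideal.mem_span_singleton_mul, nm_mul, nm_cj, nm_cj]
  constructor
  · rintro ⟨⟨a, ha, rfl⟩, ⟨b, hb, rfl⟩, r, h⟩
    refine ⟨(a, star b), ⟨ha, mem_cj.1 hb, ?_, ?_⟩, by simp [φ]⟩
    · simp only [rho_mul, rho_natCast, rho_star] at r ⊢
      apply sub_eq_zero.1
      apply latt_cancel hF
      linear_combination r
    · simp only [map_mul, QuadraticAlgebra.norm_natCast, QuadraticAlgebra.norm_star] at h ⊢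
      apply mul_left_cancel₀ (pow_ne_zero 2 hfz)
      push_cast at h
      linear_combination h
  · rintro ⟨⟨a, b⟩, ⟨ha, hb, r, h⟩, hx⟩
    obtain ⟨rfl, rfl⟩ := Prod.ext_iff.1 hx
    refine ⟨⟨a, ha, rfl⟩, ⟨star b, latt_star_mem hb, rfl⟩, ?_, ?_⟩
    · simp only [φ, rho_mul, rho_natCast, rho_star] at r ⊢
      rw [r]
    · simp only [φ, map_mul, QuadraticAlgebra.norm_natCast, QuadraticAlgebra.norm_star] at h ⊢
      push_cast
      linear_combination (nm F : ℤ) ^ 2 * h

end Pool.Agent.P.MP_8b7eba_nt.BSD15
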