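import Pool.Agent.P.MP_8b7eba_nt.BSD15.QBasic

/-! The embedding of pairs of quadratic integers into the quaternion algebra. -/

namespace Pool.Agent.P.MP_8b7eba_nt.BSD15

open scoped Quaternion

variable {n : ℕ} [Good n]

theorem latt_n_pos : 0 < n := by have := Good.gt (n := n); omega

theorem latt_n_ne : (n : ℚ) ≠ 0 := by exact_mod_cast (latt_n_pos (n := n)).ne'

theorem latt_m : (n : ℚ) = 4 * ((((n + 1) / 4 : ℕ) : ℤ) : ℚ) - 1 := by
  have h := Good.h4 (n := n)
  have h1 : n + 1 = 4 * ((n + 1) / 4) := by omega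
  have h2 : ((n + 1 : ℕ) : ℚ) = ((4 * ((n + 1) / 4) : ℕ) : ℚ) := by rw [← h1]
  rw [Nat.cast_add, Nat.cast_mul, Nat.cast_one, Nat.cast_ofNat] at h2
  rw [Int.cast_natCast]
  linarith

/-- the map `(a, b) ↦ δ⁻¹ (a + b j)` -/
def latt_io (n : ℕ) (c : ℚ) : OO n × OO n →ₗ[ℤ] ℍ[ℚ,-(n : ℚ),c] where
  toFun x := ⟨(x.1.im : ℚ) / 2, -(2 * (x.1.re : ℚ) + x.1.im) / (2 * n), (x.2.im : ℚ) / 2,
    -(2 * (x.2.re : ℚ) + x.2.im) / (2 * n)⟩
  map_add' x y := by
    ext <;> simp <;> ring
  map_smul' k x := by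
    ext <;> simp <;> ring

omit [Good n] in
theorem latt_io_re (c : ℚ) (a b : OO n) : (latt_io n c (a, b)).re = (a.im : ℚ) / 2 := rfl
omit [Good n] in
theorem latt_io_I (c : ℚ) (a b : OO n) :
    (latt_io n c (a, b)).imI = -(2 * (a.re : ℚ) + a.im) / (2 * n) := rfl
omit [Good n] in
theorem latt_io_J (c : ℚ) (a b : OO n) : (latt_io n c (a, b)).imJ = (b.im : ℚ) / 2 := rfl
omit [Good n] in
theorem latt_io_K (c : ℚ) (a b : OO n) :
    (latt_io n c (a, b)).imK = -(2 * (b.re : ℚ) + b.im) / (2 * n) := rfl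

theorem latt_io_inj (c : ℚ) : Function.Injective (latt_io n c) := by
  rw [injective_iff_map_eq_zero]
  rintro ⟨a, b⟩ h
  have hn := latt_n_ne (n := n)
  have h1 := congrArg QuaternionAlgebra.re h
  have h2 := congrArg QuaternionAlgebra.imI h
  have h3 := congrArg QuaternionAlgebra.imJ h
  have h4 := congrArg QuaternionAlgebra.imK h
  rw [latt_io_re] at h1
  rw [latt_io_I] at h2
  rw [latt_io_J] at h3
  rw [latt_io_K] at h4
  simp only [QuaternionAlgebra.re_zero, QuaternionAlgebra.imI_zero, QuaternionAlgebra.imJ_zero,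
    QuaternionAlgebra.imK_zero, div_eq_zero_iff, mul_eq_zero, hn, OfNat.ofNat_ne_zero, or_false,
    neg_eq_zero] at h1 h2 h3 h4
  rw [h1, add_zero] at h2
  rw [h3, add_zero] at h4
  have e1 : a.im = 0 := by exact_mod_cast h1
  have e3 : b.im = 0 := by exact_mod_cast h3
  have e2 : a.re = 0 := by
    have : (a.re : ℚ) = 0 := by linarith
    exact_mod_cast this
  have e4 : b.re = 0 := by
    have : (b.re : ℚ) = 0 := by linarith
    exact_mod_cast this
  ext <;> simp [e1, e2, e3, e4]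

omit [Good n] in
theorem latt_star (c : ℚ) (a b : OO n) :
    star (latt_io n c (a, b)) = latt_io n c (-star a, -b) := by
  ext
  · simp [latt_io_re]
  · simp only [QuaternionAlgebra.imI_star, latt_io_I, QuadraticAlgebra.re_neg,
      QuadraticAlgebra.im_neg, QuadraticAlgebra.re_star, QuadraticAlgebra.im_star]
    push_cast
    ring
  · simp only [QuaternionAlgebra.imJ_star, latt_io_J, QuadraticAlgebra.im_neg]
    push_cast
    ring
  · simp only [QuaternionAlgebra.imK_star, latt_io_K, QuadraticAlgebra.re_neg,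
      QuadraticAlgebra.im_neg]
    push_cast
    ring

theorem latt_mul {f : ℕ} (hf : f ≠ 0) (a₁ b₁ a₂ b₂ : OO n) :
    ((f : ℚ) * n) • (latt_io n (-15 / (f : ℚ)) (a₁, b₁) * latt_io n (-15 / (f : ℚ)) (a₂, b₂)) =
      latt_io n (-15 / (f : ℚ)) (-(del n * (f * (a₁ * a₂) + 15 * (b₁ * star b₂))),
        -(del n * (f * (a₁ * b₂ - b₁ * star a₂)))) := by
  have hn := latt_n_ne (n := n)
  have hf' : (f : ℚ) ≠ 0 := by exact_mod_cast hf
  have hm := latt_m (n := n)
  ext <;>
    simp only [QuaternionAlgebra.re_smul, QuaternionAlgebra.imI_smul, QuaternionAlgebra.imJ_smul,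
      QuaternionAlgebra.imK_smul, QuaternionAlgebra.re_mul, QuaternionAlgebra.imI_mul,
      QuaternionAlgebra.imJ_mul, QuaternionAlgebra.imK_mul, latt_io_re, latt_io_I, latt_io_J,
      latt_io_K, smul_eq_mul, QuadraticAlgebra.re_neg, QuadraticAlgebra.im_neg,
      QuadraticAlgebra.re_mul, QuadraticAlgebra.im_mul, QuadraticAlgebra.re_add,
      QuadraticAlgebra.im_add, QuadraticAlgebra.re_sub, QuadraticAlgebra.im_sub,
      QuadraticAlgebra.re_star, QuadraticAlgebra.im_star, QuadraticAlgebra.re_natCast,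
      QuadraticAlgebra.im_natCast, QuadraticAlgebra.re_ofNat, QuadraticAlgebra.im_ofNat, del,
      Int.cast_add, Int.cast_mul, Int.cast_neg, Int.cast_sub, Int.cast_one, Int.cast_ofNat,
      Int.cast_zero] <;>
    generalize ((((n + 1) / 4 : ℕ) : ℤ) : ℚ) = m at hm ⊢ <;>
    rw [Int.cast_natCast] <;>
    generalize (n : ℚ) = N at hm hn ⊢ <;>
    subst hm <;> field_simp <;> ring

theorem latt_pair (c : ℚ) (a₁ b₁ a₂ b₂ : OO n) :
    2 * (latt_io n c (a₁, b₁) * star (latt_io n c (a₂, b₂))).re =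
      (2 * a₁.re * a₂.re + a₁.re * a₂.im + a₁.im * a₂.re +
          2 * ((((n + 1) / 4 : ℕ) : ℤ) : ℚ) * a₁.im * a₂.im -
        c * (2 * b₁.re * b₂.re + b₁.re * b₂.im + b₁.im * b₂.re +
          2 * ((((n + 1) / 4 : ℕ) : ℤ) : ℚ) * b₁.im * b₂.im)) / n := by
  have hn := latt_n_ne (n := n)
  have hm := latt_m (n := n)
  simp only [QuaternionAlgebra.re_mul, QuaternionAlgebra.re_star, QuaternionAlgebra.imI_star,
    QuaternionAlgebra.imJ_star, QuaternionAlgebra.imK_star, latt_io_re, latt_io_I, latt_io_J,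
    latt_io_K]
  generalize ((((n + 1) / 4 : ℕ) : ℤ) : ℚ) = m at hm ⊢
  generalize (n : ℚ) = N at hm hn ⊢
  subst hm
  field_simp
  ring

theorem latt_norm (c : ℚ) (a b : OO n) :
    (latt_io n c (a, b) * star (latt_io n c (a, b))).re = (a.norm - c * b.norm) / n := by
  have h := latt_pair c a b a b
  have hn := latt_n_ne (n := n)
  simp only [QuadraticAlgebra.norm_def, Int.cast_add, Int.cast_mul, Int.cast_neg, Int.cast_sub,
    Int.cast_one]
  generalize ((((n + 1) / 4 : ℕ) : ℤ) : ℚ) = m at h ⊢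
  field_simp at h ⊢
  linarith

end Pool.Agent.P.MP_8b7eba_nt.BSD15
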