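import Pool.Agent.P.MP_8b7eba_nt.BSD15.QFinal
import Pool.Agent.P.MP_8b7eba_nt.BSD15.Ind
import Pool.Agent.P.MP_8b7eba_nt.BSD15.Euler

/-! The analytic half of the main theorem. -/

namespace Pool.Agent.P.MP_8b7eba_nt.BSD15

theorem B5.adm {n : ℕ} (h : B5 n) : Adm n := by
  obtain ⟨hsq, h4, h3, h5⟩ := h
  refine ⟨hsq, ?_⟩
  have h2 : n.Coprime 2 := (Nat.coprime_two_right).2 (Nat.odd_iff.2 (by omega))
  have h3' : n.Coprime 3 :=
    Nat.Coprime.symm ((Nat.Prime.coprime_iff_not_dvd Nat.prime_three).2 (by omega))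
  have h5' : n.Coprime 5 :=
    Nat.Coprime.symm ((Nat.Prime.coprime_iff_not_dvd Nat.prime_five).2 (by omega))
  exact Nat.Coprime.mul_right (Nat.Coprime.mul_right h2 h3') h5'

theorem lam_ne_zero {n : ℕ} (h : B5 n) (h4 : No4 n) : lam n ≠ 0 :=
  induction_main lam No4 (fun _ h => iface5 h) (fun _ h => iface3 h)
    (fun _ hl _ => no4_prime hl) (fun _ hn h h15 => lam_vanish hn h h15) n h h4

theorem analytic_main (n : ℕ) (h : B5 n) (K : Type) [Field K] [NumberField K]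
    (hK : Module.finrank ℚ K = 2) (δ : K) (hδ : δ ^ 2 = -(n : K))
    (hcl : ∀ c : ClassGroup (NumberField.RingOfIntegers K), c ^ 4 = 1 → c ^ 2 = 1) :
    (∃ f : ℂ → ℂ, IsL (-12987 * (n : ℤ) ^ 2) (263466 * (n : ℤ) ^ 3) f) ∧
    ∀ f : ℂ → ℂ, IsL (-12987 * (n : ℤ) ^ 2) (263466 * (n : ℤ) ^ 3) f → f 1 ≠ 0 := by
  refine ⟨exists_isL h.adm h.2.1, fun f hf => isL_ne_zero h.adm h.2.1 (lam_ne_zero h ?_) hf⟩
  intro _ c hc
  obtain ⟨e⟩ := exists_ringEquiv n K hK δ hδ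
  have h1 := hcl ((ClassGroup.mulEquiv e).symm c) (by rw [← map_pow, hc, map_one])
  rw [← map_pow] at h1
  exact (MulEquiv.map_eq_one_iff _).1 h1

end Pool.Agent.P.MP_8b7eba_nt.BSD15
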