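import Pool.Agent.P.MP_8b7eba_nt.BSD15.Jac

/-! Formal properties of the intersection pairing. -/

namespace Pool.Agent.P.MP_8b7eba_nt.BSD15

def paircore_mul (g h : Gam) : Gam where
  a := g.a * h.a + g.b * h.c
  b := g.a * h.b + g.b * h.d
  c := g.c * h.a + g.d * h.c
  d := g.c * h.b + g.d * h.d
  det_eq := by
    have h1 := g.det_eq
    have h2 := h.det_eq
    linear_combination (h.a * h.d - h.b * h.c) * h1 + h2
  dvd_c := (g.dvd_c.mul_right _).add (h.dvd_c.mul_left _)

def paircore_inv (g : Gam) : Gam where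
  a := g.d
  b := -g.b
  c := -g.c
  d := g.a
  det_eq := by
    have h1 := g.det_eq
    linear_combination h1
  dvd_c := g.dvd_c.neg_right

def paircore_neg (g : Gam) : Gam where
  a := -g.a
  b := -g.b
  c := -g.c
  d := -g.d
  det_eq := by
    have h1 := g.det_eq
    linear_combination h1
  dvd_c := g.dvd_c.neg_right

theorem paircore_act_mul (g h : Gam) (x : V) : (paircore_mul g h).act x = g.act (h.act x) := by
  simp only [Gam.act, paircore_mul, Prod.mk.injEq]
  constructor <;> ring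

theorem paircore_inv_act (g : Gam) (x : V) : (paircore_inv g).act (g.act x) = x := by
  have h1 := g.det_eq
  refine Prod.ext ?_ ?_ <;> simp only [Gam.act, paircore_inv]
  · linear_combination x.1 * h1
  · linear_combination x.2 * h1

theorem paircore_act_inv (g : Gam) (x : V) : g.act ((paircore_inv g).act x) = x := by
  have h1 := g.det_eq
  refine Prod.ext ?_ ?_ <;> simp only [Gam.act, paircore_inv]
  · linear_combination x.1 * h1
  · linear_combination x.2 * h1

theorem paircore_neg_act (g : Gam) (x : V) : (paircore_neg g).act x = -g.act x := by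
  refine Prod.ext ?_ ?_ <;> simp only [Gam.act, paircore_neg, Prod.fst_neg, Prod.snd_neg] <;> ring

theorem paircore_inv_inv (g : Gam) : paircore_inv (paircore_inv g) = g := by
  ext <;> simp [paircore_inv]

def paircore_invE : Gam ≃ Gam :=
  ⟨paircore_inv, paircore_inv, paircore_inv_inv, paircore_inv_inv⟩

def paircore_mulE (g : Gam) : Gam ≃ Gam where
  toFun h := paircore_mul g h
  invFun h := paircore_mul (paircore_inv g) h
  left_inv h := by
    have h1 := g.det_eq
    ext <;> simp only [paircore_mul, paircore_inv]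
    · linear_combination h.a * h1
    · linear_combination h.b * h1
    · linear_combination h.c * h1
    · linear_combination h.d * h1
  right_inv h := by
    have h1 := g.det_eq
    ext <;> simp only [paircore_mul, paircore_inv]
    · linear_combination h.a * h1
    · linear_combination h.b * h1
    · linear_combination h.c * h1
    · linear_combination h.d * h1

theorem paircore_dt_act (g : Gam) (x y : V) : dt (g.act x) (g.act y) = dt x y := by
  have h1 := g.det_eq
  simp only [dt, Gam.act]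
  linear_combination (x.1 * y.2 - x.2 * y.1) * h1

theorem paircore_dt_swap (x y : V) : dt x y = -dt y x := by
  simp only [dt]; ring

theorem paircore_dt_negl (x y : V) : dt (-x) y = -dt x y := by
  simp only [dt, Prod.fst_neg, Prod.snd_neg]; ring

theorem paircore_dt_negr (x y : V) : dt x (-y) = -dt x y := by
  simp only [dt, Prod.fst_neg, Prod.snd_neg]; ring

theorem paircore_dl_act (g : Gam) (x y z : V) :
    dl (g.act x) (g.act y) (g.act z) = dl x y z := by
  simp only [dl, paircore_dt_act]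

theorem paircore_dl_swap (x y z : V) : dl x y z = -dl x z y := by
  simp only [dl]
  rw [paircore_dt_swap y z, mul_comm]
  push_cast
  ring

theorem paircore_cross_act (g : Gam) (x₁ x₂ y₁ y₂ : V) :
    cross (g.act x₁) (g.act x₂) (g.act y₁) (g.act y₂) = cross x₁ x₂ y₁ y₂ := by
  have e : ∀ x, side (g.act y₁) (g.act y₂) (g.act x) = side y₁ y₂ x := fun x => by
    simp only [side, paircore_dt_act]
  unfold cross
  rw [e, e]

theorem Prim.act {x : V} (hx : Prim x) (g : Gam) : Prim (g.act x) := by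
  obtain ⟨u, v, h⟩ := hx
  have h1 := g.det_eq
  refine ⟨u * g.d - v * g.c, v * g.a - u * g.b, ?_⟩
  simp only [Gam.act]
  linear_combination h + (u * x.1 + v * x.2) * h1

theorem paircore_gcd_dvd (g : Gam) (y : V) : Int.gcd y.2 15 ∣ Int.gcd (g.act y).2 15 := by
  have h1 : ((Int.gcd y.2 15 : ℕ) : ℤ) ∣ 15 := Int.gcd_dvd_right _ _
  have h2 : ((Int.gcd y.2 15 : ℕ) : ℤ) ∣ y.2 := Int.gcd_dvd_left _ _
  refine Int.natCast_dvd_natCast.1 (Int.dvd_coe_gcd ?_ h1)
  simp only [Gam.act]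
  exact ((h1.trans g.dvd_c).mul_right _).add (h2.mul_left _)

theorem paircore_gcd_act (g : Gam) (y : V) : Int.gcd (g.act y).2 15 = Int.gcd y.2 15 := by
  refine Nat.dvd_antisymm ?_ (paircore_gcd_dvd g y)
  have := paircore_gcd_dvd (paircore_inv g) (g.act y)
  rwa [paircore_inv_act] at this

theorem paircore_width_act (g : Gam) (y : V) : width (g.act y) = width y := by
  simp only [width, paircore_gcd_act]

theorem paircore_width_dvd (x : V) {t : ℤ} (h : 15 ∣ t * x.2 ^ 2) : (width x : ℤ) ∣ t := by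
  have e : Int.gcd x.2 15 = Int.gcd (x.2 % 15) 15 := (Int.gcd_emod _ _).symm
  have h2 : (15 : ℤ) ∣ t * (x.2 % 15) ^ 2 := by
    have h3 := Int.emod_add_mul_ediv x.2 15
    have h4 : t * (x.2 % 15) ^ 2 = t * x.2 ^ 2 -
        15 * (t * (x.2 / 15) * (x.2 + x.2 % 15)) := by
      generalize x.2 % 15 = r at h3
      generalize x.2 / 15 = q at h3
      rw [← h3]; ring
    rw [h4]
    exact h.sub (dvd_mul_right _ _)
  have h0 : 0 ≤ x.2 % 15 := Int.emod_nonneg _ (by norm_num)
  have h1 : x.2 % 15 < 15 := Int.emod_lt_of_pos _ (by norm_num)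
  unfold width
  rw [e]
  generalize x.2 % 15 = r at h0 h1 h2
  interval_cases r <;> norm_num [Int.gcd] at h2 ⊢ <;> omega

theorem paircore_stab {x : V} (hx : Prim x) (h : Gam) (hh : h.act x = x) :
    ∃ t : ℤ, (width x : ℤ) ∣ t ∧
      ∀ z : V, h.act z = (z.1 + t * dt x z * x.1, z.2 + t * dt x z * x.2) := by
  obtain ⟨u, v, huv⟩ := hx
  have h1 := h.det_eq
  have e1 : h.a * x.1 + h.b * x.2 = x.1 := congrArg Prod.fst hh
  have e2 : h.c * x.1 + h.d * x.2 = x.2 := congrArg Prod.snd hh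
  have htr : h.d = 2 - h.a := by
    have k1 : (2 - h.a - h.d) * x.1 = 0 := by
      linear_combination (h.d - 1) * e1 - h.b * e2 - x.1 * h1
    have k2 : (2 - h.a - h.d) * x.2 = 0 := by
      linear_combination (h.a - 1) * e2 - h.c * e1 - x.2 * h1
    linear_combination (-u) * k1 - v * k2 + (2 - h.a - h.d) * huv
  rw [htr] at e2
  set t := h.b * u ^ 2 - h.c * v ^ 2 - 2 * (h.a - 1) * u * v with ht
  have hb : t * x.1 ^ 2 = h.b := by
    rw [ht]
    linear_combination (-2 * u * v * x.1 - v ^ 2 * x.2) * e1 - v ^ 2 * x.1 * e2 +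
      h.b * (u * x.1 + v * x.2 + 1) * huv
  have hc : t * x.2 ^ 2 = -h.c := by
    rw [ht]
    linear_combination u ^ 2 * x.2 * e1 + (u ^ 2 * x.1 + 2 * u * v * x.2) * e2 -
      h.c * (u * x.1 + v * x.2 + 1) * huv
  have ha : t * x.1 * x.2 = 1 - h.a := by
    rw [ht]
    linear_combination u ^ 2 * x.1 * e1 - v ^ 2 * x.2 * e2 -
      (h.a - 1) * (u * x.1 + v * x.2 + 1) * huv
  refine ⟨t, paircore_width_dvd x (by rw [hc]; exact h.dvd_c.neg_right), fun z => ?_⟩
  simp only [Gam.act, dt, Prod.mk.injEq, htr]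
  constructor
  · linear_combination z.1 * ha - z.2 * hb
  · linear_combination z.1 * hc - z.2 * ha

theorem paircore_saw_stab {x : V} (hx : Prim x) (h : Gam) (hh : h.act x = x) (z x' : V) :
    saw (dl x (h.act z) x' / width x) = saw (dl x z x' / width x) := by
  obtain ⟨t, ⟨k, hk⟩, ht⟩ := paircore_stab hx h hh
  have e1 : dt x (h.act z) = dt x z := by
    conv_lhs => rw [← hh]
    exact paircore_dt_act h x z
  have e2 : dt (h.act z) x' = dt z x' + t * dt x z * dt x x' := by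
    rw [ht]; simp only [dt]; ring
  simp only [dl]
  rw [e1, e2]
  by_cases h1 : dt x z = 0
  · simp [h1]
  by_cases h2 : dt x x' = 0
  · simp [h2]
  by_cases h3 : width x = 0
  · simp [h3]
  rw [← saw_add_int ((dt z x' : ℚ) / ((dt x z : ℚ) * (dt x x' : ℚ)) / width x) k]
  congr 1
  have h1' : (dt x z : ℚ) ≠ 0 := by exact_mod_cast h1
  have h2' : (dt x x' : ℚ) ≠ 0 := by exact_mod_cast h2
  have h3' : (width x : ℚ) ≠ 0 := by exact_mod_cast h3
  rw [hk]
  push_cast
  field_simp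

theorem endT_eq {x y : V} (x' y' : V) (hx : Prim x) (g : Gam) (h : g.act y = x) :
    endT x x' y y' = saw (dl x (g.act y') x' / width x) := by
  have hex : ∃ g : Gam, g.act y = x := ⟨g, h⟩
  unfold endT
  rw [dif_pos hex]
  have h0 := hex.choose_spec
  have h2 : (paircore_inv g).act x = y := by rw [← h, paircore_inv_act]
  have h1 : (paircore_mul hex.choose (paircore_inv g)).act x = x := by
    rw [paircore_act_mul, h2, h0]
  rw [← paircore_saw_stab hx _ h1 (g.act y') x', paircore_act_mul, paircore_inv_act]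

theorem endT_of_not {x y : V} (x' y' : V) (h : ¬ ∃ g : Gam, g.act y = x) :
    endT x x' y y' = 0 := by
  unfold endT
  rw [dif_neg h]

theorem paircore_solve {p : ℤ} (hp : Prime p) {a b : ℤ} (h : p ∣ a ↔ p ∣ b) (a' b' : ℤ) :
    ∃ k : ℤ, p ∣ a * b' - a' * b - k * (a * b) := by
  by_cases ha : p ∣ a
  · exact ⟨0, by simpa using (ha.mul_right _).sub ((h.1 ha).mul_left _)⟩
  · have hab : ¬p ∣ a * b := fun hh => (hp.dvd_or_dvd hh).elim ha fun hb => ha (h.2 hb)
    obtain ⟨u, v, huv⟩ := (hp.irreducible.coprime_iff_not_dvd).2 hab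
    exact ⟨(a * b' - a' * b) * v, (a * b' - a' * b) * u, by
      linear_combination (-(a * b' - a' * b)) * huv⟩

/-- two primitive vectors are equivalent iff their denominators have the same gcd with 15 -/
theorem equiv_iff {x y : V} (hx : Prim x) (hy : Prim y) :
    (∃ g : Gam, g.act y = x) ↔ Int.gcd x.2 15 = Int.gcd y.2 15 := by
  constructor
  · rintro ⟨g, rfl⟩
    exact paircore_gcd_act g y
  · intro h
    obtain ⟨u, v, huv⟩ := hx
    obtain ⟨s, t, hst⟩ := hy
    have key : ∀ p : ℤ, p ∣ 15 → (p ∣ x.2 ↔ p ∣ y.2) := fun p hp =>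
      ⟨fun h1 => (Int.dvd_coe_gcd h1 hp).trans (h ▸ Int.gcd_dvd_left _ _),
        fun h1 => (Int.dvd_coe_gcd h1 hp).trans (h ▸ Int.gcd_dvd_left _ _)⟩
    obtain ⟨k3, c3, h3⟩ := paircore_solve Int.prime_three (key 3 (by norm_num)) u s
    obtain ⟨k5, c5, h5⟩ := paircore_solve (p := 5) (Int.prime_iff_natAbs_prime.2 (by norm_num))
      (key 5 (by norm_num)) u s
    set k := 10 * k3 + 6 * k5 with hk
    refine ⟨⟨x.1 * s - (-v + k * x.1) * y.2, x.1 * t + (-v + k * x.1) * y.1,
      x.2 * s - (u + k * x.2) * y.2, x.2 * t + (u + k * x.2) * y.1, ?_, ?_⟩, ?_⟩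
    · linear_combination (s * y.1 + t * y.2) * huv + hst
    · refine ⟨2 * c3 + 2 * c5 - (x.2 * s - u * y.2), ?_⟩
      rw [hk]
      linear_combination 10 * h3 + 6 * h5
    · refine Prod.ext ?_ ?_ <;> simp only [Gam.act]
      · linear_combination x.1 * hst
      · linear_combination x.2 * hst

theorem paircore_sign_mem (a : ℤ) : a.sign ∈ ({-1, 0, 1} : Finset ℤ) := by
  rcases lt_trichotomy a 0 with h | h | h
  · simp [Int.sign_eq_neg_one_of_neg h]
  · simp [h]
  · simp [Int.sign_eq_one_of_pos h]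

theorem paircore_opp {u v : ℤ} (h : u.sign * v.sign = -1) :
    (0 < u ∧ v < 0) ∨ (u < 0 ∧ 0 < v) := by
  rcases Int.eq_one_or_neg_one_of_mul_eq_neg_one' h with ⟨h1, h2⟩ | ⟨h1, h2⟩
  · exact Or.inl ⟨Int.sign_eq_one_iff_pos.1 h1, Int.sign_eq_neg_one_iff_neg.1 h2⟩
  · exact Or.inr ⟨Int.sign_eq_neg_one_iff_neg.1 h1, Int.sign_eq_one_iff_pos.1 h2⟩

theorem paircore_fin : ∀ a ∈ ({-1, 0, 1} : Finset ℤ), ∀ b ∈ ({-1, 0, 1} : Finset ℤ),
    ∀ c ∈ ({-1, 0, 1} : Finset ℤ), ∀ d ∈ ({-1, 0, 1} : Finset ℤ), ∀ p ∈ ({-1, 0, 1} : Finset ℤ),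
    ∀ q ∈ ({-1, 0, 1} : Finset ℤ), (a * d * (b * c) = -1 → p * q = a * d) →
      (if a * b * q * (c * d * q) = -1 then c * d * q else 0) =
        -(if -a * -c * p * (-b * -d * p) = -1 then -b * -d * p else 0) := by
  decide +kernel

theorem paircore_fin2 : ∀ a ∈ ({-1, 0, 1} : Finset ℤ), ∀ b ∈ ({-1, 0, 1} : Finset ℤ),
    ∀ c ∈ ({-1, 0, 1} : Finset ℤ), ∀ d ∈ ({-1, 0, 1} : Finset ℤ),
    ∀ q ∈ ({-1, 0, 1} : Finset ℤ), a * b * q * (c * d * q) = -1 → a * d * (b * c) = -1 := by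
  decide +kernel

theorem paircore_pluck (x₁ x₂ y₁ y₂ : V) :
    dt x₁ y₁ * dt x₂ y₂ - dt x₁ y₂ * dt x₂ y₁ = dt x₁ x₂ * dt y₁ y₂ := by
  simp only [dt]; ring

theorem paircore_cross_anti (x₁ x₂ y₁ y₂ : V) : cross x₁ x₂ y₁ y₂ = -cross y₁ y₂ x₁ x₂ := by
  have e : ∀ y, side x₁ x₂ y = -(dt x₁ y).sign * -(dt x₂ y).sign * (dt x₁ x₂).sign := fun y => by
    unfold side
    rw [paircore_dt_swap y x₁, paircore_dt_swap y x₂, Int.sign_neg, Int.sign_neg]
  unfold cross
  rw [e, e]
  refine paircore_fin _ (paircore_sign_mem _) _ (paircore_sign_mem _) _ (paircore_sign_mem _) _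
    (paircore_sign_mem _) _ (paircore_sign_mem _) _ (paircore_sign_mem _) fun h => ?_
  rw [← Int.sign_mul, ← Int.sign_mul] at h
  rw [← Int.sign_mul, ← Int.sign_mul, ← paircore_pluck]
  rcases paircore_opp h with ⟨h1, h2⟩ | ⟨h1, h2⟩
  · rw [Int.sign_eq_one_of_pos h1, Int.sign_eq_one_of_pos (by omega)]
  · rw [Int.sign_eq_neg_one_of_neg h1, Int.sign_eq_neg_one_of_neg (by omega)]

theorem paircore_bound {a d M : ℤ} (h0 : a * d ≠ 0) (h : |a * d| ≤ M) :
    (-M ≤ a ∧ a ≤ M) ∧ (-M ≤ d ∧ d ≤ M) := by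
  have ha : 1 ≤ |a| := Int.one_le_abs (left_ne_zero_of_mul h0)
  have hd : 1 ≤ |d| := Int.one_le_abs (right_ne_zero_of_mul h0)
  rw [abs_mul] at h
  exact ⟨abs_le.1 (by nlinarith), abs_le.1 (by nlinarith)⟩

theorem cross_finite (x₁ x₂ y₁ y₂ : V) :
    (Function.support fun g : Gam => cross x₁ x₂ (g.act y₁) (g.act y₂)).Finite := by
  set M := |dt x₁ x₂ * dt y₁ y₂| with hM
  have key : ∀ g : Gam, cross x₁ x₂ (g.act y₁) (g.act y₂) ≠ 0 → dt x₁ x₂ * dt y₁ y₂ ≠ 0 ∧
      (dt x₁ (g.act y₁), dt x₁ (g.act y₂), dt x₂ (g.act y₁), dt x₂ (g.act y₂)) ∈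
        Set.Icc (-M, -M, -M, -M) (M, M, M, M) := by
    intro g hg
    have h1 : side (g.act y₁) (g.act y₂) x₁ * side (g.act y₁) (g.act y₂) x₂ = -1 := by
      by_contra hc
      exact hg (by simp only [cross, if_neg hc])
    simp only [side] at h1
    have h2 := paircore_fin2 _ (paircore_sign_mem _) _ (paircore_sign_mem _) _
      (paircore_sign_mem _) _ (paircore_sign_mem _) _ (paircore_sign_mem _) h1
    rw [← Int.sign_mul, ← Int.sign_mul] at h2
    have h3 := paircore_pluck x₁ x₂ (g.act y₁) (g.act y₂)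
    rw [paircore_dt_act] at h3
    have h4 := paircore_opp h2
    have h5 := le_abs_self (dt x₁ x₂ * dt y₁ y₂)
    have h6 := neg_abs_le (dt x₁ x₂ * dt y₁ y₂)
    have b1 := paircore_bound (a := dt x₁ (g.act y₁)) (d := dt x₂ (g.act y₂)) (M := M)
      (by omega) (abs_le.2 (by omega))
    have b2 := paircore_bound (a := dt x₁ (g.act y₂)) (d := dt x₂ (g.act y₁)) (M := M)
      (by omega) (abs_le.2 (by omega))
    refine ⟨by omega, ?_⟩
    simp only [Set.mem_Icc, Prod.mk_le_mk]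
    omega
  refine Set.Finite.of_injOn (f := fun g : Gam =>
    (dt x₁ (g.act y₁), dt x₁ (g.act y₂), dt x₂ (g.act y₁), dt x₂ (g.act y₂)))
    (fun g hg => (key g hg).2) ?_ (Set.finite_Icc _ _)
  intro g hg g' _ h
  have h0 := (key g hg).1
  simp only [Prod.mk.injEq, dt, Gam.act] at h
  obtain ⟨e1, e2, e3, e4⟩ := h
  ext <;> refine mul_left_cancel₀ h0 ?_ <;> simp only [dt]
  · linear_combination y₂.2 * (x₂.1 * e1 - x₁.1 * e3) - y₁.2 * (x₂.1 * e2 - x₁.1 * e4)
  · linear_combination y₁.1 * (x₂.1 * e2 - x₁.1 * e4) - y₂.1 * (x₂.1 * e1 - x₁.1 * e3)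
  · linear_combination y₂.2 * (x₂.2 * e1 - x₁.2 * e3) - y₁.2 * (x₂.2 * e2 - x₁.2 * e4)
  · linear_combination y₁.1 * (x₂.2 * e2 - x₁.2 * e4) - y₂.1 * (x₂.2 * e1 - x₁.2 * e3)

theorem paircore_endT_anti {x y : V} (x' y' : V) (hx : Prim x) (hy : Prim y) :
    endT x x' y y' = -endT y y' x x' := by
  by_cases h : ∃ g : Gam, g.act y = x
  · obtain ⟨g, rfl⟩ := h
    rw [endT_eq x' y' hx g rfl, endT_eq y' x' hy (paircore_inv g) (paircore_inv_act g y),
      ← paircore_dl_act g y, paircore_act_inv, paircore_dl_swap _ x', neg_div, saw_neg, neg_neg,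
      paircore_width_act]
  · rw [endT_of_not x' y' h, endT_of_not y' x', neg_zero]
    rintro ⟨g, rfl⟩
    exact h ⟨_, paircore_inv_act g x⟩

theorem II_antisymm {x₁ x₂ y₁ y₂ : V} (h₁ : Prim x₁) (h₂ : Prim x₂) (h₃ : Prim y₁)
    (h₄ : Prim y₂) : II x₁ x₂ y₁ y₂ = -II y₁ y₂ x₁ x₂ := by
  have hc : crossSum x₁ x₂ y₁ y₂ = -crossSum y₁ y₂ x₁ x₂ := by
    unfold crossSum
    rw [← finsum_neg_distrib, ← finsum_comp_equiv paircore_invE]
    refine finsum_congr fun g => ?_
    rw [paircore_cross_anti, ← paircore_cross_act g]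
    simp only [paircore_invE, Equiv.coe_fn_mk, paircore_act_inv]
  simp only [II, endSum]
  rw [hc, paircore_endT_anti x₂ y₂ h₁ h₃, paircore_endT_anti x₂ y₁ h₁ h₄,
    paircore_endT_anti x₁ y₂ h₂ h₃, paircore_endT_anti x₁ y₁ h₂ h₄]
  push_cast
  ring

theorem II_swap (x₁ x₂ y₁ y₂ : V) : II x₂ x₁ y₁ y₂ = -II x₁ x₂ y₁ y₂ := by
  have hc : crossSum x₂ x₁ y₁ y₂ = -crossSum x₁ x₂ y₁ y₂ := by
    unfold crossSum
    rw [← finsum_neg_distrib]
    refine finsum_congr fun g => ?_
    simp only [cross]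
    rw [mul_comm]
    split_ifs with h
    · rcases Int.eq_one_or_neg_one_of_mul_eq_neg_one' h with ⟨h1, h2⟩ | ⟨h1, h2⟩ <;>
        rw [h1, h2] <;> norm_num
    · simp
  simp only [II, endSum]
  rw [hc]
  push_cast
  ring

theorem paircore_prim_neg {x : V} (hx : Prim x) : Prim (-x) := by
  obtain ⟨u, v, h⟩ := hx
  exact ⟨-u, -v, by simpa using h⟩

theorem paircore_endT_neg1 {x : V} (x' y y' : V) (hx : Prim x) :
    endT (-x) x' y y' = endT x x' y y' := by
  by_cases h : ∃ g : Gam, g.act y = x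
  · obtain ⟨g, hg⟩ := h
    rw [endT_eq x' y' hx g hg, endT_eq x' y' (paircore_prim_neg hx) (paircore_neg g)
      (by rw [paircore_neg_act, hg]), paircore_neg_act]
    congr 2
    · simp only [dl, paircore_dt_negl, paircore_dt_negr]
      push_cast
      rw [neg_neg, mul_neg, neg_div_neg_eq]
    · simp [width]
  · rw [endT_of_not x' y' h, endT_of_not x' y']
    rintro ⟨g, hg⟩
    exact h ⟨paircore_neg g, by rw [paircore_neg_act, hg, neg_neg]⟩

theorem paircore_endT_neg2 (x x' y y' : V) : endT x (-x') y y' = endT x x' y y' := by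
  have e : ∀ z, dl x z (-x') = dl x z x' := fun z => by
    simp only [dl, paircore_dt_negr]
    push_cast
    rw [mul_neg, neg_div_neg_eq]
  simp only [endT, e]

theorem II_neg {x₁ x₂ y₁ y₂ : V} (h₁ : Prim x₁) (h₂ : Prim x₂) (h₃ : Prim y₁)
    (h₄ : Prim y₂) : II (-x₁) x₂ y₁ y₂ = II x₁ x₂ y₁ y₂ := by
  have hc : crossSum (-x₁) x₂ y₁ y₂ = crossSum x₁ x₂ y₁ y₂ := by
    unfold crossSum
    refine finsum_congr fun g => ?_
    have e : side (g.act y₁) (g.act y₂) (-x₁) = side (g.act y₁) (g.act y₂) x₁ := by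
      simp only [side, paircore_dt_negl, Int.sign_neg, neg_mul_neg]
    unfold cross
    rw [e]
  simp only [II, endSum, hc, paircore_endT_neg1 _ _ _ h₁, paircore_endT_neg2]

theorem paircore_endT_act {x : V} (x' y y' : V) (hx : Prim x) (g : Gam) :
    endT (g.act x) (g.act x') y y' = endT x x' y y' := by
  by_cases h : ∃ k : Gam, k.act y = x
  · obtain ⟨k, hk⟩ := h
    rw [endT_eq x' y' hx k hk, endT_eq (g.act x') y' (hx.act g) (paircore_mul g k)
      (by rw [paircore_act_mul, hk]), paircore_act_mul, paircore_dl_act, paircore_width_act]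
  · rw [endT_of_not x' y' h, endT_of_not (g.act x') y']
    rintro ⟨k, hk⟩
    exact h ⟨paircore_mul (paircore_inv g) k, by rw [paircore_act_mul, hk, paircore_inv_act]⟩

theorem II_act {x₁ x₂ y₁ y₂ : V} (h₁ : Prim x₁) (h₂ : Prim x₂) (h₃ : Prim y₁)
    (h₄ : Prim y₂) (g : Gam) : II (g.act x₁) (g.act x₂) y₁ y₂ = II x₁ x₂ y₁ y₂ := by
  have hc : crossSum (g.act x₁) (g.act x₂) y₁ y₂ = crossSum x₁ x₂ y₁ y₂ := by
    unfold crossSum
    rw [← finsum_comp_equiv (paircore_mulE g)]
    refine finsum_congr fun k => ?_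
    simp only [paircore_mulE, Equiv.coe_fn_mk, paircore_act_mul, paircore_cross_act]
  simp only [II, endSum, hc, paircore_endT_act _ _ _ h₁, paircore_endT_act _ _ _ h₂]

end Pool.Agent.P.MP_8b7eba_nt.BSD15
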