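import Pool.Agent.P.MP_8b7eba_nt.BSD15.PairCore

/-! The triangle identity. -/

namespace Pool.Agent.P.MP_8b7eba_nt.BSD15

open Filter

theorem pairtri_par {x v : V} (hx : Prim x) (h : dt x v = 0) : ∃ m : ℤ, v = (m * x.1, m * x.2) := by
  obtain ⟨a, b, e⟩ := hx
  refine ⟨a * v.1 + b * v.2, Prod.ext ?_ ?_⟩ <;> simp only [dt] at h ⊢
  · linear_combination -v.1 * e - b * h
  · linear_combination -v.2 * e + a * h

theorem pairtri_pm {x v : V} (hx : Prim x) (hv : Prim v) (h : dt x v = 0) :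
    ∃ s : ℤ, (s = 1 ∨ s = -1) ∧ v = (s * x.1, s * x.2) := by
  obtain ⟨m, rfl⟩ := pairtri_par hx h
  obtain ⟨a, b, e⟩ := hv
  refine ⟨m, Int.eq_one_or_neg_one_of_mul_eq_one (v := a * x.1 + b * x.2) ?_, rfl⟩
  linear_combination e

theorem pairtri_clamp (m : ℤ) (N : ℕ) : ∑ k ∈ Finset.Icc (-(N : ℤ)) N, (2 * k + m).sign =
    max (-(2 * (N : ℤ) + 1)) (min m (2 * N + 1)) := by
  have hs : ∀ n : ℤ, (0 < n ∧ n.sign = 1) ∨ (n = 0 ∧ n.sign = 0) ∨ (n < 0 ∧ n.sign = -1) := by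
    intro n
    rcases lt_trichotomy n 0 with h | h | h
    · exact Or.inr (Or.inr ⟨h, Int.sign_eq_neg_one_of_neg h⟩)
    · exact Or.inr (Or.inl ⟨h, by rw [h]; rfl⟩)
    · exact Or.inl ⟨h, Int.sign_eq_one_of_pos h⟩
  induction N with
  | zero =>
    have := hs m
    simp only [Nat.cast_zero, neg_zero, Finset.Icc_self, Finset.sum_singleton, mul_zero, zero_add]
    omega
  | succ N ih =>
    have e : Finset.Icc (-((N + 1 : ℕ) : ℤ)) ((N + 1 : ℕ) : ℤ) =
        insert (-((N : ℤ) + 1)) (insert ((N : ℤ) + 1) (Finset.Icc (-(N : ℤ)) N)) := by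
      ext k
      simp only [Finset.mem_Icc, Finset.mem_insert]
      omega
    rw [e, Finset.sum_insert (by simp only [Finset.mem_Icc, Finset.mem_insert]; omega),
      Finset.sum_insert (by simp only [Finset.mem_Icc]; omega), ih]
    have h1 := hs (2 * -((N : ℤ) + 1) + m)
    have h2 := hs (2 * ((N : ℤ) + 1) + m)
    omega

theorem pairtri_saw (α : ℚ) : ((⌊α⌋ + ⌈α⌉ : ℤ) : ℚ) = 2 * (α - saw α) := by
  have h1 := Int.floor_add_fract α
  unfold saw
  split_ifs with h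
  · rw [h, add_zero] at h1
    rw [← h1]
    simp only [Int.floor_intCast, Int.ceil_intCast]
    push_cast
    ring
  · have h2 : 0 < Int.fract α := lt_of_le_of_ne (Int.fract_nonneg α) (Ne.symm h)
    have h3 := Int.fract_lt_one α
    have : ⌈α⌉ = ⌊α⌋ + 1 := Int.ceil_eq_iff.2 ⟨by push_cast; linarith, by push_cast; linarith⟩
    rw [this]
    push_cast
    linarith

theorem pairtri_sign {A B C k : ℤ} {w : ℕ} (hA : A ≠ 0) (hB : B ≠ 0) (hw : 0 < w) :
    (-B).sign * (-(C + k * w * A * B)).sign * A.sign =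
      (2 * k + (⌊(C : ℚ) / (A * B) / w⌋ + ⌈(C : ℚ) / (A * B) / w⌉)).sign := by
  set α : ℚ := (C : ℚ) / (A * B) / w with hα
  have e : (((C + k * w * A * B) * (A * B) : ℤ) : ℚ) = (k + α) * (w * (A * B) ^ 2) := by
    rw [hα]
    push_cast
    field_simp
    ring
  have hp : (0 : ℚ) < w * (A * B) ^ 2 := by positivity
  rw [← Int.sign_mul, ← Int.sign_mul,
    show -B * -(C + k * w * A * B) * A = (C + k * w * A * B) * (A * B) by ring]
  generalize (C + k * w * A * B) * (A * B) = n at e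
  rcases lt_trichotomy ((k : ℚ) + α) 0 with h | h | h
  · have a1 : ⌊α⌋ < -k := Int.floor_lt.2 (by push_cast; linarith)
    have a2 : ⌈α⌉ ≤ -k := Int.ceil_le.2 (by push_cast; linarith)
    rw [Int.sign_eq_neg_one_of_neg (by exact_mod_cast e ▸ mul_neg_of_neg_of_pos h hp),
      Int.sign_eq_neg_one_of_neg (by omega)]
  · have a1 : α = ((-k : ℤ) : ℚ) := by push_cast; linarith
    rw [h, zero_mul] at e
    rw [a1, Int.floor_intCast, Int.ceil_intCast, show n = 0 by exact_mod_cast e]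
    congr 1
    ring
  · have a1 : -k ≤ ⌊α⌋ := Int.le_floor.2 (by push_cast; linarith)
    have a2 : -k < ⌈α⌉ := Int.lt_ceil.2 (by push_cast; linarith)
    rw [Int.sign_eq_one_of_pos (by exact_mod_cast e ▸ mul_pos h hp),
      Int.sign_eq_one_of_pos (by omega)]

theorem pairtri_dt (g : Gam) (y z : V) : dt (g.act y) (g.act z) = dt y z := by
  simp only [dt, Gam.act]
  linear_combination (y.1 * z.2 - y.2 * z.1) * g.det_eq

theorem pairtri_width (x : V) : 0 < width x ∧ (15 : ℤ) ∣ width x * x.2 ∧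
    ∀ m : ℤ, 15 ∣ m * x.2 * x.2 → (width x : ℤ) ∣ m := by
  have h : Int.gcd x.2 15 = Int.gcd (x.2 % 15) 15 := by
    rw [Int.gcd_emod]
  have h1 : ∀ m : ℤ, 15 ∣ m * x.2 ↔ 15 ∣ m * (x.2 % 15) := fun m => by
    rw [Int.dvd_iff_emod_eq_zero, Int.dvd_iff_emod_eq_zero, Int.mul_emod,
      Int.mul_emod m (x.2 % 15), Int.emod_emod]
  have h2 : ∀ m : ℤ, 15 ∣ m * x.2 * x.2 ↔ 15 ∣ m * (x.2 % 15) * (x.2 % 15) := fun m => by
    rw [h1, mul_right_comm, h1]
  simp only [width, h, h2]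
  rw [h1]
  have a1 := Int.emod_nonneg x.2 (b := 15) (by norm_num)
  have a2 := Int.emod_lt_of_pos x.2 (b := 15) (by norm_num)
  generalize x.2 % 15 = r at a1 a2
  interval_cases r <;> norm_num <;> omega

/-- the elements sending `y` to `± g₀ y` -/
def pairtri_G (g : Gam) (y : V) (s : ℤˣ) (k : ℤ) : Gam where
  a := s * (g.a - k * width (g.act y) * (g.act y).1 * y.2)
  b := s * (g.b + k * width (g.act y) * (g.act y).1 * y.1)
  c := s * (g.c - k * width (g.act y) * (g.act y).2 * y.2)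
  d := s * (g.d + k * width (g.act y) * (g.act y).2 * y.1)
  det_eq := by
    have := Int.units_coe_mul_self s
    generalize (width (g.act y) : ℤ) = w
    simp only [Gam.act]
    linear_combination (s * s : ℤ) * g.det_eq + this
  dvd_c := by
    refine Dvd.dvd.mul_left (dvd_sub g.dvd_c (Dvd.dvd.mul_right ?_ _)) _
    rw [mul_assoc]
    exact (pairtri_width _).2.1.mul_left _

theorem pairtri_G_act (g : Gam) (y : V) (s : ℤˣ) (k : ℤ) (z : V) :
    (pairtri_G g y s k).act z =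
      (s * ((g.act z).1 + k * width (g.act y) * dt y z * (g.act y).1),
        s * ((g.act z).2 + k * width (g.act y) * dt y z * (g.act y).2)) := by
  rw [Gam.act]
  simp only [pairtri_G]
  generalize (width (g.act y) : ℤ) = w
  generalize g.act y = x
  simp only [Gam.act, dt]
  exact Prod.ext (by ring) (by ring)

theorem pairtri_surj (g : Gam) {y : V} (hy : Prim y) (g' : Gam)
    (h : dt (g.act y) (g'.act y) = 0) : ∃ s k, pairtri_G g y s k = g' := by
  obtain ⟨s, hs, e⟩ := pairtri_pm (hy.act g) (hy.act g') h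
  obtain ⟨s, rfl⟩ : ∃ u : ℤˣ, (u : ℤ) = s := by
    rcases hs with rfl | rfl
    exacts [⟨1, rfl⟩, ⟨-1, rfl⟩]
  have ss := Int.units_coe_mul_self s
  obtain ⟨p, q, e0⟩ := id hy
  have d1 := pairtri_dt g y (-q, p)
  have d2 := pairtri_dt g' y (-q, p)
  rw [e] at d2
  obtain ⟨m, hm⟩ := pairtri_par (v := (s * (g'.act (-q, p)).1 - (g.act (-q, p)).1,
    s * (g'.act (-q, p)).2 - (g.act (-q, p)).2)) (hy.act g) (by
      simp only [dt] at d1 d2 ⊢
      linear_combination d2 - d1)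
  have e1 := congrArg Prod.fst e
  have e2 := congrArg Prod.snd e
  have e3 := congrArg Prod.fst hm
  have e4 := congrArg Prod.snd hm
  have e5 : (g.act y).2 = g.c * y.1 + g.d * y.2 := rfl
  have e6 : (g.act y).1 = g.a * y.1 + g.b * y.2 := rfl
  have f3 : s * g'.c = g.c - m * (g.act y).2 * y.2 := by
    simp only [Gam.act] at e2 e4 ⊢
    linear_combination (g.c - s * g'.c) * e0 + s * p * e2 - y.2 * e4 +
      p * (g.c * y.1 + g.d * y.2) * ss
  obtain ⟨k, rfl⟩ := (pairtri_width (g.act y)).2.2 m (by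
    have : m * (g.act y).2 * (g.act y).2 =
        g.c * (m * (g.act y).2 * y.1 + g.d) - g'.c * (s * g.d) := by
      linear_combination m * (g.act y).2 * e5 + g.d * f3
    rw [this]
    exact dvd_sub (g.dvd_c.mul_right _) (g'.dvd_c.mul_right _))
  refine ⟨s, k, Gam.ext ?_ ?_ ?_ ?_⟩ <;> simp only [pairtri_G] <;>
    generalize (width (g.act y) : ℤ) = w at * <;> simp only [Gam.act] at e1 e2 e3 e4 ⊢
  · linear_combination (g'.a - s * g.a) * e0 - p * e1 + s * y.2 * e3 -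
      y.2 * (g'.a * -q + g'.b * p) * ss
  · linear_combination (g'.b - s * g.b) * e0 - q * e1 - s * y.1 * e3 +
      y.1 * (g'.a * -q + g'.b * p) * ss
  · linear_combination (g'.c - s * g.c) * e0 - p * e2 + s * y.2 * e4 -
      y.2 * (g'.c * -q + g'.d * p) * ss
  · linear_combination (g'.d - s * g.d) * e0 - q * e2 - s * y.1 * e4 +
      y.1 * (g'.c * -q + g'.d * p) * ss

theorem pairtri_side (g : Gam) {y y' z : V} (hy : dt y y' ≠ 0) (hz : dt (g.act y) z ≠ 0) (s : ℤˣ)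
    (k : ℤ) : side ((pairtri_G g y s k).act y) ((pairtri_G g y s k).act y') z =
      (2 * k + (⌊dl (g.act y) (g.act y') z / width (g.act y)⌋ +
        ⌈dl (g.act y) (g.act y') z / width (g.act y)⌉)).sign := by
  rw [dl, pairtri_dt, ← pairtri_sign hy hz (pairtri_width _).1, side, pairtri_dt, pairtri_G_act,
    pairtri_G_act, ← Int.sign_mul, ← Int.sign_mul, ← Int.sign_mul, ← Int.sign_mul,
    show dt y y = 0 by simp only [dt]; ring]
  have ss := Int.units_coe_mul_self s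
  congr 2
  generalize (width (g.act y) : ℤ) = w
  generalize g.act y' = Y
  generalize dt y y' = A
  simp only [dt]
  linear_combination ((g.act y).1 * z.2 - (g.act y).2 * z.1) * (Y.1 * z.2 - Y.2 * z.1 +
    k * w * A * ((g.act y).1 * z.2 - (g.act y).2 * z.1)) * ss

theorem pairtri_inj (g : Gam) {y y' : V} (hy : Prim y) (hyy : dt y y' ≠ 0) :
    Function.Injective fun p : ℤˣ × ℤ => pairtri_G g y p.1 p.2 := by
  rintro ⟨s, k⟩ ⟨s', k'⟩ h
  obtain ⟨a, b, e⟩ := hy.act g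
  have h1 := congrArg (Gam.act · y) h
  have h2 := congrArg (Gam.act · y') h
  simp only [pairtri_G_act, Prod.mk.injEq, show dt y y = 0 by simp only [dt]; ring, mul_zero,
    zero_mul, add_zero] at h1 h2
  obtain rfl : s = s' := Units.ext (by linear_combination a * h1.1 + b * h1.2 - (s - s' : ℤ) * e)
  have h3 : (k - k') * (width (g.act y) * dt y y' * s) = 0 := by
    linear_combination a * h2.1 + b * h2.2 - (k - k') * (width (g.act y) * dt y y' * s) * e
  have h4 : (width (g.act y) : ℤ) * dt y y' * s ≠ 0 :=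
    mul_ne_zero (mul_ne_zero (by exact_mod_cast (pairtri_width _).1.ne') hyy) s.ne_zero
  rw [sub_eq_zero.1 ((mul_eq_zero.1 h3).resolve_right h4)]

def pairtri_F (x z' z y y' : V) (g : Gam) : ℤ :=
  if dt x (g.act y) = 0 then side (g.act y) (g.act y') z - side (g.act y) (g.act y') z' else 0

open Classical in
theorem pairtri_T {x z' z y y' : V} (hx : Prim x) (hy : Prim y) (hyy : dt y y' ≠ 0)
    (hz' : dt x z' ≠ 0) (hz : dt x z ≠ 0) :
    ∀ᶠ S : Finset Gam in atTop, ((∑ g ∈ S, pairtri_F x z' z y y' g : ℤ) : ℚ) =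
      4 * ((if ∃ g : Gam, g.act y = x then dl x z' z / width x else 0) - endT x z y y' +
        endT x z' y y') := by
  by_cases h : ∃ g : Gam, g.act y = x
  swap
  · refine .of_forall fun S => ?_
    rw [if_neg h, endT_of_not _ _ h, endT_of_not _ _ h, Finset.sum_eq_zero fun g _ => ?_]
    · simp
    refine if_neg fun h0 => ?_
    have h1 : dt (g.act y) x = 0 := by simp only [dt] at h0 ⊢; linear_combination -h0
    obtain ⟨s, hs, e⟩ := pairtri_pm (hy.act g) hx h1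
    refine h ⟨pairtri_G g y (if s = 1 then 1 else -1) 0, ?_⟩
    rw [pairtri_G_act, e]
    rcases hs with rfl | rfl <;> simp
  rw [if_pos h]
  obtain ⟨g, rfl⟩ := h
  rw [endT_eq _ _ hx g rfl, endT_eq _ _ hx g rfl]
  have e0 : dl (g.act y) z' z / width (g.act y) = dl (g.act y) (g.act y') z / width (g.act y) -
      dl (g.act y) (g.act y') z' / width (g.act y) := by
    rw [← sub_div]
    congr 1
    have h1 : (dt (g.act y) (g.act y') : ℚ) ≠ 0 := by rw [pairtri_dt]; exact_mod_cast hyy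
    have h2 : (dt (g.act y) z : ℚ) ≠ 0 := by exact_mod_cast hz
    have h3 : (dt (g.act y) z' : ℚ) ≠ 0 := by exact_mod_cast hz'
    unfold dl
    field_simp
    simp only [dt]
    push_cast
    ring
  have e1 : ∀ s k, pairtri_F (g.act y) z' z y y' (pairtri_G g y s k) = _ := fun s k => by
    rw [pairtri_F, if_pos, pairtri_side g hyy hz, pairtri_side g hyy hz']
    rw [pairtri_G_act]
    simp only [dt]
    ring
  have e2 := pairtri_saw (dl (g.act y) (g.act y') z / width (g.act y))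
  have e3 := pairtri_saw (dl (g.act y) (g.act y') z' / width (g.act y))
  rw [e0]
  generalize dl (g.act y) (g.act y') z / width (g.act y) = α at *
  generalize dl (g.act y) (g.act y') z' / width (g.act y) = β at *
  generalize ⌊α⌋ + ⌈α⌉ = m at *
  generalize ⌊β⌋ + ⌈β⌉ = n at *
  obtain ⟨N, hN⟩ : ∃ N : ℕ, m.natAbs ≤ N ∧ n.natAbs ≤ N :=
    ⟨m.natAbs + n.natAbs, by omega, by omega⟩
  filter_upwards [eventually_ge_atTop ((Finset.univ ×ˢ Finset.Icc (-(N : ℤ)) N).image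
    fun p : ℤˣ × ℤ => pairtri_G g y p.1 p.2)] with S hS
  rw [← Finset.sum_subset hS, Finset.sum_image (pairtri_inj g hy hyy).injOn, Finset.sum_product]
  · simp only [e1, Finset.sum_sub_distrib, pairtri_clamp]
    rw [show max (-(2 * (N : ℤ) + 1)) (min m (2 * N + 1)) = m by omega,
      show max (-(2 * (N : ℤ) + 1)) (min n (2 * N + 1)) = n by omega]
    simp only [Finset.sum_const, Finset.card_univ, Fintype.card_units_int, two_smul]
    push_cast
    rw [e2, e3]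
    ring
  · intro g' _ h1
    by_cases h2 : dt (g.act y) (g'.act y) = 0
    swap
    · exact if_neg h2
    obtain ⟨s, k, rfl⟩ := pairtri_surj g hy g' h2
    have h3 : k ∉ Finset.Icc (-(N : ℤ)) N := fun a =>
      h1 (Finset.mem_image.2 ⟨(s, k), Finset.mem_product.2 ⟨Finset.mem_univ _, a⟩, rfl⟩)
    rw [e1, sub_eq_zero]
    rw [Finset.mem_Icc, not_and_or] at h3
    rcases h3 with h3 | h3
    · rw [Int.sign_eq_neg_one_of_neg (by omega), Int.sign_eq_neg_one_of_neg (by omega)]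
    · rw [Int.sign_eq_one_of_pos (by omega), Int.sign_eq_one_of_pos (by omega)]

theorem pairtri_pair {x z' z y y' : V} (hx : Prim x) (hyy : dt y y' ≠ 0) (g : Gam) :
    pairtri_F x z' z y y' g - pairtri_F x z' z y' y g =
      if side (g.act y) (g.act y') x = 0 then
        side (g.act y) (g.act y') z - side (g.act y) (g.act y') z' else 0 := by
  rw [← pairtri_dt g] at hyy
  unfold pairtri_F
  generalize g.act y = Y at *
  generalize g.act y' = Y' at *
  have e : ∀ v, side Y' Y v = -side Y Y' v := fun v => by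
    rw [side, side, show dt Y' Y = -dt Y Y' by simp only [dt]; ring, Int.sign_neg]
    ring
  have e1 : side Y Y' x = 0 ↔ dt x Y = 0 ∨ dt x Y' = 0 := by simp [side, hyy]
  have e2 : ¬ (dt x Y = 0 ∧ dt x Y' = 0) := fun ⟨a, b⟩ => by
    obtain ⟨m, rfl⟩ := pairtri_par hx a
    obtain ⟨n, rfl⟩ := pairtri_par hx b
    exact hyy (by simp only [dt]; ring)
  simp only [e, e1]
  by_cases a : dt x Y = 0 <;> by_cases b : dt x Y' = 0 <;> simp_all
  ring

theorem pairtri_deg {x₁ x₂ x₃ y₁ y₂ : V} (h₁ : Prim x₁) (h₂ : Prim x₂) (h₃ : Prim x₃)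
    (h₄ : Prim y₁) (h₅ : Prim y₂) (h : dt x₁ x₂ = 0) :
    II x₁ x₂ y₁ y₂ + II x₂ x₃ y₁ y₂ + II x₃ x₁ y₁ y₂ = 0 ∧ ∀ y, dfct x₁ x₂ x₃ y = 0 := by
  have h' : dt x₂ x₁ = 0 := by simp only [dt] at h ⊢; linear_combination -h
  refine ⟨?_, fun y => by simp [dfct, dl, h, h']⟩
  obtain ⟨s, hs, e⟩ := pairtri_pm h₁ h₂ h
  have a1 := II_swap x₁ x₁ y₁ y₂
  have a2 := II_swap x₁ x₃ y₁ y₂
  rcases hs with rfl | rfl
  · obtain rfl : x₂ = x₁ := by rw [e]; simp
    linarith
  · obtain rfl : x₂ = -x₁ := by rw [e]; ext <;> simp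
    have a3 := II_swap x₁ (-x₁) y₁ y₂
    have a4 := II_neg h₁ h₁ h₄ h₅
    have a5 := II_neg h₁ h₃ h₄ h₅
    linarith

theorem pairtri_cross (x₁ x₂ y₁ y₂ : V) : ∀ᶠ S : Finset Gam in atTop,
    crossSum x₁ x₂ y₁ y₂ = ∑ g ∈ S, cross x₁ x₂ (g.act y₁) (g.act y₂) :=
  (eventually_ge_atTop (cross_finite x₁ x₂ y₁ y₂).toFinset).mono fun _ hS =>
    finsum_eq_sum_of_support_subset _ fun _ hg => hS ((Set.Finite.mem_toFinset _).2 hg)

theorem II_triangle {x₁ x₂ x₃ y₁ y₂ : V} (h₁ : Prim x₁) (h₂ : Prim x₂) (h₃ : Prim x₃)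
    (h₄ : Prim y₁) (h₅ : Prim y₂) (hy : dt y₁ y₂ ≠ 0) :
    II x₁ x₂ y₁ y₂ + II x₂ x₃ y₁ y₂ + II x₃ x₁ y₁ y₂ = dfct x₁ x₂ x₃ y₁ - dfct x₁ x₂ x₃ y₂ := by
  have cyc : ∀ a b c y, dfct b c a y = dfct a b c y := fun a b c y => by unfold dfct; ring
  by_cases d₁ : dt x₁ x₂ = 0
  · obtain ⟨a, b⟩ := pairtri_deg h₁ h₂ h₃ h₄ h₅ d₁
    rw [a, b, b, sub_zero]
  by_cases d₂ : dt x₂ x₃ = 0
  · obtain ⟨a, b⟩ := pairtri_deg h₂ h₃ h₁ h₄ h₅ d₂
    rw [← cyc, ← cyc x₁, b, b]
    linarith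
  by_cases d₃ : dt x₃ x₁ = 0
  · obtain ⟨a, b⟩ := pairtri_deg h₃ h₁ h₂ h₄ h₅ d₃
    rw [cyc, cyc x₃, b, b]
    linarith
  have sw : ∀ {a b : V}, dt a b ≠ 0 → dt b a ≠ 0 := fun h e => h (by
    simp only [dt] at e ⊢; linear_combination -e)
  obtain ⟨S, ⟨⟨a1, a2, a3⟩, b1, b2, b3⟩, c1, c2, c3⟩ := ((((pairtri_cross x₁ x₂ y₁ y₂).and
    ((pairtri_cross x₂ x₃ y₁ y₂).and (pairtri_cross x₃ x₁ y₁ y₂))).and
    ((pairtri_T h₁ h₄ hy d₁ (sw d₃)).and ((pairtri_T h₂ h₄ hy d₂ (sw d₁)).and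
      (pairtri_T h₃ h₄ hy d₃ (sw d₂))))).and
    ((pairtri_T h₁ h₅ (sw hy) d₁ (sw d₃)).and ((pairtri_T h₂ h₅ (sw hy) d₂ (sw d₁)).and
      (pairtri_T h₃ h₅ (sw hy) d₃ (sw d₂))))).exists
  have key : 2 * (crossSum x₁ x₂ y₁ y₂ + crossSum x₂ x₃ y₁ y₂ + crossSum x₃ x₁ y₁ y₂) =
      (∑ g ∈ S, pairtri_F x₁ x₂ x₃ y₁ y₂ g - ∑ g ∈ S, pairtri_F x₁ x₂ x₃ y₂ y₁ g) +
      (∑ g ∈ S, pairtri_F x₂ x₃ x₁ y₁ y₂ g - ∑ g ∈ S, pairtri_F x₂ x₃ x₁ y₂ y₁ g) +
      (∑ g ∈ S, pairtri_F x₃ x₁ x₂ y₁ y₂ g - ∑ g ∈ S, pairtri_F x₃ x₁ x₂ y₂ y₁ g) := by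
    simp only [a1, a2, a3, ← Finset.sum_add_distrib, ← Finset.sum_sub_distrib, Finset.mul_sum,
      pairtri_pair h₁ hy, pairtri_pair h₂ hy, pairtri_pair h₃ hy]
    refine Finset.sum_congr rfl fun g _ => ?_
    have hs : ∀ x, side (g.act y₁) (g.act y₂) x = 1 ∨ side (g.act y₁) (g.act y₂) x = 0 ∨
        side (g.act y₁) (g.act y₂) x = -1 := fun x => by
      rw [side, ← Int.sign_mul, ← Int.sign_mul]
      exact Int.sign_trichotomy _
    unfold cross
    rcases hs x₁ with e1 | e1 | e1 <;> rcases hs x₂ with e2 | e2 | e2 <;>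
      rcases hs x₃ with e3 | e3 | e3 <;> simp [e1, e2, e3]
  have key' := congrArg (Int.cast : ℤ → ℚ) key
  simp only [Int.cast_add, Int.cast_sub, Int.cast_mul, Int.cast_ofNat, b1, b2, b3, c1, c2, c3]
    at key'
  unfold II endSum dfct
  linarith

end Pool.Agent.P.MP_8b7eba_nt.BSD15
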