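import Pool.Agent.P.MP_8b7eba_nt.BSD15.QDefs

/-! Basic facts on norms, conjugation, reduction and classes. -/

namespace Pool.Agent.P.MP_8b7eba_nt.BSD15

open scoped nonZeroDivisors QuadraticAlgebra

set_option linter.unusedSectionVars false

variable {n : ℕ} [Good n]

theorem qbasic_four : 4 * ((n + 1) / 4) = n + 1 := by
  have := Good.h4 (n := n)
  omega

theorem qbasic_four_int : 4 * (((n + 1) / 4 : ℕ) : ℤ) = n + 1 := by
  exact_mod_cast qbasic_four (n := n)

theorem qbasic_four_zmod : 4 * (((n + 1) / 4 : ℕ) : ZMod n) = 1 := by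
  have := congrArg (Nat.cast : ℕ → ZMod n) (qbasic_four (n := n))
  simpa using this

theorem qbasic_gt : (3 : ℤ) < n := by exact_mod_cast Good.gt (n := n)

theorem norm_nonneg' (z : OO n) : 0 ≤ z.norm := by
  have h := four_mul_norm z
  have : 0 ≤ (2 * z.re + z.im) ^ 2 + n * z.im ^ 2 := by positivity
  omega

theorem norm_eq_zero' {z : OO n} : z.norm = 0 ↔ z = 0 := by
  refine ⟨fun h0 => ?_, fun h => by rw [h, QuadraticAlgebra.norm_zero]⟩
  have h := four_mul_norm z
  have h3 := qbasic_gt (n := n)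
  have h1 : z.im = 0 := by nlinarith [sq_nonneg (2 * z.re + z.im), sq_nonneg z.im]
  have h2 : z.re = 0 := by
    rw [h0, h1] at h
    nlinarith
  exact QuadraticAlgebra.ext h2 h1

theorem eq_of_norm_one {z : OO n} (h : z.norm = 1) : z = 1 ∨ z = -1 := by
  have h4 := four_mul_norm z
  have h3 := qbasic_gt (n := n)
  have h7 : (7 : ℤ) ≤ n := by
    have := Good.h4 (n := n)
    omega
  have h1 : z.im = 0 := by
    by_contra hc
    have : 1 ≤ z.im ^ 2 := by
      have := sq_pos_of_ne_zero hc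
      omega
    nlinarith [sq_nonneg (2 * z.re + z.im)]
  rw [h, h1] at h4
  have h2 : (z.re - 1) * (z.re + 1) = 0 := by linarith
  rcases mul_eq_zero.1 h2 with h5 | h5
  · exact Or.inl (QuadraticAlgebra.ext (by simp; linarith) (by simp [h1]))
  · exact Or.inr (QuadraticAlgebra.ext (by simp; linarith) (by simp [h1]))

theorem finite_norm_le (M : ℤ) : {z : OO n | z.norm ≤ M}.Finite := by
  refine Set.Finite.of_finite_image (f := fun z : OO n => (z.re, z.im))
    (((Set.finite_Icc (-(4 * M)) (4 * M)).prod (Set.finite_Icc (-(4 * M)) (4 * M))).subset ?_) ?_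
  · rintro _ ⟨z, hz, rfl⟩
    have hz' : z.norm ≤ M := hz
    have h4 := four_mul_norm z
    have h3 := qbasic_gt (n := n)
    have a1 := Int.le_self_sq z.im
    have a2 := Int.le_self_sq (-z.im)
    have a3 := Int.le_self_sq (2 * z.re + z.im)
    have a4 := Int.le_self_sq (-(2 * z.re + z.im))
    rw [neg_sq] at a2 a4
    have a5 : z.im ^ 2 ≤ n * z.im ^ 2 := by nlinarith [sq_nonneg z.im]
    have a6 := sq_nonneg (2 * z.re + z.im)
    have a7 := sq_nonneg z.im
    refine ⟨⟨?_, ?_⟩, ⟨?_, ?_⟩⟩ <;> simp only <;> linarith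
  · intro z _ w _ h
    simp only [Prod.mk.injEq] at h
    exact QuadraticAlgebra.ext h.1 h.2

theorem del_mul_del : del n * del n = -(n : OO n) := by
  have h := qbasic_four_int (n := n)
  refine QuadraticAlgebra.ext ?_ ?_
  · simp only [del, QuadraticAlgebra.re_mul, QuadraticAlgebra.re_neg, QuadraticAlgebra.re_natCast]
    linarith
  · simp [del]

omit [Good n] in
theorem qbasic_star_del : star (del n) = -del n := by
  refine QuadraticAlgebra.ext ?_ ?_ <;> simp [del]

theorem star_del : star (del n) = -del n := qbasic_star_del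

theorem norm_del : (del n).norm = n := by
  have h := four_mul_norm (del n)
  simp only [del] at h ⊢
  linarith

theorem rho_add (z w : OO n) : rho (z + w) = rho z + rho w := by
  simp only [rho, QuadraticAlgebra.re_add, QuadraticAlgebra.im_add, Int.cast_add]
  ring

theorem rho_neg (z : OO n) : rho (-z) = -rho z := by
  simp only [rho, QuadraticAlgebra.re_neg, QuadraticAlgebra.im_neg, Int.cast_neg]
  ring

theorem rho_sub (z w : OO n) : rho (z - w) = rho z - rho w := by
  simp only [rho, QuadraticAlgebra.re_sub, QuadraticAlgebra.im_sub, Int.cast_sub]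
  ring

theorem rho_mul (z w : OO n) : rho (z * w) = rho z * rho w := by
  have h := qbasic_four_zmod (n := n)
  simp only [rho, QuadraticAlgebra.re_mul, QuadraticAlgebra.im_mul, Int.cast_add, Int.cast_mul,
    Int.cast_neg, Int.cast_natCast, Int.cast_one]
  linear_combination (-(((n + 1) / 4 : ℕ) : ZMod n) * z.im * w.im) * h

theorem rho_intCast (k : ℤ) : rho (k : OO n) = k := by
  simp [rho]

theorem rho_natCast (k : ℕ) : rho (k : OO n) = k := by
  simp [rho]

theorem rho_star (z : OO n) : rho (star z) = rho z := by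
  have h := qbasic_four_zmod (n := n)
  simp only [rho, QuadraticAlgebra.re_star, QuadraticAlgebra.im_star, Int.cast_add, Int.cast_mul,
    Int.cast_neg, Int.cast_one]
  linear_combination (-(z.im : ZMod n)) * h

omit [Good n] in
theorem qbasic_mul_star (z : OO n) : z * star z = (z.norm : OO n) := by
  rw [← QuadraticAlgebra.algebraMap_norm_eq_mul_star]
  simp

theorem rho_sq (z : OO n) : rho z ^ 2 = (z.norm : ZMod n) := by
  rw [← rho_intCast, ← qbasic_mul_star, rho_mul, rho_star, sq]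

theorem rho_eq_zero_iff {z : OO n} : rho z = 0 ↔ del n ∣ z := by
  have h := qbasic_four_zmod (n := n)
  constructor
  · intro h0
    have h1 : ((2 * z.re + z.im : ℤ) : ZMod n) = 0 := by
      simp only [rho] at h0
      push_cast
      linear_combination 2 * h0 - (z.im : ZMod n) * h
    obtain ⟨c, hc⟩ := (ZMod.intCast_zmod_eq_zero_iff_dvd _ _).1 h1
    have h4 := qbasic_four_int (n := n)
    refine ⟨⟨-z.re + 2 * (((n + 1) / 4 : ℕ) : ℤ) * c, -c⟩, QuadraticAlgebra.ext ?_ ?_⟩
    · simp only [del, QuadraticAlgebra.re_mul]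
      ring
    · simp only [del, QuadraticAlgebra.im_mul]
      linear_combination hc - c * h4
  · rintro ⟨w, rfl⟩
    have h1 : rho (del n) = 0 := by
      simp only [rho, del]
      push_cast
      linear_combination h
    rw [rho_mul, h1, zero_mul]

theorem nm_mul (A B : Ideal (OO n)) : nm (A * B) = nm A * nm B := map_mul Ideal.absNorm A B

theorem nm_eq_zero {A : Ideal (OO n)} : nm A = 0 ↔ A = ⊥ := Ideal.absNorm_eq_zero_iff

omit [Good n] in
theorem qbasic_norm (z : OO n) : Algebra.norm ℤ z = z.norm := by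
  rw [← QuadraticAlgebra.det_toLinearMap_eq_norm, Algebra.norm_apply]
  rfl

theorem nm_span (z : OO n) : (nm (Ideal.span {z}) : ℤ) = z.norm := by
  rw [nm, Ideal.absNorm_span_singleton, qbasic_norm, Int.natAbs_of_nonneg (norm_nonneg' z)]

theorem nm_dvd_norm {A : Ideal (OO n)} {z : OO n} (h : z ∈ A) : (nm A : ℤ) ∣ z.norm := by
  rw [← qbasic_norm]
  exact Ideal.absNorm_dvd_norm_of_mem h

theorem mem_cj {A : Ideal (OO n)} {z : OO n} : z ∈ cj A ↔ star z ∈ A := by
  rw [cj, Ideal.mem_map_iff_of_surjective _ (fun w => ⟨star w, star_star w⟩)]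
  constructor
  · rintro ⟨w, hw, rfl⟩
    rwa [starRingEnd_apply, star_star]
  · exact fun h => ⟨star z, h, star_star z⟩

theorem cj_cj (A : Ideal (OO n)) : cj (cj A) = A := by
  ext z
  rw [mem_cj, mem_cj, star_star]

theorem cj_mul (A B : Ideal (OO n)) : cj (A * B) = cj A * cj B := Ideal.map_mul _ A B

theorem cj_span (z : OO n) : cj (Ideal.span {z}) = Ideal.span {star z} := by
  rw [cj, Ideal.map_span, Set.image_singleton]
  rfl

theorem nm_cj (A : Ideal (OO n)) : nm (cj A) = nm A := by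
  rw [nm, nm, Ideal.absNorm_apply, Ideal.absNorm_apply, Submodule.cardQuot_apply,
    Submodule.cardQuot_apply]
  exact (Nat.card_congr (Ideal.quotientEquiv A (cj A) starRingAut rfl).toEquiv).symm

theorem qbasic_dvd {m z t N : OO n} (h : z * z = m * (t * z) - m * (m * N)) :
    z ∈ Ideal.span {m} := by
  by_cases hI : (Ideal.span {m, z} : Ideal (OO n)) = 0
  · have : z ∈ (Ideal.span {m, z} : Ideal (OO n)) := Ideal.subset_span (by simp)
    rw [hI] at this
    rw [Ideal.mem_bot.1 this]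
    exact zero_mem _
  have h1 : (Ideal.span {m, z} : Ideal (OO n)) * Ideal.span {m, z} ≤
      Ideal.span {m} * Ideal.span {m, z} := by
    refine Ideal.mul_le.2 fun a ha b hb => ?_
    obtain ⟨u, v, rfl⟩ := Ideal.mem_span_pair.1 ha
    obtain ⟨u', v', rfl⟩ := Ideal.mem_span_pair.1 hb
    have : (u * m + v * z) * (u' * m + v' * z) =
        m * ((u * u' - v * v' * N) * m + (u * v' + v * u' + v * v' * t) * z) := by
      linear_combination v * v' * h
    rw [this]
    exact Ideal.mul_mem_mul (Ideal.mem_span_singleton_self m)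
      (Ideal.mem_span_pair.2 ⟨_, _, rfl⟩)
  rw [← Ideal.dvd_iff_le, mul_dvd_mul_iff_right hI, Ideal.dvd_iff_le] at h1
  exact h1 (Ideal.subset_span (by simp))

theorem mul_cj (A : Ideal (OO n)) : A * cj A = Ideal.span {(nm A : OO n)} := by
  obtain ⟨m, hm⟩ := (IsPrincipalIdealRing.principal
    ((A * cj A).comap (Int.castRingHom (OO n)))).principal
  have key : ∀ r : ℤ, (r : OO n) ∈ A * cj A ↔ m ∣ r := by
    intro r
    rw [← Ideal.mem_span_singleton, ← Ideal.submodule_span_eq, ← hm, Ideal.mem_comap]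
    rfl
  have h1 : A * cj A = Ideal.span {(m : OO n)} := by
    refine le_antisymm (Ideal.mul_le.2 fun x hx y hy => ?_)
      ((Ideal.span_singleton_le_iff_mem _).2 ((key m).2 dvd_rfl))
    have hx' : star x ∈ cj A := mem_cj.2 (by rwa [star_star])
    have hy' : star y ∈ A := mem_cj.1 hy
    obtain ⟨a, ha⟩ := (key x.norm).1 (by rw [← qbasic_mul_star]; exact Ideal.mul_mem_mul hx hx')
    obtain ⟨b, hb⟩ := (key y.norm).1 (by
      rw [← qbasic_mul_star, mul_comm y]; exact Ideal.mul_mem_mul hy' hy)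
    have ht : (((x * y).trace : ℤ) : OO n) = x * y + star y * star x := by
      rw [← star_mul, ← QuadraticAlgebra.algebraMap_trace_eq_add_star]
      simp
    obtain ⟨c, hc⟩ := (key (x * y).trace).1 (by
      rw [ht]; exact add_mem (Ideal.mul_mem_mul hx hy) (Ideal.mul_mem_mul hy' hx'))
    refine qbasic_dvd (t := (c : OO n)) (N := (a : OO n) * b) ?_
    have e1 := qbasic_mul_star x
    have e2 := qbasic_mul_star y
    rw [ha] at e1
    rw [hb] at e2
    rw [hc] at ht
    push_cast at e1 e2 ht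
    linear_combination (-(x * y)) * ht - (y * star y) * e1 - (m * a : OO n) * e2
  have h2 := nm_span (m : OO n)
  rw [← h1, nm_mul, nm_cj, QuadraticAlgebra.norm_intCast] at h2
  push_cast at h2
  rw [h1]
  rcases sq_eq_sq_iff_eq_or_eq_neg.1 (show m ^ 2 = (nm A : ℤ) ^ 2 by rw [← h2, sq]) with h | h
  · rw [h]; simp
  · rw [h]; simp [Ideal.span_singleton_neg]

theorem qbasic_cls {A : Ideal (OO n)} (hA : A ≠ ⊥) :
    cls A = ClassGroup.mk0 ⟨A, mem_nonZeroDivisors_of_ne_zero hA⟩ := by
  rw [cls, dif_pos]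

theorem cls_mul {A B : Ideal (OO n)} (hA : A ≠ ⊥) (hB : B ≠ ⊥) :
    cls (A * B) = cls A * cls B := by
  rw [qbasic_cls hA, qbasic_cls hB, qbasic_cls (mul_ne_zero hA hB), ← map_mul]
  rfl

theorem cls_eq_one_iff {A : Ideal (OO n)} (hA : A ≠ ⊥) :
    cls A = 1 ↔ ∃ z : OO n, A = Ideal.span {z} := by
  rw [qbasic_cls hA, ClassGroup.mk0_eq_one_iff]
  exact ⟨fun h => h.principal, fun h => ⟨h⟩⟩

theorem cls_cj (A : Ideal (OO n)) : cls (cj A) = (cls A)⁻¹ := by
  by_cases hA : A = ⊥
  · have h1 : cls (⊥ : Ideal (OO n)) = 1 := by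
      rw [cls, dif_neg]
      exact zero_notMem_nonZeroDivisors
    rw [hA, cj, Ideal.map_bot, h1, inv_one]
  · have hc : cj A ≠ ⊥ := by
      rw [Ne, ← nm_eq_zero, nm_cj, nm_eq_zero]; exact hA
    refine eq_inv_of_mul_eq_one_right ?_
    rw [← cls_mul hA hc, cls_eq_one_iff (mul_ne_zero hA hc)]
    exact ⟨_, mul_cj A⟩

theorem exists_cls_coprime (c : ClassGroup (OO n)) {M : ℕ} (hM : M ≠ 0) :
    ∃ A : Ideal (OO n), A ≠ ⊥ ∧ cls A = c ∧ (nm A).Coprime M := by
  obtain ⟨⟨C, hC⟩, hc⟩ := ClassGroup.mk0_surjective c⁻¹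
  have hC0 : C ≠ ⊥ := nonZeroDivisors.ne_zero hC
  have hM' : (Ideal.span {((2 * M : ℕ) : OO n)} : Ideal (OO n)) ≠ ⊥ := by
    rw [Ne, Ideal.span_singleton_eq_bot]
    exact Nat.cast_ne_zero.2 (by omega)
  obtain ⟨a, ha⟩ := IsDedekindDomain.exists_sup_span_eq
    (I := C * Ideal.span {((2 * M : ℕ) : OO n)}) (J := C) Ideal.mul_le_left (mul_ne_zero hC0 hM')
  obtain ⟨A, hA⟩ : C ∣ Ideal.span {a} := Ideal.dvd_iff_le.2 (ha ▸ le_sup_right)
  have htop : Ideal.span {((2 * M : ℕ) : OO n)} ⊔ A = ⊤ := by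
    refine mul_left_cancel₀ hC0 ?_
    rw [Ideal.mul_sup, ← hA, ha, Ideal.mul_top]
  obtain ⟨x, hx, y, hy, hxy⟩ := Submodule.mem_sup.1 ((Ideal.eq_top_iff_one _).1 htop)
  obtain ⟨u, rfl⟩ := Ideal.mem_span_singleton'.1 hx
  have hN : y.norm = 1 + 2 * M * (2 * M * u.norm - u.trace) := by
    rw [show y = 1 - u * ((2 * M : ℕ) : OO n) by rw [← hxy]; ring]
    simp [QuadraticAlgebra.norm_def, QuadraticAlgebra.trace_def]
    ring
  obtain ⟨d, hd⟩ := nm_dvd_norm hy
  have hA0 : A ≠ ⊥ := by
    rintro rfl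
    rw [Ideal.mem_bot.1 hy, QuadraticAlgebra.norm_zero, mul_assoc] at hN
    omega
  refine ⟨A, hA0, ?_, ?_⟩
  · have h1 : cls C * cls A = 1 := by
      rw [← cls_mul hC0 hA0, cls_eq_one_iff (mul_ne_zero hC0 hA0)]
      exact ⟨a, hA.symm⟩
    rw [qbasic_cls hC0, hc] at h1
    exact (inv_mul_eq_one.1 h1).symm
  · rw [← Nat.isCoprime_iff_coprime]
    exact ⟨d, -(2 * (2 * M * u.norm - u.trace)), by linear_combination hN - hd⟩

theorem qbasic_rep (c : ClassGroup (OO n)) : cls (rep c) = c ∧ (nm (rep c)).Coprime n := by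
  obtain ⟨A, -, h⟩ := exists_cls_coprime c (M := n) (by have := Good.gt (n := n); omega)
  exact Classical.epsilon_spec (p := fun A => cls A = c ∧ (nm A).Coprime n) ⟨A, h⟩

theorem cls_rep (c : ClassGroup (OO n)) : cls (rep c) = c := (qbasic_rep c).1

theorem rep_coprime (c : ClassGroup (OO n)) : (nm (rep c)).Coprime n := (qbasic_rep c).2

theorem ne_bot_of_coprime {A : Ideal (OO n)} (h : (nm A).Coprime n) : A ≠ ⊥ := by
  intro h0
  rw [nm_eq_zero.2 h0, Nat.coprime_zero_left] at h
  have := Good.gt (n := n)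
  omega

theorem finite_nm_eq {k : ℕ} (hk : 0 < k) : {A : Ideal (OO n) | nm A = k}.Finite := by
  have _ := hk
  exact Ideal.finite_setOfPred_absNorm_eq k

/-- the elements of an ideal `B` of norm `k * nm B` correspond, two to one, to the ideals of
norm `k` in the inverse class -/
theorem ncard_norm_eq {B : Ideal (OO n)} (hB : B ≠ ⊥) {k : ℕ} (hk : 0 < k) :
    {z : OO n | z ∈ B ∧ z.norm = k * nm B}.ncard =
      2 * {A : Ideal (OO n) | nm A = k ∧ cls A * cls B = 1}.ncard := by
  have hnB : nm B ≠ 0 := fun h => hB (nm_eq_zero.1 h)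
  set T := {A : Ideal (OO n) | nm A = k ∧ cls A * cls B = 1} with hT
  have hfin : T.Finite := (finite_nm_eq hk).subset fun A hA => hA.1
  have hne : ∀ A ∈ T, A ≠ ⊥ := fun A hA h => by
    have := hA.1
    rw [nm_eq_zero.2 h] at this
    omega
  have hex : ∀ A ∈ T, ∃ z : OO n, A * B = Ideal.span {z} := fun A hA => by
    rw [← cls_eq_one_iff (mul_ne_zero (hne A hA) hB), cls_mul (hne A hA) hB]
    exact hA.2
  choose! g hg using hex
  have hgB : ∀ A ∈ T, g A ∈ B := fun A hA =>
    Ideal.mul_le_right (I := A) (hg A hA ▸ Ideal.mem_span_singleton_self _)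
  have hgN : ∀ A ∈ T, (g A).norm = k * nm B := fun A hA => by
    rw [← nm_span, ← hg A hA, nm_mul, hA.1]
    push_cast
    rfl
  have hinj : Set.InjOn g T := fun A hA A' hA' h =>
    mul_right_cancel₀ hB (by rw [hg A hA, hg A' hA', h])
  have hinj' : Set.InjOn (fun A => -g A) T := fun A hA A' hA' h => hinj hA hA' (neg_injective h)
  have hS : {z : OO n | z ∈ B ∧ z.norm = k * nm B} = g '' T ∪ (fun A => -g A) '' T := by
    ext z
    constructor
    · rintro ⟨hz, hN⟩
      obtain ⟨A, hA⟩ : B ∣ Ideal.span {z} :=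
        Ideal.dvd_iff_le.2 ((Ideal.span_singleton_le_iff_mem _).2 hz)
      have h1 : nm A = k := by
        have h2 := nm_span z
        rw [hA, nm_mul, hN] at h2
        have h3 : nm B * nm A = nm B * k := by
          rw [mul_comm (nm B) k]; exact_mod_cast h2
        exact Nat.eq_of_mul_eq_mul_left (Nat.pos_of_ne_zero hnB) h3
      have hA0 : A ≠ ⊥ := fun h => by
        rw [nm_eq_zero.2 h] at h1
        omega
      have hAT : A ∈ T := ⟨h1, by
        rw [← cls_mul hA0 hB, cls_eq_one_iff (mul_ne_zero hA0 hB)]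
        exact ⟨z, by rw [hA, mul_comm]⟩⟩
      have h4 : Ideal.span {g A} = Ideal.span {z} := by rw [← hg A hAT, hA, mul_comm]
      obtain ⟨u, hu⟩ := Ideal.span_singleton_eq_span_singleton.1 h4
      have h5 : (u : OO n).norm = 1 := by
        have h6 := congrArg QuadraticAlgebra.norm hu
        rw [map_mul, hN, hgN A hAT] at h6
        have h7 : (k : ℤ) * nm B ≠ 0 := by positivity
        exact mul_left_cancel₀ h7 (by rw [h6, mul_one])
      rcases eq_of_norm_one h5 with h | h
      · exact Or.inl ⟨A, hAT, by rw [← hu, h, mul_one]⟩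
      · exact Or.inr ⟨A, hAT, by rw [← hu, h]; simp⟩
    · rintro (⟨A, hA, rfl⟩ | ⟨A, hA, rfl⟩)
      · exact ⟨hgB A hA, hgN A hA⟩
      · exact ⟨neg_mem (hgB A hA), by rw [QuadraticAlgebra.norm_neg, hgN A hA]⟩
  have hdisj : Disjoint (g '' T) ((fun A => -g A) '' T) := by
    rw [Set.disjoint_left]
    rintro _ ⟨A, hA, rfl⟩ ⟨A', hA', h⟩
    have h1 : A' = A := mul_right_cancel₀ hB (by
      rw [hg A hA, hg A' hA', ← h, Ideal.span_singleton_neg])
    subst h1
    have h2 : g A' = 0 := by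
      have h3 : (2 : OO n) * g A' = 0 := by linear_combination -h
      exact (mul_eq_zero.1 h3).resolve_left two_ne_zero
    have h4 := hgN A' hA
    rw [h2, QuadraticAlgebra.norm_zero] at h4
    have h7 : (k : ℤ) * nm B ≠ 0 := by positivity
    exact h7 h4.symm
  rw [hS, Set.ncard_union_eq hdisj (hfin.image _) (hfin.image _), hinj.ncard_image,
    hinj'.ncard_image, two_mul]

end Pool.Agent.P.MP_8b7eba_nt.BSD15
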