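import Pool.Agent.P.MP_8b7eba_nt.BSD15.QBasic

/-! Counting ideals of given norm. -/

namespace Pool.Agent.P.MP_8b7eba_nt.BSD15

variable {n : ℕ} [Good n]

/-- reduction attached to a root of the minimal polynomial modulo `m` -/
def qcount_phi (n : ℕ) {m : ℕ} (t : ZMod m) (ht : t * t = t - (((n + 1) / 4 : ℕ) : ZMod m)) :
    OO n →+* ZMod m where
  toFun z := (z.re : ZMod m) + (z.im : ZMod m) * t
  map_one' := by
    rw [QuadraticAlgebra.re_one, QuadraticAlgebra.im_one]; simp
  map_zero' := by simp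
  map_add' z w := by simp; ring
  map_mul' z w := by
    simp only [QuadraticAlgebra.re_mul, QuadraticAlgebra.im_mul, Int.cast_add, Int.cast_mul,
      Int.cast_neg, Int.cast_natCast, Int.cast_one]
    linear_combination (-(z.im : ZMod m) * (w.im : ZMod m)) * ht

omit [Good n] in
theorem qcount_mem_ker {m : ℕ} {t : ZMod m} (ht : t * t = t - (((n + 1) / 4 : ℕ) : ZMod m))
    (z : OO n) :
    z ∈ RingHom.ker (qcount_phi n t ht) ↔ (z.re : ZMod m) + (z.im : ZMod m) * t = 0 :=
  RingHom.mem_ker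

theorem qcount_nm_ker {m : ℕ} {t : ZMod m} (ht : t * t = t - (((n + 1) / 4 : ℕ) : ZMod m)) :
    nm (RingHom.ker (qcount_phi n t ht)) = m := by
  have hs : Function.Surjective (qcount_phi n t ht) := ZMod.ringHom_surjective _
  rw [nm, Ideal.absNorm_apply, Submodule.cardQuot_apply,
    Nat.card_congr (RingHom.quotientKerEquivOfSurjective hs).toEquiv, Nat.card_zmod]

theorem qcount_four_k : 4 * (((n + 1) / 4 : ℕ) : ℤ) = n + 1 := by
  have := Good.h4 (n := n)
  omega

theorem qcount_four_k' (m : ℕ) : 4 * (((n + 1) / 4 : ℕ) : ZMod m) = n + 1 := by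
  have := congrArg (Int.cast : ℤ → ZMod m) (qcount_four_k (n := n))
  simpa only [Int.cast_mul, Int.cast_ofNat, Int.cast_natCast, Int.cast_add, Int.cast_one] using this

theorem qcount_odd : Odd n := by
  have := Good.h4 (n := n)
  exact Nat.odd_iff.2 (by omega)

/-- the ramified ideal of norm `d` -/
theorem exists_ramified {d : ℕ} (hd : d ∣ n) :
    ∃ D : Ideal (OO n), nm D = d ∧ cj D = D ∧ ∀ z ∈ D, (d : ℤ) ∣ 2 * z.re + z.im := by
  have h0 : (n : ZMod d) = 0 := (ZMod.natCast_eq_zero_iff _ _).2 hd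
  have h4 := qcount_four_k' (n := n) d
  rw [h0, zero_add] at h4
  set k : ZMod d := (((n + 1) / 4 : ℕ) : ZMod d) with hk
  have ht : (2 * k) * (2 * k) = 2 * k - k := by linear_combination k * h4
  refine ⟨RingHom.ker (qcount_phi n (2 * k) ht), qcount_nm_ker ht, ?_, fun z hz => ?_⟩
  · ext z
    rw [mem_cj, qcount_mem_ker, qcount_mem_ker]
    simp only [QuadraticAlgebra.re_star, QuadraticAlgebra.im_star]
    push_cast
    constructor
    · intro h; linear_combination h + (z.im : ZMod d) * h4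
    · intro h; linear_combination h - (z.im : ZMod d) * h4
  · rw [qcount_mem_ker] at hz
    rw [← ZMod.intCast_zmod_eq_zero_iff_dvd]
    push_cast
    linear_combination 2 * hz - (z.im : ZMod d) * h4

theorem qcount_recip {p : ℕ} (hp : Odd p) : jacobiSym p n = jacobiSym (-(n : ℤ)) p := by
  rw [jacobiSym.neg _ hp]
  have h4 := Good.h4 (n := n)
  rcases Nat.odd_mod_four_iff.1 (Nat.odd_iff.1 hp) with h | h
  · rw [jacobiSym.quadratic_reciprocity_one_mod_four h qcount_odd, ZMod.χ₄_nat_one_mod_four h,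
      one_mul]
  · rw [jacobiSym.quadratic_reciprocity_three_mod_four h h4, ZMod.χ₄_nat_three_mod_four h]
    ring

theorem qcount_two : (n % 8 = 3 ∧ jacobiSym 2 n = -1) ∨ (n % 8 = 7 ∧ jacobiSym 2 n = 1) := by
  have h4 := Good.h4 (n := n)
  rw [jacobiSym.at_two qcount_odd, ZMod.χ₈_nat_eq_if_mod_eight]
  have : n % 8 = 3 ∨ n % 8 = 7 := by omega
  rcases this with h | h
  · left; refine ⟨h, ?_⟩; rw [if_neg (by omega), if_neg (by omega)]
  · right; refine ⟨h, ?_⟩; rw [if_neg (by omega), if_pos (by omega)]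

theorem qcount_root_of_one {p : ℕ} (hp : p.Prime) (h : jacobiSym p n = 1) :
    ∃ t : ZMod p, t * t = t - (((n + 1) / 4 : ℕ) : ZMod p) ∧ 2 * t ≠ 1 := by
  have := Fact.mk hp
  rcases hp.eq_two_or_odd' with rfl | ho
  · rcases qcount_two (n := n) with ⟨-, h2⟩ | ⟨h8, -⟩
    · simp only [Nat.cast_ofNat] at h
      rw [h] at h2; norm_num at h2
    · refine ⟨0, ?_, by simp⟩
      have : (((n + 1) / 4 : ℕ) : ZMod 2) = 0 := (ZMod.natCast_eq_zero_iff _ _).2 (by omega)
      rw [this]; simp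
  · rw [qcount_recip ho, ← jacobiSym.legendreSym.to_jacobiSym] at h
    have hne : ((-(n : ℤ) : ℤ) : ZMod p) ≠ 0 := by
      intro h0
      rw [(legendreSym.eq_zero_iff p _).2 h0] at h
      norm_num at h
    obtain ⟨s, hs⟩ := (legendreSym.eq_one_iff p hne).1 h
    have h2 : (2 : ZMod p) ≠ 0 := by
      intro h0
      have : p ∣ 2 := (ZMod.natCast_eq_zero_iff 2 p).1 (by exact_mod_cast h0)
      have := (Nat.prime_dvd_prime_iff_eq hp Nat.prime_two).1 this
      subst this
      exact absurd ho (by decide)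
    have h4 := qcount_four_k' (n := n) p
    push_cast at hs hne
    refine ⟨(1 + s) / 2, ?_, ?_⟩
    · field_simp
      linear_combination h4 - hs
    · intro h0
      have : s = 0 := by
        field_simp at h0
        linear_combination h0
      apply hne
      rw [hs, this, mul_zero]

theorem qcount_zmod_two : ∀ t : ZMod 2, t * t ≠ t - 1 := by decide

theorem qcount_no_root {p : ℕ} (hp : p.Prime) (h : jacobiSym p n = -1) (t : ZMod p) :
    t * t ≠ t - (((n + 1) / 4 : ℕ) : ZMod p) := by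
  have := Fact.mk hp
  intro ht
  rcases hp.eq_two_or_odd' with rfl | ho
  · rcases qcount_two (n := n) with ⟨h8, -⟩ | ⟨-, h2⟩
    · have : (((n + 1) / 4 : ℕ) : ZMod 2) = 1 := by
        rw [← ZMod.natCast_mod, show (n + 1) / 4 % 2 = 1 by omega]; rfl
      rw [this] at ht
      exact qcount_zmod_two t ht
    · simp only [Nat.cast_ofNat] at h
      rw [h] at h2; norm_num at h2
  · rw [qcount_recip ho, ← jacobiSym.legendreSym.to_jacobiSym] at h
    refine (legendreSym.eq_neg_one_iff p).1 h ⟨2 * t - 1, ?_⟩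
    have h4 := qcount_four_k' (n := n) p
    push_cast
    linear_combination h4 - 4 * ht

theorem qcount_nm_nat (a : ℕ) : nm (Ideal.span {(a : OO n)}) = a ^ 2 := by
  have := nm_span (n := n) (a : OO n)
  rw [QuadraticAlgebra.norm_natCast] at this
  exact_mod_cast this

theorem qcount_cj_nat (a : ℕ) : cj (Ideal.span {(a : OO n)}) = Ideal.span {(a : OO n)} := by
  rw [cj_span, star_natCast]

theorem qcount_inert {p : ℕ} (hp : p.Prime) (h : jacobiSym p n = -1) :
    (Ideal.span {(p : OO n)}).IsPrime := by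
  have := Fact.mk hp
  have key : ∀ z : OO n, (p : ℤ) ∣ z.norm → z ∈ Ideal.span {(p : OO n)} := by
    intro z hz
    rw [← ZMod.intCast_zmod_eq_zero_iff_dvd, QuadraticAlgebra.norm_def] at hz
    simp only [Int.cast_add, Int.cast_mul, Int.cast_neg, Int.cast_natCast, Int.cast_one,
      Int.cast_sub] at hz
    have hy : (z.im : ZMod p) = 0 := by
      by_contra hy
      refine qcount_no_root hp h (-(z.re : ZMod p) / (z.im : ZMod p)) ?_
      field_simp
      linear_combination hz
    have hx : (z.re : ZMod p) = 0 := by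
      rw [hy] at hz
      simpa using hz
    obtain ⟨a, ha⟩ := (ZMod.intCast_zmod_eq_zero_iff_dvd _ _).1 hx
    obtain ⟨b, hb⟩ := (ZMod.intCast_zmod_eq_zero_iff_dvd _ _).1 hy
    refine Ideal.mem_span_singleton.2 ⟨⟨a, b⟩, ?_⟩
    ext <;> simp [ha, hb]
  refine ⟨fun htop => ?_, fun {z w} hzw => ?_⟩
  · have := qcount_nm_nat (n := n) p
    rw [htop, nm, Ideal.absNorm_top] at this
    have h2 := hp.two_le
    nlinarith
  · have h1 := nm_dvd_norm hzw
    rw [qcount_nm_nat, map_mul] at h1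
    have h2 : (p : ℤ) ∣ z.norm * w.norm := (by push_cast; exact dvd_pow_self _ two_ne_zero :
      (p : ℤ) ∣ ((p ^ 2 : ℕ) : ℤ)).trans h1
    exact ((Nat.prime_iff_prime_int.1 hp).dvd_or_dvd h2).imp (key z) (key w)

theorem qcount_cj_dvd {A B : Ideal (OO n)} (h : A ∣ B) : cj A ∣ cj B := by
  obtain ⟨C, rfl⟩ := h
  exact ⟨cj C, cj_mul _ _⟩

theorem qcount_dvd_or {p : ℕ} {P A : Ideal (OO n)} (hP : Prime P)
    (hPp : P ∣ Ideal.span {(p : OO n)}) (hA : p ∣ nm A) : P ∣ A ∨ cj P ∣ A := by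
  have h1 : P ∣ A * cj A := by
    rw [mul_cj]
    refine hPp.trans (Ideal.dvd_iff_le.2 (Ideal.span_singleton_le_span_singleton.2 ?_))
    exact Nat.cast_dvd_cast hA
  refine (hP.dvd_or_dvd h1).imp id fun h => ?_
  have := qcount_cj_dvd h
  rwa [cj_cj] at this

theorem qcount_div {P : Ideal (OO n)} (hP : nm P ≠ 0) (m : ℕ) :
    {A : Ideal (OO n) | nm A = m ∧ P ∣ A}.ncard =
      if nm P ∣ m then {A : Ideal (OO n) | nm A = m / nm P}.ncard else 0 := by
  have hP0 : P ≠ 0 := fun h => hP (nm_eq_zero.2 h)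
  split_ifs with h
  · rw [← Set.ncard_image_of_injective {A : Ideal (OO n) | nm A = m / nm P}
      (mul_right_injective₀ hP0)]
    congr 1
    ext A
    constructor
    · rintro ⟨h1, B, rfl⟩
      refine ⟨B, ?_, rfl⟩
      rw [nm_mul] at h1
      change nm B = _
      rw [← h1, Nat.mul_div_cancel_left _ (Nat.pos_of_ne_zero hP)]
    · rintro ⟨B, hB, rfl⟩
      refine ⟨?_, dvd_mul_right _ _⟩
      have hB : nm B = m / nm P := hB
      change nm (P * B) = m
      rw [nm_mul, hB, Nat.mul_div_cancel' h]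
  · rw [← Set.ncard_empty (Ideal (OO n))]
    congr 1
    refine Set.eq_empty_of_forall_notMem ?_
    rintro A ⟨h1, B, rfl⟩
    exact h ⟨nm B, by rw [← h1, nm_mul]⟩

omit [Good n] in
theorem qcount_sum_dvd {p : ℕ} (hp : p.Prime) {m : ℕ} (hm : m ≠ 0) :
    ∑ d ∈ m.divisors with p ∣ d, jacobiSym d n =
      jacobiSym p n * if p ∣ m then Rn n (m / p) else 0 := by
  split_ifs with h
  · obtain ⟨c, rfl⟩ := h
    rw [Nat.mul_div_cancel_left _ hp.pos, Rn, Finset.mul_sum]
    symm
    refine Finset.sum_bij (fun d _ => p * d) ?_ ?_ ?_ ?_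
    · intro d hd
      simp only [Finset.mem_filter, Nat.mem_divisors] at hd ⊢
      exact ⟨⟨Nat.mul_dvd_mul_left _ hd.1, hm⟩, dvd_mul_right _ _⟩
    · intro a _ b _ e
      exact Nat.eq_of_mul_eq_mul_left hp.pos e
    · intro d hd
      simp only [Finset.mem_filter, Nat.mem_divisors] at hd
      obtain ⟨⟨h1, -⟩, e, rfl⟩ := hd
      refine ⟨e, Nat.mem_divisors.2 ⟨Nat.dvd_of_mul_dvd_mul_left hp.pos h1, ?_⟩, rfl⟩
      rintro rfl
      simp at hm
    · intro d _
      rw [Nat.cast_mul, jacobiSym.mul_left]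
  · rw [mul_zero]
    refine Finset.sum_eq_zero fun d hd => ?_
    simp only [Finset.mem_filter, Nat.mem_divisors] at hd
    exact absurd (hd.2.trans hd.1.1) h

omit [Good n] in
theorem qcount_Rn_rec {p : ℕ} (hp : p.Prime) {m : ℕ} (hm : m ≠ 0) :
    Rn n (p * m) = (1 + jacobiSym p n) * Rn n m -
      jacobiSym p n * if p ∣ m then Rn n (m / p) else 0 := by
  have hpm : p * m ≠ 0 := mul_ne_zero hp.ne_zero hm
  have h1 := qcount_sum_dvd (n := n) hp hpm
  rw [if_pos (dvd_mul_right _ _), Nat.mul_div_cancel_left _ hp.pos] at h1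
  have h2 := qcount_sum_dvd (n := n) hp hm
  have h3 := Finset.sum_filter_add_sum_filter_not (p * m).divisors (fun d => p ∣ d)
    fun d => jacobiSym d n
  have h4 := Finset.sum_filter_add_sum_filter_not m.divisors (fun d => p ∣ d)
    fun d => jacobiSym d n
  have h5 : ((p * m).divisors.filter fun d => ¬p ∣ d) = m.divisors.filter fun d => ¬p ∣ d := by
    ext d
    simp only [Finset.mem_filter, Nat.mem_divisors]
    constructor
    · rintro ⟨⟨h, -⟩, h'⟩
      exact ⟨⟨((Nat.Prime.coprime_iff_not_dvd hp).2 h').symm.dvd_of_dvd_mul_left h, hm⟩, h'⟩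
    · rintro ⟨⟨h, -⟩, h'⟩
      exact ⟨⟨h.mul_left _, hpm⟩, h'⟩
  rw [h5, h1] at h3
  rw [h2] at h4
  have e1 : Rn n (p * m) = ∑ d ∈ (p * m).divisors, jacobiSym d n := rfl
  have e2 : Rn n m = ∑ d ∈ m.divisors, jacobiSym d n := rfl
  rw [← e1] at h3
  rw [← e2] at h4
  linear_combination h4 - h3

theorem qcount_prime_of_nm {p : ℕ} (hp : p.Prime) {P : Ideal (OO n)} (h : nm P = p) : Prime P := by
  have hirr : Irreducible (Ideal.absNorm P) := by
    change Irreducible (nm P)
    rw [h]; exact hp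
  exact UniqueFactorizationMonoid.irreducible_iff_prime.1
    (Ideal.irreducible_of_irreducible_absNorm hirr)

theorem qcount_split {p : ℕ} (hp : p.Prime) (h : jacobiSym p n = 1) :
    ∃ P : Ideal (OO n), nm P = p ∧ cj P ≠ P := by
  obtain ⟨t, ht, h2⟩ := qcount_root_of_one hp h
  refine ⟨RingHom.ker (qcount_phi n t ht), qcount_nm_ker ht, fun e => h2 ?_⟩
  obtain ⟨a, rfl⟩ := ZMod.intCast_surjective t
  have h1 : (⟨-a, 1⟩ : OO n) ∈ RingHom.ker (qcount_phi n (a : ZMod p) ht) := by
    rw [qcount_mem_ker]; simp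
  rw [← e, mem_cj, qcount_mem_ker] at h1
  simp only [QuadraticAlgebra.re_star, QuadraticAlgebra.im_star] at h1
  push_cast at h1
  linear_combination -h1

theorem qcount_rec {p : ℕ} (hp : p.Prime) {m : ℕ} (hm : m ≠ 0) :
    (({A : Ideal (OO n) | nm A = p * m}.ncard : ℕ) : ℤ) =
      (1 + jacobiSym p n) * ({A : Ideal (OO n) | nm A = m}.ncard : ℕ) -
      jacobiSym p n * if p ∣ m then (({A : Ideal (OO n) | nm A = m / p}.ncard : ℕ) : ℤ) else 0 := by
  have hpm : 0 < p * m := Nat.pos_of_ne_zero (mul_ne_zero hp.ne_zero hm)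
  have hpp : {A : Ideal (OO n) | nm A = p * m ∧ Ideal.span {(p : OO n)} ∣ A}.ncard =
      if p ∣ m then {A : Ideal (OO n) | nm A = m / p}.ncard else 0 := by
    rw [qcount_div (by rw [qcount_nm_nat]; exact pow_ne_zero _ hp.ne_zero), qcount_nm_nat, sq]
    rw [Nat.mul_div_mul_left _ _ hp.pos]
    simp only [Nat.mul_dvd_mul_iff_left hp.pos]
  have hP1 : ∀ P : Ideal (OO n), nm P = p →
      {A : Ideal (OO n) | nm A = p * m ∧ P ∣ A}.ncard = {A : Ideal (OO n) | nm A = m}.ncard := by
    intro P hP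
    rw [qcount_div (by rw [hP]; exact hp.ne_zero), hP, if_pos (dvd_mul_right _ _),
      Nat.mul_div_cancel_left _ hp.pos]
  have hdvd : ∀ P : Ideal (OO n), nm P = p → P ∣ Ideal.span {(p : OO n)} := fun P hP =>
    ⟨cj P, by rw [mul_cj, hP]⟩
  rcases jacobiSym.trichotomy p n with h | h | h
  · have hpn : p ∣ n := by
      rw [jacobiSym.eq_zero_iff, Int.gcd_natCast_natCast] at h
      by_contra hc
      exact h.2 ((Nat.Prime.coprime_iff_not_dvd hp).2 hc)
    obtain ⟨P, hP, hc, -⟩ := exists_ramified hpn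
    rw [h, add_zero, one_mul, zero_mul, sub_zero, ← hP1 P hP]
    congr 2
    ext A
    refine ⟨fun hA => ⟨hA, ?_⟩, fun hA => hA.1⟩
    have := qcount_dvd_or (qcount_prime_of_nm hp hP) (hdvd P hP)
      (A := A) ⟨m, hA⟩
    rwa [hc, or_self] at this
  · obtain ⟨P, hP, hc⟩ := qcount_split hp h
    have hP' : nm (cj P) = p := by rw [nm_cj, hP]
    have hu : {A : Ideal (OO n) | nm A = p * m} =
        {A : Ideal (OO n) | nm A = p * m ∧ P ∣ A} ∪ {A | nm A = p * m ∧ cj P ∣ A} := by
      ext A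
      refine ⟨fun hA => ?_, fun hA => hA.elim And.left And.left⟩
      exact (qcount_dvd_or (qcount_prime_of_nm hp hP) (hdvd P hP) (A := A) ⟨m, hA⟩).imp
        (fun h => ⟨hA, h⟩) fun h => ⟨hA, h⟩
    have hi : {A : Ideal (OO n) | nm A = p * m ∧ P ∣ A} ∩ {A | nm A = p * m ∧ cj P ∣ A} =
        {A : Ideal (OO n) | nm A = p * m ∧ Ideal.span {(p : OO n)} ∣ A} := by
      ext A
      constructor
      · rintro ⟨⟨h1, B, rfl⟩, -, h2⟩
        refine ⟨h1, ?_⟩
        rcases (qcount_prime_of_nm hp hP').dvd_or_dvd h2 with h3 | ⟨C, rfl⟩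
        · exact absurd (associated_iff_eq.1 (((qcount_prime_of_nm hp hP').dvd_prime_iff_associated
            (qcount_prime_of_nm hp hP)).1 h3)) hc
        · exact ⟨C, by rw [← mul_assoc, mul_cj, hP]⟩
      · rintro ⟨h1, h2⟩
        exact ⟨⟨h1, (hdvd P hP).trans h2⟩, h1, (hdvd _ hP').trans h2⟩
    have hf := finite_nm_eq (n := n) hpm
    have := Set.ncard_union_add_ncard_inter {A : Ideal (OO n) | nm A = p * m ∧ P ∣ A}
      {A | nm A = p * m ∧ cj P ∣ A} (hf.subset fun _ h => h.1) (hf.subset fun _ h => h.1)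
    rw [← hu, hi, hpp, hP1 P hP, hP1 _ hP'] at this
    have := congrArg (Nat.cast : ℕ → ℤ) this
    push_cast at this
    rw [h]
    linear_combination this
  · have hpr : Prime (Ideal.span {(p : OO n)}) := by
      refine Ideal.prime_of_isPrime ?_ (qcount_inert hp h)
      intro h0
      have := qcount_nm_nat (n := n) p
      rw [nm_eq_zero.2 h0] at this
      exact pow_ne_zero _ hp.ne_zero this.symm
    have hu : {A : Ideal (OO n) | nm A = p * m} =
        {A : Ideal (OO n) | nm A = p * m ∧ Ideal.span {(p : OO n)} ∣ A} := by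
      ext A
      refine ⟨fun hA => ⟨hA, ?_⟩, fun hA => hA.1⟩
      have := qcount_dvd_or hpr dvd_rfl (A := A) ⟨m, hA⟩
      rwa [qcount_cj_nat, or_self] at this
    rw [hu, hpp, h]
    push_cast
    ring

theorem ncard_nm_eq {k : ℕ} (hk : 0 < k) :
    (({A : Ideal (OO n) | nm A = k}.ncard : ℕ) : ℤ) = Rn n k := by
  induction k using Nat.strong_induction_on with
  | _ k ih =>
    rcases Nat.eq_or_lt_of_le hk with h1 | h1
    · obtain rfl : k = 1 := h1.symm
      have : {A : Ideal (OO n) | nm A = 1} = {⊤} := by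
        ext A; exact Ideal.absNorm_eq_one_iff
      rw [this]
      simp [Rn]
    · obtain ⟨p, hp, m, rfl⟩ := Nat.exists_prime_and_dvd (n := k) (by omega)
      have hm : m ≠ 0 := by rintro rfl; simp at hk
      have hm' := Nat.pos_of_ne_zero hm
      have hlt : m < p * m := by have := hp.two_le; nlinarith
      rw [qcount_rec hp hm, qcount_Rn_rec hp hm, ih m hlt hm']
      split_ifs with h
      · rw [ih (m / p) ((Nat.div_le_self _ _).trans_lt hlt) (Nat.div_pos (Nat.le_of_dvd hm' h) hp.pos)]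
      · rfl

theorem exists_aux (h : jacobiSym (-15) n = 1) :
    ∃ F : Ideal (OO n), ((nm F : ℕ) : ZMod n) = -15 := by
  have hn : n ≠ 0 := by have := Good.gt (n := n); omega
  have hc : IsCoprime (-15 : ℤ) n := by
    rw [Int.isCoprime_iff_gcd_eq_one]
    by_contra hc
    rw [jacobiSym.eq_zero_iff.2 ⟨hn, hc⟩] at h
    norm_num at h
  obtain ⟨p, -, hp, he⟩ := Nat.forall_exists_prime_gt_and_zmodEq 0 hn hc
  obtain ⟨P, hP, -⟩ := qcount_split (n := n) hp (by rw [jacobiSym.mod_left' he, h])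
  refine ⟨P, ?_⟩
  rw [hP]
  have := (ZMod.intCast_eq_intCast_iff _ _ _).2 he
  exact_mod_cast this

end Pool.Agent.P.MP_8b7eba_nt.BSD15
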