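import Pool.Agent.P.MP_8b7eba_nt.BSD15.QRing

/-! Definitions on the imaginary quadratic side. -/

namespace Pool.Agent.P.MP_8b7eba_nt.BSD15

open scoped nonZeroDivisors

noncomputable instance instFintypeClassGroupOO (n : ℕ) [Good n] : Fintype (ClassGroup (OO n)) :=
  Fintype.ofFinite _

/-- the square root of `-n` -/
def del (n : ℕ) : OO n := ⟨-1, 2⟩

/-- reduction modulo `del n` -/
def rho {n : ℕ} (z : OO n) : ZMod n := z.re + 2 * (((n + 1) / 4 : ℕ) : ZMod n) * z.im

/-- the conjugate ideal -/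
def cj {n : ℕ} (A : Ideal (OO n)) : Ideal (OO n) := A.map (starRingEnd (OO n))

/-- the norm of an ideal -/
noncomputable def nm {n : ℕ} [Good n] (A : Ideal (OO n)) : ℕ := Ideal.absNorm A

open Classical in
/-- the class of an ideal -/
noncomputable def cls {n : ℕ} [Good n] (A : Ideal (OO n)) : ClassGroup (OO n) :=
  if h : A ∈ (Ideal (OO n))⁰ then ClassGroup.mk0 ⟨A, h⟩ else 1

/-- a representative prime to `n` -/
noncomputable def rep {n : ℕ} [Good n] (c : ClassGroup (OO n)) : Ideal (OO n) :=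
  Classical.epsilon fun A => cls A = c ∧ (nm A).Coprime n

/-- the genus characters -/
noncomputable def gch {n : ℕ} [Good n] (p : ℕ) (c : ClassGroup (OO n)) : ℤ := Xp n p (nm (rep c))

noncomputable def gJ {n : ℕ} [Good n] (J : Finset ℕ) (c : ClassGroup (OO n)) : ℤ := ∏ p ∈ J, gch p c

/-- elements of normalised norm `ν` in the quaternionic lattice attached to `A, B` -/
def LL {n : ℕ} [Good n] (F A B : Ideal (OO n)) (ν : ℕ) : Set (OO n × OO n) :=
  {x | x.1 ∈ A * cj B ∧ x.2 ∈ A * B * F ∧ rho x.1 = rho x.2 ∧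
    (nm F : ℤ) * x.1.norm + 15 * x.2.norm = ν * n * nm F * nm A * nm B}

noncomputable def rr {n : ℕ} [Good n] (F A B : Ideal (OO n)) (ν : ℕ) : ℕ := (LL F A B ν).ncard

/-- no element of order 4 in the class group -/
def No4 (n : ℕ) : Prop := ∀ [Good n], ∀ c : ClassGroup (OO n), c ^ 4 = 1 → c ^ 2 = 1

end Pool.Agent.P.MP_8b7eba_nt.BSD15
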