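import Pool.Agent.P.MP_8b7eba_nt.BSD15.QNeighFin

/-! The Brandt matrices of discriminant 15. -/

namespace Pool.Agent.P.MP_8b7eba_nt.BSD15

open scoped Quaternion

variable {c₁ c₃ : ℚ} {S : Type}

namespace QN

open Matrix

/-- the reduced norm -/
def nr (x : ℍ[ℚ,c₁,c₃]) : ℚ := (x * star x).re

lemma nr_eq (x : ℍ[ℚ,c₁,c₃]) :
    nr x = x.re ^ 2 - c₁ * x.imI ^ 2 - c₃ * x.imJ ^ 2 + c₁ * c₃ * x.imK ^ 2 := by
  simp [nr]; ring

lemma nr_mul (x y : ℍ[ℚ,c₁,c₃]) : nr (x * y) = nr x * nr y := by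
  simp only [nr_eq]; simp; ring

lemma nr_star (x : ℍ[ℚ,c₁,c₃]) : nr (star x) = nr x := by
  simp only [nr_eq]; simp

lemma nr_smul (q : ℚ) (x : ℍ[ℚ,c₁,c₃]) : nr (q • x) = q ^ 2 * nr x := by
  simp only [nr_eq]; simp; ring

lemma nr_one : nr (1 : ℍ[ℚ,c₁,c₃]) = 1 := by
  simp [nr_eq]

lemma nr_add (x y : ℍ[ℚ,c₁,c₃]) : nr (x + y) = nr x + nr y + 2 * (x * star y).re := by
  simp only [nr_eq]; simp; ring

lemma mul_star' (x : ℍ[ℚ,c₁,c₃]) : x * star x = nr x • (1 : ℍ[ℚ,c₁,c₃]) := by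
  rw [nr_eq]; ext <;> simp <;> ring

lemma star_mul' (x : ℍ[ℚ,c₁,c₃]) : star x * x = nr x • (1 : ℍ[ℚ,c₁,c₃]) := by
  rw [nr_eq]; ext <;> simp <;> ring

lemma star_smul' (q : ℚ) (x : ℍ[ℚ,c₁,c₃]) : star (q • x) = q • star x := by
  ext <;> simp

lemma re_conj (x w : ℍ[ℚ,c₁,c₃]) : (x * w * star x).re = nr x * w.re := by
  rw [nr_eq]; simp; ring

lemma nr_pos (h₁ : c₁ < 0) (h₃ : c₃ < 0) {x : ℍ[ℚ,c₁,c₃]} (hx : x ≠ 0) : 0 < nr x := by
  rw [nr_eq]
  have h13 : 0 < c₁ * c₃ := mul_pos_of_neg_of_neg h₁ h₃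
  have a1 := sq_nonneg x.re
  have a2 := mul_nonneg (neg_pos.2 h₁).le (sq_nonneg x.imI)
  have a3 := mul_nonneg (neg_pos.2 h₃).le (sq_nonneg x.imJ)
  have a4 := mul_nonneg h13.le (sq_nonneg x.imK)
  by_contra hn
  apply hx
  have e1 : x.re ^ 2 = 0 := by linarith
  have e2 : -c₁ * x.imI ^ 2 = 0 := by linarith
  have e3 : -c₃ * x.imJ ^ 2 = 0 := by linarith
  have e4 : c₁ * c₃ * x.imK ^ 2 = 0 := by linarith
  have f1 := pow_eq_zero_iff (two_ne_zero) |>.1 e1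
  have f2 := pow_eq_zero_iff (two_ne_zero) |>.1
    ((mul_eq_zero.1 e2).resolve_left (neg_pos.2 h₁).ne')
  have f3 := pow_eq_zero_iff (two_ne_zero) |>.1
    ((mul_eq_zero.1 e3).resolve_left (neg_pos.2 h₃).ne')
  have f4 := pow_eq_zero_iff (two_ne_zero) |>.1 ((mul_eq_zero.1 e4).resolve_left h13.ne')
  ext <;> simp [f1, f2, f3, f4]

/-- the Gram matrix -/
def gram (b : Fin 4 → ℍ[ℚ,c₁,c₃]) : Matrix (Fin 4) (Fin 4) ℚ :=
  Matrix.of fun i j => 2 * (b i * star (b j)).re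

lemma gram_mul (b : Fin 4 → ℍ[ℚ,c₁,c₃]) (y : ℍ[ℚ,c₁,c₃]) :
    gram (fun i => b i * y) = nr y • gram b := by
  ext i j
  simp only [gram, Matrix.of_apply, Matrix.smul_apply, smul_eq_mul, nr_eq]
  simp; ring

lemma gram_smul (b : Fin 4 → ℍ[ℚ,c₁,c₃]) (q : ℚ) :
    gram (fun i => q • b i) = q ^ 2 • gram b := by
  ext i j
  simp only [gram, Matrix.of_apply, Matrix.smul_apply, smul_eq_mul]
  simp; ring

lemma gram_change (b e : Fin 4 → ℍ[ℚ,c₁,c₃])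
    (h : ∀ i, b i ∈ Submodule.span ℤ (Set.range e)) :
    ∃ m : ℤ, (gram b).det = (m : ℚ) ^ 2 * (gram e).det := by
  have h' : ∀ i, ∃ c : Fin 4 → ℤ, ∑ j, c j • e j = b i := fun i =>
    (Submodule.mem_span_range_iff_exists_fun ℤ).1 (h i)
  choose U hU using h'
  have key : gram b = (Matrix.of U).map (Int.cast : ℤ → ℚ) * gram e *
      ((Matrix.of U).map (Int.cast : ℤ → ℚ))ᵀ := by
    ext i j
    simp only [gram, Matrix.of_apply, ← hU, Matrix.mul_apply, Matrix.map_apply,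
      Matrix.transpose_apply, Fin.sum_univ_four]
    simp; ring
  refine ⟨(Matrix.of U).det, ?_⟩
  rw [key, det_mul, det_mul, det_transpose]
  have : ((Matrix.of U).map (Int.cast : ℤ → ℚ)).det = ((Matrix.of U).det : ℚ) :=
    ((Int.castRingHom ℚ).map_det (Matrix.of U)).symm
  rw [this]; ring

/-- the coordinate map -/
def emb (i j k : ℍ[ℚ,c₁,c₃]) (x : V) : ℍ[ℚ,c₁,c₃] :=
  x.1 • (1 : ℍ[ℚ,c₁,c₃]) + x.2.1 • i + x.2.2.1 • j + x.2.2.2 • k

/-- coordinates on the order attached to `s` -/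
structure Coord (p : Pm) (B : Brandt c₁ c₃ S) (s : S) (e : V → ℍ[ℚ,c₁,c₃]) : Prop where
  std : Std p
  add : ∀ x y, e (x + y) = e x + e y
  dbl : ∀ x, e (dbl x) = (2 : ℚ) • e x
  mul : ∀ x y, e (qmul p x y) = e x * e y
  star : ∀ x, e (qstar p x) = star (e x)
  tr : ∀ x, 2 * (e x).re = qtr p x
  nr : ∀ x, nr (e x) = qN p x
  mem : ∀ z, B.N s • z ∈ B.L s s ↔ ∃ y, e y = z

lemma star_eq' (x : ℍ[ℚ,c₁,c₃]) {u : ℤ} (h : 2 * x.re = u) :
    star x = u • (1 : ℍ[ℚ,c₁,c₃]) - x := by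
  ext <;> simp
  linarith

lemma coord_of {p : Pm} (hp : Std p) (B : Brandt c₁ c₃ S) (s : S) {i j k : ℍ[ℚ,c₁,c₃]}
    (h : StdRel p.a p.b p.c p.u p.v p.w i j k)
    (hm : ∀ z, B.N s • z ∈ B.L s s ↔ z ∈ Submodule.span ℤ {1, i, j, k}) :
    Coord p B s (emb i j k) := by
  have si := star_eq' i h.tr_i
  have sj := star_eq' j h.tr_j
  have sk := star_eq' k h.tr_k
  have hjk := h.jk
  have hki := h.ki
  have hij := h.ij
  have hji : j * i = p.c • k - (p.u * p.v) • (1 : ℍ[ℚ,c₁,c₃]) + p.v • i + p.u • j := by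
    have := congrArg star hij
    rw [star_mul, star_zsmul, star_star, si, sj] at this
    simp only [sub_mul, mul_sub, smul_mul_assoc, mul_smul_comm, one_mul, mul_one] at this
    rw [← this]; module
  have hkj : k * j = p.a • i - (p.v * p.w) • (1 : ℍ[ℚ,c₁,c₃]) + p.w • j + p.v • k := by
    have := congrArg star hjk
    rw [star_mul, star_zsmul, star_star, sk, sj] at this
    simp only [sub_mul, mul_sub, smul_mul_assoc, mul_smul_comm, one_mul, mul_one] at this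
    rw [← this]; module
  have hik : i * k = p.b • j - (p.u * p.w) • (1 : ℍ[ℚ,c₁,c₃]) + p.u • k + p.w • i := by
    have := congrArg star hki
    rw [star_mul, star_zsmul, star_star, sk, si] at this
    simp only [sub_mul, mul_sub, smul_mul_assoc, mul_smul_comm, one_mul, mul_one] at this
    rw [← this]; module
  rw [si] at hjk
  rw [sj] at hki
  rw [sk] at hij
  have hmul : ∀ x y, emb i j k (qmul p x y) = emb i j k x * emb i j k y := by
    intro x y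
    simp only [emb, qmul, add_mul, mul_add, smul_mul_assoc, mul_smul_comm, one_mul, mul_one,
      h.ii, h.jj, h.kk, hjk, hki, hij, hji, hkj, hik]
    module
  have hstar : ∀ x, emb i j k (qstar p x) = star (emb i j k x) := by
    intro x
    simp only [emb, qstar, qtr, star_add, star_zsmul, star_one, si, sj, sk]
    module
  refine ⟨hp, fun x y => ?_, fun x => ?_, hmul, hstar, fun x => ?_, fun x => ?_, fun z => ?_⟩
  · simp only [emb, Prod.fst_add, Prod.snd_add]; module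
  · simp only [emb, dbl]; module
  · have h1 := h.tr_i
    have h2 := h.tr_j
    have h3 := h.tr_k
    simp only [emb, qtr]
    simp
    linear_combination (x.2.1 : ℚ) * h1 + (x.2.2.1 : ℚ) * h2 + (x.2.2.2 : ℚ) * h3
  · rw [nr, ← hstar, ← hmul, qmul_qstar]
    simp [emb]
  · rw [hm]
    simp only [Submodule.mem_span_insert, Submodule.mem_span_singleton]
    constructor
    · rintro ⟨a, _, ⟨b, _, ⟨c, _, ⟨d, rfl⟩, rfl⟩, rfl⟩, rfl⟩
      exact ⟨(a, b, c, d), by simp only [emb]; abel⟩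
    · rintro ⟨⟨a, b, c, d⟩, rfl⟩
      exact ⟨a, _, ⟨b, _, ⟨c, _, ⟨d, rfl⟩, rfl⟩, rfl⟩, by simp only [emb]; abel⟩

lemma Coord.inj {p : Pm} {B : Brandt c₁ c₃ S} {s : S} {e : V → ℍ[ℚ,c₁,c₃]}
    (h : Coord p B s e) : Function.Injective e := by
  intro x y hxy
  have h1 : e (x - y) = 0 := by
    have := h.add (x - y) y
    rw [sub_add_cancel, hxy] at this
    exact left_eq_add.1 (by rw [add_comm] at this; exact this)
  have h2 := h.nr (x - y)
  rw [h1] at h2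
  have h3 : qN p (x - y) = 0 := by
    have : QN.nr (0 : ℍ[ℚ,c₁,c₃]) = 0 := by simp [nr_eq]
    rw [this] at h2
    exact_mod_cast h2.symm
  exact sub_eq_zero.1 (qN_zero h.std h3)

/-- the order attached to `s` -/
def ord (B : Brandt c₁ c₃ S) (s : S) : Submodule ℤ ℍ[ℚ,c₁,c₃] where
  carrier := {z | B.N s • z ∈ B.L s s}
  add_mem' := fun {a b} ha hb => by
    simp only [Set.mem_ofPred_eq, smul_add] at *
    exact (B.L s s).add_mem ha hb
  zero_mem' := by simp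
  smul_mem' := fun c x hx => by
    simp only [Set.mem_ofPred_eq] at *
    rw [smul_comm]
    exact (B.L s s).smul_mem c hx

lemma mem_ord {B : Brandt c₁ c₃ S} {s : S} {z : ℍ[ℚ,c₁,c₃]} :
    z ∈ ord B s ↔ B.N s • z ∈ B.L s s := Iff.rfl

lemma left_mem (B : Brandt c₁ c₃ S) {s t : S} {y z : ℍ[ℚ,c₁,c₃]} (hy : B.N s • y ∈ B.L s s)
    (hz : z ∈ B.L s t) : y * z ∈ B.L s t := by
  have := B.mul_mem s s t _ _ hy hz
  rwa [smul_mul_assoc, smul_smul, inv_mul_cancel₀ (B.N_pos s).ne', one_smul] at this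

lemma right_mem (B : Brandt c₁ c₃ S) {s t : S} {y z : ℍ[ℚ,c₁,c₃]} (hy : B.N t • y ∈ B.L t t)
    (hz : z ∈ B.L s t) : z * y ∈ B.L s t := by
  have := B.mul_mem s t t _ _ hz hy
  rwa [mul_smul_comm, smul_smul, inv_mul_cancel₀ (B.N_pos t).ne', one_smul] at this

lemma quot_mem (B : Brandt c₁ c₃ S) {s t : S} {x z : ℍ[ℚ,c₁,c₃]} (hz : z ∈ B.L s t)
    (hx : x ∈ B.L s t) : B.N s • ((B.N s * B.N t)⁻¹ • (z * star x)) ∈ B.L s s := by
  have := B.mul_mem s t s _ _ hz (B.star_mem s t _ hx)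
  rw [smul_smul]
  convert this using 2
  have := (B.N_pos s).ne'
  field_simp

lemma ord_gram (B : Brandt c₁ c₃ S) (s : S) : ∃ b : Fin 4 → ℍ[ℚ,c₁,c₃],
    Submodule.span ℤ (Set.range b) = ord B s ∧ (gram b).det = 225 := by
  obtain ⟨b, hb, hd⟩ := B.gram s s
  have hN := (B.N_pos s).ne'
  refine ⟨fun i => (B.N s)⁻¹ • b i, ?_, ?_⟩
  · apply le_antisymm
    · rw [Submodule.span_le]
      rintro _ ⟨i, rfl⟩
      rw [SetLike.mem_coe, mem_ord, smul_smul, mul_inv_cancel₀ hN, one_smul, ← hb]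
      exact Submodule.subset_span ⟨i, rfl⟩
    · intro z hz
      rw [mem_ord, ← hb, Submodule.mem_span_range_iff_exists_fun] at hz
      obtain ⟨c, hc⟩ := hz
      rw [Submodule.mem_span_range_iff_exists_fun]
      refine ⟨c, ?_⟩
      have : z = (B.N s)⁻¹ • (B.N s • z) := by rw [smul_smul, inv_mul_cancel₀ hN, one_smul]
      rw [this, ← hc, Finset.smul_sum]
      exact Finset.sum_congr rfl fun i _ => smul_comm _ _ _
  · rw [gram_smul, det_smul]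
    change _ * (Matrix.of fun i j => 2 * (b i * star (b j)).re).det = _
    rw [hd, Fintype.card_fin]
    field_simp

lemma exists_coord (h₁ : c₁ < 0) (h₃ : c₃ < 0) (B : Brandt c₁ c₃ S) (s : S) :
    ∃ p e, Coord p B s e := by
  have hN := (B.N_pos s).ne'
  obtain ⟨i, j, k, hO, h⟩ := order_class h₁ h₃ (ord B s) (B.N_mem s)
    (fun x hx y hy => by
      rw [mem_ord, ← mul_smul_comm]
      exact left_mem B hx hy)
    (fun x hx => by
      rw [mem_ord, ← star_smul']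
      exact B.star_mem s s _ hx)
    (fun x hx => by
      obtain ⟨m, hm⟩ := B.integral s s _ hx
      refine ⟨m, ?_⟩
      change nr _ = _ at hm
      rw [nr_smul] at hm
      change nr x = m
      have : B.N s ^ 2 * nr x = B.N s ^ 2 * m := by rw [hm]; ring
      exact mul_left_cancel₀ (pow_ne_zero 2 hN) this)
    (ord_gram B s)
  have hm : ∀ z, B.N s • z ∈ B.L s s ↔ z ∈ Submodule.span ℤ {1, i, j, k} := fun z => by
    rw [← hO, mem_ord]
  rcases h with h | h | h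
  · exact ⟨pA, _, coord_of stdA B s h hm⟩
  · exact ⟨pB, _, coord_of stdB B s h hm⟩
  · exact ⟨pC, _, coord_of stdC B s h hm⟩

lemma exists_short (h₁ : c₁ < 0) (h₃ : c₃ < 0) (B : Brandt c₁ c₃ S) (s t : S) :
    ∃ x ∈ B.L s t, nr x = 1 * (B.N s * B.N t) ∨ nr x = 2 * (B.N s * B.N t) := by
  obtain ⟨b, hb, hd⟩ := B.gram s t
  have hN : 0 < B.N s * B.N t := mul_pos (B.N_pos s) (B.N_pos t)
  set M := B.N s * B.N t with hM
  have hbm : ∀ i, b i ∈ B.L s t := fun i => hb ▸ Submodule.subset_span ⟨i, rfl⟩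
  have hG : ∀ i j, ∃ g : ℤ, 2 * (b i * star (b j)).re = g * M := by
    intro i j
    obtain ⟨m1, e1⟩ := B.integral s t _ (hbm i)
    obtain ⟨m2, e2⟩ := B.integral s t _ (hbm j)
    obtain ⟨m3, e3⟩ := B.integral s t _ ((B.L s t).add_mem (hbm i) (hbm j))
    change nr _ = _ at e1 e2 e3
    rw [nr_add, e1, e2] at e3
    exact ⟨m3 - m1 - m2, by push_cast; linarith⟩
  choose G hG using hG
  have hcast : (Matrix.of G).map (Int.cast : ℤ → ℚ) = M⁻¹ • gram b := by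
    ext i j
    simp only [Matrix.map_apply, Matrix.of_apply, Matrix.smul_apply, gram, hG, smul_eq_mul]
    field_simp
  have hdet : (Matrix.of G).det = 225 := by
    have h1 : (((Matrix.of G).det : ℤ) : ℚ) = ((Matrix.of G).map (Int.cast : ℤ → ℚ)).det :=
      (Int.castRingHom ℚ).map_det (Matrix.of G)
    rw [hcast, det_smul] at h1
    change _ = _ * (Matrix.of fun i j => 2 * (b i * star (b j)).re).det at h1
    rw [hd, Fintype.card_fin] at h1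
    have h2 : (((Matrix.of G).det : ℤ) : ℚ) = 225 := by rw [h1]; field_simp
    exact_mod_cast h2
  have hsym : (Matrix.of G).IsSymm := by
    ext i j
    simp only [transpose_apply, of_apply]
    have h1 := hG i j
    have h2 := hG j i
    have h3 : (b i * star (b j)).re = (b j * star (b i)).re := by simp; ring
    rw [h3, h2] at h1
    exact_mod_cast mul_right_cancel₀ hN.ne' h1
  have hrow : ∀ (v : Fin 4 → ℤ) (i : Fin 4),
      (((Matrix.of G *ᵥ v) i : ℤ) : ℚ) * M = 2 * (b i * star (∑ j, v j • b j)).re := by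
    intro v i
    simp only [mulVec, dotProduct, of_apply, Fin.sum_univ_four]
    push_cast
    have a0 := hG i 0
    have a1 := hG i 1
    have a2 := hG i 2
    have a3 := hG i 3
    simp at a0 a1 a2 a3 ⊢
    linear_combination -(v 0 : ℚ) * a0 - (v 1 : ℚ) * a1 - (v 2 : ℚ) * a2 - (v 3 : ℚ) * a3
  have hquad : ∀ v : Fin 4 → ℤ,
      ((v ⬝ᵥ (Matrix.of G *ᵥ v) : ℤ) : ℚ) * M = 2 * nr (∑ j, v j • b j) := by
    intro v
    have a0 := hrow v 0
    have a1 := hrow v 1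
    have a2 := hrow v 2
    have a3 := hrow v 3
    generalize Matrix.of G *ᵥ v = w at *
    rw [nr]
    generalize star (∑ j, v j • b j) = y at *
    simp only [dotProduct, Fin.sum_univ_four]
    push_cast
    simp at a0 a1 a2 a3 ⊢
    linear_combination (v 0 : ℚ) * a0 + (v 1 : ℚ) * a1 + (v 2 : ℚ) * a2 + (v 3 : ℚ) * a3
  have hne : ∀ v : Fin 4 → ℤ, v ≠ 0 → ∑ j, v j • b j ≠ 0 := by
    intro v hv h0
    apply hv
    apply Matrix.eq_zero_of_mulVec_eq_zero (M := Matrix.of G) (by rw [hdet]; norm_num)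
    funext i
    have := hrow v i
    rw [h0] at this
    simp only [star_zero, mul_zero, QuaternionAlgebra.re_zero] at this
    exact_mod_cast (mul_eq_zero.1 this).resolve_right hN.ne'
  obtain ⟨v, hv, hle⟩ := hermite_four (Matrix.of G) hsym (fun v hv => by
    have h1 := hquad v
    have h2 := nr_pos h₁ h₃ (hne v hv)
    have h3 : (0 : ℚ) < ((v ⬝ᵥ (Matrix.of G *ᵥ v) : ℤ) : ℚ) * M := by linarith
    exact_mod_cast ((mul_pos_iff_of_pos_right hN).1 h3)) hdet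
  have hx : ∑ j, v j • b j ∈ B.L s t :=
    Submodule.sum_mem _ fun j _ => (B.L s t).smul_mem _ (hbm j)
  refine ⟨_, hx, ?_⟩
  obtain ⟨m, hm⟩ := B.integral s t _ hx
  change nr _ = m * M at hm
  have h1 := hquad v
  have h2 := nr_pos h₁ h₃ (hne v hv)
  rw [hm] at h1 h2 ⊢
  have h3 : ((v ⬝ᵥ (Matrix.of G *ᵥ v) : ℤ) : ℚ) = 2 * m :=
    mul_right_cancel₀ hN.ne' (by rw [h1]; ring)
  have h4 : v ⬝ᵥ (Matrix.of G *ᵥ v) = 2 * m := by exact_mod_cast h3
  have h5 : 0 < m := by exact_mod_cast ((mul_pos_iff_of_pos_right hN).1 h2)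
  have : m = 1 ∨ m = 2 := by omega
  rcases this with rfl | rfl <;> simp

/-- the ideal attached to an element of normalised norm `μ` -/
def JJ (B : Brandt c₁ c₃ S) (s t : S) (e : V → ℍ[ℚ,c₁,c₃]) (x : ℍ[ℚ,c₁,c₃]) (μ : ℚ) (y : V) :
    Prop := μ⁻¹ • (e y * x) ∈ B.L s t

lemma back {M μ : ℚ} (hM : M ≠ 0) (hμ : μ ≠ 0) {x : ℍ[ℚ,c₁,c₃]} (hx : nr x = μ * M)
    (z : ℍ[ℚ,c₁,c₃]) : μ⁻¹ • (M⁻¹ • (z * star x) * x) = z := by
  rw [smul_mul_assoc, mul_assoc, star_mul', mul_smul_comm, mul_one, smul_smul, smul_smul, hx]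
  have : μ⁻¹ * M⁻¹ * (μ * M) = 1 := by field_simp
  rw [this, one_smul]

lemma r_eq {p : Pm} {B : Brandt c₁ c₃ S} {s t : S} {e : V → ℍ[ℚ,c₁,c₃]} (h : Coord p B s e)
    {x : ℍ[ℚ,c₁,c₃]} (hx : x ∈ B.L s t) {μ : ℕ} (hμ : μ ≠ 0) (hn : nr x = μ * (B.N s * B.N t))
    (ν : ℕ) : B.r ν s t = cnt p (JJ B s t e x μ) (μ * ν) := by
  have hM : B.N s * B.N t ≠ 0 := (mul_pos (B.N_pos s) (B.N_pos t)).ne'
  have hs0 := (B.N_pos s).ne'
  have ht0 := (B.N_pos t).ne'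
  have hμ' : (μ : ℚ) ≠ 0 := by exact_mod_cast hμ
  have hnr : ∀ y, nr ((μ : ℚ)⁻¹ • (e y * x)) = qN p y / μ * (B.N s * B.N t) := by
    intro y
    rw [nr_smul, nr_mul, h.nr, hn]; field_simp
  have hinj : Function.Injective fun y => (μ : ℚ)⁻¹ • (e y * x) := by
    intro y y' hy
    apply h.inj
    have h1 := congrArg (fun z => (B.N s * B.N t)⁻¹ • (z * star x)) hy
    simp only [smul_mul_assoc, mul_assoc, mul_star', mul_smul_comm, mul_one, smul_smul, hn] at h1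
    have h2 : (B.N s * B.N t)⁻¹ * ((μ : ℚ)⁻¹ * (μ * (B.N s * B.N t))) = 1 := by field_simp
    simpa only [h2, one_smul] using h1
  rw [Brandt.r, cnt, ← Set.ncard_image_of_injective _ hinj]
  congr 1
  ext z
  simp only [Set.mem_ofPred_eq, Set.mem_image]
  constructor
  · rintro ⟨hz, hν⟩
    obtain ⟨y, hy⟩ := (h.mem _).1 (quot_mem B hz hx)
    have hb : (μ : ℚ)⁻¹ • (e y * x) = z := by rw [hy]; exact back hM hμ' hn z
    refine ⟨y, ⟨by rw [JJ, hb]; exact hz, ?_⟩, hb⟩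
    have h1 := hnr y
    rw [hb] at h1
    change nr z = _ at hν
    rw [hν] at h1
    have h2 := mul_right_cancel₀ hM h1
    have h3 : (qN p y : ℚ) = μ * ν := by rw [h2]; field_simp
    exact_mod_cast h3
  · rintro ⟨y, ⟨hy, hN⟩, rfl⟩
    refine ⟨hy, ?_⟩
    change nr _ = _
    rw [hnr, hN]; push_cast; field_simp

lemma r_one {p : Pm} {B : Brandt c₁ c₃ S} {s t : S} {e : V → ℍ[ℚ,c₁,c₃]} (h : Coord p B s e)
    {x : ℍ[ℚ,c₁,c₃]} (hx : x ∈ B.L s t) (hn : nr x = 1 * (B.N s * B.N t))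
    (ν : ℕ) : B.r ν s t = cnt p (fun _ => True) ν := by
  rw [r_eq h hx one_ne_zero (by exact_mod_cast hn) ν]
  have : JJ B s t e x ((1 : ℕ) : ℚ) = fun _ => True := by
    funext y
    simp only [JJ, Nat.cast_one, inv_one, one_smul, eq_iff_iff, iff_true]
    exact left_mem B ((h.mem _).2 ⟨y, rfl⟩) hx
  rw [this]; simp

lemma nr_N (B : Brandt c₁ c₃ S) (s : S) :
    nr (B.N s • (1 : ℍ[ℚ,c₁,c₃])) = 1 * (B.N s * B.N s) := by
  rw [nr_smul, nr_one]; ring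

lemma r_self {p : Pm} {B : Brandt c₁ c₃ S} {s : S} {e : V → ℍ[ℚ,c₁,c₃]} (h : Coord p B s e)
    (ν : ℕ) : B.r ν s s = cnt p (fun _ => True) ν := r_one h (B.N_mem s) (nr_N B s) ν

/-- `s` and `t` are joined by an element of normalised norm one -/
def Rel (B : Brandt c₁ c₃ S) (s t : S) : Prop := ∃ x ∈ B.L s t, nr x = 1 * (B.N s * B.N t)

lemma Rel.refl (B : Brandt c₁ c₃ S) (s : S) : Rel B s s := ⟨_, B.N_mem s, nr_N B s⟩

lemma Rel.symm {B : Brandt c₁ c₃ S} {s t : S} (h : Rel B s t) : Rel B t s := by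
  obtain ⟨x, hx, hn⟩ := h
  exact ⟨star x, B.star_mem s t x hx, by rw [nr_star, hn]; ring⟩

lemma Rel.trans {B : Brandt c₁ c₃ S} {s t u : S} (h : Rel B s t) (h' : Rel B t u) :
    Rel B s u := by
  obtain ⟨x, hx, hn⟩ := h
  obtain ⟨y, hy, hm⟩ := h'
  refine ⟨_, B.mul_mem s t u x y hx hy, ?_⟩
  have := (B.N_pos t).ne'
  rw [nr_smul, nr_mul, hn, hm]; field_simp

lemma r_symm (B : Brandt c₁ c₃ S) (ν : ℕ) (s t : S) : B.r ν s t = B.r ν t s := by
  rw [Brandt.r, Brandt.r, ← Set.ncard_image_of_injective _ (star_injective (R := ℍ[ℚ,c₁,c₃]))]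
  congr 1
  ext z
  simp only [Set.mem_ofPred_eq, Set.mem_image]
  constructor
  · rintro ⟨y, ⟨hy, hN⟩, rfl⟩
    refine ⟨B.star_mem _ _ _ hy, ?_⟩
    change nr _ = _ at hN ⊢
    rw [nr_star, hN]; ring
  · rintro ⟨hz, hN⟩
    refine ⟨star z, ⟨B.star_mem _ _ _ hz, ?_⟩, star_star z⟩
    change nr _ = _ at hN ⊢
    rw [nr_star, hN]; ring

lemma r_zero {B : Brandt c₁ c₃ S} {s t : S} (h : ¬ Rel B s t) : B.r 1 s t = 0 := by
  rw [Brandt.r, ← Set.ncard_empty ℍ[ℚ,c₁,c₃]]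
  congr 1
  ext z
  simp only [Set.mem_ofPred_eq, Set.mem_empty_iff_false, iff_false]
  rintro ⟨hz, hN⟩
  exact h ⟨z, hz, by exact_mod_cast hN⟩

lemma jj_idl {p : Pm} {B : Brandt c₁ c₃ S} {s t : S} {e : V → ℍ[ℚ,c₁,c₃]} (h : Coord p B s e)
    {x : ℍ[ℚ,c₁,c₃]} (hx : x ∈ B.L s t) (hn : nr x = 2 * (B.N s * B.N t)) :
    Idl p (JJ B s t e x 2) := by
  have hM : B.N s * B.N t ≠ 0 := (mul_pos (B.N_pos s) (B.N_pos t)).ne'
  have hs0 := (B.N_pos s).ne'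
  have ht0 := (B.N_pos t).ne'
  refine ⟨fun y y' hy hy' => ?_, fun y => ?_, fun y y' hy' => ?_, fun y hy => ?_, ?_⟩
  · rw [JJ, h.add, add_mul, smul_add]
    exact (B.L s t).add_mem hy hy'
  · rw [JJ, h.dbl, smul_mul_assoc, smul_smul, inv_mul_cancel₀ two_ne_zero, one_smul]
    exact left_mem B ((h.mem _).2 ⟨y, rfl⟩) hx
  · rw [JJ, h.mul, mul_assoc, ← mul_smul_comm]
    exact left_mem B ((h.mem _).2 ⟨y, rfl⟩) hy'
  · obtain ⟨m, hm⟩ := B.integral s t _ hy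
    change nr _ = _ at hm
    rw [nr_smul, nr_mul, h.nr, hn] at hm
    have h1 : (qN p y : ℚ) * (B.N s * B.N t) = 2 * m * (B.N s * B.N t) := by linarith
    have h2 : qN p y = 2 * m := by exact_mod_cast mul_right_cancel₀ hM h1
    omega
  · by_contra hc
    push Not at hc
    obtain ⟨b, hb, hd⟩ := B.gram s t
    obtain ⟨f, hf, hfd⟩ := ord_gram B s
    have hmem : ∀ i, b i ∈ Submodule.span ℤ (Set.range fun i => f i * x) := by
      intro i
      have hz : b i ∈ B.L s t := hb ▸ Submodule.subset_span ⟨i, rfl⟩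
      obtain ⟨y, hy⟩ := (h.mem _).1 (quot_mem B hz hx)
      have hb' : (2 : ℚ)⁻¹ • (e y * x) = b i := by rw [hy]; exact back hM two_ne_zero hn _
      have h0 := hc y (by rw [JJ, hb']; exact hz)
      have h1 : y = dbl (half y) := by
        have := red_add_dbl y
        rw [h0] at this
        exact this.symm.trans (zero_add _)
      rw [h1, h.dbl, smul_mul_assoc, smul_smul, inv_mul_cancel₀ two_ne_zero, one_smul] at hb'
      have h2 : e (half y) ∈ Submodule.span ℤ (Set.range f) := by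
        rw [hf, mem_ord]; exact (h.mem _).2 ⟨_, rfl⟩
      rw [Submodule.mem_span_range_iff_exists_fun] at h2 ⊢
      obtain ⟨c, hc⟩ := h2
      refine ⟨c, ?_⟩
      rw [← hb', ← hc, Finset.sum_mul]
      simp only [smul_mul_assoc]
    obtain ⟨m, hm⟩ := gram_change b _ hmem
    rw [gram_mul, det_smul, hfd, hn, Fintype.card_fin] at hm
    change (Matrix.of fun i j => 2 * (b i * star (b j)).re).det = _ at hm
    rw [hd] at hm
    have h1 : (1 : ℚ) * (B.N s * B.N t) ^ 4 = 16 * m ^ 2 * (B.N s * B.N t) ^ 4 := by linarith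
    have h2 : (1 : ℤ) = 16 * m ^ 2 := by exact_mod_cast mul_right_cancel₀ (pow_ne_zero 4 hM) h1
    omega

lemma jj_ne {p : Pm} {B : Brandt c₁ c₃ S} {s t : S} {e : V → ℍ[ℚ,c₁,c₃]} (h : Coord p B s e)
    {x : ℍ[ℚ,c₁,c₃]} (hn : nr x = 2 * (B.N s * B.N t)) (hr : ¬ Rel B s t) :
    ∀ y, JJ B s t e x 2 y → qN p y ≠ 2 := by
  intro y hy hN
  refine hr ⟨_, hy, ?_⟩
  rw [nr_smul, nr_mul, h.nr, hn, hN]; push_cast; ring

lemma jj_rgt {p : Pm} {B : Brandt c₁ c₃ S} {s t : S} {e : V → ℍ[ℚ,c₁,c₃]} (h : Coord p B s e)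
    {x : ℍ[ℚ,c₁,c₃]} (hx : x ∈ B.L s t) (hn : nr x = 2 * (B.N s * B.N t)) {w : ℍ[ℚ,c₁,c₃]}
    (hw : B.N t • w ∈ B.L t t) : ∃ y, JJ B s t e x 2 y ∧ (qN p y : ℚ) = 4 * nr w ∧
      (qtr p y : ℚ) = 4 * w.re ∧ Rgt p (JJ B s t e x 2) y := by
  have hM : B.N s * B.N t ≠ 0 := (mul_pos (B.N_pos s) (B.N_pos t)).ne'
  have hs0 := (B.N_pos s).ne'
  have ht0 := (B.N_pos t).ne'
  have hz := right_mem B hw hx
  obtain ⟨y, hy⟩ := (h.mem _).1 (quot_mem B hz hx)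
  refine ⟨y, ?_, ?_, ?_, fun g hg => ?_⟩
  · rw [JJ, hy, back hM two_ne_zero hn]; exact hz
  · rw [← h.nr, hy, nr_smul, nr_mul, nr_mul, nr_star, hn]; field_simp; ring
  · rw [← h.tr, hy, QuaternionAlgebra.re_smul, re_conj, hn, smul_eq_mul]; field_simp; ring
  · have hz' := right_mem B hw hg
    obtain ⟨g', hg'⟩ := (h.mem _).1 (quot_mem B hz' hx)
    refine ⟨g', ?_, h.inj ?_⟩
    · rw [JJ, hg', back hM two_ne_zero hn]; exact hz'
    · rw [h.mul, h.dbl, hg', hy]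
      simp only [smul_mul_assoc, mul_smul_comm, smul_smul, mul_assoc]
      congr 1; field_simp

lemma jj_pair {p : Pm} {B : Brandt c₁ c₃ S} {s t u : S} {e : V → ℍ[ℚ,c₁,c₃]} (h : Coord p B s e)
    {x x' : ℍ[ℚ,c₁,c₃]} (hn : nr x = 2 * (B.N s * B.N t)) (hn' : nr x' = 2 * (B.N s * B.N u))
    {y₁ y₂ z₁ z₂ : V} (a₁ : JJ B s t e x 2 y₁) (a₂ : JJ B s t e x 2 y₂)
    (b₁ : JJ B s u e x' 2 z₁) (b₂ : JJ B s u e x' 2 z₂)
    (hN : qN p (qmul p (qstar p y₁) z₁ + qmul p (qstar p y₂) z₂) = 4) : Rel B t u := by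
  have h1 := B.mul_mem t s u _ _ (B.star_mem s t _ a₁) b₁
  have h2 := B.mul_mem t s u _ _ (B.star_mem s t _ a₂) b₂
  refine ⟨_, (B.L t u).add_mem h1 h2, ?_⟩
  have e1 : (B.N s)⁻¹ • (star ((2 : ℚ)⁻¹ • (e y₁ * x)) * (2 : ℚ)⁻¹ • (e z₁ * x')) +
      (B.N s)⁻¹ • (star ((2 : ℚ)⁻¹ • (e y₂ * x)) * (2 : ℚ)⁻¹ • (e z₂ * x')) =
      ((B.N s)⁻¹ / 4) • (star x * e (qmul p (qstar p y₁) z₁ + qmul p (qstar p y₂) z₂) * x') := by
    rw [h.add, h.mul, h.mul, h.star, h.star]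
    simp only [star_smul', star_mul, smul_mul_assoc, mul_smul_comm, smul_smul, mul_add, add_mul,
      mul_assoc, smul_add]
    congr 2 <;> ring
  have := (B.N_pos s).ne'
  rw [e1, nr_smul, nr_mul, nr_mul, nr_star, h.nr, hN, hn, hn']; push_cast; field_simp; ring

lemma omega_coord {p : Pm} {B : Brandt c₁ c₃ S} {s : S} {e : V → ℍ[ℚ,c₁,c₃]} (h : Coord p B s e)
    {x : ℍ[ℚ,c₁,c₃]} (hx : x ∈ B.L s s) : ∃ y, x = B.N s • e y := by
  have hN := (B.N_pos s).ne'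
  obtain ⟨y, hy⟩ := (h.mem ((B.N s)⁻¹ • x)).1
    (by rw [smul_smul, mul_inv_cancel₀ hN, one_smul]; exact hx)
  exact ⟨y, by rw [hy, smul_smul, mul_inv_cancel₀ hN, one_smul]⟩

lemma tr_nr {p : Pm} {B : Brandt c₁ c₃ S} {s : S} {e : V → ℍ[ℚ,c₁,c₃]} (h : Coord p B s e)
    {y : V} {a k : ℤ} (h1 : 2 * (B.N s • e y).re = a * B.N s)
    (h2 : nr (B.N s • e y) = k * B.N s ^ 2) : qtr p y = a ∧ qN p y = k := by
  have hN := (B.N_pos s).ne'
  constructor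
  · rw [QuaternionAlgebra.re_smul, smul_eq_mul] at h1
    have h3 : (qtr p y : ℚ) * B.N s = a * B.N s := by rw [← h.tr, ← h1]; ring
    exact_mod_cast mul_right_cancel₀ hN h3
  · rw [nr_smul, h.nr] at h2
    have h3 : (qN p y : ℚ) * B.N s ^ 2 = k * B.N s ^ 2 := by rw [← h2]; ring
    exact_mod_cast mul_right_cancel₀ (pow_ne_zero 2 hN) h3

lemma coord5 (h₁ : c₁ < 0) (h₃ : c₃ < 0) (B : Brandt c₁ c₃ S) {k : ℤ}
    (hk : (4 * k - 1) % 3 = 2) (s : S)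
    (hω : ∃ x ∈ B.L s s, 2 * x.re = B.N s ∧ (x * star x).re = k * B.N s ^ 2) :
    ∃ e, Coord pB B s e ∨ Coord pC B s e := by
  obtain ⟨p, e, h⟩ := exists_coord h₁ h₃ B s
  obtain ⟨x, hx, h1, h2⟩ := hω
  obtain ⟨y, rfl⟩ := omega_coord h hx
  obtain ⟨a1, a2⟩ := tr_nr h (a := 1) (by simpa using h1) h2
  rcases h.std with rfl | rfl | rfl
  · exact absurd hk (discA a1 a2)
  · exact ⟨e, Or.inl h⟩
  · exact ⟨e, Or.inr h⟩

lemma coord3 (h₁ : c₁ < 0) (h₃ : c₃ < 0) (B : Brandt c₁ c₃ S) {k : ℤ}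
    (hk : (4 * k - 1) % 5 = 1 ∨ (4 * k - 1) % 5 = 4) (s : S)
    (hω : ∃ x ∈ B.L s s, 2 * x.re = B.N s ∧ (x * star x).re = k * B.N s ^ 2) :
    ∃ e, Coord pA B s e := by
  obtain ⟨p, e, h⟩ := exists_coord h₁ h₃ B s
  obtain ⟨x, hx, h1, h2⟩ := hω
  obtain ⟨y, rfl⟩ := omega_coord h hx
  obtain ⟨a1, a2⟩ := tr_nr h (a := 1) (by simpa using h1) h2
  rcases h.std with rfl | rfl | rfl
  · exact ⟨e, h⟩
  · exact absurd hk (discB a1 a2)
  · exact absurd hk (discC a1 a2)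

lemma short2 (h₁ : c₁ < 0) (h₃ : c₃ < 0) {B : Brandt c₁ c₃ S} {s t : S} (h : ¬ Rel B s t) :
    ∃ x ∈ B.L s t, nr x = 2 * (B.N s * B.N t) := by
  obtain ⟨x, hx, h1 | h1⟩ := exists_short h₁ h₃ B s t
  · exact absurd ⟨x, hx, h1⟩ h
  · exact ⟨x, hx, h1⟩

lemma r_two {p : Pm} {B : Brandt c₁ c₃ S} {s t : S} {e : V → ℍ[ℚ,c₁,c₃]} (h : Coord p B s e)
    {x : ℍ[ℚ,c₁,c₃]} (hx : x ∈ B.L s t) (hn : nr x = 2 * (B.N s * B.N t)) :
    B.r 2 s t = cnt p (JJ B s t e x 2) 4 := by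
  rw [r_eq h hx two_ne_zero (by exact_mod_cast hn) 2]; rfl

lemma Rel.r_eq (h₁ : c₁ < 0) (h₃ : c₃ < 0) {B : Brandt c₁ c₃ S} {s t : S} (h : Rel B s t)
    (ν : ℕ) : B.r ν s t = B.r ν s s := by
  obtain ⟨p, e, hc⟩ := exists_coord h₁ h₃ B s
  obtain ⟨x, hx, hn⟩ := h
  rw [r_one hc hx hn, r_self hc]

end QN

open QN

theorem brandt5 (h₁ : c₁ < 0) (h₃ : c₃ < 0) (B : Brandt c₁ c₃ S) {k : ℤ}
    (hk : (4 * k - 1) % 3 = 2)
    (hω : ∀ s, ∃ x ∈ B.L s s, 2 * x.re = B.N s ∧ (x * star x).re = k * B.N s ^ 2) (s t : S) :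
    (B.r 1 s s = 2 ∨ B.r 1 s s = 6) ∧
    B.r 1 s t = (if B.r 1 s s = B.r 1 t t then B.r 1 s s else 0) ∧
    B.r 2 s t = (if B.r 1 s s = B.r 1 t t then (if B.r 1 s s = 2 then 4 else 0) else 6) := by
  obtain ⟨e, he⟩ := coord5 h₁ h₃ B hk s (hω s)
  obtain ⟨f, hf⟩ := coord5 h₁ h₃ B hk t (hω t)
  have rB : ∀ {s e}, Coord pB B s e → B.r 1 s s = 2 ∧ B.r 2 s s = 4 := fun h =>
    ⟨by rw [r_self h]; exact cntB1, by rw [r_self h]; exact cntB2⟩
  have rC : ∀ {s e}, Coord pC B s e → B.r 1 s s = 6 ∧ B.r 2 s s = 0 := fun h =>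
    ⟨by rw [r_self h]; exact cntC1, by rw [r_self h]; exact cntC2⟩
  refine ⟨he.imp (fun h => (rB h).1) (fun h => (rC h).1), ?_⟩
  by_cases hr : Rel B s t
  · have e1 : B.r 1 s s = B.r 1 t t := by
      rw [← hr.r_eq h₁ h₃, r_symm, hr.symm.r_eq h₁ h₃]
    rw [if_pos e1, if_pos e1, hr.r_eq h₁ h₃, hr.r_eq h₁ h₃]
    refine ⟨rfl, ?_⟩
    rcases he with h | h
    · rw [(rB h).1, (rB h).2]; rfl
    · rw [(rC h).1, (rC h).2]; rfl
  · obtain ⟨x, hx, hn⟩ := short2 h₁ h₃ hr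
    have key : B.r 2 s t = 6 ∧ B.r 1 s s ≠ B.r 1 t t := by
      rcases he with h | h
      · obtain ⟨a1, a2⟩ := idlB (jj_idl h hx hn) (jj_ne h hn hr)
        refine ⟨by rw [r_two h hx hn, a1], ?_⟩
        rcases hf with h' | h'
        · exfalso
          obtain ⟨y, b1, b2, b3, b4⟩ := jj_rgt h hx hn ((h'.mem _).2 ⟨(0, 0, 1, 0), rfl⟩)
          have t1 := h'.tr (0, 0, 1, 0)
          rw [h'.nr] at b2
          have n1 : qN pB (0, 0, 1, 0) = 2 := by decide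
          have n2 : qtr pB (0, 0, 1, 0) = 0 := by decide
          rw [n1] at b2
          rw [n2] at t1
          refine a2 y b1 (by exact_mod_cast (by rw [b2]; norm_num : (qN pB y : ℚ) = 8)) ?_ b4
          have : (qtr pB y : ℚ) = 0 := by push_cast at t1; linarith
          exact_mod_cast this
        · rw [(rB h).1, (rC h').1]; decide
      · obtain ⟨a1, a2⟩ := idlC (jj_idl h hx hn)
        refine ⟨by rw [r_two h hx hn, a1], ?_⟩
        rcases hf with h' | h'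
        · rw [(rC h).1, (rB h').1]; decide
        · exfalso
          obtain ⟨y, b1, b2, b3, b4⟩ := jj_rgt h hx hn ((h'.mem _).2 ⟨(0, 0, 0, 1), rfl⟩)
          have t1 := h'.tr (0, 0, 0, 1)
          rw [h'.nr] at b2
          have n1 : qN pC (0, 0, 0, 1) = 1 := by decide
          have n2 : qtr pC (0, 0, 0, 1) = 1 := by decide
          rw [n1] at b2
          rw [n2] at t1
          refine a2 y b1 (by exact_mod_cast (by rw [b2]; norm_num : (qN pC y : ℚ) = 4)) ?_ b4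
          have : (qtr pC y : ℚ) = 2 := by push_cast at t1; linarith
          exact_mod_cast this
    rw [if_neg key.2, if_neg key.2]
    exact ⟨r_zero hr, key.1⟩

theorem brandt5_special (h₁ : c₁ < 0) (h₃ : c₃ < 0) (B : Brandt c₁ c₃ S) {k : ℤ}
    (hk : (4 * k - 1) % 3 = 2) (s : S) {x v : ℍ[ℚ,c₁,c₃]} (hx : x ∈ B.L s s) (hv : v ∈ B.L s s)
    (hx₁ : 2 * x.re = B.N s) (hx₂ : (x * star x).re = k * B.N s ^ 2) (hv₁ : v.re = 0)
    (hv₂ : (v * star v).re = 15 * B.N s ^ 2) (hxv : (x * star v).re = 0) : B.r 1 s s = 6 := by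
  obtain ⟨e, h | h⟩ := coord5 h₁ h₃ B hk s ⟨x, hx, hx₁, hx₂⟩
  · exfalso
    obtain ⟨y, rfl⟩ := omega_coord h hx
    obtain ⟨z, rfl⟩ := omega_coord h hv
    obtain ⟨a1, a2⟩ := tr_nr h (a := 1) (by simpa using hx₁) hx₂
    obtain ⟨b1, b2⟩ := tr_nr h (y := z) (a := 0) (k := 15) (by rw [hv₁]; simp)
      (by exact_mod_cast hv₂)
    refine specialB a1 b1 b2 ?_
    have h1 := nr_add (B.N s • e y) (B.N s • e z)
    rw [hxv, ← smul_add, ← h.add, nr_smul, nr_smul, nr_smul, h.nr, h.nr, h.nr] at h1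
    have h2 : B.N s ^ 2 * (qN pB (y + z) : ℚ) = B.N s ^ 2 * (qN pB y + qN pB z) := by linarith
    exact_mod_cast mul_left_cancel₀ (pow_ne_zero 2 (B.N_pos s).ne') h2
  · rw [r_self h]; exact cntC1

theorem brandt3 (h₁ : c₁ < 0) (h₃ : c₃ < 0) (B : Brandt c₁ c₃ S) {k : ℤ}
    (hk : (4 * k - 1) % 5 = 1 ∨ (4 * k - 1) % 5 = 4)
    (hω : ∀ s, ∃ x ∈ B.L s s, 2 * x.re = B.N s ∧ (x * star x).re = k * B.N s ^ 2) :
    ∃ τ : S → Bool, ∀ s t, B.r 1 s t = (if τ s = τ t then 4 else 0) ∧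
      B.r 2 s t = (if τ s = τ t then 4 else 8) := by
  classical
  rcases isEmpty_or_nonempty S with hS | ⟨⟨s₀⟩⟩
  · exact ⟨fun _ => true, fun s => hS.elim s⟩
  refine ⟨fun s => decide (Rel B s₀ s), fun s t => ?_⟩
  obtain ⟨e, h⟩ := coord3 h₁ h₃ B hk s (hω s)
  have hiff : decide (Rel B s₀ s) = decide (Rel B s₀ t) ↔ Rel B s t := by
    rw [decide_eq_decide]
    constructor
    · intro hh
      by_cases h0 : Rel B s₀ s
      · exact h0.symm.trans (hh.1 h0)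
      · have h0' : ¬ Rel B s₀ t := fun h' => h0 (hh.2 h')
        obtain ⟨e₀, g⟩ := coord3 h₁ h₃ B hk s₀ (hω s₀)
        obtain ⟨x, hx, hn⟩ := short2 h₁ h₃ h0
        obtain ⟨x', hx', hn'⟩ := short2 h₁ h₃ h0'
        obtain ⟨y₁, y₂, z₁, z₂, a₁, a₂, b₁, b₂, hN⟩ :=
          pairA (idlA (jj_idl g hx hn) (jj_ne g hn h0)).2
            (idlA (jj_idl g hx' hn') (jj_ne g hn' h0')).2
        exact jj_pair g hn hn' a₁ a₂ b₁ b₂ hN
    · intro hr
      exact ⟨fun h' => h'.trans hr, fun h' => h'.trans hr.symm⟩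
  by_cases hr : Rel B s t
  · rw [if_pos (hiff.2 hr), if_pos (hiff.2 hr), hr.r_eq h₁ h₃, hr.r_eq h₁ h₃, r_self h, r_self h]
    exact ⟨cntA1, cntA2⟩
  · have hn := mt hiff.1 hr
    rw [if_neg hn, if_neg hn]
    obtain ⟨x, hx, hx2⟩ := short2 h₁ h₃ hr
    exact ⟨r_zero hr, by rw [r_two h hx hx2, (idlA (jj_idl h hx hx2) (jj_ne h hx2 hr)).1]⟩

end Pool.Agent.P.MP_8b7eba_nt.BSD15
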