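import Pool.Agent.P.MP_8b7eba_nt.BSD15.QFinalA
import Pool.Agent.P.MP_8b7eba_nt.BSD15.QNeigh
import Pool.Agent.P.MP_8b7eba_nt.BSD15.Latt

/-! Genus periods: the interface for the induction. -/

namespace Pool.Agent.P.MP_8b7eba_nt.BSD15

open Finset

theorem adm_of {n : ℕ} (hsq : Squarefree n) (h4 : n % 4 = 3) (h3 : n % 3 ≠ 0) (h5 : n % 5 ≠ 0) :
    Adm n := by
  refine ⟨hsq, ?_⟩
  have h2 : n.Coprime 2 := (Nat.coprime_two_right).2 (Nat.odd_iff.2 (by omega))
  have h3' : n.Coprime 3 :=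
    Nat.Coprime.symm ((Nat.Prime.coprime_iff_not_dvd Nat.prime_three).2 (by omega))
  have h5' : n.Coprime 5 :=
    Nat.Coprime.symm ((Nat.Prime.coprime_iff_not_dvd Nat.prime_five).2 (by omega))
  exact Nat.Coprime.mul_right (Nat.Coprime.mul_right h2 h3') h5'

section
variable {n : ℕ} [Good n]

theorem nm_aux_coprime {F : Ideal (OO n)} (hF : ((nm F : ℕ) : ZMod n) = -15)
    (hc : n.Coprime 15) : (nm F).Coprime n := by
  rw [← ZMod.isUnit_iff_coprime, hF]
  have : IsUnit ((15 : ℕ) : ZMod n) := (ZMod.isUnit_iff_coprime 15 n).2 hc.symm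
  simpa using this.neg

theorem four_k (n : ℕ) [Good n] : 4 * (((n + 1) / 4 : ℕ) : ℤ) - 1 = n := by
  have := Good.h4 (n := n); omega

theorem c_neg {F : Ideal (OO n)} (hF : (nm F).Coprime n) :
    (-(n : ℚ)) < 0 ∧ (-15 / (nm F : ℚ)) < 0 := by
  have h1 := Good.gt (n := n)
  have h2 : nm F ≠ 0 := fun h => ne_bot_of_coprime hF (nm_eq_zero.1 h)
  have h3 : (0 : ℚ) < nm F := by exact_mod_cast Nat.pos_of_ne_zero h2
  have h4 : (0 : ℚ) < n := by exact_mod_cast (by omega : 0 < n)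
  exact ⟨by linarith, div_neg_of_neg_of_pos (by norm_num) h3⟩

theorem types5 {F : Ideal (OO n)} (hF : ((nm F : ℕ) : ZMod n) = -15) (hc : n.Coprime 15)
    (h3 : n % 3 = 2) {A B : Ideal (OO n)} (hA : (nm A).Coprime n) (hB : (nm B).Coprime n) :
    (rr F A A 1 = 2 ∨ rr F A A 1 = 6) ∧
    rr F A B 1 = (if rr F A A 1 = rr F B B 1 then rr F A A 1 else 0) ∧
    rr F A B 2 = (if rr F A A 1 = rr F B B 1 then (if rr F A A 1 = 2 then 4 else 0) else 6) := by
  obtain ⟨Br, h1, h2⟩ := exists_brandt hF hc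
  obtain ⟨c1, c2⟩ := c_neg (nm_aux_coprime hF hc)
  have := brandt5 c1 c2 Br (k := (((n + 1) / 4 : ℕ) : ℤ)) (by rw [four_k]; omega)
    (fun s => by obtain ⟨x, a, b, c, -⟩ := h2 s; exact ⟨x, a, b, c⟩) ⟨A, hA⟩ ⟨B, hB⟩
  simpa only [h1] using this

theorem special5 {F : Ideal (OO n)} (hF : ((nm F : ℕ) : ZMod n) = -15) (hc : n.Coprime 15)
    (h3 : n % 3 = 2) {A : Ideal (OO n)} (hA : (nm A).Coprime n)
    (h : ∃ β : OO n, A * A * F = Ideal.span {β}) : rr F A A 1 = 6 := by
  obtain ⟨Br, h1, h2⟩ := exists_brandt hF hc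
  obtain ⟨c1, c2⟩ := c_neg (nm_aux_coprime hF hc)
  obtain ⟨x, a, b, c, d⟩ := h2 ⟨A, hA⟩
  obtain ⟨v, v1, v2, v3, v4⟩ := d h
  have := brandt5_special c1 c2 Br (k := (((n + 1) / 4 : ℕ) : ℤ)) (by rw [four_k]; omega)
    ⟨A, hA⟩ a v1 b c v2 v3 v4
  simpa only [h1] using this

theorem types3 {F : Ideal (OO n)} (hF : ((nm F : ℕ) : ZMod n) = -15) (hc : n.Coprime 15)
    (h5 : n % 5 = 1 ∨ n % 5 = 4) : ∃ τ : ClassGroup (OO n) → Bool, ∀ s t,
      rr F (rep s) (rep t) 1 = (if τ s = τ t then 4 else 0) ∧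
      rr F (rep s) (rep t) 2 = (if τ s = τ t then 4 else 8) := by
  obtain ⟨Br, h1, h2⟩ := exists_brandt hF hc
  obtain ⟨c1, c2⟩ := c_neg (nm_aux_coprime hF hc)
  obtain ⟨τ, hτ⟩ := brandt3 c1 c2 Br (k := (((n + 1) / 4 : ℕ) : ℤ)) (by rw [four_k]; omega)
    (fun s => by obtain ⟨x, a, b, c, -⟩ := h2 s; exact ⟨x, a, b, c⟩)
  refine ⟨fun s => τ ⟨rep s, rep_coprime s⟩, fun s t => ?_⟩
  simpa only [h1] using hτ ⟨rep s, rep_coprime s⟩ ⟨rep t, rep_coprime t⟩

theorem had_gJ (φ : ClassGroup (OO n) → ℤ) {l : ℕ} (hl : l ∈ n.primeFactors) {T : Finset ℕ}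
    (hT : T ⊆ n.primeFactors.erase l) :
    ∑ J ∈ (n.primeFactors.erase l).powerset with T ⊆ J, ∑ g, gJ J g * φ g =
      2 ^ (n.primeFactors.card - 1 - T.card) *
        ∑ g with (∀ p ∈ n.primeFactors.erase l \ T, gch p g = 1), gJ T g * φ g := by
  have := had_main (fun p (g : ClassGroup (OO n)) => gch p g) φ hT
    fun p hp g => gch_sq (mem_of_mem_erase hp) g
  rw [card_erase_of_mem hl] at this
  exact this

theorem sum_gJ_sub {l a : ℕ} (hl : l ∈ n.primeFactors) {T : Finset ℕ}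
    (hT : T ⊆ n.primeFactors.erase l) (ha : a ∈ T) :
    ∑ g : ClassGroup (OO n) with (∀ p ∈ n.primeFactors.erase l \ T, gch p g = 1), gJ T g = 0 := by
  have hT' : T ⊆ n.primeFactors := hT.trans (erase_subset _ _)
  have hlT : l ∉ T := fun h => (mem_erase.1 (hT h)).1 rfl
  obtain ⟨c, h1, -, h3⟩ := exists_two (hT' ha) hl fun h => hlT (h ▸ ha)
  refine sum_eq_zero_of_transl _ _ c (fun x => ?_) fun x => ?_
  · simp only [mem_filter, mem_univ, true_and]
    refine forall₂_congr fun p hp => ?_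
    rw [mem_sdiff, mem_erase] at hp
    rw [gch_mul hp.1.2, h3 p hp.1.2 (fun h => hp.2 (h ▸ ha)) hp.1.1, mul_one]
  · rw [gJ_mul hT', gJ_eq_neg_one hT' ha hlT h1 h3]; ring

theorem gch_one {p : ℕ} (hp : p ∈ n.primeFactors) : gch p (1 : ClassGroup (OO n)) = 1 := by
  have h1 := gch_mul hp (1 : ClassGroup (OO n)) 1
  have h2 := gch_sq hp (1 : ClassGroup (OO n))
  rw [mul_one] at h1
  linear_combination h1 + h2

theorem gch_inv {p : ℕ} (hp : p ∈ n.primeFactors) (c : ClassGroup (OO n)) :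
    gch p c⁻¹ = gch p c := by
  have h1 := gch_mul hp c c⁻¹
  have h2 := gch_sq hp c
  rw [mul_inv_cancel, gch_one hp] at h1
  linear_combination -gch p c * h1 - gch p c⁻¹ * h2

theorem odd_card_squares (h : No4 n) {l : ℕ} (hl : l ∈ n.primeFactors) :
    Odd (univ.filter fun g : ClassGroup (OO n) =>
      ∀ p ∈ n.primeFactors.erase l \ ∅, gch p g = 1).card := by
  classical
  obtain ⟨k, hk⟩ := card_invol (univ.filter fun g : ClassGroup (OO n) =>
      ∀ p ∈ n.primeFactors.erase l \ ∅, gch p g = 1) (fun g => g⁻¹)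
    (fun a ha => by
      simp only [mem_filter, mem_univ, true_and, sdiff_empty] at ha ⊢
      intro p hp
      rw [gch_inv (mem_of_mem_erase hp), ha p hp]) (fun a _ => inv_inv a)
  rw [hk, card_eq_one.2 ⟨1, ?_⟩]
  · exact ⟨k, by ring⟩
  · ext g
    simp only [mem_filter, mem_univ, true_and, sdiff_empty, mem_singleton]
    constructor
    · rintro ⟨h1, h2⟩
      have h3 : gch l g = 1 := by
        have := prod_gch g
        rwa [← mul_prod_erase _ _ hl, prod_eq_one h1, mul_one] at this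
      obtain ⟨d, rfl⟩ := (isSquare_iff g).2 fun p hp => by
        by_cases hpl : p = l
        · rw [hpl, h3]
        · exact h1 p (mem_erase.2 ⟨hpl, hp⟩)
      refine h d ?_
      have := mul_inv_cancel (d ^ 2)
      rw [h2, ← pow_add] at this
      exact this
    · rintro rfl
      exact ⟨fun p hp => gch_one (mem_of_mem_erase hp), inv_one⟩

theorem exists_two_torsion {R : Finset ℕ} (hR : R ⊆ n.primeFactors)
    (hc : R.card < n.primeFactors.card - 1) :
    ∃ c : ClassGroup (OO n), c ≠ 1 ∧ c ^ 2 = 1 ∧ ∀ p ∈ R, gch p c = 1 := by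
  classical
  have h1 : (univ.filter fun c : ClassGroup (OO n) => c ^ 2 = 1).card =
      2 ^ (n.primeFactors.card - 1) := by
    rw [← card_two_torsion, Nat.card_eq_fintype_card, Fintype.card_subtype]
  obtain ⟨x, hx, y, hy, hxy, e⟩ := exists_ne_map_eq_of_card_lt_of_maps_to
    (s := univ.filter fun c : ClassGroup (OO n) => c ^ 2 = 1) (t := R.powerset)
    (by rw [h1, card_powerset]; exact Nat.pow_lt_pow_right (by norm_num) hc)
    (f := fun c => R.filter fun p => gch p c = 1) (fun c _ => mem_coe.2 (mem_powerset.2 (filter_subset _ _)))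
  simp only [mem_filter, mem_univ, true_and] at hx hy
  refine ⟨x * y, fun h => hxy ?_, by rw [mul_pow, hx, hy, mul_one], fun p hp => ?_⟩
  · have : x * y = y * y := by rw [h, ← sq, hy]
    exact mul_right_cancel this
  · have e1 : gch p x = 1 ↔ gch p y = 1 := by
      have := Finset.ext_iff.1 e p
      simpa [hp] using this
    rw [gch_mul (hR hp)]
    rcases sq_eq_one_iff.1 (gch_sq (hR hp) x) with a | a <;>
      rcases sq_eq_one_iff.1 (gch_sq (hR hp) y) with b | b <;> simp_all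

theorem even_special {F : Ideal (OO n)} (hF : ((nm F : ℕ) : ZMod n) = -15) (hc : n.Coprime 15)
    (h3 : n % 3 = 2) (hq : ∀ q ∈ n.primeFactors, jacobiSym (-15) q = 1) {R : Finset ℕ}
    (hR : R ⊆ n.primeFactors) (hcard : R.card < n.primeFactors.card - 1) :
    Even (univ.filter fun g : ClassGroup (OO n) =>
      (∀ p ∈ R, gch p g = 1) ∧ rr F (rep g) (rep g) 1 = 6).card := by
  classical
  have hFc := nm_aux_coprime hF hc
  have hF0 := ne_bot_of_coprime hFc
  have hgF : ∀ p ∈ n.primeFactors, gch p (cls F) = 1 := by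
    intro p hp
    have hpp := Nat.prime_of_mem_primeFactors hp
    have hpn := Nat.dvd_of_mem_primeFactors hp
    rw [gch_cls hp hF0, Xp_of_not_dvd n fun h =>
      hpp.one_lt.ne' (Nat.eq_one_of_dvd_coprimes hFc h hpn), ← hq p hp]
    refine jacobiSym.mod_left' ?_
    have : ((nm F : ℤ) : ZMod n) = ((-15 : ℤ) : ZMod n) := by push_cast; exact hF
    exact ((ZMod.intCast_eq_intCast_iff _ _ _).1 this).of_dvd (by exact_mod_cast hpn)
  obtain ⟨k, hk⟩ := card_invol (univ.filter fun g : ClassGroup (OO n) =>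
      (∀ p ∈ R, gch p g = 1) ∧ rr F (rep g) (rep g) 1 = 6) (fun g => g⁻¹ * (cls F)⁻¹)
    (fun a ha => by
      simp only [mem_filter, mem_univ, true_and] at ha ⊢
      refine ⟨fun p hp => by
        rw [gch_mul (hR hp), gch_inv (hR hp), gch_inv (hR hp), ha.1 p hp, hgF p (hR hp), mul_one], ?_⟩
      have h1 : (nm (cj (rep a) * cj F)).Coprime n := by
        rw [nm_mul, nm_cj, nm_cj]; exact Nat.Coprime.mul_left (rep_coprime a) hFc
      have h2 : cls (cj (rep a) * cj F) = cls (rep (a⁻¹ * (cls F)⁻¹)) := by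
        rw [cls_mul (ne_bot_of_coprime (by rw [nm_cj]; exact rep_coprime a))
          (ne_bot_of_coprime (by rw [nm_cj]; exact hFc)), cls_cj, cls_cj, cls_rep, cls_rep]
      have h4 := rr_pos_of_cls_eq hF0 (ne_bot_of_coprime h1)
        (ne_bot_of_coprime (rep_coprime _)) h2
      rw [(types5 hF hc h3 h1 (rep_coprime _)).2.1, rr_conj hFc, ha.2] at h4
      split_ifs at h4 with h5
      · exact h5.symm
      · exact absurd h4 (lt_irrefl _))
    (fun a _ => by simp [mul_comm])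
  rw [hk]
  refine Even.add ?_ (even_two_mul k)
  obtain ⟨c, c1, c2, c3⟩ := exists_two_torsion hR hcard
  refine even_card_of_invol _ (fun g => g * c) (fun a ha => ?_)
    (fun a _ => by rw [mul_assoc, ← sq, c2, mul_one]) (fun a _ h => c1 (by simpa using h))
  simp only [mem_filter, mem_univ, true_and] at ha ⊢
  have hci : c⁻¹ = c := inv_eq_of_mul_eq_one_right (by rw [← sq, c2])
  have h1 : (a * c)⁻¹ * (cls F)⁻¹ = a * c := by
    rw [mul_inv, hci, mul_right_comm, ha.2]
  refine ⟨⟨fun p hp => by rw [gch_mul (hR hp), ha.1.1 p hp, c3 p hp, mul_one], ?_⟩, h1⟩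
  have h0 := ne_bot_of_coprime (rep_coprime (a * c))
  have h00 : rep (a * c) * rep (a * c) ≠ ⊥ := mul_ne_zero h0 h0
  refine special5 hF hc h3 (rep_coprime _) ((cls_eq_one_iff (mul_ne_zero h00 hF0)).1 ?_)
  rw [cls_mul h00 hF0, cls_mul h0 h0, cls_rep]
  generalize a * c = x at h1
  nth_rewrite 1 [← h1]
  simp [mul_comm]

end

theorem iface5 {n : ℕ} (h : B5 n) : Iface5 lam n (No4 n) := by
  classical
  obtain ⟨hsq, h4, h3, h5⟩ := h
  have : Good n := ⟨hsq, h4, by omega⟩
  have hA : Adm n := adm_of hsq h4 (by omega) (by omega)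
  have hc : n.Coprime 15 := Nat.Coprime.coprime_dvd_right (by norm_num) hA.2
  have h15 := jac15_of h4 (Or.inl ⟨h3, h5⟩)
  obtain ⟨F, hF⟩ := exists_aux (jac_neg15_of h4 h15)
  let t : ClassGroup (OO n) → ℤ := fun g => if rr F (rep g) (rep g) 1 = 6 then 1 else 0
  have hr : ∀ x y, ((rr F (rep x) (rep y) 1 : ℤ) = 2 * ((1 - t x) * (1 - t y)) +
      0 * (t x * (1 - t y) + (1 - t x) * t y) + 6 * (t x * t y)) ∧
      ((rr F (rep x) (rep y) 2 : ℤ) = 4 * ((1 - t x) * (1 - t y)) +
      6 * (t x * (1 - t y) + (1 - t x) * t y) + 0 * (t x * t y)) := by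
    intro x y
    obtain ⟨a, b, c⟩ := types5 hF hc h3 (rep_coprime x) (rep_coprime y)
    obtain ⟨d, -⟩ := types5 hF hc h3 (rep_coprime y) (rep_coprime y)
    rw [b, c]
    rcases a with a | a <;> rcases d with d | d <;> simp [t, a, d]
  have hP : ∀ (S : Finset (ClassGroup (OO n))) (χ : ClassGroup (OO n) → ℤ),
      ∑ g ∈ S, χ g * (1 - 4 * t g) = ∑ g ∈ S, χ g - 4 * ∑ g ∈ S, χ g * t g := by
    intro S χ
    rw [mul_sum, ← sum_sub_distrib]
    exact sum_congr rfl fun g _ => by ring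
  refine ⟨fun J => ∑ g, gJ J g * (1 - 4 * t g), fun J hJ h0 h1 => ?_, ?_, fun l hl => ?_,
    fun l hl q hq hql => ?_, fun hq l hl a ha b hb hal hbl hab => ?_⟩
  · have e := gross_nontriv hF hA h15 hJ h0 h1
    rw [sum_kernel _ t _ _ _ _ fun x y => (hr x y).1, sum_gJ_eq_zero hJ h0 h1] at e
    beta_reduce
    rw [hP, sum_gJ_eq_zero hJ h0 h1, ← abs_neg, ← e,
      abs_of_nonneg (by rw [mul_zero, zero_mul, add_zero]; positivity)]
    ring
  · have e := gross_triv hF hA h15
    have e1 := sum_kernel (fun _ => 1) t _ _ _ _ fun x y => (hr x y).1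
    have e2 := sum_kernel (fun _ => 1) t _ _ _ _ fun x y => (hr x y).2
    simp only [one_mul] at e1 e2
    rw [e1, e2] at e
    have : lam n = 2 * (∑ g, gJ ∅ g * (1 - 4 * t g)) ^ 2 := by
      rw [hP]; simp only [gJ, prod_empty, one_mul]; linear_combination e
    rw [this, abs_of_nonneg (by positivity)]
  · have e := had_gJ (fun g => 1 - 4 * t g) hl (empty_subset _)
    simp only [empty_subset, filter_true, card_empty, tsub_zero] at e
    refine ⟨_, e, fun hS => ?_⟩
    rw [hP]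
    simp only [gJ, prod_empty, sum_const, nsmul_eq_mul, mul_one]
    refine Odd.sub_even ?_ (by exact ⟨2 * _, by ring⟩)
    exact_mod_cast odd_card_squares hS hl
  · have hT : {q} ⊆ n.primeFactors.erase l := by simp [hql, hq]
    have e := had_gJ (fun g => 1 - 4 * t g) hl hT
    simp only [singleton_subset_iff, card_singleton] at e
    rw [e, hP, sum_gJ_sub hl hT (mem_singleton_self q)]
    have h2 : 1 < n.primeFactors.card := one_lt_card.2 ⟨q, hq, l, hl, hql⟩
    obtain ⟨k, hk⟩ : ∃ k, n.primeFactors.card = k + 2 := ⟨n.primeFactors.card - 2, by omega⟩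
    rw [hk]
    generalize (∑ g with (∀ p ∈ n.primeFactors.erase l \ {q}, gch p g = 1), gJ {q} g * t g) = w
    exact ⟨-w, by simp only [Nat.add_succ_sub_one, add_tsub_cancel_right]; ring⟩
  · have hT : {a, b} ⊆ n.primeFactors.erase l := by
      intro x hx; simp only [mem_insert, mem_singleton] at hx
      rcases hx with rfl | rfl <;> simp [*]
    have hT' : {a, b} ⊆ n.primeFactors := hT.trans (erase_subset _ _)
    have e := had_gJ (fun g => 1 - 4 * t g) hl hT
    simp only [insert_subset_iff, singleton_subset_iff, card_pair hab] at e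
    rw [e, hP, sum_gJ_sub hl hT (mem_insert_self a _)]
    have h2 : 2 < n.primeFactors.card := two_lt_card.2 ⟨a, ha, b, hb, l, hl, hab, hal, hbl⟩
    have h6 := even_special hF hc h3 hq (R := n.primeFactors.erase l \ {a, b})
      (sdiff_subset.trans (erase_subset _ _))
      (by rw [card_sdiff_of_subset hT, card_erase_of_mem hl, card_pair hab]; omega)
    obtain ⟨w, hw⟩ := even_sum_sign _ (gJ {a, b}) (fun x _ => gJ_sq hT' x) h6
    have h7 : ∑ g with (∀ p ∈ n.primeFactors.erase l \ {a, b}, gch p g = 1),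
        gJ {a, b} g * t g = w + w := by
      rw [← hw, ← filter_filter, sum_filter (p := fun g => rr F (rep g) (rep g) 1 = 6)]
      exact sum_congr rfl fun g _ => by simp [t]
    obtain ⟨k, hk⟩ : ∃ k, n.primeFactors.card = k + 3 := ⟨n.primeFactors.card - 3, by omega⟩
    rw [h7, hk]
    exact ⟨-w, by simp only [Nat.add_succ_sub_one, add_tsub_cancel_right]; ring⟩

theorem iface3 {n : ℕ} (h : B3 n) : Iface3 lam n := by
  classical
  obtain ⟨hsq, h4, h3, h5⟩ := h
  have : Good n := ⟨hsq, h4, by omega⟩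
  have hA : Adm n := adm_of hsq h4 (by omega) (by omega)
  have hc : n.Coprime 15 := Nat.Coprime.coprime_dvd_right (by norm_num) hA.2
  have h15 := jac15_of h4 (Or.inr ⟨h3, h5⟩)
  obtain ⟨F, hF⟩ := exists_aux (jac_neg15_of h4 h15)
  obtain ⟨τ, hτ⟩ := types3 hF hc h5
  let t : ClassGroup (OO n) → ℤ := fun g => if τ g then 1 else 0
  have hr : ∀ x y, ((rr F (rep x) (rep y) 1 : ℤ) = 4 * ((1 - t x) * (1 - t y)) +
      0 * (t x * (1 - t y) + (1 - t x) * t y) + 4 * (t x * t y)) ∧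
      ((rr F (rep x) (rep y) 2 : ℤ) = 4 * ((1 - t x) * (1 - t y)) +
      8 * (t x * (1 - t y) + (1 - t x) * t y) + 4 * (t x * t y)) := by
    intro x y
    obtain ⟨b, c⟩ := hτ x y
    rw [b, c]
    cases a : τ x <;> cases d : τ y <;> simp [t, a, d]
  have hP : ∀ (S : Finset (ClassGroup (OO n))) (χ : ClassGroup (OO n) → ℤ),
      ∑ g ∈ S, χ g * (1 - 2 * t g) = ∑ g ∈ S, χ g - 2 * ∑ g ∈ S, χ g * t g := by
    intro S χ
    rw [mul_sum, ← sum_sub_distrib]
    exact sum_congr rfl fun g _ => by ring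
  refine ⟨fun J => ∑ g, gJ J g * (1 - 2 * t g), fun J hJ h0 h1 => ?_, ?_, fun l hl => ?_,
    fun l hl q hq hql => ?_⟩
  · have e := gross_nontriv hF hA h15 hJ h0 h1
    rw [sum_kernel _ t _ _ _ _ fun x y => (hr x y).1, sum_gJ_eq_zero hJ h0 h1] at e
    beta_reduce
    rw [hP, sum_gJ_eq_zero hJ h0 h1, ← abs_neg, ← e,
      abs_of_nonneg (by rw [mul_zero, zero_mul, add_zero]; positivity)]
    ring
  · have e := gross_triv hF hA h15
    have e1 := sum_kernel (fun _ => 1) t _ _ _ _ fun x y => (hr x y).1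
    have e2 := sum_kernel (fun _ => 1) t _ _ _ _ fun x y => (hr x y).2
    simp only [one_mul] at e1 e2
    rw [e1, e2] at e
    have : lam n = 8 * (∑ g, gJ ∅ g * (1 - 2 * t g)) ^ 2 := by
      rw [hP]; simp only [gJ, prod_empty, one_mul]; linear_combination e
    rw [this, abs_of_nonneg (by positivity)]
  · have e := had_gJ (fun g => 1 - 2 * t g) hl (empty_subset _)
    simp only [empty_subset, filter_true, card_empty, tsub_zero] at e
    exact ⟨_, e⟩
  · have hT : {q} ⊆ n.primeFactors.erase l := by simp [hql, hq]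
    have e := had_gJ (fun g => 1 - 2 * t g) hl hT
    simp only [singleton_subset_iff, card_singleton] at e
    rw [e, hP, sum_gJ_sub hl hT (mem_singleton_self q)]
    have h2 : 1 < n.primeFactors.card := one_lt_card.2 ⟨q, hq, l, hl, hql⟩
    obtain ⟨k, hk⟩ : ∃ k, n.primeFactors.card = k + 2 := ⟨n.primeFactors.card - 2, by omega⟩
    rw [hk]
    generalize (∑ g with (∀ p ∈ n.primeFactors.erase l \ {q}, gch p g = 1), gJ {q} g * t g) = w
    exact ⟨-w, by simp only [Nat.add_succ_sub_one, add_tsub_cancel_right]; ring⟩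

theorem no4_prime {l : ℕ} (hl : l.Prime) : No4 l := by
  intro _ c hc
  have h1 := card_two_torsion (n := l)
  rw [hl.primeFactors, card_singleton, Nat.sub_self, pow_zero, Nat.card_eq_one_iff_unique] at h1
  have := h1.1.elim (⟨c ^ 2, by rw [← pow_mul]; exact hc⟩ : {c : ClassGroup (OO l) // c ^ 2 = 1})
    ⟨1, one_pow 2⟩
  exact congrArg Subtype.val this

end Pool.Agent.P.MP_8b7eba_nt.BSD15
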