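import Pool.Agent.P.MP_8b7eba_nt.BSD15.Defs

/-! Hadamard sums over subsets and parity lemmas. -/

namespace Pool.Agent.P.MP_8b7eba_nt.BSD15

open Finset

theorem had_sum_superset (f : ℕ → ℤ) {Q T : Finset ℕ} (hT : T ⊆ Q) :
    ∑ J ∈ Q.powerset with T ⊆ J, ∏ p ∈ J, f p = (∏ p ∈ T, f p) * ∏ p ∈ Q \ T, (1 + f p) := by
  rw [prod_one_add, mul_sum]
  refine sum_bij' (fun J _ => J \ T) (fun J _ => J ∪ T) ?_ ?_ ?_ ?_ ?_
  · intro J hJ
    simp only [mem_filter, mem_powerset] at hJ ⊢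
    exact sdiff_subset_sdiff hJ.1 Subset.rfl
  · intro J hJ
    simp only [mem_filter, mem_powerset] at hJ ⊢
    exact ⟨union_subset (hJ.trans sdiff_subset) hT, subset_union_right⟩
  · intro J hJ
    simp only [mem_filter, mem_powerset] at hJ
    exact sdiff_union_of_subset hJ.2
  · intro J hJ
    simp only [mem_powerset] at hJ
    exact union_sdiff_cancel_right (disjoint_of_subset_left hJ sdiff_disjoint)
  · intro J hJ
    simp only [mem_filter, mem_powerset] at hJ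
    rw [mul_comm, prod_sdiff hJ.2]

theorem had_prod_one_add (f : ℕ → ℤ) {R : Finset ℕ} (h : ∀ p ∈ R, f p ^ 2 = 1) :
    ∏ p ∈ R, (1 + f p) = if ∀ p ∈ R, f p = 1 then 2 ^ R.card else 0 := by
  split_ifs with h1
  · rw [prod_congr rfl (g := fun _ => 2) fun p hp => by rw [h1 p hp]; rfl, prod_const]
  · push Not at h1
    obtain ⟨p, hp, h2⟩ := h1
    refine prod_eq_zero hp ?_
    rcases sq_eq_one_iff.1 (h p hp) with h3 | h3
    · exact absurd h3 h2
    · rw [h3]; rfl

theorem had_main {G : Type*} [Fintype G] (χ : ℕ → G → ℤ) (φ : G → ℤ) {Q T : Finset ℕ}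
    (hT : T ⊆ Q) (h : ∀ p ∈ Q, ∀ g, χ p g ^ 2 = 1) :
    ∑ J ∈ Q.powerset with T ⊆ J, ∑ g, (∏ p ∈ J, χ p g) * φ g =
      2 ^ (Q.card - T.card) *
        ∑ g with (∀ p ∈ Q \ T, χ p g = 1), (∏ p ∈ T, χ p g) * φ g := by
  rw [sum_comm, sum_filter, mul_sum]
  refine sum_congr rfl fun g _ => ?_
  rw [← sum_mul, had_sum_superset (fun p => χ p g) hT,
    had_prod_one_add (fun p => χ p g) fun p hp => h p (sdiff_subset hp) g, card_sdiff_of_subset hT]
  split_ifs <;> ring

theorem even_card_of_invol {G : Type*} (S : Finset G) (σ : G → G) (h1 : ∀ a ∈ S, σ a ∈ S)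
    (h2 : ∀ a ∈ S, σ (σ a) = a) (h3 : ∀ a ∈ S, σ a ≠ a) : Even S.card := by
  have := sum_involution (s := S) (f := fun _ => (1 : ZMod 2)) (fun a _ => σ a)
    (fun _ _ => by decide) (fun a ha _ => h3 a ha) h1 h2
  rw [sum_const, nsmul_one] at this
  exact (ZMod.natCast_eq_zero_iff_even).1 this

theorem card_invol {G : Type*} [DecidableEq G] (S : Finset G) (σ : G → G)
    (h1 : ∀ a ∈ S, σ a ∈ S) (h2 : ∀ a ∈ S, σ (σ a) = a) :
    ∃ k, S.card = (S.filter fun a => σ a = a).card + 2 * k := by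
  obtain ⟨k, hk⟩ := even_card_of_invol (S.filter fun a => ¬ σ a = a) σ
    (fun a ha => by
      rw [mem_filter] at ha ⊢
      refine ⟨h1 a ha.1, fun h => ha.2 ?_⟩
      rw [h2 a ha.1] at h
      exact h.symm)
    (fun a ha => h2 a (mem_filter.1 ha).1) (fun a ha => (mem_filter.1 ha).2)
  exact ⟨k, by rw [← card_filter_add_card_filter_not (s := S) fun a => σ a = a, hk]; ring⟩

/-- a sum of a sign character over a translation invariant set vanishes -/
theorem sum_eq_zero_of_transl {G : Type*} [CommGroup G] (S : Finset G) (χ : G → ℤ) (c : G)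
    (h1 : ∀ a, a ∈ S ↔ a * c ∈ S) (h2 : ∀ a, χ (a * c) = -χ a) : ∑ a ∈ S, χ a = 0 := by
  have : ∑ a ∈ S, χ a = ∑ a ∈ S, χ (a * c) := by
    refine (sum_bij' (fun a _ => a * c) (fun a _ => a * c⁻¹) (fun a ha => (h1 a).1 ha)
      (fun a ha => (h1 _).2 (by simpa using ha)) (fun a _ => by simp) (fun a _ => by simp)
      (fun a _ => rfl)).symm
  simp only [h2, sum_neg_distrib] at this
  omega

theorem even_sum_sign {G : Type*} (S : Finset G) (χ : G → ℤ) (h : ∀ a ∈ S, χ a ^ 2 = 1)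
    (hS : Even S.card) : Even (∑ a ∈ S, χ a) := by
  have : ∑ a ∈ S, χ a = S.card + ∑ a ∈ S, (χ a - 1) := by simp [sum_sub_distrib]
  rw [this]
  refine Even.add (by exact_mod_cast hS) (even_sum _ fun a ha => ?_)
  rcases sq_eq_one_iff.1 (h a ha) with h3 | h3 <;> rw [h3] <;> decide

end Pool.Agent.P.MP_8b7eba_nt.BSD15
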