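import Pool.Agent.P.MP_8b7eba_nt.BSD15.Gross
import Pool.Agent.P.MP_8b7eba_nt.BSD15.CNF
import Pool.Agent.P.MP_8b7eba_nt.BSD15.Eval
import Pool.Agent.P.MP_8b7eba_nt.BSD15.QHad

/-! The Gross formula for genus characters. -/

namespace Pool.Agent.P.MP_8b7eba_nt.BSD15

open Finset

theorem jac15_of {n : ℕ} (h4 : n % 4 = 3)
    (h : (n % 3 = 2 ∧ (n % 5 = 2 ∨ n % 5 = 3)) ∨ (n % 3 = 1 ∧ (n % 5 = 1 ∨ n % 5 = 4))) :
    jacobiSym 15 n = -1 := by
  have hodd : Odd n := Nat.odd_iff.2 (by omega)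
  have e3 : jacobiSym 3 n = -jacobiSym n 3 := by
    have := jacobiSym.quadratic_reciprocity_three_mod_four (a := 3) (b := n) (by norm_num) h4
    exact_mod_cast this
  have e5 : jacobiSym 5 n = jacobiSym n 5 := by
    have := jacobiSym.quadratic_reciprocity_one_mod_four (a := 5) (b := n) (by norm_num) hodd
    exact_mod_cast this
  have m3 : jacobiSym n 3 = jacobiSym ((n % 3 : ℕ) : ℤ) 3 := by
    rw [jacobiSym.mod_left]; push_cast; rfl
  have m5 : jacobiSym n 5 = jacobiSym ((n % 5 : ℕ) : ℤ) 5 := by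
    rw [jacobiSym.mod_left]; push_cast; rfl
  rw [show (15 : ℤ) = 3 * 5 by norm_num, jacobiSym.mul_left, e3, e5, m3, m5]
  rcases h with ⟨h3, h5 | h5⟩ | ⟨h3, h5 | h5⟩ <;> rw [h3, h5] <;> norm_num

theorem jac_neg15_of {n : ℕ} (h4 : n % 4 = 3) (h : jacobiSym 15 n = -1) :
    jacobiSym (-15) n = 1 := by
  have hodd : Odd n := Nat.odd_iff.2 (by omega)
  rw [jacobiSym.neg _ hodd, h, ZMod.χ₄_nat_three_mod_four h4]; norm_num

variable {n : ℕ} [Good n]

theorem gJ_mul {J : Finset ℕ} (hJ : J ⊆ n.primeFactors) (c d : ClassGroup (OO n)) :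
    gJ J (c * d) = gJ J c * gJ J d := by
  simp only [gJ, ← prod_mul_distrib]
  exact prod_congr rfl fun p hp => gch_mul (hJ hp) c d

theorem gJ_sq {J : Finset ℕ} (hJ : J ⊆ n.primeFactors) (c : ClassGroup (OO n)) :
    gJ J c ^ 2 = 1 := by
  simp only [gJ, ← prod_pow]
  exact prod_eq_one fun p hp => gch_sq (hJ hp) c

theorem gJ_compl {J : Finset ℕ} (hJ : J ⊆ n.primeFactors) (c : ClassGroup (OO n)) :
    gJ (n.primeFactors \ J) c = gJ J c := by
  have h1 : gJ (n.primeFactors \ J) c * gJ J c = 1 := by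
    simp only [gJ]; rw [prod_sdiff hJ, prod_gch]
  have h2 := gJ_sq hJ c
  linear_combination gJ J c * h1 - gJ (n.primeFactors \ J) c * h2

/-- a class on which exactly two genus characters are `-1` -/
theorem exists_two {a b : ℕ} (ha : a ∈ n.primeFactors) (hb : b ∈ n.primeFactors) (hab : a ≠ b) :
    ∃ c : ClassGroup (OO n), gch a c = -1 ∧ gch b c = -1 ∧
      ∀ p ∈ n.primeFactors, p ≠ a → p ≠ b → gch p c = 1 := by
  obtain ⟨c, hc⟩ := gch_surj (n := n) (fun p => if p = a ∨ p = b then -1 else 1)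
    (fun p _ => by split_ifs <;> simp) (by
      rw [← prod_sdiff (s₁ := {a, b}) (by intro x hx; simp at hx; rcases hx with rfl | rfl <;> assumption),
        prod_pair hab, prod_eq_one]
      · simp
      · intro p hp
        simp only [mem_sdiff, mem_insert, mem_singleton] at hp
        rw [if_neg hp.2])
  refine ⟨c, by simpa using hc a ha, by simpa using hc b hb, fun p hp h1 h2 => ?_⟩
  simpa [h1, h2] using hc p hp

theorem gJ_eq_neg_one {J : Finset ℕ} (hJ : J ⊆ n.primeFactors) {a b : ℕ} (ha : a ∈ J)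
    (hb : b ∉ J) {c : ClassGroup (OO n)} (h1 : gch a c = -1)
    (h2 : ∀ p ∈ n.primeFactors, p ≠ a → p ≠ b → gch p c = 1) : gJ J c = -1 := by
  rw [gJ, ← mul_prod_erase J _ ha, h1, prod_eq_one, mul_one]
  intro p hp
  rw [mem_erase] at hp
  exact h2 p (hJ hp.2) hp.1 fun h => hb (h ▸ hp.2)

theorem sum_gJ_eq_zero {J : Finset ℕ} (hJ : J ⊆ n.primeFactors) (h0 : J ≠ ∅)
    (h1 : J ≠ n.primeFactors) : ∑ c : ClassGroup (OO n), gJ J c = 0 := by
  obtain ⟨a, ha⟩ := nonempty_iff_ne_empty.2 h0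
  obtain ⟨b, hb, hb'⟩ := exists_of_ssubset (ssubset_of_subset_of_ne hJ h1)
  obtain ⟨c, h2, -, h3⟩ := exists_two (hJ ha) hb fun h => hb' (h ▸ ha)
  refine sum_eq_zero_of_transl univ _ c (by simp) fun x => ?_
  rw [gJ_mul hJ, gJ_eq_neg_one hJ ha hb' h2 h3]; ring

theorem XJ_one (n : ℕ) (J : Finset ℕ) : XJ n J 1 = 1 := by simp [XJ, Xp]

theorem Rn_one (n : ℕ) : Rn n 1 = 1 := by simp [Rn]

theorem Rn_two (n : ℕ) : Rn n 2 = 1 + jacobiSym 2 n := by
  rw [Rn, Nat.Prime.divisors Nat.prime_two]; simp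

theorem gross_aux {F : Ideal (OO n)} (hF : ((nm F : ℕ) : ZMod n) = -15) (hA : Adm n)
    (h15 : jacobiSym 15 n = -1) {J : Finset ℕ} (hJ : J ⊆ n.primeFactors) (h0 : J ≠ ∅)
    (h1 : (∏ p ∈ J, p) % 4 = 1) :
    ∑ s : ClassGroup (OO n), ∑ t : ClassGroup (OO n), gJ J s * gJ J t * rr F (rep s) (rep t) 1 =
      -(lam (∏ p ∈ J, p) * lam (n / ∏ p ∈ J, p)) := by
  have hc : n.Coprime 15 := Nat.Coprime.coprime_dvd_right (by norm_num) hA.2
  have hd : (∏ p ∈ J, p) ∣ n := (prod_dvd_prod_of_subset _ _ _ hJ).trans (Nat.prod_primeFactors_dvd n)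
  have hp : ∀ p ∈ J, p.Prime := fun p hp => Nat.prime_of_mem_primeFactors (hJ hp)
  obtain ⟨n₂, hn⟩ := hd
  have hpf : (∏ p ∈ J, p).primeFactors = J := Nat.primeFactors_prod hp
  have hpos : 1 < ∏ p ∈ J, p := by
    by_contra hlt
    have : (∏ p ∈ J, p) = 1 := by omega
    rw [this, Nat.primeFactors_one] at hpf
    exact h0 hpf.symm
  have h4 : n % 4 = 3 := Good.h4
  have h42 : n₂ % 4 = 3 := by
    rw [hn, Nat.mul_mod, h1, one_mul, Nat.mod_mod] at h4; exact h4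
  have e := modular_side (hn ▸ hA) hpos h1 h42 (hn ▸ h15)
  rw [← hn, hpf, ← class_number_formula n] at e
  have hdiv : n / ∏ p ∈ J, p = n₂ := by
    rw [hn, Nat.mul_div_cancel_left _ (by omega)]
  rw [gross hF hc hJ (Or.inl rfl), XJ_one, Rn_one, hdiv]
  have e' : (2 * (Fintype.card (ClassGroup (OO n)) : ℤ) + 2 * CFsum n J 1 : ℤ) =
      -(lam (∏ p ∈ J, p) * lam n₂) := by exact_mod_cast e
  linear_combination e'

theorem gross_nontriv {F : Ideal (OO n)} (hF : ((nm F : ℕ) : ZMod n) = -15) (hA : Adm n)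
    (h15 : jacobiSym 15 n = -1) {J : Finset ℕ} (hJ : J ⊆ n.primeFactors) (h0 : J ≠ ∅)
    (h1 : J ≠ n.primeFactors) :
    ∑ s : ClassGroup (OO n), ∑ t : ClassGroup (OO n), gJ J s * gJ J t * rr F (rep s) (rep t) 1 =
      -(lam (∏ p ∈ J, p) * lam (n / ∏ p ∈ J, p)) := by
  have hprod : (∏ p ∈ n.primeFactors \ J, p) * ∏ p ∈ J, p = n := by
    rw [prod_sdiff hJ, Nat.prod_primeFactors_of_squarefree hA.1]
  have h4 : n % 4 = 3 := Good.h4
  have hpos : 0 < n := by omega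
  by_cases h : (∏ p ∈ J, p) % 4 = 1
  · exact gross_aux hF hA h15 hJ h0 h
  · have h' : (∏ p ∈ n.primeFactors \ J, p) % 4 = 1 := by
      rw [← hprod, Nat.mul_mod] at h4
      have := Nat.mod_lt (∏ p ∈ n.primeFactors \ J, p) (show 0 < 4 by norm_num)
      have := Nat.mod_lt (∏ p ∈ J, p) (show 0 < 4 by norm_num)
      generalize (∏ p ∈ n.primeFactors \ J, p) % 4 = x at *
      generalize (∏ p ∈ J, p) % 4 = y at *
      interval_cases x <;> interval_cases y <;> simp_all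
    have e := gross_aux hF hA h15 (J := n.primeFactors \ J) sdiff_subset
      (fun h2 => h1 (subset_antisymm hJ (sdiff_eq_empty_iff_subset.1 h2))) h'
    simp only [gJ_compl hJ] at e
    have d1 : n / ∏ p ∈ n.primeFactors \ J, p = ∏ p ∈ J, p :=
      Nat.div_eq_of_eq_mul_right (Nat.pos_of_mul_pos_right (hprod ▸ hpos)) hprod.symm
    have d2 : n / ∏ p ∈ J, p = ∏ p ∈ n.primeFactors \ J, p :=
      Nat.div_eq_of_eq_mul_left (Nat.pos_of_mul_pos_left (hprod ▸ hpos)) hprod.symm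
    rw [e, d1, d2, mul_comm]

theorem gross_triv {F : Ideal (OO n)} (hF : ((nm F : ℕ) : ZMod n) = -15) (hA : Adm n)
    (h15 : jacobiSym 15 n = -1) :
    (∑ s : ClassGroup (OO n), ∑ t : ClassGroup (OO n), (rr F (rep s) (rep t) 2 : ℤ)) -
      3 * ∑ s : ClassGroup (OO n), ∑ t : ClassGroup (OO n), (rr F (rep s) (rep t) 1 : ℤ) =
      -lam n := by
  have hc : n.Coprime 15 := Nat.Coprime.coprime_dvd_right (by norm_num) hA.2
  have e1 := gross hF hc (empty_subset _) (Or.inl rfl)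
  have e2 := gross hF hc (empty_subset _) (Or.inr rfl)
  simp only [gJ, XJ, prod_empty, one_mul, Rn_one, Rn_two] at e1 e2
  have e := modular_side_triv hA Good.h4 h15
  rw [← class_number_formula n] at e
  have e' : (2 * (1 + jacobiSym 2 n) * (Fintype.card (ClassGroup (OO n)) : ℤ) + 2 * CFsum n ∅ 2) -
      3 * (2 * (Fintype.card (ClassGroup (OO n)) : ℤ) + 2 * CFsum n ∅ 1) = -lam n := by
    exact_mod_cast e
  rw [e1, e2]
  linear_combination e'

/-- a bilinear sum with a two-valued kernel -/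
theorem sum_kernel {G : Type*} [Fintype G] (χ t : G → ℤ) (r : G → G → ℤ) (a b c : ℤ)
    (h : ∀ x y, r x y = a * ((1 - t x) * (1 - t y)) + b * (t x * (1 - t y) + (1 - t x) * t y) +
      c * (t x * t y)) :
    ∑ x, ∑ y, χ x * χ y * r x y =
      a * (∑ x, χ x - ∑ x, χ x * t x) ^ 2 +
      2 * b * ((∑ x, χ x * t x) * (∑ x, χ x - ∑ x, χ x * t x)) + c * (∑ x, χ x * t x) ^ 2 := by
  have e : ∑ x, χ x - ∑ x, χ x * t x = ∑ x, χ x * (1 - t x) := by
    rw [← sum_sub_distrib]; exact sum_congr rfl fun x _ => by ring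
  have e2 : 2 * b * ((∑ x, χ x * t x) * ∑ x, χ x * (1 - t x)) =
      b * ((∑ x, χ x * t x) * ∑ x, χ x * (1 - t x)) +
        b * ((∑ x, χ x * (1 - t x)) * ∑ x, χ x * t x) := by ring
  rw [e, e2, sq, sq, sum_mul_sum, sum_mul_sum, sum_mul_sum, sum_mul_sum]
  simp only [mul_sum, ← sum_add_distrib, h]
  exact sum_congr rfl fun x _ => sum_congr rfl fun y _ => by ring

end Pool.Agent.P.MP_8b7eba_nt.BSD15
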