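import Pool.Agent.P.MP_8b7eba_nt.BSD15.QOrder

/-! Coordinates for the three quaternion orders of discriminant 15: finite computations. -/

namespace Pool.Agent.P.MP_8b7eba_nt.BSD15

namespace QN

abbrev V : Type := ℤ × ℤ × ℤ × ℤ

structure Pm where
  a : ℤ
  b : ℤ
  c : ℤ
  u : ℤ
  v : ℤ
  w : ℤ

def pA : Pm := ⟨1, 1, 4, 1, 0, 0⟩
def pB : Pm := ⟨1, 2, 2, 1, 0, 0⟩
def pC : Pm := ⟨1, 1, 5, 0, 0, 1⟩

def qmul (p : Pm) (x y : V) : V :=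
  (x.1 * y.1 - p.b * p.c * x.2.1 * y.2.1 - p.a * p.c * x.2.2.1 * y.2.2.1
      - p.a * p.b * x.2.2.2 * y.2.2.2 + p.a * p.u * x.2.2.1 * y.2.2.2
      + p.b * p.v * x.2.2.2 * y.2.1 + p.c * p.w * x.2.1 * y.2.2.1
      - p.u * p.v * x.2.2.1 * y.2.1 - p.v * p.w * x.2.2.2 * y.2.2.1
      - p.u * p.w * x.2.1 * y.2.2.2,
    x.1 * y.2.1 + x.2.1 * y.1 + p.u * x.2.1 * y.2.1 - p.a * x.2.2.1 * y.2.2.2
      + p.v * x.2.2.1 * y.2.1 + p.a * x.2.2.2 * y.2.2.1 + p.w * x.2.1 * y.2.2.2,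
    x.1 * y.2.2.1 + x.2.2.1 * y.1 + p.v * x.2.2.1 * y.2.2.1 - p.b * x.2.2.2 * y.2.1
      + p.u * x.2.2.1 * y.2.1 + p.w * x.2.2.2 * y.2.2.1 + p.b * x.2.1 * y.2.2.2,
    x.1 * y.2.2.2 + x.2.2.2 * y.1 + p.w * x.2.2.2 * y.2.2.2 - p.c * x.2.1 * y.2.2.1
      + p.c * x.2.2.1 * y.2.1 + p.v * x.2.2.2 * y.2.2.1 + p.u * x.2.1 * y.2.2.2)

def qtr (p : Pm) (x : V) : ℤ := 2 * x.1 + p.u * x.2.1 + p.v * x.2.2.1 + p.w * x.2.2.2

def qstar (p : Pm) (x : V) : V := (qtr p x - x.1, -x.2.1, -x.2.2.1, -x.2.2.2)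

def qN (p : Pm) (x : V) : ℤ :=
  x.1 * x.1 + p.u * x.1 * x.2.1 + p.v * x.1 * x.2.2.1 + p.w * x.1 * x.2.2.2
    + p.b * p.c * x.2.1 * x.2.1 + p.a * p.c * x.2.2.1 * x.2.2.1 + p.a * p.b * x.2.2.2 * x.2.2.2
    + (p.u * p.v - p.c * p.w) * x.2.1 * x.2.2.1 + (p.u * p.w - p.b * p.v) * x.2.1 * x.2.2.2
    + (p.v * p.w - p.a * p.u) * x.2.2.1 * x.2.2.2

lemma qmul_qstar (p : Pm) (x : V) : qmul p x (qstar p x) = (qN p x, 0, 0, 0) := by
  simp only [qmul, qstar, qN, qtr, Prod.mk.injEq]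
  refine ⟨by ring, by ring, by ring, by ring⟩

def Std (p : Pm) : Prop := p = pA ∨ p = pB ∨ p = pC

def red (x : V) : V := (x.1 % 2, x.2.1 % 2, x.2.2.1 % 2, x.2.2.2 % 2)
def half (x : V) : V := (x.1 / 2, x.2.1 / 2, x.2.2.1 / 2, x.2.2.2 / 2)
def dbl (x : V) : V := (2 * x.1, 2 * x.2.1, 2 * x.2.2.1, 2 * x.2.2.2)

lemma red_add_dbl (x : V) : red x + dbl (half x) = x := by
  obtain ⟨a, b, c, d⟩ := x
  simp only [red, dbl, half, Prod.mk_add_mk, Prod.mk.injEq]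
  omega

lemma add_dbl_neg (x : V) : x + dbl (-half x) = red x := by
  obtain ⟨a, b, c, d⟩ := x
  simp only [red, dbl, half, Prod.mk_add_mk, Prod.mk.injEq, Prod.neg_mk]
  omega

lemma red_red (x : V) : red (red x) = red x := by
  obtain ⟨a, b, c, d⟩ := x
  simp only [red, Prod.mk.injEq]
  omega

lemma red_dbl (x : V) : red (dbl x) = (0, 0, 0, 0) := by
  obtain ⟨a, b, c, d⟩ := x
  simp only [red, dbl, Prod.mk.injEq]
  omega

lemma half_dbl (x : V) : half (dbl x) = x := by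
  obtain ⟨a, b, c, d⟩ := x
  simp only [half, dbl, Prod.mk.injEq]
  omega

def cube (l : List ℤ) : List V := l ×ˢ (l ×ˢ (l ×ˢ l))

def bin : List V := cube [0, 1]
def box : List V := cube [-3, -2, -1, 0, 1, 2, 3]

lemma mem_cube {l : List ℤ} {x : V} :
    x ∈ cube l ↔ x.1 ∈ l ∧ x.2.1 ∈ l ∧ x.2.2.1 ∈ l ∧ x.2.2.2 ∈ l := by
  obtain ⟨a, b, c, d⟩ := x
  simp only [cube, List.mem_product]

lemma red_mem (x : V) : red x ∈ bin := by
  obtain ⟨a, b, c, d⟩ := x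
  simp only [bin, mem_cube, red, List.mem_cons, List.not_mem_nil, or_false]
  omega

lemma sq_bound {x : ℤ} (h : 3 * (x * x) ≤ 35) : x ∈ ([-3, -2, -1, 0, 1, 2, 3] : List ℤ) := by
  have h1 : x ≤ 3 := by nlinarith
  have h2 : -3 ≤ x := by nlinarith
  simp only [List.mem_cons, List.not_mem_nil, or_false]
  omega

lemma mem_box {p : Pm} (hp : Std p) {x : V} (h : qN p x ≤ 8) : x ∈ box := by
  obtain ⟨a, b, c, d⟩ := x
  rw [box, mem_cube]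
  rcases hp with rfl | rfl | rfl
  · simp only [qN, pA] at h
    refine ⟨sq_bound ?_, sq_bound ?_, sq_bound ?_, sq_bound ?_⟩ <;> simp only
    · nlinarith [sq_nonneg (a + 8 * b), sq_nonneg (c - 2 * d), sq_nonneg c, sq_nonneg a]
    · nlinarith [sq_nonneg (2 * a + b), sq_nonneg (c - 2 * d), sq_nonneg c, sq_nonneg b]
    · nlinarith [sq_nonneg (2 * a + b), sq_nonneg (c - 2 * d), sq_nonneg c, sq_nonneg b]
    · nlinarith [sq_nonneg (2 * a + b), sq_nonneg (8 * c - d), sq_nonneg d, sq_nonneg b]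
  · simp only [qN, pB] at h
    refine ⟨sq_bound ?_, sq_bound ?_, sq_bound ?_, sq_bound ?_⟩ <;> simp only
    · nlinarith [sq_nonneg (a + 8 * b), sq_nonneg (c - d), sq_nonneg c, sq_nonneg d, sq_nonneg a]
    · nlinarith [sq_nonneg (2 * a + b), sq_nonneg (c - d), sq_nonneg c, sq_nonneg d, sq_nonneg b]
    · nlinarith [sq_nonneg (2 * a + b), sq_nonneg (c - d), sq_nonneg c, sq_nonneg d, sq_nonneg b]
    · nlinarith [sq_nonneg (2 * a + b), sq_nonneg (c - d), sq_nonneg c, sq_nonneg d, sq_nonneg b]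
  · simp only [qN, pC] at h
    refine ⟨sq_bound ?_, sq_bound ?_, sq_bound ?_, sq_bound ?_⟩ <;> simp only
    · nlinarith [sq_nonneg (a + 2 * d), sq_nonneg (b - c), sq_nonneg b, sq_nonneg c]
    · nlinarith [sq_nonneg (a + 2 * d), sq_nonneg (b - c), sq_nonneg b, sq_nonneg c, sq_nonneg a]
    · nlinarith [sq_nonneg (a + 2 * d), sq_nonneg (b - c), sq_nonneg b, sq_nonneg c, sq_nonneg a]
    · nlinarith [sq_nonneg (2 * a + d), sq_nonneg (b - c), sq_nonneg b, sq_nonneg c]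

def sA : List V := [
  (-2, 0, -1, -1), (-2, 0, -1, 0), (-2, 0, 0, -2), (-2, 0, 0, 0), (-2, 0, 0, 2),
  (-2, 0, 1, 0), (-2, 0, 1, 1), (-1, 0, 0, -1), (-1, 0, 0, 0), (-1, 0, 0, 1),
  (-1, 1, -1, -1), (-1, 1, -1, 0), (-1, 1, 0, -2), (-1, 1, 0, 0), (-1, 1, 0, 2),
  (-1, 1, 1, 0), (-1, 1, 1, 1), (0, -1, -1, -1), (0, -1, -1, 0), (0, -1, 0, -2),
  (0, -1, 0, 0), (0, -1, 0, 2), (0, -1, 1, 0), (0, -1, 1, 1), (0, 0, -1, -1),
  (0, 0, -1, 0), (0, 0, 0, -2), (0, 0, 0, -1), (0, 0, 0, 0), (0, 0, 0, 1),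
  (0, 0, 0, 2), (0, 0, 1, 0), (0, 0, 1, 1), (0, 1, -1, -1), (0, 1, -1, 0),
  (0, 1, 0, -2), (0, 1, 0, 0), (0, 1, 0, 2), (0, 1, 1, 0), (0, 1, 1, 1),
  (1, -1, -1, -1), (1, -1, -1, 0), (1, -1, 0, -2), (1, -1, 0, 0), (1, -1, 0, 2),
  (1, -1, 1, 0), (1, -1, 1, 1), (1, 0, 0, -1), (1, 0, 0, 0), (1, 0, 0, 1),
  (2, 0, -1, -1), (2, 0, -1, 0), (2, 0, 0, -2), (2, 0, 0, 0), (2, 0, 0, 2),
  (2, 0, 1, 0), (2, 0, 1, 1)]

def sB : List V := [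
  (-2, 0, 0, 0), (-2, 1, -1, 0), (-2, 1, 0, -1), (-2, 1, 0, 1), (-2, 1, 1, 0),
  (-1, -1, -1, 0), (-1, -1, 0, -1), (-1, -1, 0, 1), (-1, -1, 1, 0), (-1, 0, -1, -1),
  (-1, 0, 0, 0), (-1, 0, 1, 1), (-1, 1, 0, 0), (0, -1, 0, 0), (0, 0, -2, -1),
  (0, 0, -2, 0), (0, 0, -1, -2), (0, 0, -1, 0), (0, 0, 0, -2), (0, 0, 0, -1),
  (0, 0, 0, 0), (0, 0, 0, 1), (0, 0, 0, 2), (0, 0, 1, 0), (0, 0, 1, 2),
  (0, 0, 2, 0), (0, 0, 2, 1), (0, 1, 0, 0), (1, -1, 0, 0), (1, 0, -1, -1),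
  (1, 0, 0, 0), (1, 0, 1, 1), (1, 1, -1, 0), (1, 1, 0, -1), (1, 1, 0, 1),
  (1, 1, 1, 0), (2, -1, -1, 0), (2, -1, 0, -1), (2, -1, 0, 1), (2, -1, 1, 0),
  (2, 0, 0, 0)]

def sC : List V := [
  (-2, -1, -1, 1), (-2, -1, 0, 1), (-2, 0, -1, 1), (-2, 0, 0, 0), (-2, 0, 0, 2),
  (-2, 0, 1, 1), (-2, 1, 0, 1), (-2, 1, 1, 1), (-1, -1, -1, -1), (-1, -1, -1, 2),
  (-1, -1, 0, -1), (-1, -1, 0, 2), (-1, 0, -1, -1), (-1, 0, -1, 2), (-1, 0, 0, 0),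
  (-1, 0, 0, 1), (-1, 0, 1, -1), (-1, 0, 1, 2), (-1, 1, 0, -1), (-1, 1, 0, 2),
  (-1, 1, 1, -1), (-1, 1, 1, 2), (0, 0, 0, -2), (0, 0, 0, -1), (0, 0, 0, 0),
  (0, 0, 0, 1), (0, 0, 0, 2), (1, -1, -1, -2), (1, -1, -1, 1), (1, -1, 0, -2),
  (1, -1, 0, 1), (1, 0, -1, -2), (1, 0, -1, 1), (1, 0, 0, -1), (1, 0, 0, 0),
  (1, 0, 1, -2), (1, 0, 1, 1), (1, 1, 0, -2), (1, 1, 0, 1), (1, 1, 1, -2),
  (1, 1, 1, 1), (2, -1, -1, -1), (2, -1, 0, -1), (2, 0, -1, -1), (2, 0, 0, -2),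
  (2, 0, 0, 0), (2, 0, 1, -1), (2, 1, 0, -1), (2, 1, 1, -1)]

/-- the list `l` contains the elements of norm 0, 1, 2, 4, 8 -/
def Sm (p : Pm) (l : List V) : Prop :=
  l.Nodup ∧ ∀ x, qN p x ∈ ([0, 1, 2, 4, 8] : List ℤ) → x ∈ l

lemma sm_of {p : Pm} (hp : Std p) {l : List V} (h1 : l.Nodup)
    (h2 : ∀ x ∈ box, qN p x ∈ ([0, 1, 2, 4, 8] : List ℤ) → x ∈ l) : Sm p l := by
  refine ⟨h1, fun x hx => h2 x (mem_box hp ?_) hx⟩
  simp only [List.mem_cons, List.not_mem_nil, or_false] at hx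
  omega

lemma stdA : Std pA := Or.inl rfl
lemma stdB : Std pB := Or.inr (Or.inl rfl)
lemma stdC : Std pC := Or.inr (Or.inr rfl)

lemma smA : Sm pA sA := sm_of stdA (by decide +kernel) (by decide +kernel)
lemma smB : Sm pB sB := sm_of stdB (by decide +kernel) (by decide +kernel)
lemma smC : Sm pC sC := sm_of stdC (by decide +kernel) (by decide +kernel)

lemma qN_zero {p : Pm} (hp : Std p) {x : V} (h : qN p x = 0) : x = 0 := by
  rcases hp with rfl | rfl | rfl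
  · exact (by decide +kernel : ∀ x ∈ sA, qN pA x = 0 → x = (0, 0, 0, 0)) x
      (smA.2 x (by simp [h])) h
  · exact (by decide +kernel : ∀ x ∈ sB, qN pB x = 0 → x = (0, 0, 0, 0)) x
      (smB.2 x (by simp [h])) h
  · exact (by decide +kernel : ∀ x ∈ sC, qN pC x = 0 → x = (0, 0, 0, 0)) x
      (smC.2 x (by simp [h])) h

lemma ncard_box {p : Pm} {l : List V} (hp : Sm p l) (Q : V → Prop) [DecidablePred Q] {c : ℤ}
    (hc : c ∈ ([0, 1, 2, 4, 8] : List ℤ)) :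
    {y | Q y ∧ qN p y = c}.ncard = (l.filter fun y => decide (Q y ∧ qN p y = c)).length := by
  rw [← List.toFinset_card_of_nodup (hp.1.filter _), ← Set.ncard_coe_finset]
  congr 1
  ext y
  simp only [Set.mem_ofPred_eq, List.coe_toFinset, List.mem_filter, decide_eq_true_eq]
  exact ⟨fun h => ⟨hp.2 y (h.2 ▸ hc), h⟩, fun h => h.2⟩

def iA1 : List V := [(0, 0, 0, 0), (0, 0, 1, 1), (1, 1, 0, 0), (1, 1, 1, 1)]
def iA2 : List V := [(0, 0, 0, 0), (0, 1, 1, 1), (1, 0, 0, 1), (1, 1, 1, 0)]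
def iA3 : List V := [(0, 0, 0, 0), (0, 0, 1, 0), (0, 1, 0, 0), (0, 1, 1, 0)]
def iB1 : List V := [(0, 0, 0, 0), (0, 1, 0, 1), (1, 0, 1, 1), (1, 1, 1, 0)]
def iB2 : List V := [(0, 0, 0, 0), (0, 0, 0, 1), (1, 1, 0, 0), (1, 1, 0, 1)]
def iB3 : List V := [(0, 0, 0, 0), (0, 0, 1, 0), (0, 1, 0, 0), (0, 1, 1, 0)]
def iC1 : List V := [(0, 0, 0, 0), (0, 1, 1, 1), (1, 0, 1, 0), (1, 1, 0, 1)]
def iC2 : List V := [(0, 0, 0, 0), (0, 0, 1, 1), (1, 1, 0, 0), (1, 1, 1, 1)]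
def iC3 : List V := [(0, 0, 0, 0), (0, 1, 0, 1), (1, 0, 1, 1), (1, 1, 1, 0)]

/-- a left ideal above `2 O` with even norms, different from `2 O` -/
structure Idl (p : Pm) (J : V → Prop) : Prop where
  add : ∀ x y, J x → J y → J (x + y)
  two : ∀ x, J (dbl x)
  mul : ∀ x y, J y → J (qmul p x y)
  even : ∀ x, J x → qN p x % 2 = 0
  ne : ∃ g, J g ∧ red g ≠ (0, 0, 0, 0)

lemma Idl.red_iff {p : Pm} {J : V → Prop} (h : Idl p J) (x : V) : J (red x) ↔ J x := by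
  constructor
  · intro hx
    rw [← red_add_dbl x]
    exact h.add _ _ hx (h.two _)
  · intro hx
    rw [← add_dbl_neg x]
    exact h.add _ _ hx (h.two _)

lemma Idl.cls {p : Pm} {J : V → Prop} (h : Idl p J) (Is : List (List V))
    (d1 : ∀ g ∈ bin, g ≠ (0, 0, 0, 0) → qN p g % 2 = 0 →
      ∃ I ∈ Is, ∀ k ∈ I, ∃ y ∈ bin, red (qmul p y g) = k)
    (d2 : ∀ I ∈ Is, ∀ k ∈ bin, k ∉ I → ∃ g ∈ I, qN p (g + k) % 2 ≠ 0) :
    ∃ I ∈ Is, ∀ y, J y ↔ red y ∈ I := by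
  obtain ⟨g, hg, hne⟩ := h.ne
  have hg' := (h.red_iff g).2 hg
  obtain ⟨I, hI, hk⟩ := d1 _ (red_mem g) hne (h.even _ hg')
  have hsub : ∀ k ∈ I, J k := by
    intro k hkI
    obtain ⟨y, -, hy⟩ := hk k hkI
    rw [← hy, h.red_iff]
    exact h.mul _ _ hg'
  refine ⟨I, hI, fun y => ⟨fun hy => ?_, fun hy => (h.red_iff y).1 (hsub _ hy)⟩⟩
  by_contra hn
  obtain ⟨g', hg'I, hodd⟩ := d2 I hI _ (red_mem y) hn
  exact hodd (h.even _ (h.add _ _ (hsub _ hg'I) ((h.red_iff y).2 hy)))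

lemma Idl.clsA {J : V → Prop} (h : Idl pA J) : ∃ I ∈ [iA1, iA2, iA3], ∀ y, J y ↔ red y ∈ I :=
  h.cls _ (by decide +kernel) (by decide +kernel)

lemma Idl.clsB {J : V → Prop} (h : Idl pB J) : ∃ I ∈ [iB1, iB2, iB3], ∀ y, J y ↔ red y ∈ I :=
  h.cls _ (by decide +kernel) (by decide +kernel)

lemma Idl.clsC {J : V → Prop} (h : Idl pC J) : ∃ I ∈ [iC1, iC2, iC3], ∀ y, J y ↔ red y ∈ I :=
  h.cls _ (by decide +kernel) (by decide +kernel)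

/-- number of elements of norm `c` -/
noncomputable def cnt (p : Pm) (J : V → Prop) (c : ℤ) : ℕ := {y | J y ∧ qN p y = c}.ncard

lemma cntA1 : cnt pA (fun _ => True) 1 = 4 := by
  rw [cnt, ncard_box smA _ (by simp)]; decide +kernel
lemma cntA2 : cnt pA (fun _ => True) 2 = 4 := by
  rw [cnt, ncard_box smA _ (by simp)]; decide +kernel
lemma cntB1 : cnt pB (fun _ => True) 1 = 2 := by
  rw [cnt, ncard_box smB _ (by simp)]; decide +kernel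
lemma cntB2 : cnt pB (fun _ => True) 2 = 4 := by
  rw [cnt, ncard_box smB _ (by simp)]; decide +kernel
lemma cntC1 : cnt pC (fun _ => True) 1 = 6 := by
  rw [cnt, ncard_box smC _ (by simp)]; decide +kernel
lemma cntC2 : cnt pC (fun _ => True) 2 = 0 := by
  rw [cnt, ncard_box smC _ (by simp)]; decide +kernel

lemma cnt_congr {p : Pm} {J : V → Prop} {I : List V} (h : ∀ y, J y ↔ red y ∈ I) (c : ℤ) :
    cnt p J c = cnt p (fun y => red y ∈ I) c := by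
  have : J = fun y => red y ∈ I := funext fun y => propext (h y)
  rw [this]

def gens : List V := bin ++ [(2, 0, 0, 0), (0, 2, 0, 0), (0, 0, 2, 0), (0, 0, 0, 2)]

/-- `y / 2` lies in the right order of `J` -/
def Rgt (p : Pm) (J : V → Prop) (y : V) : Prop := ∀ g, J g → ∃ g', J g' ∧ qmul p g y = dbl g'

lemma rgt_no {p : Pm} {l : List V} (hp : Sm p l) {J : V → Prop} {I : List V} (h : ∀ y, J y ↔ red y ∈ I)
    {c t : ℤ} (hc : c ∈ ([0, 1, 2, 4, 8] : List ℤ))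
    (d : ∀ y ∈ l, qN p y = c → qtr p y = t → red y ∈ I →
      ∃ g ∈ gens, red g ∈ I ∧ ¬ (red (qmul p g y) = (0, 0, 0, 0) ∧ red (half (qmul p g y)) ∈ I))
    {y : V} (hy : J y) (hN : qN p y = c) (ht : qtr p y = t) : ¬ Rgt p J y := by
  intro hr
  obtain ⟨g, -, hg, hn⟩ := d y (hp.2 y (hN ▸ hc)) hN ht ((h y).1 hy)
  obtain ⟨g', hg', he⟩ := hr g ((h g).2 hg)
  rw [he, red_dbl, half_dbl] at hn
  exact hn ⟨rfl, (h g').1 hg'⟩

lemma idlB {J : V → Prop} (h : Idl pB J) (h1 : ∀ y, J y → qN pB y ≠ 2) :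
    cnt pB J 4 = 6 ∧ ∀ y, J y → qN pB y = 8 → qtr pB y = 0 → ¬ Rgt pB J y := by
  obtain ⟨I, hI, hJ⟩ := h.clsB
  simp only [List.mem_cons, List.not_mem_nil, or_false] at hI
  rcases hI with rfl | rfl | rfl
  · refine ⟨?_, fun y hy hN ht => rgt_no smB hJ (by simp) (by decide +kernel) hy hN ht⟩
    rw [cnt_congr hJ, cnt, ncard_box smB _ (by simp)]; decide +kernel
  · exact absurd (by decide) (h1 (0, 0, 0, 1) ((hJ _).2 (by decide)))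
  · exact absurd (by decide) (h1 (0, 0, 1, 0) ((hJ _).2 (by decide)))

lemma idlC {J : V → Prop} (h : Idl pC J) :
    cnt pC J 4 = 6 ∧ ∀ y, J y → qN pC y = 4 → qtr pC y = 2 → ¬ Rgt pC J y := by
  obtain ⟨I, hI, hJ⟩ := h.clsC
  simp only [List.mem_cons, List.not_mem_nil, or_false] at hI
  rcases hI with rfl | rfl | rfl
  all_goals
    refine ⟨?_, fun y hy hN ht => rgt_no smC hJ (by simp) (by decide +kernel) hy hN ht⟩
    rw [cnt_congr hJ, cnt, ncard_box smC _ (by simp)]; decide +kernel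

lemma idlA {J : V → Prop} (h : Idl pA J) (h1 : ∀ y, J y → qN pA y ≠ 2) :
    cnt pA J 4 = 8 ∧ ((∀ y, J y ↔ red y ∈ iA1) ∨ (∀ y, J y ↔ red y ∈ iA3)) := by
  obtain ⟨I, hI, hJ⟩ := h.clsA
  simp only [List.mem_cons, List.not_mem_nil, or_false] at hI
  rcases hI with rfl | rfl | rfl
  · refine ⟨?_, Or.inl hJ⟩
    rw [cnt_congr hJ, cnt, ncard_box smA _ (by simp)]; decide +kernel
  · exact absurd (by decide) (h1 (1, 0, 0, 1) ((hJ _).2 (by decide)))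
  · refine ⟨?_, Or.inr hJ⟩
    rw [cnt_congr hJ, cnt, ncard_box smA _ (by simp)]; decide +kernel

lemma pairA {J J' : V → Prop} (h : (∀ y, J y ↔ red y ∈ iA1) ∨ (∀ y, J y ↔ red y ∈ iA3))
    (h' : (∀ y, J' y ↔ red y ∈ iA1) ∨ (∀ y, J' y ↔ red y ∈ iA3)) :
    ∃ y₁ y₂ z₁ z₂, J y₁ ∧ J y₂ ∧ J' z₁ ∧ J' z₂ ∧
      qN pA (qmul pA (qstar pA y₁) z₁ + qmul pA (qstar pA y₂) z₂) = 4 := by
  rcases h with h | h <;> rcases h' with h' | h' <;> simp only [h, h']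
  · exact ⟨(1, 1, 0, 0), (2, 0, 0, 0), (1, 1, 0, 0), (-2, 0, 0, 0), by decide⟩
  · exact ⟨(1, 1, 0, 0), (2, 0, 0, 0), qmul pA (1, 1, 0, 0) (0, 0, 0, 1), (0, 0, 0, -2), by decide⟩
  · exact ⟨qmul pA (1, 1, 0, 0) (0, 0, 0, 1), (0, 0, 0, -2), (1, 1, 0, 0), (2, 0, 0, 0), by decide⟩
  · exact ⟨qmul pA (1, 1, 0, 0) (0, 0, 0, 1), (2, 0, 0, 0), qmul pA (1, 1, 0, 0) (0, 0, 0, 1),
      (-2, 0, 0, 0), by decide⟩

lemma discA {x : V} {k : ℤ} (ht : qtr pA x = 1) (hN : qN pA x = k) : (4 * k - 1) % 3 ≠ 2 := by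
  obtain ⟨a, b, c, d⟩ := x
  simp only [qtr, qN, pA] at ht hN
  have hb : b = 1 - 2 * a := by omega
  have e : 4 * k - 1 = (c - 2 * d) * (c - 2 * d) + 3 * (5 * b * b + 5 * c * c) := by
    rw [← hN, hb]; ring
  rw [e, Int.add_mul_emod_self_left]
  generalize c - 2 * d = m
  have : m % 3 = 0 ∨ m % 3 = 1 ∨ m % 3 = 2 := by omega
  rcases this with h | h | h <;> simp [Int.mul_emod, h]

lemma discB {x : V} {k : ℤ} (ht : qtr pB x = 1) (hN : qN pB x = k) :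
    ¬ ((4 * k - 1) % 5 = 1 ∨ (4 * k - 1) % 5 = 4) := by
  obtain ⟨a, b, c, d⟩ := x
  simp only [qtr, qN, pB] at ht hN
  have hb : b = 1 - 2 * a := by omega
  have e : 4 * k - 1 = 3 * ((c + d) * (c + d)) + 5 * (3 * b * b + (c - d) * (c - d)) := by
    rw [← hN, hb]; ring
  rw [e, Int.add_mul_emod_self_left]
  generalize c + d = m
  have : m % 5 = 0 ∨ m % 5 = 1 ∨ m % 5 = 2 ∨ m % 5 = 3 ∨ m % 5 = 4 := by omega
  rcases this with h | h | h | h | h <;> simp [Int.mul_emod, h]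

lemma discC {x : V} {k : ℤ} (ht : qtr pC x = 1) (hN : qN pC x = k) :
    ¬ ((4 * k - 1) % 5 = 1 ∨ (4 * k - 1) % 5 = 4) := by
  obtain ⟨a, b, c, d⟩ := x
  simp only [qtr, qN, pC] at ht hN
  have hb : d = 1 - 2 * a := by omega
  have e : 4 * k - 1 = 3 * (d * d) + 5 * (4 * b * b + 4 * c * c - 4 * b * c) := by
    rw [← hN, hb]; ring
  rw [e, Int.add_mul_emod_self_left]
  have : d % 5 = 0 ∨ d % 5 = 1 ∨ d % 5 = 2 ∨ d % 5 = 3 ∨ d % 5 = 4 := by omega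
  rcases this with h | h | h | h | h <;> simp [Int.mul_emod, h]

lemma specialB {x v : V} (ht : qtr pB x = 1) (hv : qtr pB v = 0) (hN : qN pB v = 15)
    (ho : qN pB (x + v) = qN pB x + qN pB v) : False := by
  obtain ⟨a, b, c, d⟩ := x
  obtain ⟨a', b', c', d'⟩ := v
  simp only [qtr, qN, pB, Prod.mk_add_mk] at ht hv hN ho
  have hb : b' = -2 * a' := by omega
  subst hb
  have e : 15 * (a' * a') + (2 * (c' * c') - c' * d' + 2 * (d' * d')) = 15 := by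
    linarith
  have h1 : c' ≤ 2 := by nlinarith [sq_nonneg a', sq_nonneg (c' - 4 * d')]
  have h2 : -2 ≤ c' := by nlinarith [sq_nonneg a', sq_nonneg (c' - 4 * d')]
  have h3 : d' ≤ 2 := by nlinarith [sq_nonneg a', sq_nonneg (4 * c' - d')]
  have h4 : -2 ≤ d' := by nlinarith [sq_nonneg a', sq_nonneg (4 * c' - d')]
  have h5 : a' ≤ 1 := by nlinarith [sq_nonneg (c' - d'), sq_nonneg c', sq_nonneg d']
  have h6 : -1 ≤ a' := by nlinarith [sq_nonneg (c' - d'), sq_nonneg c', sq_nonneg d']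
  have ho' : -15 * b * a' + (4 * c * c' - c * d' - d * c' + 4 * d * d') = 0 := by
    linarith
  interval_cases a' <;> interval_cases c' <;> interval_cases d' <;> omega

end QN

end Pool.Agent.P.MP_8b7eba_nt.BSD15
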