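import Pool.Agent.P.MP_8b7eba_nt.BSD15.Defs

/-! Auxiliary lemmas for the classification of quaternion orders of discriminant 15. -/

namespace Pool.Agent.P.MP_8b7eba_nt.BSD15

open scoped Quaternion
open Matrix

/-- completing a primitive integer vector to a generating family of four vectors -/
theorem qorder_complete (n m : Fin 4 → ℤ) (h : ∑ i, n i * m i = 1) :
    ∃ f : Fin 3 → Fin 4 → ℤ, ∀ v : Fin 4 → ℤ, ∃ (a : ℤ) (c : Fin 3 → ℤ),
      v = a • n + ∑ t, c t • f t := by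
  let φ : (Fin 4 → ℤ) →ₗ[ℤ] ℤ :=
    { toFun := fun v => ∑ i, v i * m i
      map_add' := fun x y => by simp [add_mul, Finset.sum_add_distrib]
      map_smul' := fun r x => by simp [Finset.mul_sum, mul_assoc] }
  have hφ : ∀ v, φ v = ∑ i, v i * m i := fun v => rfl
  have hn : φ n = 1 := h
  have hsurj : Function.Surjective φ := fun z => ⟨z • n, by rw [map_smul, hn]; simp⟩
  have hq : Module.finrank ℤ ((Fin 4 → ℤ) ⧸ LinearMap.ker φ) = 1 := by
    rw [(φ.quotKerEquivOfSurjective hsurj).finrank_eq]; simp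
  have hk : Module.finrank ℤ (LinearMap.ker φ) = 3 := by
    have := Submodule.finrank_quotient_add_finrank (LinearMap.ker φ)
    rw [hq] at this
    simp at this
    omega
  let β := Module.finBasisOfFinrankEq ℤ (LinearMap.ker φ) hk
  refine ⟨fun t => (β t : Fin 4 → ℤ), fun v => ?_⟩
  have hv : v - φ v • n ∈ LinearMap.ker φ := by
    rw [LinearMap.mem_ker, map_sub, map_smul, hn]; simp
  refine ⟨φ v, fun t => β.repr ⟨_, hv⟩ t, ?_⟩
  have h1 := congrArg (fun x : LinearMap.ker φ => (x : Fin 4 → ℤ)) (β.sum_repr ⟨_, hv⟩)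
  simp only [Submodule.coe_sum, Submodule.coe_smul] at h1
  rw [h1]; abel

variable {c₁ c₃ : ℚ}

theorem qorder_mem {x a b c : ℍ[ℚ,c₁,c₃]} :
    x ∈ Submodule.span ℤ ({1, a, b, c} : Set ℍ[ℚ,c₁,c₃]) ↔
      ∃ n₀ n₁ n₂ n₃ : ℤ, x = n₀ • (1 : ℍ[ℚ,c₁,c₃]) + n₁ • a + n₂ • b + n₃ • c := by
  simp only [Submodule.mem_span_insert, Submodule.mem_span_singleton]
  constructor
  · rintro ⟨n₀, _, ⟨n₁, _, ⟨n₂, _, ⟨n₃, rfl⟩, rfl⟩, rfl⟩, rfl⟩
    exact ⟨n₀, n₁, n₂, n₃, by abel⟩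
  · rintro ⟨n₀, n₁, n₂, n₃, rfl⟩
    exact ⟨n₀, _, ⟨n₁, _, ⟨n₂, _, ⟨n₃, rfl⟩, rfl⟩, rfl⟩, by abel⟩

theorem qorder_span_le {a b c : ℍ[ℚ,c₁,c₃]} {O : Submodule ℤ ℍ[ℚ,c₁,c₃]}
    (h1 : (1 : ℍ[ℚ,c₁,c₃]) ∈ O) (ha : a ∈ O) (hb : b ∈ O) (hc : c ∈ O) :
    Submodule.span ℤ ({1, a, b, c} : Set ℍ[ℚ,c₁,c₃]) ≤ O := by
  rw [Submodule.span_le]
  intro x hx
  simp only [Set.mem_insert_iff, Set.mem_singleton_iff] at hx
  rcases hx with rfl | rfl | rfl | rfl <;> assumption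

/-- coordinates of four quaternions -/
def qorderN (b : Fin 4 → ℍ[ℚ,c₁,c₃]) : Matrix (Fin 4) (Fin 4) ℚ :=
  Matrix.of fun i => ![(b i).re, (b i).imI, (b i).imJ, (b i).imK]

/-- coordinates of the pure parts of three quaternions -/
def qorderM (e : Fin 3 → ℍ[ℚ,c₁,c₃]) : Matrix (Fin 3) (Fin 3) ℚ :=
  Matrix.of fun i => ![(e i).imI, (e i).imJ, (e i).imK]

/-- the norm form on pure quaternions, times four -/
def qorderD (c₁ c₃ : ℚ) : Matrix (Fin 3) (Fin 3) ℚ :=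
  Matrix.diagonal ![-4 * c₁, -4 * c₃, 4 * c₁ * c₃]

/-- Gram matrix of the doubled pure parts -/
def qorderG (e : Fin 3 → ℍ[ℚ,c₁,c₃]) : Matrix (Fin 3) (Fin 3) ℚ :=
  qorderM e * qorderD c₁ c₃ * (qorderM e)ᵀ

/-- the triple product of the doubled pure parts -/
def qorderT (e : Fin 3 → ℍ[ℚ,c₁,c₃]) : ℚ := 8 * c₁ * c₃ * (qorderM e).det

theorem qorder_G_apply (e : Fin 3 → ℍ[ℚ,c₁,c₃]) (i j : Fin 3) :
    qorderG e i j = -4 * c₁ * (e i).imI * (e j).imI - 4 * c₃ * (e i).imJ * (e j).imJ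
      + 4 * c₁ * c₃ * (e i).imK * (e j).imK := by
  simp [qorderG, qorderM, qorderD, Matrix.mul_apply, Fin.sum_univ_three, Matrix.diagonal]
  ring

theorem qorder_T_eq (e : Fin 3 → ℍ[ℚ,c₁,c₃]) :
    qorderT e = 8 * c₁ * c₃ * ((e 0).imI * (e 1).imJ * (e 2).imK - (e 0).imI * (e 1).imK * (e 2).imJ
      - (e 0).imJ * (e 1).imI * (e 2).imK + (e 0).imJ * (e 1).imK * (e 2).imI
      + (e 0).imK * (e 1).imI * (e 2).imJ - (e 0).imK * (e 1).imJ * (e 2).imI) := by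
  simp [qorderT, qorderM, Matrix.det_fin_three]

theorem qorder_det_G (e : Fin 3 → ℍ[ℚ,c₁,c₃]) : (qorderG e).det = qorderT e ^ 2 := by
  rw [qorderG, det_mul, det_mul, det_transpose, qorderD, det_diagonal, qorderT]
  simp [Fin.prod_univ_three]
  ring

theorem qorder_gram (b : Fin 4 → ℍ[ℚ,c₁,c₃]) :
    (Matrix.of fun i j => 2 * (b i * star (b j)).re).det
      = 16 * c₁ ^ 2 * c₃ ^ 2 * (qorderN b).det ^ 2 := by
  have : (Matrix.of fun i j => 2 * (b i * star (b j)).re)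
      = qorderN b * Matrix.diagonal ![2, -2 * c₁, -2 * c₃, 2 * c₁ * c₃] * (qorderN b)ᵀ := by
    ext i j
    simp [qorderN, Matrix.mul_apply, Fin.sum_univ_four, Matrix.diagonal]
    ring
  rw [this, det_mul, det_mul, det_transpose, det_diagonal]
  simp [Fin.prod_univ_four]
  ring

theorem qorder_N_change (b b' : Fin 4 → ℍ[ℚ,c₁,c₃]) (P : Matrix (Fin 4) (Fin 4) ℤ)
    (h : ∀ i, b' i = ∑ j, P i j • b j) :
    (qorderN b').det = (P.det : ℚ) * (qorderN b).det := by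
  have : qorderN b' = P.map (Int.castRingHom ℚ) * qorderN b := by
    ext i j
    rw [Matrix.mul_apply]
    fin_cases j <;> simp [qorderN, h i, Fin.sum_univ_four]
  rw [this, det_mul]
  congr 1
  exact ((Int.castRingHom ℚ).map_det P).symm

theorem qorder_N_one (e : Fin 3 → ℍ[ℚ,c₁,c₃]) :
    (qorderN ![1, e 0, e 1, e 2]).det = (qorderM e).det := by
  rw [Matrix.det_succ_row_zero]
  simp [qorderN, qorderM, Fin.sum_univ_four, Matrix.det_fin_three, Matrix.submatrix_apply,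
    Fin.succAbove]

/-- a basis starting with `1` -/
theorem qorder_basis (O : Submodule ℤ ℍ[ℚ,c₁,c₃])
    (hone : (1 : ℍ[ℚ,c₁,c₃]) ∈ O) (hint : ∀ x ∈ O, ∃ m : ℤ, (x * star x).re = m)
    (hgram : ∃ b : Fin 4 → ℍ[ℚ,c₁,c₃], Submodule.span ℤ (Set.range b) = O ∧
      (Matrix.of fun i j => 2 * (b i * star (b j)).re).det = 225) :
    ∃ e : Fin 3 → ℍ[ℚ,c₁,c₃], O = Submodule.span ℤ {1, e 0, e 1, e 2} ∧ qorderT e ^ 2 = 900 := by
  obtain ⟨b, hb, hdet⟩ := hgram
  have hmem : ∀ x, x ∈ O ↔ ∃ v : Fin 4 → ℤ, ∑ i, v i • b i = x := by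
    intro x; rw [← hb, Submodule.mem_span_range_iff_exists_fun]
  obtain ⟨n, hn⟩ := (hmem 1).1 hone
  obtain ⟨m, hm⟩ := Finset.gcd_eq_sum_mul Finset.univ n
  set d := Finset.univ.gcd n with hd
  have hdv : ∀ i, d ∣ n i := fun i => Finset.gcd_dvd (Finset.mem_univ i)
  choose n' hn' using hdv
  have hx : ∑ i, n' i • b i ∈ O := (hmem _).2 ⟨n', rfl⟩
  have hdx : d • ∑ i, n' i • b i = 1 := by
    rw [← hn, Finset.smul_sum]
    refine Finset.sum_congr rfl fun i _ => ?_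
    rw [smul_smul, ← hn' i]
  obtain ⟨k, hk⟩ := hint _ hx
  have hdk : d * (d * k) = 1 := by
    generalize ∑ i, n' i • b i = x at hdx hk
    have h0 := congrArg QuaternionAlgebra.re hdx
    have h1 := congrArg QuaternionAlgebra.imI hdx
    have h2 := congrArg QuaternionAlgebra.imJ hdx
    have h3 := congrArg QuaternionAlgebra.imK hdx
    simp at h0 h1 h2 h3 hk
    have hd0 : d ≠ 0 := by
      rintro h; rw [h] at h0; simp at h0
    have h1 := h1.resolve_left hd0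
    have h2 := h2.resolve_left hd0
    have h3 := h3.resolve_left hd0
    rw [h1, h2, h3] at hk
    have : ((d * (d * k) : ℤ) : ℚ) = 1 := by
      push_cast
      linear_combination (d * x.re + 1) * h0 - d * d * hk
    exact_mod_cast this
  have hm1 : ∑ i, n i * (m i * (d * k)) = 1 := by
    rw [← hdk]
    conv_rhs => rw [hm, Finset.sum_mul]
    refine Finset.sum_congr rfl fun i _ => ?_
    rw [← hm]; ring
  obtain ⟨f, hf⟩ := qorder_complete n _ hm1
  let e : Fin 3 → ℍ[ℚ,c₁,c₃] := fun t => ∑ i, f t i • b i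
  have he : ∀ t, e t ∈ O := fun t => (hmem _).2 ⟨f t, rfl⟩
  have key : ∀ v : Fin 4 → ℤ, ∃ (a : ℤ) (c : Fin 3 → ℤ),
      ∑ i, v i • b i = a • (1 : ℍ[ℚ,c₁,c₃]) + c 0 • e 0 + c 1 • e 1 + c 2 • e 2 := by
    intro v
    obtain ⟨a, c, hv⟩ := hf v
    refine ⟨a, c, ?_⟩
    rw [← hn, hv]
    simp only [e, Fin.sum_univ_four, Fin.sum_univ_three, Pi.add_apply, Pi.smul_apply, smul_eq_mul]
    module
  refine ⟨e, ?_, ?_⟩
  · apply le_antisymm
    · intro x hx
      obtain ⟨v, rfl⟩ := (hmem x).1 hx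
      obtain ⟨a, c, h⟩ := key v
      exact qorder_mem.2 ⟨a, c 0, c 1, c 2, h⟩
    · exact qorder_span_le hone (he 0) (he 1) (he 2)
  · have h1 := qorder_N_change b ![1, e 0, e 1, e 2] (Matrix.of ![n, f 0, f 1, f 2]) (by
      intro i
      fin_cases i
      · simpa using hn.symm
      all_goals simp [e])
    have h2 : ∀ i, ∃ w : Fin 4 → ℤ, b i = ∑ j, w j • (![1, e 0, e 1, e 2] : Fin 4 → _) j := by
      intro i
      obtain ⟨a, c, h⟩ := key (Pi.single i 1)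
      refine ⟨![a, c 0, c 1, c 2], ?_⟩
      have : ∑ j, (Pi.single i 1 : Fin 4 → ℤ) j • b j = b i := by
        rw [Finset.sum_eq_single i] <;> simp +contextual
      rw [← this, h]
      simp [Fin.sum_univ_four]
    choose Q hQ using h2
    have h3 := qorder_N_change ![1, e 0, e 1, e 2] b (Matrix.of Q) hQ
    rw [qorder_gram] at hdet
    rw [qorder_N_one] at h1 h3
    set p := (Matrix.of ![n, f 0, f 1, f 2]).det
    set q := (Matrix.of Q).det
    have hN : (qorderN b).det ≠ 0 := by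
      intro h; rw [h] at hdet; norm_num at hdet
    have hpq : q * p = 1 := by
      have : ((q * p : ℤ) : ℚ) = 1 := by
        push_cast
        apply mul_right_cancel₀ hN
        rw [mul_assoc, ← h1, ← h3, one_mul]
      exact_mod_cast this
    have hp : (p : ℚ) ^ 2 = 1 := by
      rcases Int.eq_one_or_neg_one_of_mul_eq_one' hpq with h | h <;> simp [h.2]
    rw [qorderT, h1]
    linear_combination 4 * hdet + 64 * c₁ ^ 2 * c₃ ^ 2 * (qorderN b).det ^ 2 * hp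

end Pool.Agent.P.MP_8b7eba_nt.BSD15
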