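import Pool.Agent.P.MP_8b7eba_nt.BSD15.Hermite
import Pool.Agent.P.MP_8b7eba_nt.BSD15.QOrderA

/-! Definite quaternion orders of reduced discriminant 15. -/

namespace Pool.Agent.P.MP_8b7eba_nt.BSD15

open scoped Quaternion
open Matrix

section aux

variable {c₁ c₃ : ℚ}

theorem qorder_trace {O : Submodule ℤ ℍ[ℚ,c₁,c₃]} (hone : (1 : ℍ[ℚ,c₁,c₃]) ∈ O)
    (hint : ∀ x ∈ O, ∃ m : ℤ, (x * star x).re = m) {x : ℍ[ℚ,c₁,c₃]} (hx : x ∈ O) :
    ∃ t : ℤ, 2 * x.re = t := by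
  obtain ⟨m, hm⟩ := hint x hx
  obtain ⟨k, hk⟩ := hint (x + 1) (O.add_mem hx hone)
  refine ⟨k - m - 1, ?_⟩
  simp at hm hk
  push_cast
  linear_combination hk - hm

theorem qorder_shift (x y z : ℍ[ℚ,c₁,c₃]) (l m n : ℤ) :
    Submodule.span ℤ ({1, x, y, z} : Set ℍ[ℚ,c₁,c₃]) =
      Submodule.span ℤ {1, x - l • (1 : ℍ[ℚ,c₁,c₃]), y - m • (1 : ℍ[ℚ,c₁,c₃]),
        z - n • (1 : ℍ[ℚ,c₁,c₃])} := by
  apply le_antisymm
  · apply qorder_span_le
    · exact qorder_mem.2 ⟨1, 0, 0, 0, by module⟩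
    · exact qorder_mem.2 ⟨l, 1, 0, 0, by module⟩
    · exact qorder_mem.2 ⟨m, 0, 1, 0, by module⟩
    · exact qorder_mem.2 ⟨n, 0, 0, 1, by module⟩
  · apply qorder_span_le
    · exact qorder_mem.2 ⟨1, 0, 0, 0, by module⟩
    · exact qorder_mem.2 ⟨-l, 1, 0, 0, by module⟩
    · exact qorder_mem.2 ⟨-m, 0, 1, 0, by module⟩
    · exact qorder_mem.2 ⟨-n, 0, 0, 1, by module⟩

/-- the ternary form attached to a basis of an order -/
theorem qorder_struct (O : Submodule ℤ ℍ[ℚ,c₁,c₃]) (e : Fin 3 → ℍ[ℚ,c₁,c₃])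
    (hO : O = Submodule.span ℤ {1, e 0, e 1, e 2}) (hmul : ∀ x ∈ O, ∀ y ∈ O, x * y ∈ O)
    (hint : ∀ x ∈ O, ∃ m : ℤ, (x * star x).re = m) :
    ∃ A : Matrix (Fin 3) (Fin 3) ℤ, (∀ i, Even (A i i)) ∧
      A.map (Int.castRingHom ℚ) * qorderG e = (-qorderT e) • (1 : Matrix (Fin 3) (Fin 3) ℚ) ∧
      ∀ a b c u v w : ℤ, A = !![2 * a, w, v; w, 2 * b, u; v, u, 2 * c] →
        qorderG e = (A.map (Int.castRingHom ℚ)).adjugate →
        ∃ i j k : ℍ[ℚ,c₁,c₃], O = Submodule.span ℤ {1, i, j, k} ∧ StdRel a b c u v w i j k := by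
  have hone : (1 : ℍ[ℚ,c₁,c₃]) ∈ O := hO ▸ qorder_mem.2 ⟨1, 0, 0, 0, by module⟩
  have he0 : e 0 ∈ O := hO ▸ qorder_mem.2 ⟨0, 1, 0, 0, by module⟩
  have he1 : e 1 ∈ O := hO ▸ qorder_mem.2 ⟨0, 0, 1, 0, by module⟩
  have he2 : e 2 ∈ O := hO ▸ qorder_mem.2 ⟨0, 0, 0, 1, by module⟩
  obtain ⟨T0, hT0⟩ := qorder_trace hone hint he0
  obtain ⟨T1, hT1⟩ := qorder_trace hone hint he1
  obtain ⟨T2, hT2⟩ := qorder_trace hone hint he2
  obtain ⟨p0, p1, p2, p3, hp⟩ := qorder_mem.1 (hO ▸ hmul _ he1 _ he2)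
  obtain ⟨q0, q1, q2, q3, hq⟩ := qorder_mem.1 (hO ▸ hmul _ he2 _ he0)
  obtain ⟨r0, r1, r2, r3, hr⟩ := qorder_mem.1 (hO ▸ hmul _ he0 _ he1)
  have hpI := congrArg QuaternionAlgebra.imI hp
  have hpJ := congrArg QuaternionAlgebra.imJ hp
  have hpK := congrArg QuaternionAlgebra.imK hp
  have hqI := congrArg QuaternionAlgebra.imI hq
  have hqJ := congrArg QuaternionAlgebra.imJ hq
  have hqK := congrArg QuaternionAlgebra.imK hq
  have hrI := congrArg QuaternionAlgebra.imI hr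
  have hrJ := congrArg QuaternionAlgebra.imJ hr
  have hrK := congrArg QuaternionAlgebra.imK hr
  have h0 : (e 0).re = T0 / 2 := by linarith
  have h1 : (e 1).re = T1 / 2 := by linarith
  have h2 : (e 2).re = T2 / 2 := by linarith
  simp [h0, h1, h2] at hpI hpJ hpK hqI hqJ hqK hrI hrJ hrK
  refine ⟨!![-2 * p1, T2 - 2 * p2, T1 - 2 * p3; T2 - 2 * q1, -2 * q2, T0 - 2 * q3;
    T1 - 2 * r1, T0 - 2 * r2, -2 * r3], ?_, ?_, ?_⟩
  · intro i
    fin_cases i <;> simp
  · ext i j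
    rw [Matrix.mul_apply, Fin.sum_univ_three, qorder_G_apply, qorder_G_apply, qorder_G_apply,
      qorder_T_eq]
    fin_cases i <;> fin_cases j <;> simp
    · linear_combination (-8 * c₁ * (e 0).imI) * hpI + (-8 * c₃ * (e 0).imJ) * hpJ
        + (8 * c₁ * c₃ * (e 0).imK) * hpK
    · linear_combination (-8 * c₁ * (e 1).imI) * hpI + (-8 * c₃ * (e 1).imJ) * hpJ
        + (8 * c₁ * c₃ * (e 1).imK) * hpK
    · linear_combination (-8 * c₁ * (e 2).imI) * hpI + (-8 * c₃ * (e 2).imJ) * hpJ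
        + (8 * c₁ * c₃ * (e 2).imK) * hpK
    · linear_combination (-8 * c₁ * (e 0).imI) * hqI + (-8 * c₃ * (e 0).imJ) * hqJ
        + (8 * c₁ * c₃ * (e 0).imK) * hqK
    · linear_combination (-8 * c₁ * (e 1).imI) * hqI + (-8 * c₃ * (e 1).imJ) * hqJ
        + (8 * c₁ * c₃ * (e 1).imK) * hqK
    · linear_combination (-8 * c₁ * (e 2).imI) * hqI + (-8 * c₃ * (e 2).imJ) * hqJ
        + (8 * c₁ * c₃ * (e 2).imK) * hqK
    · linear_combination (-8 * c₁ * (e 0).imI) * hrI + (-8 * c₃ * (e 0).imJ) * hrJ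
        + (8 * c₁ * c₃ * (e 0).imK) * hrK
    · linear_combination (-8 * c₁ * (e 1).imI) * hrI + (-8 * c₃ * (e 1).imJ) * hrJ
        + (8 * c₁ * c₃ * (e 1).imK) * hrK
    · linear_combination (-8 * c₁ * (e 2).imI) * hrI + (-8 * c₃ * (e 2).imJ) * hrJ
        + (8 * c₁ * c₃ * (e 2).imK) * hrK
  · intro a b c u v w hA hG
    rw [hA] at hG
    have e00 := congrFun (congrFun hA 0) 0
    have e01 := congrFun (congrFun hA 0) 1
    have e02 := congrFun (congrFun hA 0) 2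
    have e10 := congrFun (congrFun hA 1) 0
    have e11 := congrFun (congrFun hA 1) 1
    have e12 := congrFun (congrFun hA 1) 2
    have e20 := congrFun (congrFun hA 2) 0
    have e21 := congrFun (congrFun hA 2) 1
    have e22 := congrFun (congrFun hA 2) 2
    simp at e00 e01 e02 e10 e11 e12 e20 e21 e22
    obtain rfl : p1 = -a := by omega
    obtain rfl : q2 = -b := by omega
    obtain rfl : r3 = -c := by omega
    obtain rfl : q1 = p2 := by omega
    obtain rfl : r1 = p3 := by omega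
    obtain rfl : r2 = q3 := by omega
    obtain rfl : T0 = u + 2 * r2 := by omega
    obtain rfl : T1 = v + 2 * r1 := by omega
    obtain rfl : T2 = w + 2 * q1 := by omega
    have g00 := congrFun (congrFun hG 0) 0
    have g11 := congrFun (congrFun hG 1) 1
    have g22 := congrFun (congrFun hG 2) 2
    have g12 := congrFun (congrFun hG 1) 2
    have g20 := congrFun (congrFun hG 2) 0
    have g01 := congrFun (congrFun hG 0) 1
    rw [qorder_G_apply, Matrix.adjugate_fin_three] at g00 g11 g22 g12 g20 g01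
    simp at g00 g11 g22 g12 g20 g01
    push_cast at h0 h1 h2 hpI hpJ hpK hqI hqJ hqK hrI hrJ hrK
    refine ⟨e 0 - r2 • 1, e 1 - r1 • 1, e 2 - q1 • 1, hO.trans (qorder_shift _ _ _ _ _ _), ?_⟩
    constructor
    · simp [h0]; ring
    · simp [h1]; ring
    · simp [h2]; ring
    · ext <;> simp [h0]
      · linear_combination (-1 / 4) * g00
      all_goals ring
    · ext <;> simp [h1]
      · linear_combination (-1 / 4) * g11
      all_goals ring
    · ext <;> simp [h2]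
      · linear_combination (-1 / 4) * g22
      all_goals ring
    · ext <;> simp [h0, h1, h2]
      · linear_combination (-1 / 4) * g12
      · linear_combination hpI
      · linear_combination hpJ
      · linear_combination hpK
    · ext <;> simp [h0, h1, h2]
      · linear_combination (-1 / 4) * g20
      · linear_combination hqI
      · linear_combination hqJ
      · linear_combination hqK
    · ext <;> simp [h0, h1, h2]
      · linear_combination (-1 / 4) * g01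
      · linear_combination hrI
      · linear_combination hrJ
      · linear_combination hrK

/-- base change of the three non-trivial generators -/
theorem qorder_change (e : Fin 3 → ℍ[ℚ,c₁,c₃]) (P Q : Matrix (Fin 3) (Fin 3) ℤ) (h : Q * P = 1) :
    ∃ e' : Fin 3 → ℍ[ℚ,c₁,c₃],
      Submodule.span ℤ ({1, e 0, e 1, e 2} : Set ℍ[ℚ,c₁,c₃]) =
        Submodule.span ℤ {1, e' 0, e' 1, e' 2} ∧
      qorderG e' = P.map (Int.castRingHom ℚ) * qorderG e * (P.map (Int.castRingHom ℚ))ᵀ ∧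
      qorderT e' = (P.det : ℚ) * qorderT e := by
  let e' : Fin 3 → ℍ[ℚ,c₁,c₃] := fun i => P i 0 • e 0 + P i 1 • e 1 + P i 2 • e 2
  have hM : qorderM e' = P.map (Int.castRingHom ℚ) * qorderM e := by
    ext i j
    rw [Matrix.mul_apply]
    fin_cases j <;> simp [qorderM, e', Fin.sum_univ_three]
  have hback : ∀ i, e i = Q i 0 • e' 0 + Q i 1 • e' 1 + Q i 2 • e' 2 := by
    intro i
    have k0 := congrFun (congrFun h i) 0
    have k1 := congrFun (congrFun h i) 1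
    have k2 := congrFun (congrFun h i) 2
    rw [Matrix.mul_apply, Fin.sum_univ_three] at k0 k1 k2
    have : Q i 0 • e' 0 + Q i 1 • e' 1 + Q i 2 • e' 2 =
        (1 : Matrix (Fin 3) (Fin 3) ℤ) i 0 • e 0 + (1 : Matrix (Fin 3) (Fin 3) ℤ) i 1 • e 1
          + (1 : Matrix (Fin 3) (Fin 3) ℤ) i 2 • e 2 := by
      rw [← k0, ← k1, ← k2]
      simp only [e']
      module
    rw [this]
    fin_cases i <;> simp [Matrix.one_apply]
  refine ⟨e', ?_, ?_, ?_⟩
  · apply le_antisymm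
    · apply qorder_span_le
      · exact qorder_mem.2 ⟨1, 0, 0, 0, by module⟩
      · exact qorder_mem.2 ⟨0, Q 0 0, Q 0 1, Q 0 2, by rw [hback 0]; module⟩
      · exact qorder_mem.2 ⟨0, Q 1 0, Q 1 1, Q 1 2, by rw [hback 1]; module⟩
      · exact qorder_mem.2 ⟨0, Q 2 0, Q 2 1, Q 2 2, by rw [hback 2]; module⟩
    · apply qorder_span_le
      · exact qorder_mem.2 ⟨1, 0, 0, 0, by module⟩
      · exact qorder_mem.2 ⟨0, P 0 0, P 0 1, P 0 2, by simp only [e']; module⟩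
      · exact qorder_mem.2 ⟨0, P 1 0, P 1 1, P 1 2, by simp only [e']; module⟩
      · exact qorder_mem.2 ⟨0, P 2 0, P 2 1, P 2 2, by simp only [e']; module⟩
  · rw [qorderG, qorderG, hM, transpose_mul]
    simp only [Matrix.mul_assoc]
  · rw [qorderT, qorderT, hM, det_mul]
    have : (P.map (Int.castRingHom ℚ)).det = (P.det : ℚ) := ((Int.castRingHom ℚ).map_det P).symm
    rw [this]; ring

theorem qorder_G_symm (e : Fin 3 → ℍ[ℚ,c₁,c₃]) : (qorderG e)ᵀ = qorderG e := by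
  ext i j
  rw [transpose_apply, qorder_G_apply, qorder_G_apply]; ring

theorem qorder_G_pos (h₁ : c₁ < 0) (h₃ : c₃ < 0) (e : Fin 3 → ℍ[ℚ,c₁,c₃]) (w : Fin 3 → ℚ)
    (hw : qorderG e *ᵥ w ≠ 0) : 0 < w ⬝ᵥ (qorderG e *ᵥ w) := by
  set y := (qorderM e)ᵀ *ᵥ w with hy
  have h : qorderG e *ᵥ w = qorderM e *ᵥ (qorderD c₁ c₃ *ᵥ y) := by
    rw [qorderG, hy, mulVec_mulVec, mulVec_mulVec]
  have h2 : w ⬝ᵥ (qorderG e *ᵥ w) = -4 * c₁ * y 0 ^ 2 - 4 * c₃ * y 1 ^ 2 + 4 * c₁ * c₃ * y 2 ^ 2 := by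
    rw [h, dotProduct_mulVec, ← mulVec_transpose, ← hy]
    simp [qorderD, dotProduct, mulVec_diagonal, Fin.sum_univ_three]
    ring
  have h13 : 0 < c₁ * c₃ := mul_pos_of_neg_of_neg h₁ h₃
  have a0 : 0 ≤ -c₁ * y 0 ^ 2 := mul_nonneg (by linarith) (sq_nonneg _)
  have a1 : 0 ≤ -c₃ * y 1 ^ 2 := mul_nonneg (by linarith) (sq_nonneg _)
  have a2 : 0 ≤ c₁ * c₃ * y 2 ^ 2 := mul_nonneg h13.le (sq_nonneg _)
  rw [h2]
  by_contra hcon
  apply hw
  have b0 : -c₁ * y 0 ^ 2 = 0 := by linarith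
  have b1 : -c₃ * y 1 ^ 2 = 0 := by linarith
  have b2 : c₁ * c₃ * y 2 ^ 2 = 0 := by linarith
  have d0 : y 0 = 0 := by simpa [h₁.ne] using b0
  have d1 : y 1 = 0 := by simpa [h₃.ne] using b1
  have d2 : y 2 = 0 := by simpa [h₁.ne, h₃.ne] using b2
  have : y = 0 := by
    ext i; fin_cases i <;> simp [d0, d1, d2]
  rw [h, this]; simp

end aux

theorem order_class {c₁ c₃ : ℚ} (h₁ : c₁ < 0) (h₃ : c₃ < 0) (O : Submodule ℤ ℍ[ℚ,c₁,c₃])
    (hone : (1 : ℍ[ℚ,c₁,c₃]) ∈ O) (hmul : ∀ x ∈ O, ∀ y ∈ O, x * y ∈ O)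
    (hstar : ∀ x ∈ O, star x ∈ O) (hint : ∀ x ∈ O, ∃ m : ℤ, (x * star x).re = m)
    (hgram : ∃ b : Fin 4 → ℍ[ℚ,c₁,c₃], Submodule.span ℤ (Set.range b) = O ∧
      (Matrix.of fun i j => 2 * (b i * star (b j)).re).det = 225) :
    ∃ i j k : ℍ[ℚ,c₁,c₃], O = Submodule.span ℤ {1, i, j, k} ∧
      (StdRel 1 1 4 1 0 0 i j k ∨ StdRel 1 2 2 1 0 0 i j k ∨ StdRel 1 1 5 0 0 1 i j k) := by
  have _ := hstar
  obtain ⟨e, hO, hT⟩ : ∃ e : Fin 3 → ℍ[ℚ,c₁,c₃],
      O = Submodule.span ℤ {1, e 0, e 1, e 2} ∧ qorderT e = -30 := by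
    obtain ⟨e, hO, hT⟩ := qorder_basis O hone hint hgram
    have : (qorderT e - 30) * (qorderT e + 30) = 0 := by linear_combination hT
    rcases mul_eq_zero.1 this with h | h
    · obtain ⟨e', h1, -, h3⟩ := qorder_change e (-1) (-1) (by simp)
      refine ⟨e', hO.trans h1, ?_⟩
      rw [h3, det_neg]
      simp
      linarith
    · exact ⟨e, hO, by linarith⟩
  obtain ⟨A, hev, hA, -⟩ := qorder_struct O e hO hmul hint
  rw [hT, neg_neg] at hA
  have hdG : (qorderG e).det = 900 := by rw [qorder_det_G, hT]; norm_num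
  set B := A.map (Int.castRingHom ℚ) with hB
  have hA' : qorderG e * Bᵀ = (30 : ℚ) • (1 : Matrix (Fin 3) (Fin 3) ℚ) := by
    have := congrArg transpose hA
    rwa [transpose_mul, qorder_G_symm, transpose_smul, transpose_one] at this
  have hBs : Bᵀ = B := by
    have h : B * qorderG e * Bᵀ = B * (qorderG e * Bᵀ) := Matrix.mul_assoc _ _ _
    rw [hA, hA'] at h
    simp only [Matrix.smul_mul, Matrix.mul_smul, Matrix.one_mul, Matrix.mul_one] at h
    exact smul_right_injective _ (by norm_num : (30 : ℚ) ≠ 0) h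
  have hs : A.IsSymm := by
    ext i j
    have := congrFun (congrFun hBs i) j
    simpa [hB] using this
  have hdet : A.det = 30 := by
    have h := congrArg det hA
    rw [det_mul, hdG, det_smul, det_one] at h
    have h' : B.det = (A.det : ℚ) := ((Int.castRingHom ℚ).map_det A).symm
    rw [h'] at h
    simp at h
    have : ((A.det : ℤ) : ℚ) = 30 := by linarith
    exact_mod_cast this
  have hpos : ∀ v : Fin 3 → ℤ, v ≠ 0 → 0 < v ⬝ᵥ (A *ᵥ v) := by
    intro v hv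
    let v' : Fin 3 → ℚ := fun i => (v i : ℚ)
    have h1 : qorderG e *ᵥ (Bᵀ *ᵥ v') = (30 : ℚ) • v' := by
      rw [mulVec_mulVec, hA', Matrix.smul_mulVec, one_mulVec]
    have h2 := qorder_G_pos h₁ h₃ e (Bᵀ *ᵥ v') (by
      rw [h1]
      intro h
      apply hv
      ext i
      have := congrFun h i
      simpa [v'] using this)
    rw [h1, hBs, dotProduct_smul, dotProduct_comm] at h2
    have h3 : v' ⬝ᵥ (B *ᵥ v') = ((v ⬝ᵥ (A *ᵥ v) : ℤ) : ℚ) := by
      simp [v', hB, dotProduct, mulVec]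
    rw [h3] at h2
    have : (0 : ℚ) < ((v ⬝ᵥ (A *ᵥ v) : ℤ) : ℚ) := by
      simpa using h2
    exact_mod_cast this
  obtain ⟨U, hU, hcl⟩ := ternary_class A hs hpos hev hdet
  have hUP : U * U.adjugate = 1 := by rw [mul_adjugate, hU, one_smul]
  obtain ⟨e', h1, h2, h3⟩ := qorder_change e U.adjugate U hUP
  have hO' := hO.trans h1
  rw [det_adjugate, hU, hT] at h3
  obtain ⟨A', -, hA1, hfin⟩ := qorder_struct O e' hO' hmul hint
  have hT' : qorderT e' = -30 := by rw [h3]; simp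
  rw [hT', neg_neg] at hA1
  have hdG' : (qorderG e').det = 900 := by rw [qorder_det_G, hT']; norm_num
  have hUP' : U.map (Int.castRingHom ℚ) * U.adjugate.map (Int.castRingHom ℚ) = 1 := by
    rw [← Matrix.map_mul, hUP]; simp
  have hPU' : U.adjugate.map (Int.castRingHom ℚ) * U.map (Int.castRingHom ℚ) = 1 :=
    mul_eq_one_comm.1 hUP'
  have hA2 : (Uᵀ * A * U).map (Int.castRingHom ℚ) * qorderG e'
      = (30 : ℚ) • (1 : Matrix (Fin 3) (Fin 3) ℚ) := by
    rw [Matrix.map_mul, Matrix.map_mul, h2, ← hB, transpose_map]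
    set V := U.map (Int.castRingHom ℚ)
    set W := U.adjugate.map (Int.castRingHom ℚ)
    calc Vᵀ * B * V * (W * qorderG e * Wᵀ) = Vᵀ * (B * ((V * W) * qorderG e)) * Wᵀ := by
          simp only [Matrix.mul_assoc]
      _ = (30 : ℚ) • (W * V)ᵀ := by
          rw [hUP', Matrix.one_mul, hA, transpose_mul]
          simp
      _ = _ := by rw [hPU', transpose_one]
  have hAA : A' = Uᵀ * A * U := by
    have hu : IsUnit (qorderG e').det := by rw [hdG']; norm_num
    have h := hA1.trans hA2.symm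
    have h' := congrArg (· * (qorderG e')⁻¹) h
    simp only [Matrix.mul_nonsing_inv_cancel_right _ _ hu] at h'
    exact Matrix.map_injective (Int.cast_injective (α := ℚ)) h'
  have hdA' : (A'.map (Int.castRingHom ℚ)).det = 30 := by
    have h := congrArg det hA1
    rw [det_mul, hdG', det_smul, det_one, Fintype.card_fin] at h
    linarith
  have hadj : qorderG e' = (A'.map (Int.castRingHom ℚ)).adjugate := by
    have h := congrArg ((A'.map (Int.castRingHom ℚ)).adjugate * ·) hA1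
    simp only [← Matrix.mul_assoc, adjugate_mul, hdA', Matrix.smul_mul, Matrix.mul_smul,
      Matrix.one_mul, Matrix.mul_one] at h
    exact smul_right_injective _ (by norm_num : (30 : ℚ) ≠ 0) h
  rw [← hAA] at hcl
  rcases hcl with h | h | h
  · obtain ⟨i, j, k, hk, hr⟩ := hfin 1 1 4 1 0 0 (by rw [h]; norm_num) hadj
    exact ⟨i, j, k, hk, Or.inl hr⟩
  · obtain ⟨i, j, k, hk, hr⟩ := hfin 1 2 2 1 0 0 (by rw [h]; norm_num) hadj
    exact ⟨i, j, k, hk, Or.inr (Or.inl hr)⟩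
  · obtain ⟨i, j, k, hk, hr⟩ := hfin 1 1 5 0 0 1 (by rw [h]; norm_num) hadj
    exact ⟨i, j, k, hk, Or.inr (Or.inr hr)⟩

end Pool.Agent.P.MP_8b7eba_nt.BSD15
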