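import Pool.Agent.P.MP_8b7eba_nt.BSD15.Defs

/-! The ring of integers of Q(sqrt(-n)) for squarefree n congruent to 3 mod 4. -/

namespace Pool.Agent.P.MP_8b7eba_nt.BSD15

class Good (n : ℕ) : Prop where
  sq : Squarefree n
  h4 : n % 4 = 3
  gt : 3 < n

/-- the ring Z[(1 + sqrt(-n))/2] -/
abbrev OO (n : ℕ) := QuadraticAlgebra ℤ (-(((n + 1) / 4 : ℕ) : ℤ)) 1

theorem qring_four {n : ℕ} [h : Good n] : 4 * (((n + 1) / 4 : ℕ) : ℤ) = n + 1 := by
  have := h.h4
  omega

theorem four_mul_norm {n : ℕ} [Good n] (z : OO n) :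
    4 * z.norm = (2 * z.re + z.im) ^ 2 + n * z.im ^ 2 := by
  rw [QuadraticAlgebra.norm_def]
  linear_combination (z.im ^ 2) * qring_four (n := n)

/-- the field Q(sqrt(-n)) -/
abbrev qringK (n : ℕ) := QuadraticAlgebra ℚ (-(((n + 1) / 4 : ℕ) : ℚ)) 1

theorem qring_fourQ {n : ℕ} [Good n] : 4 * (((n + 1) / 4 : ℕ) : ℚ) = n + 1 := by
  exact_mod_cast qring_four (n := n)

instance qringFact (n : ℕ) [h : Good n] :
    Fact (∀ r : ℚ, r ^ 2 ≠ -(((n + 1) / 4 : ℕ) : ℚ) + 1 * r) := ⟨by
  intro r hr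
  have h1 := qring_fourQ (n := n)
  have h2 : (3 : ℚ) < n := by exact_mod_cast h.gt
  nlinarith [sq_nonneg (2 * r - 1)]⟩

instance qringNF (n : ℕ) [Good n] : NumberField (qringK n) where
  to_charZero := inferInstance
  to_finiteDimensional := by
    convert (inferInstance : Module.Finite ℚ (qringK n))

/-- the inclusion of the order in the field -/
def qringHom (n : ℕ) : OO n →+* qringK n where
  toFun z := ⟨z.re, z.im⟩
  map_one' := by ext <;> simp [QuadraticAlgebra.re_one, QuadraticAlgebra.im_one]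
  map_zero' := by ext <;> simp
  map_add' z w := by ext <;> simp
  map_mul' z w := by ext <;> simp [-Nat.cast_div, -Int.natCast_ediv]

theorem qringHom_inj (n : ℕ) : Function.Injective (qringHom n) := by
  intro z w h
  have h1 : (z.re : ℚ) = w.re := congrArg QuadraticAlgebra.re h
  have h2 : (z.im : ℚ) = w.im := congrArg QuadraticAlgebra.im h
  ext
  · exact_mod_cast h1
  · exact_mod_cast h2

instance instIsDomainOO (n : ℕ) [Good n] : IsDomain (OO n) :=
  (qringHom_inj n).isDomain (qringHom n)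

theorem qring_int {n : ℕ} (hn : Squarefree n) {y : ℚ} {m : ℤ} (h : n * y ^ 2 = m) :
    ∃ w : ℤ, y = w := by
  have h1 : (n : ℤ) * y.num ^ 2 = m * (y.den : ℤ) ^ 2 := by
    have h2 : (y.num : ℚ) = y * y.den := (Rat.mul_den_eq_num y).symm
    have : (n : ℚ) * (y.num : ℚ) ^ 2 = m * (y.den : ℚ) ^ 2 := by
      rw [h2, ← h]
      ring
    exact_mod_cast this
  have h3 : y.den ^ 2 ∣ n * y.num.natAbs ^ 2 := by
    have := congrArg Int.natAbs h1
    simp only [Int.natAbs_mul, Int.natAbs_pow, Int.natAbs_natCast] at this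
    exact ⟨m.natAbs, by rw [this, mul_comm]⟩
  have h4 : y.den ^ 2 ∣ n :=
    (Nat.Coprime.pow 2 2 y.reduced.symm).dvd_of_dvd_mul_right h3
  have h5 : y.den = 1 := Nat.isUnit_iff.1 (hn y.den (by rwa [← sq]))
  exact ⟨y.num, ((Rat.den_eq_one_iff y).1 h5).symm⟩

theorem qring_rat {n : ℕ} [Good n] {t : ℚ} {z : qringK n} (h : IsIntegral ℤ z)
    (hz : z = (t : qringK n)) : ∃ w : ℤ, (w : ℚ) = t := by
  have e : z = algebraMap ℚ (qringK n) t := by rw [hz, eq_ratCast]
  rw [e, isIntegral_algebraMap_iff (algebraMap ℚ (qringK n)).injective] at h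
  exact IsIntegrallyClosed.isIntegral_iff.1 h

theorem qring_integral {n : ℕ} [hn : Good n] {z : qringK n} (h : IsIntegral ℤ z) :
    ∃ w : OO n, qringHom n w = z := by
  have hs : IsIntegral ℤ (star z) := h.map (starRingEnd (qringK n)).toIntAlgHom
  obtain ⟨t, ht⟩ := qring_rat (t := QuadraticAlgebra.trace z) (h.add hs) (by
    rw [← QuadraticAlgebra.algebraMap_trace_eq_add_star, eq_ratCast])
  obtain ⟨N, hN⟩ := qring_rat (t := QuadraticAlgebra.norm z) (h.mul hs) (by
    rw [← QuadraticAlgebra.algebraMap_norm_eq_mul_star, eq_ratCast])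
  rw [QuadraticAlgebra.trace_def] at ht
  rw [QuadraticAlgebra.norm_def] at hN
  have h4 := qring_fourQ (n := n)
  have e1 : (n : ℚ) * z.im ^ 2 = ((4 * N - t ^ 2 : ℤ) : ℚ) := by
    push_cast
    rw [hN, ht]
    linear_combination (-z.im ^ 2) * h4
  obtain ⟨y, hy⟩ := qring_int hn.sq e1
  rw [hy] at e1
  have e2 : (n : ℤ) * y ^ 2 = 4 * N - t ^ 2 := by exact_mod_cast e1
  have e3 : (2 : ℤ) ∣ t - y := by
    have h5 := qring_four (n := n)
    have e4 : (t - y) * (t + y) = 2 * (2 * (N - (((n + 1) / 4 : ℕ) : ℤ) * y ^ 2)) := by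
      linear_combination e2 + (y ^ 2) * h5
    rcases Int.prime_two.dvd_or_dvd ⟨_, e4⟩ with h6 | h6 <;> omega
  obtain ⟨x, hx⟩ := e3
  refine ⟨⟨x, y⟩, ?_⟩
  have hx' : (t : ℚ) - y = 2 * x := by exact_mod_cast hx
  ext
  · change (x : ℚ) = z.re
    rw [hy] at ht
    linarith
  · exact hy.symm

theorem qring_equiv (n : ℕ) [Good n] :
    Nonempty (NumberField.RingOfIntegers (qringK n) ≃+* OO n) := by
  let : Algebra (OO n) (qringK n) := (qringHom n).toAlgebra
  have : IsIntegralClosure (OO n) ℤ (qringK n) :=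
    { algebraMap_injective := qringHom_inj n
      isIntegral_iff := fun {x} => ⟨qring_integral, by
        rintro ⟨w, rfl⟩
        have : IsIntegral ℤ w := by
          convert Algebra.IsIntegral.isIntegral (R := ℤ) w
        exact this.map (qringHom n).toIntAlgHom⟩ }
  exact ⟨NumberField.RingOfIntegers.equiv (OO n)⟩

instance instIsDedekindDomainOO (n : ℕ) [Good n] : IsDedekindDomain (OO n) := by
  obtain ⟨e⟩ := qring_equiv n
  have : IsNoetherianRing (OO n) := isNoetherianRing_of_ringEquiv _ e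
  have : Ring.DimensionLEOne (OO n) := Ring.DimensionLEOne.of_isIntegral ℤ (OO n)
  have : IsIntegrallyClosed (OO n) := IsIntegrallyClosed.of_equiv e
  exact {}

instance instFiniteClassGroupOO (n : ℕ) [Good n] : Finite (ClassGroup (OO n)) := by
  obtain ⟨e⟩ := qring_equiv n
  exact Finite.of_equiv _ (ClassGroup.mulEquiv e).toEquiv

theorem exists_ringEquiv (n : ℕ) [Good n] (K : Type) [Field K] [NumberField K]
    (hK : Module.finrank ℚ K = 2) (δ : K) (hδ : δ ^ 2 = -(n : K)) :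
    Nonempty (NumberField.RingOfIntegers K ≃+* OO n) := by
  obtain ⟨e⟩ := qring_equiv n
  have h4 : 4 * (((n + 1) / 4 : ℕ) : K) = n + 1 := by exact_mod_cast qring_four (n := n)
  have hu : (1 + δ) / 2 * ((1 + δ) / 2) =
      (-(((n + 1) / 4 : ℕ) : ℚ)) • (1 : K) + (1 : ℚ) • ((1 + δ) / 2) := by
    rw [one_smul, neg_smul, Nat.cast_smul_eq_nsmul, nsmul_eq_mul, mul_one]
    linear_combination (1 / 4 : K) * hδ + (1 / 4 : K) * h4
  let f : qringK n →ₐ[ℚ] K := QuadraticAlgebra.lift ⟨(1 + δ) / 2, hu⟩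
  have hi : Function.Injective f := f.toRingHom.injective
  have hb : Function.Bijective f :=
    ⟨hi, (LinearMap.injective_iff_surjective_of_finrank_eq_finrank (f := f.toLinearMap)
      (by rw [hK, QuadraticAlgebra.finrank_eq_two])).1 hi⟩
  exact ⟨(NumberField.RingOfIntegers.mapRingEquiv
    (RingEquiv.ofBijective f.toRingHom hb)).symm.trans e⟩

end Pool.Agent.P.MP_8b7eba_nt.BSD15
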