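import Pool.Agent.P.MP_8b7eba_nt.BSD15.Main

/-! The exact 2-adic valuation of the algebraic central value. -/

namespace Pool.Agent.P.MP_8b7eba_nt.BSD15

open Finset

theorem indG_all (lm : ℕ → ℤ) (S : ℕ → Prop)
    (h5 : ∀ n, B5 n → Iface5 lm n (S n)) (h3 : ∀ n, B3 n → Iface3 lm n)
    (hprime : ∀ l, l.Prime → B5 l → S l)
    (hvan : ∀ n, 1 < n → Adm n → jacobiSym (-15) n = -1 → lm n = 0) :
    ∀ k, ∀ m, Adm m → 1 < m → m.primeFactors.card = k → IndG lm m := by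
  intro k
  induction k using Nat.strong_induction_on with
  | _ k ih =>
    have ih' : ∀ m : ℕ, m.primeFactors.card = k → ∀ a, Adm a → 1 < a →
        a.primeFactors.card < m.primeFactors.card → IndG lm a :=
      fun m hm a a1 a2 a3 => ih _ (hm ▸ a3) a a1 a2 rfl
    have hneg : ∀ a, Adm a → a % 4 = 3 → a.primeFactors.card = k → IndG lm a :=
      fun a a1 a2 a3 => ⟨fun h => by omega, fun _ => ind_neg h5 h3 hvan a1 a2 (ih' a a3)⟩
    have hpos : ∀ a, Adm a → 1 < a → a % 4 = 1 → a % 3 = 1 → a.primeFactors.card = k →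
        IndG lm a := fun a a1 a2 a3 a4 a5 =>
      ⟨fun _ => ind_pos5 h5 hprime hvan a1 a2 a3 a4 (ih' a a5) (a5 ▸ hneg), fun h => by omega⟩
    intro m m1 m2 m3
    refine ⟨fun h4 => ?_, fun h4 => (hneg m m1 h4 m3).2 h4⟩
    have := (ind_mod m1).2.1
    rcases (show m % 3 = 1 ∨ m % 3 = 2 by omega) with h | h
    · exact (hpos m m1 m2 h4 h m3).1 h4
    · exact ind_pos3 h5 h3 hprime hvan m1 m2 h4 h (ih' m m3) (m3 ▸ hneg) (m3 ▸ hpos)

theorem indG_lam {m : ℕ} (h : Adm m) (hm : 1 < m) : IndG lam m :=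
  indG_all lam No4 (fun _ h => iface5 h) (fun _ h => iface3 h)
    (fun _ hl _ => no4_prime hl) (fun _ hn h h15 => lam_vanish hn h h15) _ m h hm rfl

theorem lam_nonneg5 {n : ℕ} (h : B5 n) : 0 ≤ lam n := by
  classical
  obtain ⟨hsq, h4, h3, h5⟩ := h
  have : Good n := ⟨hsq, h4, by omega⟩
  have hA : Adm n := adm_of hsq h4 (by omega) (by omega)
  have hc : n.Coprime 15 := Nat.Coprime.coprime_dvd_right (by norm_num) hA.2
  have h15 := jac15_of h4 (Or.inl ⟨h3, h5⟩)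
  obtain ⟨F, hF⟩ := exists_aux (jac_neg15_of h4 h15)
  let t : ClassGroup (OO n) → ℤ := fun g => if rr F (rep g) (rep g) 1 = 6 then 1 else 0
  have hr : ∀ x y, ((rr F (rep x) (rep y) 1 : ℤ) = 2 * ((1 - t x) * (1 - t y)) +
      0 * (t x * (1 - t y) + (1 - t x) * t y) + 6 * (t x * t y)) ∧
      ((rr F (rep x) (rep y) 2 : ℤ) = 4 * ((1 - t x) * (1 - t y)) +
      6 * (t x * (1 - t y) + (1 - t x) * t y) + 0 * (t x * t y)) := by
    intro x y
    obtain ⟨a, b, c⟩ := types5 hF hc h3 (rep_coprime x) (rep_coprime y)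
    obtain ⟨d, -⟩ := types5 hF hc h3 (rep_coprime y) (rep_coprime y)
    rw [b, c]
    rcases a with a | a <;> rcases d with d | d <;> simp [t, a, d]
  have e := gross_triv hF hA h15
  have e1 := sum_kernel (fun _ => 1) t _ _ _ _ fun x y => (hr x y).1
  have e2 := sum_kernel (fun _ => 1) t _ _ _ _ fun x y => (hr x y).2
  simp only [one_mul] at e1 e2
  rw [e1, e2] at e
  have : lam n = 2 * ((∑ _x : ClassGroup (OO n), (1 : ℤ)) - 4 * ∑ g, t g) ^ 2 := by
    linear_combination e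
  rw [this]; positivity

theorem lam_sharp {n : ℕ} (h : B5 n) (h4 : No4 n) :
    ∃ v : ℤ, Odd v ∧ lam n = 2 * (2 ^ (n.primeFactors.card - 1) * v) ^ 2 := by
  obtain ⟨v, hv, hv'⟩ := ind_neg5 h (iface5 h) fun m m1 m2 _ => indG_lam m1 m2
  exact ⟨v, hv' h4, by rw [← hv, abs_of_nonneg (lam_nonneg5 h)]⟩

theorem no4_of_classGroup (n : ℕ) (K : Type) [Field K] [NumberField K]
    (hK : Module.finrank ℚ K = 2) (δ : K) (hδ : δ ^ 2 = -(n : K))
    (hcl : ∀ c : ClassGroup (NumberField.RingOfIntegers K), c ^ 4 = 1 → c ^ 2 = 1) : No4 n := by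
  intro _ c hc
  obtain ⟨e⟩ := exists_ringEquiv n K hK δ hδ
  have h1 := hcl ((ClassGroup.mulEquiv e).symm c) (by rw [← map_pow, hc, map_one])
  rw [← map_pow] at h1
  exact (MulEquiv.map_eq_one_iff _).1 h1

end Pool.Agent.P.MP_8b7eba_nt.BSD15
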